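import Pool.Agent.Lib_helper58.MBS.Base
import Pool.Agent.Lib_helper82.BR.B.CHA

/-! # Minimal Brody sets, block FBLI: uniform constants for a locally bi-Lipschitz metric -/

set_option autoImplicit false
set_option linter.unusedSectionVars false
set_option linter.unusedVariables false

open Filter Topology Metric Set
open scoped Manifold ContDiff

namespace Pool.Agent.MBS

open Pool.Agent.BR

section metric

variable {E X : Type} [NormedAddCommGroup E] [NormedSpace ℂ E] [FiniteDimensional ℂ E]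

/-- an analytic map is locally Lipschitz -/
theorem fbli_lip {ψ : E → E} {ξ : E} (h : AnalyticAt ℂ ψ ξ) :
    ∃ K : ℝ, 0 ≤ K ∧ ∃ U ∈ 𝓝 ξ, ∀ a ∈ U, ∀ b ∈ U, ‖ψ a - ψ b‖ ≤ K * ‖a - b‖ := by
  have : CompleteSpace E := FiniteDimensional.complete ℂ E
  obtain ⟨K, U, hU, hK⟩ := (h.contDiffAt (n := 1)).exists_lipschitzOnWith
  refine ⟨K, K.2, U, hU, fun a ha b hb => ?_⟩
  have := hK.dist_le_mul a ha b hb
  rwa [dist_eq_norm, dist_eq_norm] at this

/-- the local statement at one point, for one chart -/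
theorem fbli_loc [MetricSpace X] [CompactSpace X] [ChartedSpace E X]
    [IsManifold 𝓘(ℂ, E) ω X] (h : LocLip E (X := X)) (y x : X)
    (hx : x ∈ (chartAt E y).source) :
    ∃ r > 0, ∃ L : ℝ, ball x r ⊆ (chartAt E y).source ∧
      ∀ p ∈ ball x r, ∀ q ∈ ball x r,
        ‖chartAt E y p - chartAt E y q‖ ≤ L * dist p q ∧
        dist p q ≤ L * ‖chartAt E y p - chartAt E y q‖ := by
  obtain ⟨V, hV, L, hVs, hL⟩ := h x
  set c := chartAt E x with hc
  set e := chartAt E y with he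
  have hxc : x ∈ c.source := mem_chart_source E x
  obtain ⟨K₁, hK₁, U₁, hU₁, h1⟩ := fbli_lip (cha_trans (E := E) (y := x) (y' := y) hxc hx)
  obtain ⟨K₂, hK₂, U₂, hU₂, h2⟩ := fbli_lip (cha_trans (E := E) (y := y) (y' := x) hx hxc)
  have hcc : ContinuousAt c x := c.continuousAt hxc
  have hec : ContinuousAt e x := e.continuousAt hx
  have hW : V ∩ (c ⁻¹' U₁) ∩ (e ⁻¹' U₂) ∩ e.source ∈ 𝓝 x :=
    inter_mem (inter_mem (inter_mem hV (hcc hU₁)) (hec hU₂)) (e.open_source.mem_nhds hx)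
  obtain ⟨r, hr, hrW⟩ := Metric.mem_nhds_iff.1 hW
  refine ⟨r, hr, max (K₁ * |L|) (|L| * K₂), fun p hp => (hrW hp).2, ?_⟩
  intro p hp q hq
  obtain ⟨⟨⟨hpV, hp1⟩, hp2⟩, hpe⟩ := hrW hp
  obtain ⟨⟨⟨hqV, hq1⟩, hq2⟩, hqe⟩ := hrW hq
  obtain ⟨h3, h4⟩ := hL p hpV q hqV
  have h3' : ‖c p - c q‖ ≤ |L| * dist p q :=
    h3.trans (mul_le_mul_of_nonneg_right (le_abs_self L) dist_nonneg)
  have h4' : dist p q ≤ |L| * ‖c p - c q‖ :=
    h4.trans (mul_le_mul_of_nonneg_right (le_abs_self L) (norm_nonneg _))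
  have h5 := h1 (c p) hp1 (c q) hq1
  have h6 := h2 (e p) hp2 (e q) hq2
  simp only [← hc, ← he] at h5 h6
  rw [c.left_inv (hVs hpV), c.left_inv (hVs hqV)] at h5
  rw [e.left_inv hpe, e.left_inv hqe] at h6
  constructor
  · calc ‖e p - e q‖ ≤ K₁ * ‖c p - c q‖ := h5
      _ ≤ K₁ * (|L| * dist p q) := mul_le_mul_of_nonneg_left h3' hK₁
      _ = (K₁ * |L|) * dist p q := by ring
      _ ≤ _ := mul_le_mul_of_nonneg_right (le_max_left _ _) dist_nonneg
  · calc dist p q ≤ |L| * ‖c p - c q‖ := h4'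
      _ ≤ |L| * (K₂ * ‖e p - e q‖) := mul_le_mul_of_nonneg_left h6 (abs_nonneg L)
      _ = (|L| * K₂) * ‖e p - e q‖ := by ring
      _ ≤ _ := mul_le_mul_of_nonneg_right (le_max_right _ _) (norm_nonneg _)

/-- one chart, uniformly on a compact subset of its source -/
theorem fbli_one [MetricSpace X] [CompactSpace X] [ChartedSpace E X]
    [IsManifold 𝓘(ℂ, E) ω X] (h : LocLip E (X := X)) (y : X) {S : Set X} (hS : IsCompact S)
    (hSs : S ⊆ (chartAt E y).source) :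
    ∃ r > 0, ∃ L : ℝ, ∀ x ∈ S, ball x r ⊆ (chartAt E y).source ∧
      ∀ p ∈ ball x r, ∀ q ∈ ball x r,
        ‖chartAt E y p - chartAt E y q‖ ≤ L * dist p q ∧
        dist p q ≤ L * ‖chartAt E y p - chartAt E y q‖ := by
  refine hS.induction_on (p := fun S => ∃ r > 0, ∃ L : ℝ, ∀ x ∈ S,
    ball x r ⊆ (chartAt E y).source ∧ ∀ p ∈ ball x r, ∀ q ∈ ball x r,
        ‖chartAt E y p - chartAt E y q‖ ≤ L * dist p q ∧
        dist p q ≤ L * ‖chartAt E y p - chartAt E y q‖) ?_ ?_ ?_ ?_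
  · exact ⟨1, one_pos, 0, fun x hx => absurd hx (notMem_empty x)⟩
  · rintro s t hst ⟨r, hr, L, h1⟩
    exact ⟨r, hr, L, fun x hx => h1 x (hst hx)⟩
  · rintro s t ⟨r, hr, L, h1⟩ ⟨r', hr', L', h2⟩
    refine ⟨min r r', lt_min hr hr', max L L', ?_⟩
    rintro x (hx | hx)
    · obtain ⟨h3, h4⟩ := h1 x hx
      have h5 : ball x (min r r') ⊆ ball x r := ball_subset_ball (min_le_left _ _)
      refine ⟨h5.trans h3, fun p hp q hq => ?_⟩
      obtain ⟨h6, h7⟩ := h4 p (h5 hp) q (h5 hq)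
      exact ⟨h6.trans (mul_le_mul_of_nonneg_right (le_max_left _ _) dist_nonneg),
        h7.trans (mul_le_mul_of_nonneg_right (le_max_left _ _) (norm_nonneg _))⟩
    · obtain ⟨h3, h4⟩ := h2 x hx
      have h5 : ball x (min r r') ⊆ ball x r' := ball_subset_ball (min_le_right _ _)
      refine ⟨h5.trans h3, fun p hp q hq => ?_⟩
      obtain ⟨h6, h7⟩ := h4 p (h5 hp) q (h5 hq)
      exact ⟨h6.trans (mul_le_mul_of_nonneg_right (le_max_right _ _) dist_nonneg),
        h7.trans (mul_le_mul_of_nonneg_right (le_max_right _ _) (norm_nonneg _))⟩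
  · intro x hx
    obtain ⟨r, hr, L, h1, h2⟩ := fbli_loc h y x (hSs hx)
    refine ⟨ball x (r / 2), mem_nhdsWithin_of_mem_nhds (ball_mem_nhds x (half_pos hr)),
      r / 2, half_pos hr, L, ?_⟩
    intro z hz
    have h3 : ball z (r / 2) ⊆ ball x r := by
      intro w hw
      rw [mem_ball] at hz hw ⊢
      have := dist_triangle w z x
      linarith
    exact ⟨h3.trans h1, fun p hp q hq => h2 p (h3 hp) q (h3 hq)⟩

/-- FBLI: uniform constants for a locally bi-Lipschitz metric -/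
theorem exists_blip_pr [MetricSpace X] [CompactSpace X] [ChartedSpace E X]
    [IsManifold 𝓘(ℂ, E) ω X] (h : LocLip E (X := X)) (A : Cha E X)
    (hA : ∀ i, ∃ y, A.ch i = chartAt E y) : ∃ lam L, BLip A lam L := by
  have h1 : ∀ i, ∃ r > 0, ∃ L : ℝ, ∀ x ∈ closure (A.W i), ball x r ⊆ (A.ch i).source ∧
      ∀ p ∈ ball x r, ∀ q ∈ ball x r,
        ‖A.ch i p - A.ch i q‖ ≤ L * dist p q ∧
        dist p q ≤ L * ‖A.ch i p - A.ch i q‖ := by
    intro i
    obtain ⟨y, hy⟩ := hA i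
    have h2 := A.W_sub i
    rw [hy] at h2 ⊢
    exact fbli_one h y isClosed_closure.isCompact h2
  choose r hr L hL using h1
  have := A.fin
  obtain ⟨δ, hδ, hδ'⟩ := lebesgue_number_lemma_of_metric (isCompact_univ (X := X)) A.W_open
    (fun x _ => mem_iUnion.2 (A.cover x))
  have h3 : ∃ r₀ > 0, ∀ i, r₀ ≤ r i := by
    rcases isEmpty_or_nonempty A.ι with h4 | h4
    · exact ⟨1, one_pos, fun i => (h4.false i).elim⟩
    · obtain ⟨i, hi⟩ := Finite.exists_min r
      exact ⟨r i, hr i, hi⟩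
  have h4 : ∃ L₀ : ℝ, 1 ≤ L₀ ∧ ∀ i, L i ≤ L₀ := by
    rcases isEmpty_or_nonempty A.ι with h4 | h4
    · exact ⟨1, le_rfl, fun i => (h4.false i).elim⟩
    · obtain ⟨i, hi⟩ := Finite.exists_max L
      exact ⟨max 1 (L i), le_max_left _ _, fun j => (hi j).trans (le_max_right _ _)⟩
  obtain ⟨r₀, hr₀, h5⟩ := h3
  obtain ⟨L₀, hL₀, h6⟩ := h4
  have h7 : ∀ i (x : X), ball x (min δ r₀) ⊆ ball x (r i) := fun i x =>
    ball_subset_ball ((min_le_right _ _).trans (h5 i))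
  refine ⟨min δ r₀, L₀, lt_min hδ hr₀, hL₀, ?_, ?_, ?_, ?_⟩
  · intro x
    obtain ⟨i, hi⟩ := hδ' x (mem_univ x)
    exact ⟨i, (ball_subset_ball (min_le_left _ _)).trans hi⟩
  · intro i x hx
    exact (h7 i x).trans (hL i x hx).1
  · intro i x hx p hp q hq
    exact ((hL i x hx).2 p (h7 i x hp) q (h7 i x hq)).1.trans
      (mul_le_mul_of_nonneg_right (h6 i) dist_nonneg)
  · intro i x hx p hp q hq
    exact ((hL i x hx).2 p (h7 i x hp) q (h7 i x hq)).2.trans
      (mul_le_mul_of_nonneg_right (h6 i) (norm_nonneg _))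

end metric

end Pool.Agent.MBS

namespace Pool.Agent.MBS
alias exists_blip := exists_blip_pr
end Pool.Agent.MBS
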