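import Pool.Agent.Lib_helper58.MBS.Base

/-! # Minimal Brody sets, block FMET: a metric which is locally bi-Lipschitz to the charts -/

set_option autoImplicit false
set_option linter.unusedSectionVars false
set_option linter.unusedVariables false

open Filter Topology Metric Set
open scoped Manifold ContDiff

namespace Pool.Agent.MBS

open Pool.Agent.BR

section metric

variable {E X : Type} [NormedAddCommGroup E] [NormedSpace ℂ E] [FiniteDimensional ℂ E]

/-- the cut off function on `E` -/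
noncomputable def fmet_rho (c : E) (r : ℝ) (v : E) : ℝ := max 0 (min 1 (2 - ‖v - c‖ / r))

omit [NormedSpace ℂ E] [FiniteDimensional ℂ E] in
theorem fmet_rho_nonneg (c : E) (r : ℝ) (v : E) : 0 ≤ fmet_rho c r v := le_max_left _ _

omit [NormedSpace ℂ E] [FiniteDimensional ℂ E] in
theorem fmet_rho_le_one (c : E) (r : ℝ) (v : E) : fmet_rho c r v ≤ 1 :=
  max_le zero_le_one (min_le_left _ _)

omit [NormedSpace ℂ E] [FiniteDimensional ℂ E] in
theorem fmet_rho_one {c : E} {r : ℝ} (hr : 0 < r) {v : E} (h : ‖v - c‖ ≤ r) :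
    fmet_rho c r v = 1 := by
  unfold fmet_rho
  have h1 : ‖v - c‖ / r ≤ 1 := (div_le_one hr).2 h
  rw [min_eq_left (by linarith), max_eq_right zero_le_one]

omit [NormedSpace ℂ E] [FiniteDimensional ℂ E] in
theorem fmet_rho_zero {c : E} {r : ℝ} (hr : 0 < r) {v : E} (h : 2 * r ≤ ‖v - c‖) :
    fmet_rho c r v = 0 := by
  unfold fmet_rho
  have h1 : 2 ≤ ‖v - c‖ / r := (le_div_iff₀ hr).2 h
  have h2 : min 1 (2 - ‖v - c‖ / r) ≤ 0 := (min_le_right _ _).trans (by linarith)
  exact max_eq_left h2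

omit [NormedSpace ℂ E] [FiniteDimensional ℂ E] in
theorem fmet_rho_lip (c : E) {r : ℝ} (hr : 0 < r) (v w : E) :
    |fmet_rho c r v - fmet_rho c r w| ≤ ‖v - w‖ / r := by
  unfold fmet_rho
  have h1 : |max 0 (min 1 (2 - ‖v - c‖ / r)) - max 0 (min 1 (2 - ‖w - c‖ / r))| ≤
      |min 1 (2 - ‖v - c‖ / r) - min 1 (2 - ‖w - c‖ / r)| := by
    have := abs_max_sub_max_le_max 0 (min 1 (2 - ‖v - c‖ / r)) 0 (min 1 (2 - ‖w - c‖ / r))
    rw [sub_self, abs_zero] at this
    exact this.trans (max_le (abs_nonneg _) le_rfl)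
  have h2 : |min 1 (2 - ‖v - c‖ / r) - min 1 (2 - ‖w - c‖ / r)| ≤
      |(2 - ‖v - c‖ / r) - (2 - ‖w - c‖ / r)| := by
    have := abs_min_sub_min_le_max 1 (2 - ‖v - c‖ / r) 1 (2 - ‖w - c‖ / r)
    rw [sub_self, abs_zero] at this
    exact this.trans (max_le (abs_nonneg _) le_rfl)
  refine h1.trans (h2.trans ?_)
  have h3 : (2 - ‖v - c‖ / r) - (2 - ‖w - c‖ / r) = (‖w - c‖ - ‖v - c‖) / r := by ring
  rw [h3, abs_div, abs_of_pos hr]
  have h4 : |‖w - c‖ - ‖v - c‖| ≤ ‖v - w‖ := by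
    refine (abs_norm_sub_norm_le _ _).trans ?_
    have : w - c - (v - c) = w - v := by abel
    rw [this, norm_sub_rev]
  gcongr

/-- the local embedding on `E` -/
noncomputable def fmet_s (c : E) (r : ℝ) (v : E) : ℝ × E := (fmet_rho c r v, ((fmet_rho c r v : ℝ) : ℂ) • v)

theorem fmet_s_lip (c : E) {r : ℝ} (hr : 0 < r) (v₀ : E) : ∃ K : ℝ, 0 ≤ K ∧
    ∀ v ∈ ball v₀ 1, ∀ w ∈ ball v₀ 1, ‖fmet_s c r v - fmet_s c r w‖ ≤ K * ‖v - w‖ := by
  refine ⟨1 / r + 1 + (‖v₀‖ + 1) / r, by positivity, fun v hv w hw => ?_⟩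
  have h1 := fmet_rho_lip c hr v w
  have hw1 : ‖w‖ ≤ ‖v₀‖ + 1 := by
    have : w = v₀ + (w - v₀) := by abel
    rw [this]
    refine (norm_add_le _ _).trans ?_
    rw [mem_ball, dist_eq_norm] at hw
    linarith
  have h2 : fmet_s c r v - fmet_s c r w = (fmet_rho c r v - fmet_rho c r w,
      ((fmet_rho c r v : ℝ) : ℂ) • v - ((fmet_rho c r w : ℝ) : ℂ) • w) := rfl
  rw [h2]
  refine norm_prod_le_iff.2 ⟨?_, ?_⟩
  · rw [Real.norm_eq_abs]
    refine h1.trans ?_
    have h3 : ‖v - w‖ / r = 1 / r * ‖v - w‖ := by ring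
    rw [h3]
    have h4 : 0 ≤ (1 + (‖v₀‖ + 1) / r) * ‖v - w‖ := by positivity
    nlinarith
  · have h3 : ((fmet_rho c r v : ℝ) : ℂ) • v - ((fmet_rho c r w : ℝ) : ℂ) • w =
        ((fmet_rho c r v : ℝ) : ℂ) • (v - w) +
          (((fmet_rho c r v - fmet_rho c r w : ℝ) : ℂ)) • w := by
      rw [Complex.ofReal_sub, smul_sub, sub_smul]
      abel
    rw [h3]
    refine (norm_add_le _ _).trans ?_
    rw [norm_smul, norm_smul, Complex.norm_real, Complex.norm_real,
      Real.norm_of_nonneg (fmet_rho_nonneg _ _ _), Real.norm_eq_abs]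
    have h4 : fmet_rho c r v * ‖v - w‖ ≤ 1 * ‖v - w‖ := by
      gcongr
      exact fmet_rho_le_one _ _ _
    have h5 : |fmet_rho c r v - fmet_rho c r w| * ‖w‖ ≤ ‖v - w‖ / r * (‖v₀‖ + 1) := by
      gcongr
    have h6 : ‖v - w‖ / r * (‖v₀‖ + 1) = (‖v₀‖ + 1) / r * ‖v - w‖ := by ring
    have h7 : 0 ≤ 1 / r * ‖v - w‖ := by positivity
    nlinarith

theorem fmet_s_cont (c : E) {r : ℝ} : Continuous (fmet_s c r) := by
  unfold fmet_s fmet_rho
  fun_prop

section top

variable [TopologicalSpace X] [ChartedSpace E X]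

open Classical in
/-- the local embedding on `X` -/
noncomputable def fmet_g (E : Type) {X : Type} [NormedAddCommGroup E] [NormedSpace ℂ E]
    [TopologicalSpace X] [ChartedSpace E X] (x : X) (r : ℝ) (y : X) : ℝ × E :=
  if y ∈ (chartAt E x).source then fmet_s (chartAt E x x) r (chartAt E x y) else 0

/-- the support -/
def fmet_K (E : Type) {X : Type} [NormedAddCommGroup E]
    [TopologicalSpace X] [ChartedSpace E X] (x : X) (r : ℝ) : Set X :=
  (chartAt E x).symm '' closedBall (chartAt E x x) (2 * r)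

theorem fmet_g_zero {x : X} {r : ℝ} (hr : 0 < r) {y : X} (hy : y ∉ fmet_K E x r) :
    fmet_g E x r y = 0 := by
  unfold fmet_g
  split_ifs with h
  · have h1 : 2 * r ≤ ‖chartAt E x y - chartAt E x x‖ := by
      by_contra hcon
      push Not at hcon
      refine hy ⟨chartAt E x y, ?_, (chartAt E x).left_inv h⟩
      rw [mem_closedBall, dist_eq_norm]
      exact hcon.le
    unfold fmet_s
    rw [fmet_rho_zero hr h1]
    simp
  · rfl

theorem fmet_K_compact {x : X} {r : ℝ}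
    (h : closedBall (chartAt E x x) (2 * r) ⊆ (chartAt E x).target) :
    IsCompact (fmet_K E x r) ∧ fmet_K E x r ⊆ (chartAt E x).source := by
  have : ProperSpace E := FiniteDimensional.proper ℂ E
  refine ⟨(isCompact_closedBall _ _).image_of_continuousOn
    ((chartAt E x).continuousOn_symm.mono h), ?_⟩
  rintro _ ⟨v, hv, rfl⟩
  exact (chartAt E x).map_target (h hv)

theorem fmet_g_cont [T2Space X] {x : X} {r : ℝ} (hr : 0 < r)
    (h : closedBall (chartAt E x x) (2 * r) ⊆ (chartAt E x).target) :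
    Continuous (fmet_g E x r) := by
  obtain ⟨hK, hKs⟩ := fmet_K_compact h
  rw [continuous_iff_continuousAt]
  intro y
  by_cases hy : y ∈ (chartAt E x).source
  · have h1 : ContinuousAt (fun y => fmet_s (chartAt E x x) r (chartAt E x y)) y :=
      (fmet_s_cont _).continuousAt.comp ((chartAt E x).continuousAt hy)
    refine h1.congr ?_
    filter_upwards [(chartAt E x).open_source.mem_nhds hy] with z hz
    unfold fmet_g
    rw [if_pos hz]
  · have h1 : (fmet_K E x r)ᶜ ∈ 𝓝 y :=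
      hK.isClosed.isOpen_compl.mem_nhds (fun h => hy (hKs h))
    have h2 : ContinuousAt (fun _ : X => (0 : ℝ × E)) y := continuousAt_const
    refine h2.congr ?_
    filter_upwards [h1] with z hz
    exact (fmet_g_zero hr hz).symm

variable [IsManifold 𝓘(ℂ, E) ω X]

theorem fmet_trans (x x₀ : X) {p : X} (hx : p ∈ (chartAt E x).source)
    (hx₀ : p ∈ (chartAt E x₀).source) : ∃ V ∈ 𝓝 p, ∃ K : ℝ, 0 ≤ K ∧
      V ⊆ (chartAt E x₀).source ∧ V ⊆ (chartAt E x).source ∧ ∀ y ∈ V, ∀ y' ∈ V,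
        ‖chartAt E x y - chartAt E x y'‖ ≤ K * ‖chartAt E x₀ y - chartAt E x₀ y'‖ := by
  have : CompleteSpace E := FiniteDimensional.complete ℂ E
  have h1 := ModelWithCorners.contDiffWithinAt_extendCoordChange' (I := 𝓘(ℂ, E)) (n := ω)
    (M := X) (IsManifold.chart_mem_maximalAtlas x₀) (IsManifold.chart_mem_maximalAtlas x) hx₀ hx
  simp only [mfld_simps] at h1
  rw [contDiffWithinAt_univ] at h1
  have h2 : ContDiffAt ℂ 1 (fun ξ => chartAt E x ((chartAt E x₀).symm ξ)) (chartAt E x₀ p) :=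
    ContDiffAt.of_le h1 (by exact le_top)
  obtain ⟨K, t, ht, hL⟩ := h2.exists_lipschitzOnWith
  have h3 : (chartAt E x₀) ⁻¹' t ∈ 𝓝 p := ((chartAt E x₀).continuousAt hx₀) ht
  refine ⟨(chartAt E x₀) ⁻¹' t ∩ ((chartAt E x₀).source ∩ (chartAt E x).source),
    inter_mem h3 (inter_mem ((chartAt E x₀).open_source.mem_nhds hx₀)
      ((chartAt E x).open_source.mem_nhds hx)), K, K.2, fun y hy => hy.2.1, fun y hy => hy.2.2,
    fun y hy y' hy' => ?_⟩
  have h4 := hL.dist_le_mul _ hy.1 _ hy'.1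
  rw [(chartAt E x₀).left_inv hy.2.1, (chartAt E x₀).left_inv hy'.2.1, dist_eq_norm,
    dist_eq_norm] at h4
  exact h4

/-- the local embedding is locally Lipschitz -/
theorem fmet_g_lip [T2Space X] (x x₀ : X) {r : ℝ} (hr : 0 < r)
    (h : closedBall (chartAt E x x) (2 * r) ⊆ (chartAt E x).target) :
    ∃ V ∈ 𝓝 x₀, ∃ K : ℝ, 0 ≤ K ∧ V ⊆ (chartAt E x₀).source ∧ ∀ y ∈ V, ∀ y' ∈ V,
      ‖fmet_g E x r y - fmet_g E x r y'‖ ≤ K * ‖chartAt E x₀ y - chartAt E x₀ y'‖ := by
  obtain ⟨hK, hKs⟩ := fmet_K_compact h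
  by_cases hx : x₀ ∈ (chartAt E x).source
  · obtain ⟨V, hV, K, hK0, hV1, hV2, hV3⟩ := fmet_trans (E := E) x x₀ hx (mem_chart_source E x₀)
    obtain ⟨K', hK', hs⟩ := fmet_s_lip (chartAt E x x) hr (chartAt E x x₀)
    have h3 : (chartAt E x) ⁻¹' (ball (chartAt E x x₀) 1) ∈ 𝓝 x₀ :=
      ((chartAt E x).continuousAt hx) (ball_mem_nhds _ one_pos)
    refine ⟨V ∩ (chartAt E x) ⁻¹' (ball (chartAt E x x₀) 1), inter_mem hV h3, K' * K,
      by positivity, fun y hy => hV1 hy.1, fun y hy y' hy' => ?_⟩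
    unfold fmet_g
    rw [if_pos (hV2 hy.1), if_pos (hV2 hy'.1), mul_assoc]
    refine (hs _ hy.2 _ hy'.2).trans ?_
    have := hV3 y hy.1 y' hy'.1
    gcongr
  · have h1 : (fmet_K E x r)ᶜ ∈ 𝓝 x₀ :=
      hK.isClosed.isOpen_compl.mem_nhds (fun h => hx (hKs h))
    refine ⟨(fmet_K E x r)ᶜ ∩ (chartAt E x₀).source, inter_mem h1
      ((chartAt E x₀).open_source.mem_nhds (mem_chart_source E x₀)), 0, le_rfl,
      fun y hy => hy.2, fun y hy y' hy' => ?_⟩
    rw [fmet_g_zero hr hy.1, fmet_g_zero hr hy'.1, sub_zero, norm_zero, zero_mul]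

end top

/-- FMET: a metric which is locally bi-Lipschitz to the charts -/
theorem exists_metric_pr [t : TopologicalSpace X] [CompactSpace X] [T2Space X] [ChartedSpace E X]
    [IsManifold 𝓘(ℂ, E) ω X] : ∃ m : MetricSpace X,
      m.toPseudoMetricSpace.toUniformSpace.toTopologicalSpace = t ∧
      ∀ x : X, ∃ V ∈ 𝓝 x, ∃ L : ℝ, V ⊆ (chartAt E x).source ∧ ∀ y ∈ V, ∀ y' ∈ V,
        ‖chartAt E x y - chartAt E x y'‖ ≤ L * dist y y' ∧
        dist y y' ≤ L * ‖chartAt E x y - chartAt E x y'‖ := by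
  classical
  have hr : ∀ x : X, ∃ r : ℝ, 0 < r ∧
      closedBall (chartAt E x x) (2 * r) ⊆ (chartAt E x).target := by
    intro x
    obtain ⟨s, hs, h⟩ := Metric.nhds_basis_closedBall.mem_iff.1
      ((chartAt E x).open_target.mem_nhds (mem_chart_target E x))
    refine ⟨s / 2, half_pos hs, ?_⟩
    rwa [mul_div_cancel₀ s two_ne_zero]
  choose r hr0 hrt using hr
  set U : X → Set X := fun x => (chartAt E x).source ∩
    (chartAt E x) ⁻¹' (ball (chartAt E x x) (r x)) with hU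
  have hUn : ∀ x y : X, y ∈ U x → U x ∈ 𝓝 y := by
    intro x y hy
    exact inter_mem ((chartAt E x).open_source.mem_nhds hy.1)
      (((chartAt E x).continuousAt hy.1) (isOpen_ball.mem_nhds hy.2))
  have hUx : ∀ x : X, x ∈ U x := fun x => ⟨mem_chart_source E x, mem_ball_self (hr0 x)⟩
  obtain ⟨T, hT⟩ := CompactSpace.elim_nhds_subcover U (fun x => hUn x x (hUx x))
  set Θ : X → ({x // x ∈ T} → ℝ × E) := fun y i => fmet_g E i.1 (r i.1) y with hΘ
  have hΘc : Continuous Θ := continuous_pi fun i => fmet_g_cont (hr0 i.1) (hrt i.1)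
  have hone : ∀ x y : X, y ∈ U x → fmet_g E x (r x) y = (1, chartAt E x y) := by
    intro x y hy
    unfold fmet_g
    rw [if_pos hy.1]
    unfold fmet_s
    rw [fmet_rho_one (hr0 x) (by
      have := hy.2
      rw [mem_preimage, mem_ball, dist_eq_norm] at this
      exact this.le), Complex.ofReal_one, one_smul]
  have hcov : ∀ y : X, ∃ i : {x // x ∈ T}, y ∈ U i.1 := by
    intro y
    have : y ∈ ⋃ x ∈ T, U x := by
      rw [hT]
      exact mem_univ y
    rw [mem_iUnion₂] at this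
    obtain ⟨x, hx, hy⟩ := this
    exact ⟨⟨x, hx⟩, hy⟩
  have hΘi : Function.Injective Θ := by
    intro y y' he
    obtain ⟨i, hi⟩ := hcov y
    have h1 := congrFun he i
    simp only [hΘ] at h1
    rw [hone _ _ hi] at h1
    have h2 : y' ∈ (chartAt E i.1).source := by
      by_contra hcon
      have : fmet_g E i.1 (r i.1) y' = 0 := by
        unfold fmet_g
        rw [if_neg hcon]
      rw [this] at h1
      have := congrArg Prod.fst h1
      simp at this
    have h3 : fmet_g E i.1 (r i.1) y' = fmet_s (chartAt E i.1 i.1) (r i.1) (chartAt E i.1 y') := by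
      unfold fmet_g
      rw [if_pos h2]
    rw [h3] at h1
    unfold fmet_s at h1
    have h4 := congrArg Prod.fst h1
    have h5 := congrArg Prod.snd h1
    simp only at h4 h5
    rw [← h4, Complex.ofReal_one, one_smul] at h5
    exact (chartAt E i.1).injOn hi.1 h2 h5
  have hemb : IsClosedEmbedding Θ := hΘc.isClosedEmbedding hΘi
  set m : MetricSpace X := MetricSpace.induced Θ hΘi inferInstance with hm
  have htop : m.toPseudoMetricSpace.toUniformSpace.toTopologicalSpace = t :=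
    hemb.isInducing.eq_induced.symm
  have hdist : ∀ y y' : X, m.toPseudoMetricSpace.toDist.dist y y' = dist (Θ y) (Θ y') :=
    fun y y' => rfl
  refine ⟨m, htop, fun x₀ => ?_⟩
  -- upper bounds
  have hup : ∀ i : {x // x ∈ T}, ∃ V ∈ @nhds X t x₀, ∃ K : ℝ, 0 ≤ K ∧
      V ⊆ (chartAt E x₀).source ∧ ∀ y ∈ V, ∀ y' ∈ V,
      ‖fmet_g E i.1 (r i.1) y - fmet_g E i.1 (r i.1) y'‖ ≤
        K * ‖chartAt E x₀ y - chartAt E x₀ y'‖ :=
    fun i => fmet_g_lip i.1 x₀ (hr0 i.1) (hrt i.1)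
  choose V hV K hK hVs hVl using hup
  obtain ⟨i, hi⟩ := hcov x₀
  obtain ⟨V', hV', K', hK', _, hV'2, hV'3⟩ := fmet_trans (E := E) x₀ i.1
    (mem_chart_source E x₀) hi.1
  have hsrc : (chartAt E x₀).source ∈ @nhds X t x₀ :=
    (chartAt E x₀).open_source.mem_nhds (mem_chart_source E x₀)
  have hW : ((⋂ j, V j) ∩ V') ∩ (U i.1 ∩ (chartAt E x₀).source) ∈ @nhds X t x₀ :=
    inter_mem (inter_mem (Filter.iInter_mem.2 hV) hV') (inter_mem (hUn _ _ hi) hsrc)
  have hKs : ∀ j, K j ≤ ∑ j, K j := fun j =>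
    Finset.single_le_sum (f := K) (fun j _ => hK j) (Finset.mem_univ j)
  have hK0 : 0 ≤ ∑ j, K j := Finset.sum_nonneg fun j _ => hK j
  refine ⟨((⋂ j, V j) ∩ V') ∩ (U i.1 ∩ (chartAt E x₀).source), hW, K' + ∑ j, K j,
    fun y hy => hy.2.2, fun y hy y' hy' => ⟨?_, ?_⟩⟩
  · have h1 := hV'3 y hy.1.2 y' hy'.1.2
    have h2 : ‖chartAt E i.1 y - chartAt E i.1 y'‖ ≤ dist (Θ y) (Θ y') := by
      have h3 := dist_le_pi_dist (Θ y) (Θ y') i
      simp only [hΘ] at h3
      rw [hone _ _ hy.2.1, hone _ _ hy'.2.1, Prod.dist_eq] at h3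
      have h4 := (le_max_right _ _).trans h3
      rw [dist_eq_norm] at h4
      exact h4
    rw [← hdist] at h2
    have h5 : K' * ‖chartAt E i.1 y - chartAt E i.1 y'‖ ≤
        K' * m.toPseudoMetricSpace.toDist.dist y y' := mul_le_mul_of_nonneg_left h2 hK'
    have h6 : 0 ≤ m.toPseudoMetricSpace.toDist.dist y y' := dist_nonneg
    have h7 : 0 ≤ (∑ j, K j) * m.toPseudoMetricSpace.toDist.dist y y' := mul_nonneg hK0 h6
    rw [add_mul]
    linarith
  · rw [hdist]
    have h6 : 0 ≤ (K' + ∑ j, K j) * ‖chartAt E x₀ y - chartAt E x₀ y'‖ := by positivity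
    rw [dist_pi_le_iff h6]
    intro j
    rw [dist_eq_norm]
    refine (hVl j y (mem_iInter.1 hy.1.1 j) y' (mem_iInter.1 hy'.1.1 j)).trans ?_
    have := hKs j
    gcongr
    linarith

end metric

end Pool.Agent.MBS

namespace Pool.Agent.MBS
alias exists_metric := exists_metric_pr
end Pool.Agent.MBS
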