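import Pool.Agent.Lib_helper58.MBS.Base

/-! # Minimal Brody sets, block BCMP: the Brody curves with a given bound form a closed set
(MP_45e720_ag) -/

set_option autoImplicit false
set_option linter.unusedSectionVars false
set_option linter.unusedVariables false

open Filter Topology Metric Set

namespace Pool.Agent.MBS

open Pool.Agent.BR

section fam

variable {E X : Type} [NormedAddCommGroup E] [NormedSpace ℂ E] [FiniteDimensional ℂ E]
  [MetricSpace X] [CompactSpace X] {A : Cha E X} {C : ℝ} {M : Set (ℂ → X)}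

/-- BCMP: the Brody curves with a given bound form a closed set of functions -/
theorem bf_closed_pr (A : Cha E X) (C : ℝ) : IsClosed (BF A C) := by
  rw [isClosed_iff_ultrafilter]
  intro g U hU hB
  have h1 : ∀ R : ℝ, ∀ᶠ h in (U : Filter (ℂ → X)), ∀ t ∈ ball (0 : ℂ) R, A.HolAt h t ∧
      ∀ i, h t ∈ A.W i → ‖deriv (A.loc i h) t‖ ≤ C := by
    intro R
    filter_upwards [hB] with h hh t _
    exact ⟨hh.1 t, fun i hi => hh.2 t i hi⟩
  obtain ⟨g', hg'⟩ := ultra_lim A U (fun h : ℂ → X => h) C h1
  have hgt : ∀ t, Tendsto (fun h : ℂ → X => h t) (U : Filter (ℂ → X)) (𝓝 (g t)) := fun t =>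
    ((continuous_apply t).tendsto g).mono_left hU
  have h2 : g = g' := by
    funext t
    exact tendsto_nhds_unique (hgt t) (hg' t).2.1
  subst h2
  refine ⟨fun z => (hg' z).1, fun z i hi => ?_⟩
  have h3 := ((hg' z).2.2 i (A.W_sub i (subset_closure hi))).norm
  refine le_of_tendsto h3 ?_
  have h4 : ∀ᶠ h : ℂ → X in (U : Filter (ℂ → X)), h z ∈ A.W i :=
    (hgt z).eventually ((A.W_open i).mem_nhds hi)
  filter_upwards [h4, hB] with h h5 h6
  exact h6.2 z i h5

end fam

end Pool.Agent.MBS

namespace Pool.Agent.MBS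
alias bf_closed := bf_closed_pr
end Pool.Agent.MBS
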