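import Pool.Agent.Lib_helper58.MBS.Base
import Pool.Agent.Lib_helper82.BR.B.EQC

set_option autoImplicit false
set_option linter.unusedSectionVars false
set_option linter.unusedVariables false

open Filter Topology Metric Set

namespace Pool.Agent.MBS

open Pool.Agent.BR

section fam

variable {E X : Type} [NormedAddCommGroup E] [NormedSpace ℂ E] [FiniteDimensional ℂ E]
  [MetricSpace X] [CompactSpace X] {A : Cha E X} {C : ℝ} {M : Set (ℂ → X)}

theorem bf_unif_pr {κ : Type} {F : Filter κ} {g : κ → ℂ → X} {f : ℂ → X}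
    (hg : ∀ᶠ k in F, g k ∈ BF A C) (hf : f ∈ BF A C) (hlim : Tendsto g F (𝓝 f)) (R ε : ℝ)
    (hε : 0 < ε) : ∀ᶠ k in F, ∀ z, ‖z‖ ≤ R → dist (g k z) (f z) < ε := by
  obtain ⟨δ, hδ, heq⟩ := equicont A C (ε / 3) (by positivity)
  obtain ⟨t, -, htf, hcov⟩ := (isCompact_closedBall (0 : ℂ) R).finite_cover_balls hδ
  have hpt : ∀ z ∈ t, ∀ᶠ k in F, dist (g k z) (f z) < ε / 3 := fun z _ =>
    (Metric.tendsto_nhds.1 ((tendsto_pi_nhds.1 hlim) z)) (ε / 3) (by positivity)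
  have hall : ∀ᶠ k in F, ∀ z ∈ t, dist (g k z) (f z) < ε / 3 :=
    (Filter.eventually_all_finite htf).2 hpt
  filter_upwards [hg, hall] with k hk hkt z hz
  have hz1 : z ∈ closedBall (0 : ℂ) R := by simpa using hz
  obtain ⟨w, hw, hzw⟩ : ∃ w ∈ t, z ∈ ball w δ := by simpa using hcov hz1
  have hzw' : ‖z - w‖ < δ := by rwa [mem_ball_iff_norm] at hzw
  have hwz' : ‖w - z‖ < δ := by rwa [norm_sub_rev]
  have d1 := heq (g k) hk.1 hk.2 z w hzw'
  have d2 := hkt w hw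
  have d3 := heq f hf.1 hf.2 w z hwz'
  calc dist (g k z) (f z) ≤ dist (g k z) (g k w) + dist (g k w) (f w) + dist (f w) (f z) :=
        dist_triangle4 _ _ _ _
    _ < ε := by linarith

theorem bf_eval_pr {κ : Type} {F : Filter κ} {g : κ → ℂ → X} {f : ℂ → X}
    (hg : ∀ᶠ k in F, g k ∈ BF A C) (hf : f ∈ BF A C) (hlim : Tendsto g F (𝓝 f)) {z : κ → ℂ}
    {z₀ : ℂ} (hz : Tendsto z F (𝓝 z₀)) : Tendsto (fun k => g k (z k)) F (𝓝 (f z₀)) := by
  rw [Metric.tendsto_nhds]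
  intro ε hε
  obtain ⟨δ, hδ, heq⟩ := equicont A C (ε / 2) (by positivity)
  have hpt : ∀ᶠ k in F, dist (g k z₀) (f z₀) < ε / 2 :=
    (Metric.tendsto_nhds.1 ((tendsto_pi_nhds.1 hlim) z₀)) (ε / 2) (by positivity)
  have hzz : ∀ᶠ k in F, dist (z k) z₀ < δ := (Metric.tendsto_nhds.1 hz) δ hδ
  filter_upwards [hg, hpt, hzz] with k hk h1 h2
  rw [dist_eq_norm] at h2
  have d1 := heq (g k) hk.1 hk.2 (z k) z₀ h2
  calc dist (g k (z k)) (f z₀) ≤ dist (g k (z k)) (g k z₀) + dist (g k z₀) (f z₀) :=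
        dist_triangle _ _ _
    _ < ε := by linarith


end fam

end Pool.Agent.MBS

namespace Pool.Agent.MBS
alias bf_unif := bf_unif_pr
alias bf_eval := bf_eval_pr
end Pool.Agent.MBS
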