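import Pool.Agent.Lib_helper58.MBS.Base
import Pool.Agent.Lib_helper58.MBS.L.BLIM

/-! # Minimal Brody sets: block BCHT (convergence in charts) -/

set_option autoImplicit false
set_option linter.unusedSectionVars false
set_option linter.unusedVariables false

open Filter Topology Metric Set

namespace Pool.Agent.MBS

open Pool.Agent.BR

section fam

variable {E X : Type} [NormedAddCommGroup E] [NormedSpace ℂ E] [FiniteDimensional ℂ E]
  [MetricSpace X] [CompactSpace X] {A : Cha E X} {C : ℝ} {M : Set (ℂ → X)}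

/-- BCHT: convergence in charts -/
theorem bf_chart_pr {κ : Type} {F : Filter κ} {g : κ → ℂ → X} {f : ℂ → X}
    (hg : ∀ᶠ k in F, g k ∈ BF A C) (hf : f ∈ BF A C) (hlim : Tendsto g F (𝓝 f)) (z₀ : ℂ)
    (i : A.ι) (hi : f z₀ ∈ (A.ch i).source) :
    ∃ r > 0, (∀ z ∈ ball z₀ r, f z ∈ (A.ch i).source ∧ AnalyticAt ℂ (A.loc i f) z) ∧
      (∀ᶠ k in F, ∀ z ∈ ball z₀ r, g k z ∈ (A.ch i).source ∧ AnalyticAt ℂ (A.loc i (g k)) z) ∧
      TendstoUniformlyOn (fun k => A.loc i (g k)) (A.loc i f) F (ball z₀ r) := by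
  obtain ⟨η, hη, hηs⟩ := Metric.nhds_basis_closedBall.mem_iff.1
    ((A.ch i).open_source.mem_nhds hi)
  have hKc : IsCompact (closedBall (f z₀) η) := isClosed_closedBall.isCompact
  have hcont : ContinuousOn (A.ch i) (closedBall (f z₀) η) :=
    (A.ch i).continuousOn.mono hηs
  have huc : UniformContinuousOn (A.ch i) (closedBall (f z₀) η) :=
    hKc.uniformContinuousOn_of_continuous hcont
  obtain ⟨r, hr, hfr⟩ := Metric.continuousAt_iff.1 (hf.1 z₀).1 (η / 2) (by linarith)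
  have hfK : ∀ z ∈ ball z₀ r, f z ∈ closedBall (f z₀) η := fun z hz => by
    have h1 := hfr (mem_ball.1 hz)
    rw [mem_closedBall]
    linarith
  have hgK : ∀ᶠ k in F, ∀ z ∈ ball z₀ r, g k z ∈ closedBall (f z₀) η := by
    filter_upwards [bf_unif hg hf hlim (‖z₀‖ + r) (η / 2) (by linarith)] with k hk z hz
    have h1 := hfr (mem_ball.1 hz)
    have hz' : ‖z‖ ≤ ‖z₀‖ + r := by
      have h2 : ‖z - z₀‖ < r := by rw [← dist_eq_norm]; exact mem_ball.1 hz
      have h3 : ‖z‖ ≤ ‖z - z₀‖ + ‖z₀‖ := by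
        simpa using norm_add_le (z - z₀) z₀
      linarith
    have h4 := hk z hz'
    rw [mem_closedBall]
    have h5 := dist_triangle (g k z) (f z) (f z₀)
    linarith
  refine ⟨r, hr, fun z hz => ⟨hηs (hfK z hz), (hf.1 z).2 i (hηs (hfK z hz))⟩, ?_, ?_⟩
  · filter_upwards [hg, hgK] with k hk hk' z hz
    exact ⟨hηs (hk' z hz), (hk.1 z).2 i (hηs (hk' z hz))⟩
  · rw [Metric.tendstoUniformlyOn_iff]
    intro ε hε
    obtain ⟨δ, hδ, hδ'⟩ := Metric.uniformContinuousOn_iff.1 huc ε hε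
    filter_upwards [hgK, bf_unif hg hf hlim (‖z₀‖ + r) δ hδ] with k hk hk' z hz
    have hz' : ‖z‖ ≤ ‖z₀‖ + r := by
      have h2 : ‖z - z₀‖ < r := by rw [← dist_eq_norm]; exact mem_ball.1 hz
      have h3 : ‖z‖ ≤ ‖z - z₀‖ + ‖z₀‖ := by
        simpa using norm_add_le (z - z₀) z₀
      linarith
    refine hδ' (f z) (hfK z hz) (g k z) (hk z hz) ?_
    rw [dist_comm]
    exact hk' z hz'

end fam

end Pool.Agent.MBS

namespace Pool.Agent.MBS
alias bf_chart := bf_chart_pr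
end Pool.Agent.MBS
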