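import Pool.Agent.Lib_helper58.MBS.Base
import Pool.Agent.Lib_helper58.MBS.L.BCHT

/-! # BJET: convergence of all derivatives -/

set_option autoImplicit false
set_option linter.unusedSectionVars false
set_option linter.unusedVariables false

open Filter Topology Metric Set

namespace Pool.Agent.MBS

open Pool.Agent.BR

section fam

variable {E X : Type} [NormedAddCommGroup E] [NormedSpace ℂ E] [FiniteDimensional ℂ E]
  [MetricSpace X] [CompactSpace X] {A : Cha E X} {C : ℝ} {M : Set (ℂ → X)}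

theorem bjet_diff {g : ℂ → E} {U : Set ℂ} (hU : IsOpen U) (hg : ∀ z ∈ U, AnalyticAt ℂ g z)
    (q : ℕ) : DifferentiableOn ℂ (iteratedDeriv q g) U := by
  have : CompleteSpace E := FiniteDimensional.complete ℂ E
  have h : ∀ q : ℕ, AnalyticOnNhd ℂ (iteratedDeriv q g) U := by
    intro q
    induction q with
    | zero =>
      rw [iteratedDeriv_zero]
      exact hg
    | succ q ih =>
      rw [iteratedDeriv_succ]
      exact ih.deriv
  exact (h q).differentiableOn

theorem bjet_lim {κ : Type} {F : Filter κ} {g : κ → ℂ → E} {f : ℂ → E} {U : Set ℂ}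
    (hU : IsOpen U) (hg : ∀ᶠ k in F, ∀ z ∈ U, AnalyticAt ℂ (g k) z)
    (h : TendstoUniformlyOn g f F U) (q : ℕ) :
    TendstoLocallyUniformlyOn (fun k => iteratedDeriv q (g k)) (iteratedDeriv q f) F U := by
  have : CompleteSpace E := FiniteDimensional.complete ℂ E
  induction q with
  | zero => simpa using h.tendstoLocallyUniformlyOn
  | succ q ih =>
    have h1 := ih.deriv (hg.mono fun k hk => bjet_diff hU hk q) hU
    have e1 : (deriv ∘ fun k => iteratedDeriv q (g k)) = fun k => iteratedDeriv (q + 1) (g k) := by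
      funext k
      simp [iteratedDeriv_succ]
    rw [e1, ← iteratedDeriv_succ] at h1
    exact h1

theorem bf_jet_pr {κ : Type} {F : Filter κ} {g : κ → ℂ → X} {f : ℂ → X}
    (hg : ∀ᶠ k in F, g k ∈ BF A C) (hf : f ∈ BF A C) (hlim : Tendsto g F (𝓝 f)) {z : κ → ℂ}
    {z₀ : ℂ} (hz : Tendsto z F (𝓝 z₀)) (i : A.ι) (hi : f z₀ ∈ (A.ch i).source) (q : ℕ) :
    Tendsto (fun k => iteratedDeriv q (A.loc i (g k)) (z k)) F
      (𝓝 (iteratedDeriv q (A.loc i f) z₀)) := by
  obtain ⟨r, hr, h1, h2, h3⟩ := bf_chart hg hf hlim z₀ i hi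
  have h4 := bjet_lim isOpen_ball (h2.mono fun k hk z hz => (hk z hz).2) h3 q
  have h5 : z₀ ∈ ball z₀ r := mem_ball_self hr
  have h6 : ContinuousWithinAt (iteratedDeriv q (A.loc i f)) (ball z₀ r) z₀ :=
    (bjet_diff isOpen_ball (fun z hz => (h1 z hz).2) q).continuousOn z₀ h5
  refine h4.tendsto_comp h6 h5 ?_
  exact tendsto_nhdsWithin_iff.mpr ⟨hz, hz.eventually (ball_mem_nhds z₀ hr)⟩


end fam

end Pool.Agent.MBS

namespace Pool.Agent.MBS
alias bf_jet := bf_jet_pr
end Pool.Agent.MBS
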