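import Pool.Agent.Lib_helper58.MBS.Base
import Pool.Agent.Lib_helper58.MBS.L.BCMP
import Pool.Agent.Lib_helper58.MBS.L.BJET

/-! # Minimal Brody sets: block CPLI (Liouville and continuity of the jet differential) -/

set_option autoImplicit false
set_option linter.unusedSectionVars false
set_option linter.unusedVariables false

open Filter Topology Metric Set

namespace Pool.Agent.MBS

open Pool.Agent.BR

section jets

variable {E X : Type} [NormedAddCommGroup E] [NormedSpace ℂ E] [FiniteDimensional ℂ E]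
  [MetricSpace X] [CompactSpace X] {A : Cha E X} {C : ℝ} {M : Set (ℂ → X)} {k m : ℕ}
  {P : (ℂ → X) → ℂ} {Q : A.ι → (Fin (k + 1) → E) → ℂ}

theorem cpli_jet_tr (i : A.ι) (f : ℂ → X) (z : ℂ) (q : ℕ) :
    iteratedDeriv q (A.loc i (tr z f)) 0 = iteratedDeriv q (A.loc i f) z := by
  have h : A.loc i (tr z f) = fun w => A.loc i f (w + z) := rfl
  rw [h, iteratedDeriv_comp_add_const]
  simp

theorem cpli_ger {f : ℂ → X} (hf : f ∈ BF A C) : Ger A f :=
  Eventually.of_forall hf.1

theorem cpli_chart (x : X) : ∃ i, x ∈ (A.ch i).source := by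
  obtain ⟨i, hi⟩ := A.cover x
  exact ⟨i, A.W_sub i (subset_closure hi)⟩

theorem cpli_target {f : ℂ → X} {i : A.ι} (hi : f 0 ∈ (A.ch i).source) :
    jt A k i f 0 ∈ (A.ch i).target := by
  have : jt A k i f 0 = A.ch i (f 0) := by
    simp [jt, Cha.loc]
  rw [this]
  exact (A.ch i).map_source hi

/-- CPLI: `P` is continuous on the set of Brody curves -/
theorem jd_cont_pr (hJ : JD A k m P Q) : ContinuousOn P (BF A C) := by
  intro f hf
  obtain ⟨i, hi⟩ := cpli_chart (A := A) (f 0)
  have hlim : Tendsto (fun g : ℂ → X => g) (𝓝[BF A C] f) (𝓝 f) := tendsto_id.mono_left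
    nhdsWithin_le_nhds
  have hmem : ∀ᶠ g in 𝓝[BF A C] f, (fun g : ℂ → X => g) g ∈ BF A C := self_mem_nhdsWithin
  have hjet : Tendsto (fun g : ℂ → X => jt A k i g) (𝓝[BF A C] f) (𝓝 (jt A k i f)) := by
    rw [tendsto_pi_nhds]
    intro q
    exact bf_jet hmem hf hlim (z := fun _ => 0) tendsto_const_nhds i hi q
  have hQ : Tendsto (fun g : ℂ → X => Q i (jt A k i g)) (𝓝[BF A C] f) (𝓝 (Q i (jt A k i f))) :=
    ((hJ.an i _ (cpli_target hi)).continuousAt.tendsto).comp hjet
  have hsrc : ∀ᶠ g in 𝓝[BF A C] f, g 0 ∈ (A.ch i).source := by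
    have h0 : Tendsto (fun g : ℂ → X => g 0) (𝓝[BF A C] f) (𝓝 (f 0)) :=
      ((continuous_apply (0 : ℂ)).tendsto f).mono_left nhdsWithin_le_nhds
    exact h0.eventually ((A.ch i).open_source.mem_nhds hi)
  have heq : P f = Q i (jt A k i f) := hJ.eq i f (cpli_ger hf) hi
  show Tendsto P (𝓝[BF A C] f) (𝓝 (P f))
  rw [heq]
  refine hQ.congr' ?_
  filter_upwards [hsrc, hmem] with g h1 h2
  exact (hJ.eq i g (cpli_ger h2) h1).symm

/-- CPLI: Liouville: `P` is constant along a Brody curve -/
theorem jd_const_pr (hJ : JD A k m P Q) {f : ℂ → X} (hf : f ∈ BF A C) (z : ℂ) :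
    P (tr z f) = P f := by
  have hd : Differentiable ℂ (fun z => P (tr z f)) := by
    intro z₀
    obtain ⟨i, hi⟩ := cpli_chart (A := A) (f z₀)
    have hcont : ContinuousAt f z₀ := (hf.1 z₀).1
    have hev : ∀ᶠ w in 𝓝 z₀, f w ∈ (A.ch i).source :=
      hcont.eventually ((A.ch i).open_source.mem_nhds hi)
    have hloc : AnalyticAt ℂ (A.loc i f) z₀ := (hf.1 z₀).2 i hi
    have hjet : AnalyticAt ℂ (fun w : ℂ => (fun q : Fin (k + 1) =>
        iteratedDeriv q (A.loc i f) w)) z₀ := by
      rw [analyticAt_pi_iff]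
      intro q
      rw [iteratedDeriv_eq_iterate]
      exact hloc.iterated_deriv q
    have hj0 : (fun q : Fin (k + 1) => iteratedDeriv q (A.loc i f) z₀) 0 ∈ (A.ch i).target := by
      have : (fun q : Fin (k + 1) => iteratedDeriv q (A.loc i f) z₀) 0 = A.ch i (f z₀) := by
        simp [Cha.loc]
      rw [this]
      exact (A.ch i).map_source hi
    have hQ : AnalyticAt ℂ (fun w : ℂ => Q i (fun q : Fin (k + 1) =>
        iteratedDeriv q (A.loc i f) w)) z₀ :=
      (hJ.an i _ hj0).comp hjet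
    have : AnalyticAt ℂ (fun z => P (tr z f)) z₀ := by
      refine hQ.congr ?_
      filter_upwards [hev] with w hw
      have h1 : tr w f 0 ∈ (A.ch i).source := by simpa [tr] using hw
      rw [hJ.eq i (tr w f) (cpli_ger (bf_tr hf w)) h1]
      congr 1
      funext q
      exact (cpli_jet_tr i f w q).symm
    exact this.differentiableAt
  have hb : Bornology.IsBounded (range fun z => P (tr z f)) := by
    have hK : IsCompact (BF A C) := (bf_closed A C).isCompact
    have h1 : IsCompact (P '' BF A C) := hK.image_of_continuousOn (jd_cont_pr hJ)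
    refine h1.isBounded.subset ?_
    rintro _ ⟨w, rfl⟩
    exact ⟨_, bf_tr hf w, rfl⟩
  have := hd.apply_eq_apply_of_bounded hb z 0
  have h0 : tr 0 f = f := by
    funext w
    simp [tr]
  simpa [h0] using this

end jets

end Pool.Agent.MBS

namespace Pool.Agent.MBS
alias jd_const := jd_const_pr
alias jd_cont := jd_cont_pr
end Pool.Agent.MBS
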