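import Pool.Agent.Lib_helper58.MBS.Base

/-! # Minimal Brody sets, block AREC: the recurrence for the Laurent coefficients -/

set_option autoImplicit false
set_option linter.unusedSectionVars false
set_option linter.unusedVariables false

open Filter Topology Metric Set

namespace Pool.Agent.MBS

open Pool.Agent.BR

section pure

variable {E : Type} [NormedAddCommGroup E] [NormedSpace ℂ E] [FiniteDimensional ℂ E]

theorem arec_pow_add {a : ℕ} {u δ : ℂ} (hu : u ≠ 0) : u ^ a + δ = u ^ a * (1 + δ / u ^ a) := by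
  have : u ^ a ≠ 0 := pow_ne_zero _ hu
  field_simp

theorem arec_ne {a : ℕ} {u δ : ℂ} (hu : u ≠ 0) (h : 1 + δ / u ^ a ∈ Complex.slitPlane) :
    u ^ a + δ ≠ 0 := by
  rw [arec_pow_add hu]
  exact mul_ne_zero (pow_ne_zero _ hu) (Complex.slitPlane_ne_zero h)

/-- the derivative of the branch in the parameter -/
theorem arec_d {a : ℕ} (ha : 0 < a) {u δ : ℂ} (hu : u ≠ 0)
    (h : 1 + δ / u ^ a ∈ Complex.slitPlane) :
    HasDerivAt (fun δ => Wr a u δ) (Wr a u δ / (a * (u ^ a + δ))) δ := by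
  have hua : u ^ a ≠ 0 := pow_ne_zero _ hu
  have ha' : (a : ℂ) ≠ 0 := Nat.cast_ne_zero.2 ha.ne'
  have h1 : HasDerivAt (fun δ : ℂ => 1 + δ / u ^ a) (1 / u ^ a) δ :=
    ((hasDerivAt_id δ).div_const _).const_add 1
  have h2 := ((((h1.clog h).div_const (a : ℂ))).cexp).const_mul u
  have h3 : (1 + δ / u ^ a) ≠ 0 := Complex.slitPlane_ne_zero h
  refine h2.congr_deriv ?_
  rw [Wr, arec_pow_add hu]
  field_simp

/-- the derivative of the branch in the variable -/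
theorem arec_u {a : ℕ} (ha : 0 < a) {u δ : ℂ} (hu : u ≠ 0)
    (h : 1 + δ / u ^ a ∈ Complex.slitPlane) :
    HasDerivAt (fun u => Wr a u δ) (u ^ (a - 1) * Wr a u δ / (u ^ a + δ)) u := by
  have hua : u ^ a ≠ 0 := pow_ne_zero _ hu
  have ha' : (a : ℂ) ≠ 0 := Nat.cast_ne_zero.2 ha.ne'
  have h1 : HasDerivAt (fun u : ℂ => 1 + δ / u ^ a)
      ((0 * u ^ a - δ * ((a : ℂ) * u ^ (a - 1))) / (u ^ a) ^ 2) u :=
    (((hasDerivAt_const u δ).div (hasDerivAt_pow a u) hua)).const_add 1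
  have h2 := (hasDerivAt_id u).mul (((h1.clog h).div_const (a : ℂ))).cexp
  have h3 : (1 + δ / u ^ a) ≠ 0 := Complex.slitPlane_ne_zero h
  have h5 : u ^ a + δ ≠ 0 := arec_ne hu h
  have h4 : u ^ a = u ^ (a - 1) * u := by
    rw [← pow_succ, Nat.sub_add_cancel ha]
  have h6 : u ^ (a - 1) ≠ 0 := pow_ne_zero _ hu
  refine h2.congr_deriv ?_
  simp only [id, one_mul]
  rw [Wr]
  set e := Complex.exp (Complex.log (1 + δ / u ^ a) / a) with he
  have h7 : (1 + δ / u ^ a) = (u ^ a + δ) / u ^ a := by field_simp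
  rw [h7]
  set p := u ^ (a - 1) with hp
  rw [h4] at h5 ⊢
  have h8 : u * p + δ ≠ 0 := by rwa [mul_comm]
  field_simp
  ring

/-- the size of the parameter -/
theorem arec_small {a : ℕ} (ha : 0 < a) {ρ s : ℝ} (hs : 0 < s) (hsρ : s < ρ) :
    ∃ r > 0, ∀ δ : ℂ, ‖δ‖ < r → ∀ u : ℂ, ‖u‖ = s →
      1 + δ / u ^ a ∈ Complex.slitPlane ∧ ‖Wr a u δ‖ < ρ := by
  have h1 : ContinuousAt (fun x : ℂ => s * ‖Complex.exp (Complex.log (1 + x) / a)‖) 0 := by
    have h2 : ContinuousAt (fun x : ℂ => 1 + x) 0 := by fun_prop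
    have h3 : (1 : ℂ) + 0 ∈ Complex.slitPlane := by simp
    exact ((((h2.clog h3).div_const (a : ℂ)).cexp).norm).const_mul s
  have h4 : ∀ᶠ x in 𝓝 (0 : ℂ), s * ‖Complex.exp (Complex.log (1 + x) / a)‖ < ρ := by
    refine h1.eventually (gt_mem_nhds ?_)
    simpa using hsρ
  have h5 : ∀ᶠ x in 𝓝 (0 : ℂ), 1 + x ∈ Complex.slitPlane := by
    have h2 : ContinuousAt (fun x : ℂ => 1 + x) 0 := by fun_prop
    exact h2.eventually (Complex.isOpen_slitPlane.mem_nhds (by simp))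
  obtain ⟨ε, hε, h6⟩ := Metric.eventually_nhds_iff.1 (h4.and h5)
  refine ⟨ε * s ^ a, by positivity, fun δ hδ u hu => ?_⟩
  have h7 : dist (δ / u ^ a) 0 < ε := by
    rw [dist_zero_right, norm_div, norm_pow, hu, div_lt_iff₀ (by positivity)]
    exact hδ
  obtain ⟨h8, h9⟩ := h6 h7
  refine ⟨h9, ?_⟩
  rw [Wr, norm_mul, hu]
  exact h8

/-- joint continuity of the branch -/
theorem arec_cont {a : ℕ} {K : Set (ℂ × ℂ)} (h0 : ∀ p ∈ K, p.2 ≠ 0)
    (h : ∀ p ∈ K, 1 + p.1 / p.2 ^ a ∈ Complex.slitPlane) :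
    ContinuousOn (fun p : ℂ × ℂ => Wr a p.2 p.1) K := by
  have h1 : ContinuousOn (fun p : ℂ × ℂ => 1 + p.1 / p.2 ^ a) K :=
    continuousOn_const.add (continuousOn_fst.div (continuousOn_snd.pow a)
      fun p hp => pow_ne_zero _ (h0 p hp))
  exact continuousOn_snd.mul (((h1.clog h).div_const (a : ℂ)).cexp)

/-- differentiation under the circle integral -/
theorem arec_under {s r : ℝ} (hs : 0 < s) {G D : ℂ → ℂ → E}
    (hG : ContinuousOn (fun p : ℂ × ℂ => G p.1 p.2) (ball 0 r ×ˢ sphere 0 s))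
    (hD : ContinuousOn (fun p : ℂ × ℂ => D p.1 p.2) (ball 0 r ×ˢ sphere 0 s))
    (h : ∀ δ ∈ ball (0 : ℂ) r, ∀ u ∈ sphere (0 : ℂ) s, HasDerivAt (fun δ => G δ u) (D δ u) δ)
    {δ : ℂ} (hδ : δ ∈ ball (0 : ℂ) r) :
    HasDerivAt (fun δ => ∮ u in C(0, s), G δ u) (∮ u in C(0, s), D δ u) δ := by
  have : CompleteSpace E := FiniteDimensional.complete ℂ E
  have hδ' : ‖δ‖ < r := by simpa using hδ
  set r' := (‖δ‖ + r) / 2 with hr'
  have h1 : ‖δ‖ < r' := by rw [hr']; linarith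
  have h2 : r' < r := by rw [hr']; linarith
  have hsub : closedBall (0 : ℂ) r' ×ˢ sphere (0 : ℂ) s ⊆ ball 0 r ×ˢ sphere 0 s :=
    prod_mono (closedBall_subset_ball h2) subset_rfl
  have hK : IsCompact (closedBall (0 : ℂ) r' ×ˢ sphere (0 : ℂ) s) :=
    (isCompact_closedBall 0 r').prod (isCompact_sphere 0 s)
  obtain ⟨M, hM⟩ := hK.exists_bound_of_continuousOn (hD.mono hsub)
  have hcm : ∀ θ : ℝ, circleMap 0 s θ ∈ sphere (0 : ℂ) s := fun θ =>
    circleMap_mem_sphere 0 hs.le θ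
  have hcont : ∀ H : ℂ → ℂ → E,
      ContinuousOn (fun p : ℂ × ℂ => H p.1 p.2) (ball 0 r ×ˢ sphere 0 s) →
      ∀ x ∈ ball (0 : ℂ) r, Continuous fun θ : ℝ =>
        deriv (circleMap 0 s) θ • H x (circleMap 0 s θ) := by
    intro H hH x hx
    have h3 : Continuous fun θ : ℝ => H x (circleMap 0 s θ) := by
      have h4 : Continuous fun θ : ℝ => (x, circleMap 0 s θ) :=
        continuous_const.prodMk (continuous_circleMap 0 s)
      exact hH.comp_continuous h4 fun θ => ⟨hx, hcm θ⟩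
    have h5 : Continuous fun θ : ℝ => deriv (circleMap 0 s) θ := by
      simp only [deriv_circleMap]
      exact (continuous_circleMap 0 s).mul continuous_const
    exact h5.smul h3
  have hball : ball (0 : ℂ) r' ⊆ ball 0 r := ball_subset_ball h2.le
  have hnear : ball (0 : ℂ) r' ∈ 𝓝 δ := isOpen_ball.mem_nhds (by simpa using h1)
  have hmain := intervalIntegral.hasDerivAt_integral_of_dominated_loc_of_deriv_le
    (μ := MeasureTheory.volume) (a := 0) (b := 2 * Real.pi)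
    (F := fun x θ => deriv (circleMap 0 s) θ • G x (circleMap 0 s θ))
    (F' := fun x θ => deriv (circleMap 0 s) θ • D x (circleMap 0 s θ))
    (bound := fun _ => s * M) (x₀ := δ) (s := ball (0 : ℂ) r') hnear
    ?_ ?_ ?_ ?_ ?_ ?_
  · exact hmain.2
  · filter_upwards [hnear] with x hx
    exact (hcont G hG x (hball hx)).aestronglyMeasurable
  · exact (hcont G hG δ hδ).intervalIntegrable _ _
  · exact (hcont D hD δ hδ).aestronglyMeasurable
  · refine Eventually.of_forall fun θ _ x hx => ?_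
    rw [norm_smul, deriv_circleMap, norm_mul, Complex.norm_I, mul_one, norm_circleMap_zero,
      abs_of_pos hs]
    exact mul_le_mul_of_nonneg_left (hM (x, circleMap 0 s θ)
      ⟨ball_subset_closedBall hx, hcm θ⟩) hs.le
  · exact intervalIntegrable_const
  · refine Eventually.of_forall fun θ _ x hx => ?_
    exact (h x (hball hx) _ (hcm θ)).const_smul _

/-- AREC: the recurrence for the Laurent coefficients -/
theorem ceq_rec_pr {a : ℕ} (ha : 0 < a) {ρ s : ℝ} (hs : 0 < s) (hsρ : s < ρ) {β : ℂ → E}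
    (hβ : ∀ u ∈ ball (0 : ℂ) ρ, AnalyticAt ℂ β u) (j : ℤ) :
    AnalyticAt ℂ (fun δ : ℂ => ∮ u in C(0, s), u ^ (j - 1) • β (Wr a u δ)) 0 ∧
    ∀ᶠ δ in 𝓝 (0 : ℂ), HasDerivAt (fun δ : ℂ => ∮ u in C(0, s), u ^ (j - 1) • β (Wr a u δ))
      ((1 - (j : ℂ) / a) • ∮ u in C(0, s), u ^ (j - a - 1) • β (Wr a u δ)) δ := by
  have : CompleteSpace E := FiniteDimensional.complete ℂ E
  obtain ⟨r, hr, hsm⟩ := arec_small (a := a) ha hs hsρ
  have ha' : (a : ℂ) ≠ 0 := Nat.cast_ne_zero.2 ha.ne'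
  -- the set of parameters
  have hne : ∀ u ∈ sphere (0 : ℂ) s, u ≠ 0 := by
    rintro u hu rfl
    rw [mem_sphere, dist_self] at hu
    exact hs.ne hu
  have hnorm : ∀ u ∈ sphere (0 : ℂ) s, ‖u‖ = s := fun u hu => by simpa using hu
  have hsl : ∀ p ∈ ball (0 : ℂ) r ×ˢ sphere (0 : ℂ) s, 1 + p.1 / p.2 ^ a ∈ Complex.slitPlane :=
    fun p hp => (hsm p.1 (by simpa using hp.1) p.2 (hnorm _ hp.2)).1
  have hmem : ∀ p ∈ ball (0 : ℂ) r ×ˢ sphere (0 : ℂ) s, Wr a p.2 p.1 ∈ ball (0 : ℂ) ρ :=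
    fun p hp => by
      rw [mem_ball_zero_iff]
      exact (hsm p.1 (by simpa using hp.1) p.2 (hnorm _ hp.2)).2
  have hWc : ContinuousOn (fun p : ℂ × ℂ => Wr a p.2 p.1) (ball 0 r ×ˢ sphere 0 s) :=
    arec_cont (fun p hp => hne _ hp.2) hsl
  have hβc : ContinuousOn β (ball 0 ρ) := fun u hu => (hβ u hu).continuousAt.continuousWithinAt
  have hβ'c : ContinuousOn (deriv β) (ball 0 ρ) := fun u hu =>
    (hβ u hu).deriv.continuousAt.continuousWithinAt
  have hβW : ContinuousOn (fun p : ℂ × ℂ => β (Wr a p.2 p.1)) (ball 0 r ×ˢ sphere 0 s) :=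
    hβc.comp hWc hmem
  have hβ'W : ContinuousOn (fun p : ℂ × ℂ => deriv β (Wr a p.2 p.1)) (ball 0 r ×ˢ sphere 0 s) :=
    hβ'c.comp hWc hmem
  have hpow : ∀ n : ℤ, ContinuousOn (fun p : ℂ × ℂ => p.2 ^ n)
      (ball (0 : ℂ) r ×ˢ sphere (0 : ℂ) s) := fun n =>
    continuousOn_snd.zpow₀ n fun p hp => Or.inl (hne _ hp.2)
  have hsum : ContinuousOn (fun p : ℂ × ℂ => (a : ℂ) * (p.2 ^ a + p.1))
      (ball (0 : ℂ) r ×ˢ sphere (0 : ℂ) s) :=
    continuousOn_const.mul ((continuousOn_snd.pow a).add continuousOn_fst)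
  have hG : ContinuousOn (fun p : ℂ × ℂ => p.2 ^ (j - 1) • β (Wr a p.2 p.1))
      (ball 0 r ×ˢ sphere 0 s) := (hpow _).smul hβW
  have hD : ContinuousOn (fun p : ℂ × ℂ => p.2 ^ (j - 1) •
      ((Wr a p.2 p.1 / (a * (p.2 ^ a + p.1))) • deriv β (Wr a p.2 p.1)))
      (ball 0 r ×ˢ sphere 0 s) := by
    refine (hpow _).smul (ContinuousOn.smul (hWc.div hsum fun p hp => ?_) hβ'W)
    exact mul_ne_zero ha' (arec_ne (hne _ hp.2) (hsl p hp))
  have hder : ∀ δ ∈ ball (0 : ℂ) r, ∀ u ∈ sphere (0 : ℂ) s,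
      HasDerivAt (fun δ => u ^ (j - 1) • β (Wr a u δ)) (u ^ (j - 1) •
        ((Wr a u δ / (a * (u ^ a + δ))) • deriv β (Wr a u δ))) δ := by
    intro δ hδ u hu
    have h1 := arec_d ha (hne u hu) (hsl (δ, u) ⟨hδ, hu⟩)
    have h2 := (hβ _ (hmem (δ, u) ⟨hδ, hu⟩)).differentiableAt.hasDerivAt
    exact (h2.scomp δ h1).const_smul _
  have hI : ∀ δ ∈ ball (0 : ℂ) r,
      HasDerivAt (fun δ : ℂ => ∮ u in C(0, s), u ^ (j - 1) • β (Wr a u δ))
        (∮ u in C(0, s), u ^ (j - 1) •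
          ((Wr a u δ / (a * (u ^ a + δ))) • deriv β (Wr a u δ))) δ := fun δ hδ =>
    arec_under hs (G := fun δ u => u ^ (j - 1) • β (Wr a u δ)) hG hD hder hδ
  have hval : ∀ δ ∈ ball (0 : ℂ) r, (∮ u in C(0, s), u ^ (j - 1) •
          ((Wr a u δ / (a * (u ^ a + δ))) • deriv β (Wr a u δ))) =
      (1 - (j : ℂ) / a) • ∮ u in C(0, s), u ^ (j - a - 1) • β (Wr a u δ) := by
    intro δ hδ
    have hsec : ∀ H : ℂ × ℂ → E, ContinuousOn H (ball 0 r ×ˢ sphere 0 s) →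
        CircleIntegrable (fun u => H (δ, u)) 0 s := by
      intro H hH
      refine ContinuousOn.circleIntegrable hs.le ?_
      exact hH.comp (continuousOn_const.prodMk continuousOn_id) fun u hu => ⟨hδ, hu⟩
    have hz : (∮ u in C(0, s), ((((j : ℂ) - a) • (u ^ (j - a - 1) • β (Wr a u δ))) +
        (a : ℂ) • (u ^ (j - 1) •
          ((Wr a u δ / (a * (u ^ a + δ))) • deriv β (Wr a u δ))))) = 0 := by
      refine circleIntegral.integral_eq_zero_of_hasDerivWithinAt hs.le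
        (f := fun u => u ^ (j - a) • β (Wr a u δ)) fun u hu => ?_
      have h1 := arec_u ha (hne u hu) (hsl (δ, u) ⟨hδ, hu⟩)
      have h2 := (hβ _ (hmem (δ, u) ⟨hδ, hu⟩)).differentiableAt.hasDerivAt
      have h3 := hasDerivAt_zpow (j - a) u (Or.inl (hne u hu))
      have h4 := h3.smul (h2.scomp u h1)
      refine (h4.congr_deriv ?_).hasDerivWithinAt
      have h5 : u ^ a + δ ≠ 0 := arec_ne (hne u hu) (hsl (δ, u) ⟨hδ, hu⟩)
      have h6 : u ^ (j - a) * u ^ (a - 1) = u ^ (j - 1) := by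
        rw [← zpow_natCast u (a - 1), ← zpow_add₀ (hne u hu)]
        congr 1
        omega
      simp only [Function.comp, smul_smul]
      rw [add_comm]
      congr 1
      · push_cast
        rfl
      · congr 1
        rw [← h6]
        field_simp
    have hc1 : CircleIntegrable
        (fun u => ((j : ℂ) - a) • (u ^ (j - a - 1) • β (Wr a u δ))) 0 s :=
      hsec (fun p => ((j : ℂ) - a) • (p.2 ^ (j - a - 1) • β (Wr a p.2 p.1)))
        (((hpow (j - a - 1)).smul hβW).const_smul _)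
    have hc2 : CircleIntegrable (fun u => (a : ℂ) • (u ^ (j - 1) •
          ((Wr a u δ / (a * (u ^ a + δ))) • deriv β (Wr a u δ)))) 0 s :=
      hsec (fun p => (a : ℂ) • (p.2 ^ (j - 1) •
          ((Wr a p.2 p.1 / (a * (p.2 ^ a + p.1))) • deriv β (Wr a p.2 p.1)))) (hD.const_smul _)
    have hadd := (circleIntegral.integral_add hc1 hc2).symm.trans hz
    rw [circleIntegral.integral_smul, circleIntegral.integral_smul] at hadd
    have h7 : (∮ u in C(0, s), u ^ (j - 1) •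
          ((Wr a u δ / (a * (u ^ a + δ))) • deriv β (Wr a u δ))) =
        (a : ℂ)⁻¹ • ((a : ℂ) • ∮ u in C(0, s), u ^ (j - 1) •
          ((Wr a u δ / (a * (u ^ a + δ))) • deriv β (Wr a u δ))) := by
      rw [smul_smul, inv_mul_cancel₀ ha', one_smul]
    rw [h7, eq_neg_of_add_eq_zero_right hadd, smul_neg, smul_smul, ← neg_smul]
    congr 1
    field_simp
    ring
  have hev : ∀ᶠ δ in 𝓝 (0 : ℂ), δ ∈ ball (0 : ℂ) r := ball_mem_nhds 0 hr
  refine ⟨?_, ?_⟩
  · have h1 : DifferentiableOn ℂ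
        (fun δ : ℂ => ∮ u in C(0, s), u ^ (j - 1) • β (Wr a u δ)) (ball 0 r) := fun δ hδ =>
      (hI δ hδ).differentiableAt.differentiableWithinAt
    exact h1.analyticAt (ball_mem_nhds 0 hr)
  · filter_upwards [hev] with δ hδ
    rw [← hval δ hδ]
    exact hI δ hδ

end pure

end Pool.Agent.MBS

namespace Pool.Agent.MBS
alias ceq_rec := ceq_rec_pr
end Pool.Agent.MBS
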