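import Pool.Agent.Lib_helper58.MBS.Base
import Pool.Agent.Lib_helper58.MBS.L.AREC

set_option autoImplicit false
set_option linter.unusedSectionVars false
set_option linter.unusedVariables false

open Filter Topology Metric Set

namespace Pool.Agent.MBS

open Pool.Agent.BR

section pure

variable {E : Type} [NormedAddCommGroup E] [NormedSpace ℂ E] [FiniteDimensional ℂ E]

theorem aceq_radial {B : ℂ → E} (hB : AnalyticAt ℂ B 0) :
    ∃ C : ℝ, 0 ≤ C ∧ ∃ r > 0, ∀ d : ℂ, ‖d‖ < r → ∀ t : ℝ, 0 ≤ t → t ≤ 1 →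
      ‖B ((t : ℂ) * d)‖ ≤ C * ‖B d‖ := by
  by_cases hz : ∀ᶠ z in 𝓝 (0 : ℂ), B z = 0
  · obtain ⟨r, hr, h⟩ := Metric.eventually_nhds_iff.1 hz
    refine ⟨0, le_rfl, r, hr, ?_⟩
    intro d hd t ht0 ht1
    rw [h, norm_zero, zero_mul]
    rw [dist_zero_right, norm_mul, Complex.norm_real, Real.norm_eq_abs, abs_of_nonneg ht0]
    calc t * ‖d‖ ≤ 1 * ‖d‖ := by gcongr
      _ < r := by linarith
  · obtain ⟨n, g, hg, hg0, hev⟩ := hB.exists_eventuallyEq_pow_smul_nonzero_iff.2 hz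
    have hgp : 0 < ‖g 0‖ := norm_pos_iff.2 hg0
    have h1 : ∀ᶠ z in 𝓝 (0 : ℂ), ‖g z‖ < 2 * ‖g 0‖ :=
      hg.continuousAt.norm.eventually_lt_const (by linarith)
    have h2 : ∀ᶠ z in 𝓝 (0 : ℂ), ‖g 0‖ / 2 < ‖g z‖ :=
      hg.continuousAt.norm.eventually_const_lt (by linarith)
    obtain ⟨r, hr, h⟩ := Metric.eventually_nhds_iff.1 ((hev.and h1).and h2)
    refine ⟨4, by norm_num, r, hr, ?_⟩
    intro d hd t ht0 ht1
    have hnd : ‖(t : ℂ) * d‖ = t * ‖d‖ := by
      rw [norm_mul, Complex.norm_real, Real.norm_eq_abs, abs_of_nonneg ht0]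
    have hnd' : t * ‖d‖ ≤ ‖d‖ := by
      calc t * ‖d‖ ≤ 1 * ‖d‖ := by gcongr
        _ = ‖d‖ := one_mul _
    obtain ⟨⟨e1, b1⟩, -⟩ := h (y := (t : ℂ) * d) (by rw [dist_zero_right, hnd]; linarith)
    obtain ⟨⟨e2, -⟩, b2⟩ := h (y := d) (by rw [dist_zero_right]; exact hd)
    rw [e1, e2, sub_zero, sub_zero, norm_smul, norm_smul, norm_pow, norm_pow, hnd]
    have h3 : (t * ‖d‖) ^ n ≤ ‖d‖ ^ n := by gcongr
    calc (t * ‖d‖) ^ n * ‖g (↑t * d)‖ ≤ ‖d‖ ^ n * (2 * ‖g 0‖) := by gcongr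
      _ ≤ ‖d‖ ^ n * (4 * ‖g d‖) := mul_le_mul_of_nonneg_left (by linarith) (by positivity)
      _ = 4 * (‖d‖ ^ n * ‖g d‖) := by ring

theorem aceq_Wr_zero (a : ℕ) (u : ℂ) : Wr a u 0 = u := by
  simp [Wr]

theorem aceq_Wr_cont {a : ℕ} {u : ℂ} (hu : u ≠ 0) :
    ∀ᶠ p : ℂ × ℂ in 𝓝 (u, (0 : ℂ)), ContinuousAt (fun q : ℂ × ℂ => Wr a q.1 q.2) p := by
  have h0 : ContinuousAt (fun q : ℂ × ℂ => 1 + q.2 / q.1 ^ a) (u, (0 : ℂ)) := by
    apply ContinuousAt.add continuousAt_const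
    apply ContinuousAt.div continuousAt_snd (continuousAt_fst.pow a)
    exact pow_ne_zero _ hu
  have h1 : ∀ᶠ p : ℂ × ℂ in 𝓝 (u, (0 : ℂ)), 1 + p.2 / p.1 ^ a ∈ Complex.slitPlane := by
    apply h0.eventually_mem
    apply Complex.isOpen_slitPlane.mem_nhds
    simp [Complex.slitPlane]
  have h2 : ∀ᶠ p : ℂ × ℂ in 𝓝 (u, (0 : ℂ)), p.1 ≠ 0 :=
    continuousAt_fst.eventually_ne hu
  filter_upwards [h1, h2] with p hp1 hp2
  unfold Wr
  apply ContinuousAt.mul continuousAt_fst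
  apply ContinuousAt.cexp
  apply ContinuousAt.div_const
  have h3 : ContinuousAt (fun q : ℂ × ℂ => 1 + q.2 / q.1 ^ a) p := by
    apply ContinuousAt.add continuousAt_const
    exact ContinuousAt.div continuousAt_snd (continuousAt_fst.pow a) (pow_ne_zero _ hp2)
  exact h3.clog hp1

theorem aceq_Wr_good {a : ℕ} {ρ s : ℝ} (hs : 0 < s) (hsρ : s < ρ) :
    ∀ᶠ d in 𝓝 (0 : ℂ), ∀ u ∈ sphere (0 : ℂ) s,
      ContinuousAt (fun v : ℂ => Wr a v d) u ∧ Wr a u d ∈ ball (0 : ℂ) ρ := by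
  apply (isCompact_sphere (0 : ℂ) s).eventually_forall_of_forall_eventually
  intro u hu
  have hu' : ‖u‖ = s := mem_sphere_zero_iff_norm.1 hu
  have hu0 : u ≠ 0 := by
    rintro rfl
    simp at hu'
    linarith
  have h1 := aceq_Wr_cont (a := a) hu0
  have h2 : ∀ᶠ p : ℂ × ℂ in 𝓝 (u, (0 : ℂ)), Wr a p.1 p.2 ∈ ball (0 : ℂ) ρ := by
    apply h1.self_of_nhds.eventually_mem
    apply isOpen_ball.mem_nhds
    simp only []
    rw [aceq_Wr_zero, mem_ball_zero_iff]
    linarith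
  have h3 : ∀ᶠ p : ℂ × ℂ in 𝓝 (u, (0 : ℂ)),
      ContinuousAt (fun v : ℂ => Wr a v p.2) p.1 ∧ Wr a p.1 p.2 ∈ ball (0 : ℂ) ρ := by
    filter_upwards [h1, h2] with p hp1 hp2
    refine ⟨?_, hp2⟩
    exact ContinuousAt.comp' (f := fun v : ℂ => (v, p.2)) (x := p.1)
      (g := fun q : ℂ × ℂ => Wr a q.1 q.2) hp1 (by fun_prop)
  have h4 : Tendsto (fun p : ℂ × ℂ => (p.2, p.1)) (𝓝 ((0 : ℂ), u)) (𝓝 (u, (0 : ℂ))) := by
    have : Continuous (fun p : ℂ × ℂ => (p.2, p.1)) := by fun_prop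
    exact this.tendsto' _ _ rfl
  exact h4.eventually h3

/-- ACEQ: the Laurent coefficients of order `≤ -a` of the linearised displacement vanish -/
theorem ceq_pr {κ : Type} {F : Filter κ} {a : ℕ} (ha : 0 < a) {ρ s : ℝ} (hs : 0 < s) (hsρ : s < ρ)
    {β : ℂ → E} {b : κ → ℂ → E} (hβ : ∀ u ∈ ball (0 : ℂ) ρ, AnalyticAt ℂ β u)
    (hb : ∀ᶠ k in F, ∀ u ∈ ball (0 : ℂ) ρ, AnalyticAt ℂ (b k) u) {δ : κ → ℂ}
    (hδ : Tendsto δ F (𝓝 0)) {m : κ → ℝ} (hm : ∀ᶠ k in F, 0 < m k) {B : ℝ}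
    (h : ∀ᶠ k in F, ∀ u ∈ sphere (0 : ℂ) s, ‖β (Wr a u (δ k)) - b k u‖ ≤ B * m k) (j : ℕ)
    (hj : a ≤ j) :
    Tendsto (fun k => ((m k : ℂ))⁻¹ • ∮ u in C(0, s), u ^ ((j : ℤ) - 1) •
      (β (Wr a u (δ k)) - b k u)) F (𝓝 0) := by
  set A : ℤ → ℂ → E := fun i d => ∮ u in C(0, s), u ^ (i - 1) • β (Wr a u d) with hA
  have hsph : ∀ u ∈ sphere (0 : ℂ) s, u ≠ 0 := by
    intro u hu
    have hu' : ‖u‖ = s := mem_sphere_zero_iff_norm.1 hu
    rintro rfl
    simp at hu'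
    linarith
  have hzc : ∀ i : ℤ, ContinuousOn (fun u : ℂ => u ^ i) (sphere (0 : ℂ) s) := fun i =>
    continuousOn_id.zpow₀ i (fun u hu => Or.inl (hsph u hu))
  -- Cauchy
  have hcauchy : ∀ f : ℂ → E, (∀ u ∈ ball (0 : ℂ) ρ, AnalyticAt ℂ f u) → ∀ i : ℤ, 1 ≤ i →
      (∮ u in C(0, s), u ^ (i - 1) • f u) = 0 := by
    intro f hf i hi
    obtain ⟨n, hn⟩ := Int.eq_ofNat_of_zero_le (show 0 ≤ i - 1 by omega)
    rw [hn]
    simp only [zpow_natCast]
    have han : ∀ u ∈ closedBall (0 : ℂ) s, AnalyticAt ℂ (fun u : ℂ => u ^ n • f u) u := by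
      intro u hu
      have hu1 : u ∈ ball (0 : ℂ) ρ := by
        rw [mem_ball_zero_iff]
        have := mem_closedBall_zero_iff.1 hu
        linarith
      exact (analyticAt_id.pow n).smul (hf u hu1)
    apply Complex.circleIntegral_eq_zero_of_differentiable_on_off_countable hs.le
      Set.countable_empty
    · intro u hu
      exact (han u hu).continuousAt.continuousWithinAt
    · intro u hu
      exact (han u (ball_subset_closedBall hu.1)).differentiableAt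
  -- splitting
  have hsplit : ∀ i : ℤ, 1 ≤ i → ∀ᶠ k in F, (∮ u in C(0, s), u ^ (i - 1) •
      (β (Wr a u (δ k)) - b k u)) = A i (δ k) := by
    intro i hi
    filter_upwards [hδ.eventually (aceq_Wr_good (a := a) hs hsρ), hb] with k hk1 hk2
    have e1 : (∮ u in C(0, s), u ^ (i - 1) • (β (Wr a u (δ k)) - b k u)) =
        ∮ u in C(0, s), (u ^ (i - 1) • β (Wr a u (δ k)) - u ^ (i - 1) • b k u) := by
      apply circleIntegral.integral_congr hs.le
      intro u hu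
      simp only [smul_sub]
    rw [e1, circleIntegral.integral_sub, hcauchy (b k) hk2 i hi, sub_zero]
    · apply ContinuousOn.circleIntegrable hs.le
      apply (hzc _).smul
      intro u hu
      exact (ContinuousAt.comp' (f := fun v : ℂ => Wr a v (δ k)) (x := u)
        (g := β) (hβ _ (hk1 u hu).2).continuousAt (hk1 u hu).1).continuousWithinAt
    · apply ContinuousOn.circleIntegrable hs.le
      apply (hzc _).smul
      intro u hu
      refine (hk2 u ?_).continuousAt.continuousWithinAt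
      rw [mem_ball_zero_iff, mem_sphere_zero_iff_norm.1 hu]
      exact hsρ
  -- A at zero
  have hA0 : ∀ i : ℤ, 1 ≤ i → A i 0 = 0 := by
    intro i hi
    rw [← hcauchy β hβ i hi]
    simp only [hA]
    apply circleIntegral.integral_congr hs.le
    intro u hu
    simp only [aceq_Wr_zero]
  have ha0 : (a : ℂ) ≠ 0 := by exact_mod_cast ha.ne'
  have hrec := fun i : ℤ => (ceq_rec ha hs hsρ hβ i).2
  rcases hj.eq_or_lt with hja | hja
  · -- j = a
    have h1 : ∀ᶠ d in 𝓝 (0 : ℂ), A (j : ℤ) d = 0 := by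
      obtain ⟨r, hr, hball⟩ := Metric.eventually_nhds_iff_ball.1 (hrec (j : ℤ))
      have hcoef : (1 - ((j : ℤ) : ℂ) / a) = 0 := by
        rw [← hja]
        push_cast
        field_simp
        ring
      have hder : ∀ d ∈ ball (0 : ℂ) r, HasDerivAt (A (j : ℤ)) 0 d := by
        intro d hd
        have := hball d hd
        rw [hcoef, zero_smul] at this
        exact this
      filter_upwards [Metric.ball_mem_nhds (0 : ℂ) hr] with d hd
      have hconst := (convex_ball (0 : ℂ) r).is_const_of_fderivWithin_eq_zero (𝕜 := ℂ)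
        (f := A (j : ℤ)) (fun x hx => (hder x hx).differentiableAt.differentiableWithinAt)
        (fun x hx => by
          rw [fderivWithin_of_isOpen isOpen_ball hx]
          have := (hder x hx).hasFDerivAt.fderiv
          rw [this]
          simp) hd (mem_ball_self hr)
      rw [hconst]
      exact hA0 _ (by omega)
    apply (tendsto_const_nhds (x := (0 : E))).congr'
    filter_upwards [hδ.eventually h1, hsplit (j : ℤ) (by omega)] with k hk1 hk2
    rw [hk2, hk1, smul_zero]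
  · -- j > a
    set i : ℤ := (j : ℤ) - a with hi
    have hi1 : 1 ≤ i := by omega
    have hAan : AnalyticAt ℂ (A i) 0 := (ceq_rec ha hs hsρ hβ i).1
    obtain ⟨C, hC, r₁, hr₁, hrad⟩ := aceq_radial hAan
    obtain ⟨r₂, hr₂, hball⟩ := Metric.eventually_nhds_iff_ball.1 (hrec (j : ℤ))
    set c : ℂ := 1 - ((j : ℤ) : ℂ) / a with hc
    have hmv : ∀ d : ℂ, ‖d‖ < min r₁ r₂ → ‖A (j : ℤ) d‖ ≤ ‖c‖ * C * ‖A i d‖ * ‖d‖ := by
      intro d hd
      have hd1 : ‖d‖ < r₁ := lt_of_lt_of_le hd (min_le_left _ _)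
      have hd2 : ‖d‖ < r₂ := lt_of_lt_of_le hd (min_le_right _ _)
      have hseg : ∀ x ∈ segment ℝ (0 : ℂ) d, ∃ t : ℝ, 0 ≤ t ∧ t ≤ 1 ∧ x = (t : ℂ) * d := by
        intro x hx
        rw [segment_eq_image] at hx
        obtain ⟨t, ht, rfl⟩ := hx
        refine ⟨t, ht.1, ht.2, ?_⟩
        simp
      have := (convex_segment (0 : ℂ) d).norm_image_sub_le_of_norm_hasDerivWithin_le (𝕜 := ℂ)
        (f := A (j : ℤ)) (f' := fun x => c • A i x) (C := ‖c‖ * C * ‖A i d‖)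
        (x := 0) (y := d)
        (fun x hx => by
          obtain ⟨t, ht0, ht1, rfl⟩ := hseg x hx
          have hmem : (t : ℂ) * d ∈ ball (0 : ℂ) r₂ := by
            rw [mem_ball_zero_iff, norm_mul, Complex.norm_real, Real.norm_eq_abs,
              abs_of_nonneg ht0]
            calc t * ‖d‖ ≤ 1 * ‖d‖ := by gcongr
              _ < r₂ := by linarith
          have := hball _ hmem
          have h2 : ∀ x : ℂ, (∮ u in C(0, s), u ^ ((j : ℤ) - a - 1) • β (Wr a u x)) = A i x :=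
            fun x => rfl
          rw [h2] at this
          exact this.hasDerivWithinAt)
        (fun x hx => by
          obtain ⟨t, ht0, ht1, rfl⟩ := hseg x hx
          rw [norm_smul, mul_assoc]
          exact mul_le_mul_of_nonneg_left (hrad d hd1 t ht0 ht1) (norm_nonneg _))
        (left_mem_segment ℝ _ _) (right_mem_segment ℝ _ _)
      rw [hA0 _ (by omega), sub_zero, sub_zero] at this
      exact this
    have hbound : ∀ᶠ k in F, ‖A i (δ k)‖ ≤ 2 * Real.pi * s * (s ^ (i - 1) * B) * m k := by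
      filter_upwards [hsplit i hi1, h] with k hk1 hk2
      rw [← hk1]
      have := circleIntegral.norm_integral_le_of_norm_le_const (f := fun u : ℂ =>
        u ^ (i - 1) • (β (Wr a u (δ k)) - b k u)) (c := (0 : ℂ)) (R := s)
        (C := s ^ (i - 1) * (B * m k)) hs.le (by
          intro u hu
          have hu' : ‖u‖ = s := mem_sphere_zero_iff_norm.1 hu
          rw [norm_smul, norm_zpow, hu']
          exact mul_le_mul_of_nonneg_left (hk2 u hu) (by positivity))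
      calc _ ≤ _ := this
        _ = _ := by ring
    set K : ℝ := ‖c‖ * C * (2 * Real.pi * s * (s ^ (i - 1) * B)) with hK
    have hlim : Tendsto (fun k => K * ‖δ k‖) F (𝓝 0) := by
      have := hδ.norm.const_mul K
      simpa using this
    apply squeeze_zero_norm' _ hlim
    have hsmall : ∀ᶠ k in F, ‖δ k‖ < min r₁ r₂ := by
      have h0 : (0 : ℝ) < min r₁ r₂ := lt_min hr₁ hr₂
      have := hδ.norm
      rw [norm_zero] at this
      exact this.eventually_lt_const h0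
    filter_upwards [hsplit (j : ℤ) (by omega), hm, hbound, hsmall] with k hk1 hk2 hk3 hk4
    rw [hk1, norm_smul, norm_inv, Complex.norm_real, Real.norm_eq_abs, abs_of_pos hk2]
    rw [inv_mul_le_iff₀ hk2]
    calc ‖A (j : ℤ) (δ k)‖ ≤ ‖c‖ * C * ‖A i (δ k)‖ * ‖δ k‖ := hmv _ hk4
      _ ≤ ‖c‖ * C * (2 * Real.pi * s * (s ^ (i - 1) * B) * m k) * ‖δ k‖ := by gcongr
      _ = m k * (K * ‖δ k‖) := by rw [hK]; ring


end pure

end Pool.Agent.MBS

namespace Pool.Agent.MBS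
alias ceq := ceq_pr
end Pool.Agent.MBS
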