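import Pool.Agent.Lib_helper58.MBS.Base

/-! # Minimal Brody sets: block AINV (uniform local inverses) -/

set_option autoImplicit false
set_option linter.unusedSectionVars false
set_option linter.unusedVariables false

open Filter Topology Metric Set

namespace Pool.Agent.MBS

open Pool.Agent.BR

section pure

variable {E : Type} [NormedAddCommGroup E] [NormedSpace ℂ E] [FiniteDimensional ℂ E]

theorem ainv_deriv {φ F : ℂ → ℂ} {z₀ a : ℂ} {r' δ : ℝ} (hr' : 0 < r')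
    (hφ : ∀ z ∈ ball z₀ r', AnalyticAt ℂ φ z) (hd : ∀ z ∈ ball z₀ r', ‖deriv φ z - a‖ ≤ ‖a‖ / 8)
    (hF : ∀ z ∈ ball z₀ r', AnalyticAt ℂ F z) (hle : ∀ z ∈ ball z₀ r', ‖F z - φ z‖ ≤ δ)
    (hδ : δ = ‖a‖ * r' / 64) {z : ℂ} (hz : z ∈ ball z₀ (r' / 2)) : ‖deriv F z - a‖ ≤ ‖a‖ / 4 := by
  have hz' : z ∈ ball z₀ r' := ball_subset_ball (by linarith) hz
  have hsub : closedBall z (r' / 4) ⊆ ball z₀ r' := by
    intro w hw
    rw [mem_ball] at hz ⊢
    rw [mem_closedBall] at hw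
    linarith [dist_triangle w z z₀]
  have h1 : ‖deriv (fun w => F w - φ w) z‖ ≤ δ / (r' / 4) := by
    apply Complex.norm_deriv_le_of_forall_mem_sphere_norm_le (by linarith)
    · apply DifferentiableOn.diffContOnCl
      rw [closure_ball z (by linarith : r' / 4 ≠ 0)]
      intro w hw
      exact ((hF w (hsub hw)).differentiableAt.sub
        (hφ w (hsub hw)).differentiableAt).differentiableWithinAt
    · intro w hw
      exact hle w (hsub (sphere_subset_closedBall hw))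
  have h2 : deriv (fun w => F w - φ w) z = deriv F z - deriv φ z :=
    deriv_fun_sub (hF z hz').differentiableAt (hφ z hz').differentiableAt
  rw [h2, hδ] at h1
  have h3 : ‖a‖ * r' / 64 / (r' / 4) = ‖a‖ / 16 := by
    field_simp
    ring
  rw [h3] at h1
  have h4 := hd z hz'
  calc ‖deriv F z - a‖ = ‖(deriv F z - deriv φ z) + (deriv φ z - a)‖ := by
        congr 1
        ring
    _ ≤ ‖deriv F z - deriv φ z‖ + ‖deriv φ z - a‖ := norm_add_le _ _
    _ ≤ ‖a‖ / 4 := by linarith [norm_nonneg a]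

theorem ainv_lip {F : ℂ → ℂ} {z₀ a : ℂ} {r₁ : ℝ} (ha : a ≠ 0)
    (hF : ∀ z ∈ ball z₀ r₁, AnalyticAt ℂ F z)
    (hd : ∀ z ∈ ball z₀ r₁, ‖deriv F z - a‖ ≤ ‖a‖ / 4) {z z' : ℂ} (hz : z ∈ ball z₀ r₁)
    (hz' : z' ∈ ball z₀ r₁) : 3 * ‖a‖ / 4 * ‖z - z'‖ ≤ ‖F z - F z'‖ := by
  have h1 : ∀ w ∈ ball z₀ r₁, DifferentiableAt ℂ (fun w => F w - a * w) w := fun w hw =>
    (hF w hw).differentiableAt.sub (by fun_prop)
  have h2 : ∀ w ∈ ball z₀ r₁, ‖deriv (fun w => F w - a * w) w‖ ≤ ‖a‖ / 4 := by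
    intro w hw
    have h3 : deriv (fun w => F w - a * w) w = deriv F w - a := by
      rw [deriv_fun_sub (hF w hw).differentiableAt (by fun_prop), deriv_const_mul_field]
      simp
    rw [h3]
    exact hd w hw
  have h4 := Convex.norm_image_sub_le_of_norm_deriv_le h1 h2 (convex_ball z₀ r₁) hz' hz
  have h5 : ‖a‖ * ‖z - z'‖ ≤ ‖F z - F z'‖ + ‖a‖ / 4 * ‖z - z'‖ := by
    calc ‖a‖ * ‖z - z'‖ = ‖a * (z - z')‖ := (norm_mul _ _).symm
      _ = ‖(F z - F z') - ((F z - a * z) - (F z' - a * z'))‖ := by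
          congr 1
          ring
      _ ≤ ‖F z - F z'‖ + ‖(F z - a * z) - (F z' - a * z')‖ := norm_sub_le _ _
      _ ≤ _ := by linarith
  linarith

/-- AINV: uniform local inverses of the functions near `φ` -/
theorem unif_inv_pr {φ : ℂ → ℂ} {z₀ : ℂ} (hφ : AnalyticAt ℂ φ z₀) (h0 : deriv φ z₀ ≠ 0) (r : ℝ)
    (hr : 0 < r) :
    ∃ r₁ > 0, r₁ ≤ r ∧ ∃ ρ > 0, ∃ δ > 0, ∃ B > 0, ∀ F : ℂ → ℂ,
      (∀ z ∈ ball z₀ r, AnalyticAt ℂ F z) → (∀ z ∈ ball z₀ r, ‖F z - φ z‖ ≤ δ) →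
        (∀ z ∈ ball z₀ r₁, ∀ z' ∈ ball z₀ r₁, ‖z - z'‖ ≤ B * ‖F z - F z'‖) ∧
        ∃ u : ℂ → ℂ, ∀ x ∈ ball (φ z₀) ρ, AnalyticAt ℂ u x ∧ u x ∈ ball z₀ r₁ ∧ F (u x) = x := by
  set a := deriv φ z₀ with ha
  have hna : 0 < ‖a‖ := norm_pos_iff.2 h0
  obtain ⟨r₂, hr₂, h1⟩ : ∃ r₂ > 0, ∀ z ∈ ball z₀ r₂,
      AnalyticAt ℂ φ z ∧ ‖deriv φ z - a‖ ≤ ‖a‖ / 8 := by
    have h2 := hφ.eventually_analyticAt
    have h3 : ContinuousAt (deriv φ) z₀ := hφ.deriv.continuousAt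
    have h4 : ∀ᶠ z in 𝓝 z₀, ‖deriv φ z - a‖ ≤ ‖a‖ / 8 := by
      have h5 : Tendsto (fun z => ‖deriv φ z - a‖) (𝓝 z₀) (𝓝 ‖a - a‖) :=
        (h3.tendsto.sub_const a).norm
      rw [sub_self, norm_zero] at h5
      exact (h5.eventually_lt_const (by linarith : (0 : ℝ) < ‖a‖ / 8)).mono fun z hz => hz.le
    obtain ⟨r₂, hr₂, h6⟩ := Metric.eventually_nhds_iff_ball.1 (h2.and h4)
    exact ⟨r₂, hr₂, h6⟩
  set r' := min r r₂ with hr'd
  have hr' : 0 < r' := lt_min hr hr₂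
  have hr'r : r' ≤ r := min_le_left _ _
  have hφ' : ∀ z ∈ ball z₀ r', AnalyticAt ℂ φ z := fun z hz =>
    (h1 z (ball_subset_ball (min_le_right _ _) hz)).1
  have hd' : ∀ z ∈ ball z₀ r', ‖deriv φ z - a‖ ≤ ‖a‖ / 8 := fun z hz =>
    (h1 z (ball_subset_ball (min_le_right _ _) hz)).2
  refine ⟨r' / 2, by linarith, by linarith, ‖a‖ * (r' / 2) / 16, by positivity,
    ‖a‖ * r' / 64, by positivity, 2 / ‖a‖, by positivity, fun F hF hle => ?_⟩
  have hF' : ∀ z ∈ ball z₀ r', AnalyticAt ℂ F z := fun z hz => hF z (ball_subset_ball hr'r hz)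
  have hle' : ∀ z ∈ ball z₀ r', ‖F z - φ z‖ ≤ ‖a‖ * r' / 64 := fun z hz =>
    hle z (ball_subset_ball hr'r hz)
  have hF₁ : ∀ z ∈ ball z₀ (r' / 2), AnalyticAt ℂ F z := fun z hz =>
    hF' z (ball_subset_ball (by linarith) hz)
  have hdF : ∀ z ∈ ball z₀ (r' / 2), ‖deriv F z - a‖ ≤ ‖a‖ / 4 := fun z hz =>
    ainv_deriv hr' hφ' hd' hF' hle' rfl hz
  have hlow : ∀ z ∈ ball z₀ (r' / 2), ∀ z' ∈ ball z₀ (r' / 2),
      3 * ‖a‖ / 4 * ‖z - z'‖ ≤ ‖F z - F z'‖ := fun z hz z' hz' => ainv_lip h0 hF₁ hdF hz hz'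
  have hB : ∀ z ∈ ball z₀ (r' / 2), ∀ z' ∈ ball z₀ (r' / 2), ‖z - z'‖ ≤ 2 / ‖a‖ * ‖F z - F z'‖ := by
    intro z hz z' hz'
    have h2 := hlow z hz z' hz'
    rw [div_mul_eq_mul_div, le_div_iff₀ hna]
    nlinarith [norm_nonneg (z - z'), norm_nonneg (F z - F z')]
  refine ⟨hB, ?_⟩
  have hsub : closedBall z₀ (r' / 4) ⊆ ball z₀ (r' / 2) := closedBall_subset_ball (by linarith)
  have hsurj : ball (F z₀) (3 * ‖a‖ / 4 * (r' / 4) / 2) ⊆ F '' closedBall z₀ (r' / 4) := by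
    have h2 : DiffContOnCl ℂ F (ball z₀ (r' / 4)) := by
      apply DifferentiableOn.diffContOnCl
      rw [closure_ball z₀ (by linarith : r' / 4 ≠ 0)]
      intro w hw
      exact (hF₁ w (hsub hw)).differentiableAt.differentiableWithinAt
    apply h2.ball_subset_image_closedBall (by linarith)
    · intro z hz
      have h3 := hlow z (hsub (sphere_subset_closedBall hz)) z₀ (mem_ball_self (by linarith))
      rwa [mem_sphere_iff_norm.1 hz] at h3
    · have h3 : ∀ᶠ z in 𝓝[≠] z₀, F z ≠ F z₀ := by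
        have h4 : ∀ᶠ z in 𝓝[≠] z₀, z ∈ ball z₀ (r' / 2) :=
          mem_nhdsWithin_of_mem_nhds (ball_mem_nhds z₀ (by linarith))
        filter_upwards [h4, self_mem_nhdsWithin] with z hz hne heq
        have h5 := hlow z hz z₀ (mem_ball_self (by linarith))
        rw [heq, sub_self, norm_zero] at h5
        have h6 : 0 < ‖z - z₀‖ := norm_pos_iff.2 (sub_ne_zero.2 hne)
        have : 0 < 3 * ‖a‖ / 4 * ‖z - z₀‖ := by positivity
        linarith
      exact h3.frequently.filter_mono nhdsWithin_le_nhds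
  have hex : ∀ x ∈ ball (φ z₀) (‖a‖ * (r' / 2) / 16), ∃ z ∈ closedBall z₀ (r' / 4), F z = x := by
    intro x hx
    have h2 : x ∈ ball (F z₀) (3 * ‖a‖ / 4 * (r' / 4) / 2) := by
      rw [mem_ball] at hx ⊢
      have h3 : dist (φ z₀) (F z₀) ≤ ‖a‖ * r' / 64 := by
        rw [dist_comm, dist_eq_norm]
        exact hle' z₀ (mem_ball_self hr')
      have h4 := dist_triangle x (φ z₀) (F z₀)
      nlinarith [mul_pos hna hr']
    exact hsurj h2
  choose! u hu using hex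
  have hmem : ∀ x ∈ ball (φ z₀) (‖a‖ * (r' / 2) / 16), u x ∈ ball z₀ (r' / 2) := fun x hx =>
    hsub (hu x hx).1
  have hdiff : DifferentiableOn ℂ u (ball (φ z₀) (‖a‖ * (r' / 2) / 16)) := by
    intro x hx
    have hnh : ball (φ z₀) (‖a‖ * (r' / 2) / 16) ∈ 𝓝 x := isOpen_ball.mem_nhds hx
    have h2 : ContinuousAt u x := by
      have h3 : ∀ᶠ y in 𝓝 x, ‖u y - u x‖ ≤ 2 / ‖a‖ * ‖y - x‖ := by
        filter_upwards [hnh] with y hy
        have h4 := hB (u y) (hmem y hy) (u x) (hmem x hx)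
        rwa [(hu y hy).2, (hu x hx).2] at h4
      have h5 : Tendsto (fun y => 2 / ‖a‖ * ‖y - x‖) (𝓝 x) (𝓝 0) := by
        have h6 : Continuous fun y : ℂ => 2 / ‖a‖ * ‖y - x‖ := by fun_prop
        have h7 := h6.tendsto x
        simpa using h7
      have h8 : Tendsto (fun y => u y - u x) (𝓝 x) (𝓝 0) := squeeze_zero_norm' h3 h5
      have h9 := h8.add_const (u x)
      simpa [ContinuousAt] using h9
    have h3 : deriv F (u x) ≠ 0 := by
      intro h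
      have h4 := hdF (u x) (hmem x hx)
      rw [h, zero_sub, norm_neg] at h4
      linarith
    have h4 : HasDerivAt F (deriv F (u x)) (u x) :=
      (hF₁ (u x) (hmem x hx)).differentiableAt.hasDerivAt
    have h5 : ∀ᶠ y in 𝓝 x, F (u y) = y := by
      filter_upwards [hnh] with y hy
      exact (hu y hy).2
    exact (HasDerivAt.of_local_left_inverse h2 h4 h3 h5).differentiableAt.differentiableWithinAt
  exact ⟨u, fun x hx => ⟨hdiff.analyticAt (isOpen_ball.mem_nhds hx), hmem x hx, (hu x hx).2⟩⟩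


end pure

end Pool.Agent.MBS

namespace Pool.Agent.MBS
alias unif_inv := unif_inv_pr
end Pool.Agent.MBS
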