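import Pool.Agent.Lib_helper58.MBS.Base

set_option autoImplicit false
set_option linter.unusedSectionVars false
set_option linter.unusedVariables false

open Filter Topology Metric Set

namespace Pool.Agent.MBS

open Pool.Agent.BR

section pure

variable {E : Type} [NormedAddCommGroup E] [NormedSpace ℂ E] [FiniteDimensional ℂ E]

/-- global factorisation from a local one -/
theorem art_factor {r : ℝ} {f : ℂ → ℂ} {c : ℂ} (hf : ∀ z ∈ ball (0 : ℂ) r, AnalyticAt ℂ f z)
    (n : ℕ) {h : ℂ → ℂ} (hh : AnalyticAt ℂ h c)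
    (hfh : ∀ᶠ z in 𝓝 c, f z = (z - c) ^ n • h z) :
    ∃ H : ℂ → ℂ, (∀ z ∈ ball (0 : ℂ) r, AnalyticAt ℂ H z) ∧ H c = h c ∧
      ∀ z, f z = (z - c) ^ n * H z := by
  classical
  refine ⟨fun z => if z = c then h c else f z / (z - c) ^ n, ?_, by simp, ?_⟩
  · intro z hz
    by_cases hzc : z = c
    · subst hzc
      refine hh.congr ?_
      filter_upwards [hfh] with y hy
      by_cases hyz : y = z
      · simp [hyz]
      · have h1 : (y - z) ^ n ≠ 0 := pow_ne_zero _ (sub_ne_zero.2 hyz)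
        rw [if_neg hyz, hy, smul_eq_mul, mul_div_cancel_left₀ _ h1]
    · have h1 : AnalyticAt ℂ (fun y => f y / (y - c) ^ n) z := by
        refine (hf z hz).div ?_ (pow_ne_zero _ (sub_ne_zero.2 hzc))
        fun_prop
      refine h1.congr ?_
      filter_upwards [isOpen_ne.mem_nhds hzc] with y hy
      rw [if_neg hy]
  · intro z
    by_cases hzc : z = c
    · subst hzc
      simp only [if_true]
      have := hfh.self_of_nhds
      simpa using this
    · have h1 : (z - c) ^ n ≠ 0 := pow_ne_zero _ (sub_ne_zero.2 hzc)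
      show f z = (z - c) ^ n * (if z = c then h c else f z / (z - c) ^ n)
      rw [if_neg hzc, mul_comm, div_mul_cancel₀ _ h1]

theorem art_iter {f : ℂ → ℂ} {c : ℂ} (y : ℂ) {q : ℕ} (hq : 1 ≤ q) :
    iteratedDeriv q (fun z => f z - y) c = iteratedDeriv q f c := by
  obtain ⟨q, rfl⟩ : ∃ q', q = q' + 1 := ⟨q - 1, by omega⟩
  rw [iteratedDeriv_succ', iteratedDeriv_succ']
  congr 1
  funext z
  simp

theorem art_pow {x y : ℂ} {B : ℝ} (a : ℕ) (hx : ‖x‖ ≤ B) (hy : ‖y‖ ≤ B) :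
    ‖x ^ a - y ^ a‖ ≤ a * B ^ (a - 1) * ‖x - y‖ := by
  have hB : 0 ≤ B := (norm_nonneg _).trans hx
  rw [← geom_sum₂_mul, norm_mul]
  gcongr
  calc ‖∑ i ∈ Finset.range a, x ^ i * y ^ (a - 1 - i)‖
      ≤ ∑ i ∈ Finset.range a, ‖x ^ i * y ^ (a - 1 - i)‖ := norm_sum_le _ _
    _ ≤ ∑ _i ∈ Finset.range a, B ^ (a - 1) := by
        apply Finset.sum_le_sum
        intro i hi
        have hi' := Finset.mem_range.1 hi
        rw [norm_mul, norm_pow, norm_pow]
        calc ‖x‖ ^ i * ‖y‖ ^ (a - 1 - i) ≤ B ^ i * B ^ (a - 1 - i) := by gcongr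
          _ = B ^ (a - 1) := by rw [← pow_add]; congr 1; omega
    _ = a * B ^ (a - 1) := by simp

/-- uniform convergence of the cofactors -/
theorem art_conv {κ : Type} {F : Filter κ} (a : ℕ) {r R : ℝ} (hR : 0 < R) (hRr : R < r)
    {G : ℂ → ℂ} {g : κ → ℂ → ℂ} {zs : κ → ℂ} (hG : ∀ z ∈ ball (0 : ℂ) r, AnalyticAt ℂ G z)
    (hlim : TendstoUniformlyOn g G F (ball 0 r)) (hz : Tendsto zs F (𝓝 0))
    {H : ℂ → ℂ} {Hk : κ → ℂ → ℂ} (hH : ∀ z ∈ ball (0 : ℂ) r, AnalyticAt ℂ H z)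
    (hHG : ∀ z, G z - G 0 = (z - 0) ^ a * H z)
    (hHk : ∀ᶠ k in F, (∀ z ∈ ball (0 : ℂ) r, AnalyticAt ℂ (Hk k) z) ∧
      ∀ z, g k z - g k (zs k) = (z - zs k) ^ a * Hk k z) :
    TendstoUniformlyOn Hk H F (closedBall 0 R) := by
  have hsub : closedBall (0 : ℂ) R ⊆ ball 0 r := closedBall_subset_ball hRr
  have hHc : ContinuousOn H (closedBall 0 R) := fun z hz =>
    (hH z (hsub hz)).continuousAt.continuousWithinAt
  obtain ⟨M, hM⟩ := (isCompact_closedBall (0 : ℂ) R).exists_bound_of_continuousOn hHc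
  have hM0 : 0 ≤ M := (norm_nonneg _).trans (hM 0 (mem_closedBall_self hR.le))
  rw [Metric.tendstoUniformlyOn_iff]
  intro ε hε
  set η : ℝ := ε * (R / 2) ^ a / 8 with hη
  have hη0 : 0 < η := by positivity
  have e1 := Metric.tendstoUniformlyOn_iff.1 hlim η hη0
  have e2 : ∀ᶠ k in F, ‖zs k‖ < R / 2 := by
    have := hz.norm
    rw [norm_zero] at this
    exact this.eventually (gt_mem_nhds (by positivity))
  have hG0 : ContinuousAt G 0 := (hG 0 (mem_ball_self (hR.trans hRr))).continuousAt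
  have e3 : ∀ᶠ k in F, ‖G (zs k) - G 0‖ < η := by
    have h1 : Tendsto (fun k => G (zs k)) F (𝓝 (G 0)) := hG0.tendsto.comp hz
    have h2 := Metric.tendsto_nhds.1 h1 η hη0
    filter_upwards [h2] with k hk
    rwa [← dist_eq_norm]
  have e4 : ∀ᶠ k in F, a * (2 * R) ^ (a - 1) * ‖zs k‖ * M < η := by
    have h1 : Tendsto (fun k => a * (2 * R) ^ (a - 1) * ‖zs k‖ * M) F (𝓝 0) := by
      have h2 := ((hz.norm.const_mul (a * (2 * R) ^ (a - 1))).mul_const M)
      simpa using h2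
    exact h1.eventually (gt_mem_nhds hη0)
  filter_upwards [e1, e2, e3, e4, hHk] with k k1 k2 k3 k4 k5
  obtain ⟨k5, k6⟩ := k5
  have hzsr : zs k ∈ ball (0 : ℂ) r := by
    rw [mem_ball_zero_iff]; linarith
  have hsph : ∀ z ∈ sphere (0 : ℂ) R, ‖Hk k z - H z‖ ≤ ε / 2 := by
    intro z hz
    have hzR : ‖z‖ = R := mem_sphere_zero_iff_norm.1 hz
    have hzr : z ∈ ball (0 : ℂ) r := by rw [mem_ball_zero_iff]; linarith
    have hzz : R / 2 ≤ ‖z - zs k‖ := by
      have := norm_sub_norm_le z (zs k)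
      linarith
    have hzz2 : ‖z - zs k‖ ≤ 2 * R := by
      have := norm_sub_le z (zs k)
      linarith
    have hid : (z - zs k) ^ a * (Hk k z - H z) = (g k z - G z) - (g k (zs k) - G (zs k))
        - (G (zs k) - G 0) + (z ^ a - (z - zs k) ^ a) * H z := by
      have h1 := k6 z
      have h2 := hHG z
      rw [sub_zero] at h2
      rw [mul_sub, ← h1, sub_mul, ← h2]
      ring
    have hp := art_pow (x := z) (y := z - zs k) (B := 2 * R) a (by linarith) hzz2
    have hxy : z - (z - zs k) = zs k := by ring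
    rw [hxy] at hp
    have b1 : ‖g k z - G z‖ ≤ η := by
      have := k1 z hzr
      rw [dist_comm, dist_eq_norm] at this
      exact this.le
    have b2 : ‖g k (zs k) - G (zs k)‖ ≤ η := by
      have := k1 (zs k) hzsr
      rw [dist_comm, dist_eq_norm] at this
      exact this.le
    have b3 : ‖(z ^ a - (z - zs k) ^ a) * H z‖ ≤ η := by
      rw [norm_mul]
      have hMz := hM z (sphere_subset_closedBall hz)
      calc ‖z ^ a - (z - zs k) ^ a‖ * ‖H z‖ ≤ (a * (2 * R) ^ (a - 1) * ‖zs k‖) * M := by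
            apply mul_le_mul hp hMz (norm_nonneg _) (by positivity)
        _ ≤ η := k4.le
    have b4 : ‖(z - zs k) ^ a * (Hk k z - H z)‖ ≤ 4 * η := by
      rw [hid]
      calc _ ≤ ‖(g k z - G z) - (g k (zs k) - G (zs k)) - (G (zs k) - G 0)‖
            + ‖(z ^ a - (z - zs k) ^ a) * H z‖ := norm_add_le _ _
        _ ≤ (‖(g k z - G z) - (g k (zs k) - G (zs k))‖ + ‖G (zs k) - G 0‖)
            + ‖(z ^ a - (z - zs k) ^ a) * H z‖ := by gcongr; exact norm_sub_le _ _
        _ ≤ ((‖g k z - G z‖ + ‖g k (zs k) - G (zs k)‖) + ‖G (zs k) - G 0‖)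
            + ‖(z ^ a - (z - zs k) ^ a) * H z‖ := by gcongr; exact norm_sub_le _ _
        _ ≤ ((η + η) + η) + η := by gcongr
        _ = 4 * η := by ring
    rw [norm_mul, norm_pow] at b4
    have b5 : (R / 2) ^ a ≤ ‖z - zs k‖ ^ a := by gcongr
    have b6 : (R / 2) ^ a * ‖Hk k z - H z‖ ≤ 4 * η := by
      refine le_trans ?_ b4
      gcongr
    have b7 : (0 : ℝ) < (R / 2) ^ a := by positivity
    have b8 : (R / 2) ^ a * ‖Hk k z - H z‖ ≤ (R / 2) ^ a * (ε / 2) := by
      rw [hη] at b6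
      linarith
    exact le_of_mul_le_mul_left b8 b7
  intro z hz
  have hd : DiffContOnCl ℂ (fun z => Hk k z - H z) (ball (0 : ℂ) R) := by
    apply DifferentiableOn.diffContOnCl_ball (U := ball 0 r) _ hsub
    intro y hy
    exact ((k5 y hy).differentiableAt.sub (hH y hy).differentiableAt).differentiableWithinAt
  have hle := Complex.norm_le_of_forall_mem_frontier_norm_le (isBounded_ball (x := (0 : ℂ))
    (r := R)) hd (C := ε / 2) (by
      intro y hy
      rw [frontier_ball (0 : ℂ) hR.ne'] at hy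
      exact hsph y hy) (z := z) (by rwa [closure_ball (0 : ℂ) hR.ne'])
  rw [dist_comm, dist_eq_norm]
  linarith

theorem art_slit {x : ℂ} (hx : x ∈ closedBall (1 : ℂ) (1 / 2)) : x ∈ Complex.slitPlane := by
  rw [mem_closedBall, dist_eq_norm] at hx
  have h1 : |(x - 1).re| ≤ ‖x - 1‖ := Complex.abs_re_le_norm _
  rw [Complex.sub_re, Complex.one_re] at h1
  left
  have := abs_le.1 (h1.trans hx)
  linarith [this.1]

theorem root_coord_pr {κ : Type} {F : Filter κ} {a : ℕ} (ha : 0 < a) {r : ℝ} (hr : 0 < r)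
    {G : ℂ → ℂ} {g : κ → ℂ → ℂ} {zs : κ → ℂ} (hG : ∀ z ∈ ball (0 : ℂ) r, AnalyticAt ℂ G z)
    (hg : ∀ᶠ k in F, ∀ z ∈ ball (0 : ℂ) r, AnalyticAt ℂ (g k) z)
    (hlim : TendstoUniformlyOn g G F (ball 0 r))
    (h1 : ∀ q, 1 ≤ q → q < a → iteratedDeriv q G 0 = 0) (h2 : iteratedDeriv a G 0 ≠ 0)
    (hz : Tendsto zs F (𝓝 0))
    (h3 : ∀ᶠ k in F, ∀ q, 1 ≤ q → q < a → iteratedDeriv q (g k) (zs k) = 0) :
    ∃ r₁ > 0, r₁ ≤ r ∧ ∃ (w : ℂ → ℂ) (v : κ → ℂ → ℂ), (∀ z ∈ ball (0 : ℂ) r₁, AnalyticAt ℂ w z) ∧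
      w 0 = 0 ∧ deriv w 0 ≠ 0 ∧ (∀ z ∈ ball (0 : ℂ) r₁, G z = G 0 + w z ^ a) ∧
      (∀ᶠ k in F, ∀ z ∈ ball (0 : ℂ) r₁, AnalyticAt ℂ (v k) z ∧
        g k z = g k (zs k) + v k z ^ a) ∧
      TendstoUniformlyOn v w F (ball 0 r₁) := by
  classical
  have h0r : (0 : ℂ) ∈ ball (0 : ℂ) r := mem_ball_self hr
  have hfan : ∀ z ∈ ball (0 : ℂ) r, AnalyticAt ℂ (fun z => G z - G 0) z :=
    fun z hz => (hG z hz).sub analyticAt_const
  have hord : analyticOrderAt (fun z => G z - G 0) 0 = a := by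
    rw [analyticOrderAt_eq_nat_iff_iteratedDeriv_eq_zero (hfan 0 h0r)]
    refine ⟨fun q hq => ?_, ?_⟩
    · rcases Nat.eq_zero_or_pos q with rfl | hq0
      · simp
      · rw [art_iter _ hq0]
        exact h1 q hq0 hq
    · rw [art_iter _ ha]
      exact h2
  obtain ⟨h, hh, hh0, hfh⟩ := (hfan 0 h0r).analyticOrderAt_eq_natCast.1 hord
  obtain ⟨H, hH, hH0, hfH⟩ := art_factor hfan a hh hfh
  have hH0' : H 0 ≠ 0 := by
    rw [hH0]
    exact hh0
  have hfam : ∀ᶠ k in F, ∃ Hk : ℂ → ℂ, (∀ z ∈ ball (0 : ℂ) r, AnalyticAt ℂ Hk z) ∧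
      ∀ z, g k z - g k (zs k) = (z - zs k) ^ a * Hk z := by
    have e2 : ∀ᶠ k in F, zs k ∈ ball (0 : ℂ) r := hz.eventually (ball_mem_nhds _ hr)
    filter_upwards [hg, e2, h3] with k k1 k2 k3
    have hfk : ∀ z ∈ ball (0 : ℂ) r, AnalyticAt ℂ (fun z => g k z - g k (zs k)) z :=
      fun z hz => (k1 z hz).sub analyticAt_const
    have hle : (a : ℕ∞) ≤ analyticOrderAt (fun z => g k z - g k (zs k)) (zs k) := by
      rw [natCast_le_analyticOrderAt_iff_iteratedDeriv_eq_zero (hfk _ k2)]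
      intro q hq
      rcases Nat.eq_zero_or_pos q with rfl | hq0
      · simp
      · rw [art_iter _ hq0]
        exact k3 q hq0 hq
    obtain ⟨h', hh', hfh'⟩ := (natCast_le_analyticOrderAt (hfk _ k2)).1 hle
    obtain ⟨H', hH', -, hfH'⟩ := art_factor hfk a hh' hfh'
    exact ⟨H', hH', hfH'⟩
  have hch : ∀ k, ∃ H' : ℂ → ℂ, (∃ Hk : ℂ → ℂ, (∀ z ∈ ball (0 : ℂ) r, AnalyticAt ℂ Hk z) ∧
      ∀ z, g k z - g k (zs k) = (z - zs k) ^ a * Hk z) →
      ((∀ z ∈ ball (0 : ℂ) r, AnalyticAt ℂ H' z) ∧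
      ∀ z, g k z - g k (zs k) = (z - zs k) ^ a * H' z) := by
    intro k
    by_cases hk : ∃ Hk : ℂ → ℂ, (∀ z ∈ ball (0 : ℂ) r, AnalyticAt ℂ Hk z) ∧
      ∀ z, g k z - g k (zs k) = (z - zs k) ^ a * Hk z
    · exact ⟨hk.choose, fun _ => hk.choose_spec⟩
    · exact ⟨0, fun h => absurd h hk⟩
  choose Hk hHk' using hch
  have hHk : ∀ᶠ k in F, (∀ z ∈ ball (0 : ℂ) r, AnalyticAt ℂ (Hk k) z) ∧
      ∀ z, g k z - g k (zs k) = (z - zs k) ^ a * Hk k z := by
    filter_upwards [hfam] with k hk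
    exact hHk' k hk
  have hconv := art_conv a (R := r / 2) (half_pos hr) (half_lt_self hr) hG hlim hz hH hfH hHk
  -- the root function
  obtain ⟨c0, hc0⟩ := IsAlgClosed.exists_pow_nat_eq (H 0) ha
  have hc0' : c0 ≠ 0 := by
    rintro rfl
    rw [zero_pow ha.ne'] at hc0
    exact hH0' hc0.symm
  have haC : (a : ℂ) ≠ 0 := Nat.cast_ne_zero.2 ha.ne'
  set ψ : ℂ → ℂ := fun x => c0 * Complex.exp (Complex.log x / a) with hψ
  have hψan : ∀ x ∈ closedBall (1 : ℂ) (1 / 2), AnalyticAt ℂ ψ x := by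
    intro x hx
    have h1 : AnalyticAt ℂ (fun x => Complex.log x) x := analyticAt_clog (art_slit hx)
    exact analyticAt_const.mul ((h1.div_const).cexp)
  have hψpow : ∀ x : ℂ, x ≠ 0 → ψ x ^ a = H 0 * x := by
    intro x hx
    simp only [hψ]
    rw [mul_pow, hc0, ← Complex.exp_nat_mul, mul_div_cancel₀ _ haC, Complex.exp_log hx]
  have hK : IsCompact (closedBall (1 : ℂ) (1 / 2)) := isCompact_closedBall _ _
  have hψc : ContinuousOn ψ (closedBall (1 : ℂ) (1 / 2)) := fun x hx =>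
    (hψan x hx).continuousAt.continuousWithinAt
  have hψu : UniformContinuousOn ψ (closedBall (1 : ℂ) (1 / 2)) :=
    hK.uniformContinuousOn_of_continuous hψc
  obtain ⟨M, hM⟩ := hK.exists_bound_of_continuousOn hψc
  have hM0 : 0 ≤ M := (norm_nonneg _).trans (hM 1 (mem_closedBall_self (by norm_num)))
  -- the radius
  have hNc : ContinuousAt (fun z => H z / H 0) 0 := (hH 0 h0r).continuousAt.div_const _
  obtain ⟨r', hr'0, hr'⟩ := Metric.continuousAt_iff.1 hNc (1 / 4) (by norm_num)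
  have hr1 : 0 < min r' (r / 2) := lt_min hr'0 (half_pos hr)
  have hN : ∀ z ∈ ball (0 : ℂ) (min r' (r / 2)), dist (H z / H 0) 1 < 1 / 4 := by
    intro z hz
    have h4 : dist z 0 < r' := (mem_ball.1 hz).trans_le (min_le_left _ _)
    have := hr' h4
    rwa [div_self hH0'] at this
  have hN' : ∀ z ∈ ball (0 : ℂ) (min r' (r / 2)), H z / H 0 ∈ closedBall (1 : ℂ) (1 / 2) := by
    intro z hz
    rw [mem_closedBall]
    linarith [hN z hz]
  have hr1r : ball (0 : ℂ) (min r' (r / 2)) ⊆ ball 0 r :=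
    ball_subset_ball ((min_le_right _ _).trans (half_le_self hr.le))
  have hr1c : ball (0 : ℂ) (min r' (r / 2)) ⊆ closedBall 0 (r / 2) :=
    (ball_subset_ball (min_le_right _ _)).trans ball_subset_closedBall
  have hconv1 : TendstoUniformlyOn (fun k z => Hk k z / H 0) (fun z => H z / H 0) F
      (ball (0 : ℂ) (min r' (r / 2))) := by
    have hu : UniformContinuous (fun x : ℂ => x / H 0) := by
      simp only [div_eq_mul_inv]
      exact uniformContinuous_id.mul_const' _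
    exact hu.comp_tendstoUniformlyOn (hconv.mono hr1c)
  have hNk : ∀ᶠ k in F, ∀ z ∈ ball (0 : ℂ) (min r' (r / 2)),
      Hk k z / H 0 ∈ closedBall (1 : ℂ) (1 / 2) := by
    have := Metric.tendstoUniformlyOn_iff.1 hconv1 (1 / 4) (by norm_num)
    filter_upwards [this] with k hk z hz
    rw [mem_closedBall]
    have h5 := hk z hz
    rw [dist_comm] at h5
    have h6 := dist_triangle (Hk k z / H 0) (H z / H 0) 1
    have h7 := hN z hz
    linarith
  have hconv2 : TendstoUniformlyOn (fun k z => ψ (Hk k z / H 0)) (fun z => ψ (H z / H 0)) F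
      (ball (0 : ℂ) (min r' (r / 2))) :=
    UniformContinuousOn.comp_tendstoUniformlyOn_eventually hNk hN' hψu hconv1
  refine ⟨min r' (r / 2), hr1, (min_le_right _ _).trans (half_le_self hr.le),
    fun z => z * ψ (H z / H 0), fun k z => (z - zs k) * ψ (Hk k z / H 0), ?_, by simp, ?_, ?_,
    ?_, ?_⟩
  · intro z hz
    have h4 : AnalyticAt ℂ (fun z => H z / H 0) z := (hH z (hr1r hz)).div_const
    exact analyticAt_id.mul (AnalyticAt.comp (g := ψ) (f := fun z => H z / H 0)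
      (hψan _ (hN' z hz)) h4)
  · have h4 : AnalyticAt ℂ (fun z => H z / H 0) 0 := (hH 0 h0r).div_const
    have h5 : AnalyticAt ℂ (fun z => ψ (H z / H 0)) 0 :=
      AnalyticAt.comp (g := ψ) (f := fun z => H z / H 0) (hψan _ (hN' 0 (mem_ball_self hr1))) h4
    have h6 := (hasDerivAt_id (0 : ℂ)).mul h5.differentiableAt.hasDerivAt
    have h7 : deriv (fun z => z * ψ (H z / H 0)) 0 = ψ 1 := by
      have := h6.deriv
      simp only [id, one_mul, zero_mul, add_zero, div_self hH0'] at this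
      exact this
    rw [h7]
    simp only [hψ]
    exact mul_ne_zero hc0' (Complex.exp_ne_zero _)
  · intro z hz
    have h4 := hfH z
    rw [sub_zero] at h4
    have h5 : H z / H 0 ≠ 0 := Complex.slitPlane_ne_zero (art_slit (hN' z hz))
    show G z = G 0 + (z * ψ (H z / H 0)) ^ a
    rw [mul_pow, hψpow _ h5, mul_div_cancel₀ _ hH0', ← h4]
    ring
  · filter_upwards [hHk, hNk] with k k1 k2 z hz
    have h5 : Hk k z / H 0 ≠ 0 := Complex.slitPlane_ne_zero (art_slit (k2 z hz))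
    refine ⟨?_, ?_⟩
    · have h4 : AnalyticAt ℂ (fun z => Hk k z / H 0) z := (k1.1 z (hr1r hz)).div_const
      exact (analyticAt_id.sub analyticAt_const).mul
        (AnalyticAt.comp (g := ψ) (f := fun z => Hk k z / H 0) (hψan _ (k2 z hz)) h4)
    · have h4 := k1.2 z
      rw [mul_pow, hψpow _ h5, mul_div_cancel₀ _ hH0', ← h4]
      ring
  · rw [Metric.tendstoUniformlyOn_iff]
    intro ε hε
    have e1 := Metric.tendstoUniformlyOn_iff.1 hconv2 (ε / (4 * r)) (by positivity)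
    have hzn : Tendsto (fun k => ‖zs k‖) F (𝓝 0) := by
      have := hz.norm
      rwa [norm_zero] at this
    have e2 : ∀ᶠ k in F, ‖zs k‖ < ε / (2 * (M + 1)) :=
      hzn.eventually (gt_mem_nhds (by positivity))
    have e3 : ∀ᶠ k in F, ‖zs k‖ < r := hzn.eventually (gt_mem_nhds hr)
    filter_upwards [e1, e2, e3] with k k1 k2 k3 z hz
    have h4 := k1 z hz
    have h5 := hM _ (hN' z hz)
    have h6 : ‖z - zs k‖ ≤ 2 * r := by
      have h7 := norm_sub_le z (zs k)
      have h8 := mem_ball_zero_iff.1 (hr1r hz)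
      linarith
    rw [dist_eq_norm] at h4 ⊢
    have hid : z * ψ (H z / H 0) - (z - zs k) * ψ (Hk k z / H 0)
        = (z - zs k) * (ψ (H z / H 0) - ψ (Hk k z / H 0)) + zs k * ψ (H z / H 0) := by ring
    rw [hid]
    have h9 : ‖(z - zs k) * (ψ (H z / H 0) - ψ (Hk k z / H 0))‖ ≤ ε / 2 := by
      rw [norm_mul]
      calc _ ≤ (2 * r) * (ε / (4 * r)) := by
            apply mul_le_mul h6 h4.le (norm_nonneg _) (by positivity)
        _ = ε / 2 := by field_simp; ring
    have h10 : ‖zs k * ψ (H z / H 0)‖ < ε / 2 := by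
      rw [norm_mul]
      have h11 : ‖zs k‖ * ‖ψ (H z / H 0)‖ ≤ ‖zs k‖ * (M + 1) := by
        gcongr
        linarith
      have h12 : ‖zs k‖ * (M + 1) < ε / (2 * (M + 1)) * (M + 1) := by
        have : 0 < M + 1 := by linarith
        gcongr
      have h13 : ε / (2 * (M + 1)) * (M + 1) = ε / 2 := by
        have : M + 1 ≠ 0 := by linarith
        field_simp
      linarith
    linarith [norm_add_le ((z - zs k) * (ψ (H z / H 0) - ψ (Hk k z / H 0)))
      (zs k * ψ (H z / H 0))]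

end pure

end Pool.Agent.MBS

namespace Pool.Agent.MBS
alias root_coord := root_coord_pr
end Pool.Agent.MBS
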