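import Pool.Agent.Lib_helper58.MBS.Base
import Pool.Agent.Lib_helper58.MBS.L.AINV
import Pool.Agent.Lib_helper58.MBS.L.ART

set_option autoImplicit false
set_option linter.unusedSectionVars false
set_option linter.unusedVariables false

open Filter Topology Metric Set

namespace Pool.Agent.MBS

open Pool.Agent.BR

section pure

variable {E : Type} [NormedAddCommGroup E] [NormedSpace ℂ E] [FiniteDimensional ℂ E]

theorem acra_iter (l : E →L[ℂ] ℂ) {f : ℂ → E} {z : ℂ} (hf : AnalyticAt ℂ f z) (q : ℕ) :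
    iteratedDeriv q (fun x => l (f x)) z = l (iteratedDeriv q f z) := by
  have hc : ContDiffAt ℂ q f z := hf.contDiffAt
  have h := ContinuousLinearMap.iteratedFDeriv_comp_left (𝕜 := ℂ) l (x := z) hc
    (i := q) (le_refl _)
  rw [iteratedDeriv_eq_iteratedFDeriv, iteratedDeriv_eq_iteratedFDeriv]
  have h2 : (fun x => l (f x)) = l ∘ f := rfl
  rw [h2, h]
  rfl

/-- a Lipschitz bound for an analytic function on a smaller ball -/
theorem acra_lip {w : ℂ → ℂ} {r : ℝ} (hr : 0 < r)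
    (hw : ∀ z ∈ ball (0 : ℂ) r, AnalyticAt ℂ w z) :
    ∃ B > 0, ∀ z ∈ ball (0 : ℂ) (r / 2), ∀ z' ∈ ball (0 : ℂ) (r / 2),
      ‖w z - w z'‖ ≤ B * ‖z - z'‖ := by
  have hsub : closedBall (0 : ℂ) (r / 2) ⊆ ball (0 : ℂ) r := closedBall_subset_ball (by linarith)
  have hcont : ContinuousOn (deriv w) (closedBall (0 : ℂ) (r / 2)) := fun z hz =>
    ((hw z (hsub hz)).deriv.continuousAt).continuousWithinAt
  obtain ⟨B, hB⟩ := (isCompact_closedBall (0 : ℂ) (r / 2)).exists_bound_of_continuousOn hcont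
  refine ⟨max B 1, lt_of_lt_of_le one_pos (le_max_right _ _), fun z hz z' hz' => ?_⟩
  have h := (convex_ball (0 : ℂ) (r / 2)).norm_image_sub_le_of_norm_deriv_le (f := w)
    (C := max B 1) (𝕜 := ℂ)
    (fun x hx => (hw x (hsub (ball_subset_closedBall hx))).differentiableAt)
    (fun x hx => (hB x (ball_subset_closedBall hx)).trans (le_max_left _ _)) hz' hz
  exact h

/-- ACRA: normal form of a convergent family with critical points of the same order -/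
theorem crit_norm_pr {κ : Type} {F : Filter κ} (l : E →L[ℂ] ℂ) {a : ℕ} (ha : 0 < a) {r : ℝ}
    (hr : 0 < r) {β : ℂ → E} {b : κ → ℂ → E} {zs : κ → ℂ}
    (hβ : ∀ z ∈ ball (0 : ℂ) r, AnalyticAt ℂ β z)
    (hb : ∀ᶠ k in F, ∀ z ∈ ball (0 : ℂ) r, AnalyticAt ℂ (b k) z)
    (hlim : TendstoUniformlyOn b β F (ball 0 r))
    (h1 : ∀ q, 1 ≤ q → q < a → iteratedDeriv q β 0 = 0) (h2 : l (iteratedDeriv a β 0) ≠ 0)
    (hz : Tendsto zs F (𝓝 0))
    (h3 : ∀ᶠ k in F, ∀ q, 1 ≤ q → q < a → iteratedDeriv q (b k) (zs k) = 0) :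
    ∃ ρ > 0, ∃ r₁ > 0, r₁ ≤ r ∧ ∃ B > 0, ∃ (ω : ℂ → ℂ) (o : κ → ℂ → ℂ),
      (∀ u ∈ ball (0 : ℂ) ρ, AnalyticAt ℂ ω u ∧ ω u ∈ ball (0 : ℂ) r₁ ∧
        l (β (ω u)) = l (β 0) + u ^ a) ∧ ω 0 = 0 ∧
      (∀ u ∈ ball (0 : ℂ) ρ, ∀ u' ∈ ball (0 : ℂ) ρ, ‖ω u - ω u'‖ ≤ B * ‖u - u'‖ ∧
        ‖u - u'‖ ≤ B * ‖ω u - ω u'‖) ∧
      (∀ᶠ k in F, ∀ u ∈ ball (0 : ℂ) ρ, AnalyticAt ℂ (o k) u ∧ o k u ∈ ball (0 : ℂ) r₁ ∧
        l (b k (o k u)) = l (b k (zs k)) + u ^ a) ∧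
      TendstoUniformlyOn o ω F (ball 0 ρ) ∧
      ∃ r₂ > 0, (∀ z ∈ ball (0 : ℂ) r₂, ∃ u ∈ ball (0 : ℂ) ρ, ω u = z) ∧
        ∀ᶠ k in F, ∀ z ∈ ball (0 : ℂ) r₂, ∃ u ∈ ball (0 : ℂ) ρ, o k u = z := by
  have h0mem : (0 : ℂ) ∈ ball (0 : ℂ) r := mem_ball_self hr
  have hGan : ∀ z ∈ ball (0 : ℂ) r, AnalyticAt ℂ (fun x => l (β x)) z := fun z hz =>
    (l.analyticAt _).comp (hβ z hz)
  have hgan : ∀ᶠ k in F, ∀ z ∈ ball (0 : ℂ) r, AnalyticAt ℂ ((fun k x => l (b k x)) k) z := by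
    filter_upwards [hb] with k hk z hz
    exact (l.analyticAt _).comp (hk z hz)
  have hglim : TendstoUniformlyOn (fun k x => l (b k x)) (fun x => l (β x)) F (ball 0 r) := by
    have := l.uniformContinuous.comp_tendstoUniformlyOn hlim
    exact this
  have hG1 : ∀ q, 1 ≤ q → q < a → iteratedDeriv q (fun x => l (β x)) 0 = 0 := by
    intro q hq hqa
    rw [acra_iter l (hβ 0 h0mem), h1 q hq hqa, map_zero]
  have hG2 : iteratedDeriv a (fun x => l (β x)) 0 ≠ 0 := by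
    rw [acra_iter l (hβ 0 h0mem)]
    exact h2
  have hzs : ∀ᶠ k in F, zs k ∈ ball (0 : ℂ) r := hz.eventually (ball_mem_nhds 0 hr)
  have hG3 : ∀ᶠ k in F, ∀ q, 1 ≤ q → q < a →
      iteratedDeriv q ((fun k x => l (b k x)) k) (zs k) = 0 := by
    filter_upwards [hb, h3, hzs] with k hk hk3 hkz q hq hqa
    have := acra_iter l (hk _ hkz) q
    show iteratedDeriv q (fun x => l (b k x)) (zs k) = 0
    rw [this, hk3 q hq hqa, map_zero]
  obtain ⟨r', hr', hr'r, w, v, hw, hw0, hdw, hGw, hv, hvlim⟩ :=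
    root_coord (F := F) ha hr hGan hgan hglim hG1 hG2 hz hG3
  obtain ⟨B₁, hB₁, hlip⟩ := acra_lip hr' hw
  have hr3 : 0 < r' / 2 := by positivity
  obtain ⟨r₁, hr₁, hr₁r, ρ, hρ, δ, hδ, B, hB, hinv⟩ :=
    unif_inv (hw 0 (mem_ball_self hr')) hdw (r' / 2) hr3
  have hsub3 : ball (0 : ℂ) (r' / 2) ⊆ ball (0 : ℂ) r' := ball_subset_ball (by linarith)
  have hsub1 : ball (0 : ℂ) r₁ ⊆ ball (0 : ℂ) (r' / 2) := ball_subset_ball hr₁r
  have hsub2 : ball (0 : ℂ) r₁ ⊆ ball (0 : ℂ) r' := hsub1.trans hsub3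
  obtain ⟨hwlo, ω, hω⟩ := hinv w (fun z hz => hw z (hsub3 hz))
    (fun z hz => by simp [hδ.le])
  rw [hw0] at hω
  -- the functions `o k`
  have hchoose : ∀ k, ∃ uk : ℂ → ℂ, ((∀ z ∈ ball (0 : ℂ) (r' / 2), AnalyticAt ℂ (v k) z) ∧
      (∀ z ∈ ball (0 : ℂ) (r' / 2), ‖v k z - w z‖ ≤ δ)) →
      (∀ z ∈ ball (0 : ℂ) r₁, ∀ z' ∈ ball (0 : ℂ) r₁, ‖z - z'‖ ≤ B * ‖v k z - v k z'‖) ∧
      ∀ x ∈ ball (0 : ℂ) ρ, AnalyticAt ℂ uk x ∧ uk x ∈ ball (0 : ℂ) r₁ ∧ v k (uk x) = x := by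
    intro k
    by_cases hk : (∀ z ∈ ball (0 : ℂ) (r' / 2), AnalyticAt ℂ (v k) z) ∧
      (∀ z ∈ ball (0 : ℂ) (r' / 2), ‖v k z - w z‖ ≤ δ)
    · obtain ⟨hlo, u, hu⟩ := hinv (v k) hk.1 hk.2
      rw [hw0] at hu
      exact ⟨u, fun _ => ⟨hlo, hu⟩⟩
    · exact ⟨0, fun h => absurd h hk⟩
  choose o ho using hchoose
  have hvsmall : ∀ ε > 0, ∀ᶠ k in F, ∀ z ∈ ball (0 : ℂ) r', ‖v k z - w z‖ < ε := by
    intro ε hε
    filter_upwards [Metric.tendstoUniformlyOn_iff.1 hvlim ε hε] with k hk z hz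
    have := hk z hz
    rw [dist_comm, dist_eq_norm] at this
    exact this
  have hev : ∀ᶠ k in F, (∀ z ∈ ball (0 : ℂ) r₁, ∀ z' ∈ ball (0 : ℂ) r₁,
      ‖z - z'‖ ≤ B * ‖v k z - v k z'‖) ∧
      ∀ x ∈ ball (0 : ℂ) ρ, AnalyticAt ℂ (o k) x ∧ o k x ∈ ball (0 : ℂ) r₁ ∧
        v k (o k x) = x := by
    filter_upwards [hv, hvsmall δ hδ] with k hk hks
    exact ho k ⟨fun z hz => (hk z (hsub3 hz)).1, fun z hz => (hks z (hsub3 hz)).le⟩
  refine ⟨ρ, hρ, r₁, hr₁, (hr₁r.trans (by linarith)), max B B₁, lt_max_of_lt_left hB, ω, o,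
    ?_, ?_, ?_, ?_, ?_, ?_⟩
  · intro u hu
    obtain ⟨a1, a2, a3⟩ := hω u hu
    refine ⟨a1, a2, ?_⟩
    have := hGw (ω u) (hsub2 a2)
    rw [this, a3]
  · have h0 := hω 0 (mem_ball_self hρ)
    have := hwlo (ω 0) h0.2.1 0 (mem_ball_self hr₁)
    rw [h0.2.2, hw0, sub_zero, sub_zero, norm_zero, mul_zero] at this
    exact norm_le_zero_iff.1 this
  · intro u hu u' hu'
    obtain ⟨a1, a2, a3⟩ := hω u hu
    obtain ⟨b1, b2, b3⟩ := hω u' hu'
    constructor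
    · have h := hwlo _ a2 _ b2
      rw [a3, b3] at h
      exact h.trans (mul_le_mul_of_nonneg_right (le_max_left _ _) (norm_nonneg _))
    · have h := hlip _ (hsub1 a2) _ (hsub1 b2)
      rw [a3, b3] at h
      exact h.trans (mul_le_mul_of_nonneg_right (le_max_right _ _) (norm_nonneg _))
  · filter_upwards [hev, hv] with k hk hvk u hu
    obtain ⟨a1, a2, a3⟩ := hk.2 u hu
    refine ⟨a1, a2, ?_⟩
    have := (hvk (o k u) (hsub2 a2)).2
    rw [a3] at this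
    exact this
  · rw [Metric.tendstoUniformlyOn_iff]
    intro ε hε
    filter_upwards [hev, hvsmall (ε / (B + 1)) (by positivity)] with k hk hks u hu
    obtain ⟨a1, a2, a3⟩ := hk.2 u hu
    obtain ⟨b1, b2, b3⟩ := hω u hu
    have h := hk.1 _ a2 _ b2
    have e1 : ‖v k (o k u) - v k (ω u)‖ = ‖v k (ω u) - w (ω u)‖ := by
      rw [a3, b3, norm_sub_rev]
    rw [e1] at h
    have h4 := hks (ω u) (hsub2 b2)
    rw [dist_comm, dist_eq_norm]
    calc ‖o k u - ω u‖ ≤ B * ‖v k (ω u) - w (ω u)‖ := h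
      _ ≤ B * (ε / (B + 1)) := mul_le_mul_of_nonneg_left h4.le hB.le
      _ < ε := by
        rw [← mul_div_assoc, div_lt_iff₀ (by positivity)]
        nlinarith
  · have hwc : ContinuousAt w 0 := (hw 0 (mem_ball_self hr')).continuousAt
    have hmem : ∀ᶠ z in 𝓝 (0 : ℂ), ‖w z‖ < ρ / 2 := by
      have : Tendsto (fun z => ‖w z‖) (𝓝 0) (𝓝 0) := by
        have h7 : Tendsto (fun z => ‖w z‖) (𝓝 0) (𝓝 ‖w 0‖) := hwc.norm
        rw [hw0, norm_zero] at h7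
        exact h7
      exact this.eventually (gt_mem_nhds (by positivity))
    obtain ⟨r₂, hr₂, hr₂b⟩ := Metric.eventually_nhds_iff_ball.1 hmem
    refine ⟨min r₂ r₁, lt_min hr₂ hr₁, ?_, ?_⟩
    · intro z hz
      have hz1 : z ∈ ball (0 : ℂ) r₁ := ball_subset_ball (min_le_right _ _) hz
      have hz2 := hr₂b z (ball_subset_ball (min_le_left _ _) hz)
      have hm : w z ∈ ball (0 : ℂ) ρ := by
        rw [mem_ball_zero_iff]
        linarith
      refine ⟨w z, hm, ?_⟩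
      obtain ⟨b1, b2, b3⟩ := hω (w z) hm
      have := hwlo _ b2 _ hz1
      rw [b3, sub_self, norm_zero, mul_zero] at this
      exact sub_eq_zero.1 (norm_le_zero_iff.1 this)
    · filter_upwards [hev, hvsmall (ρ / 2) (by positivity)] with k hk hks z hz
      have hz1 : z ∈ ball (0 : ℂ) r₁ := ball_subset_ball (min_le_right _ _) hz
      have hz2 := hr₂b z (ball_subset_ball (min_le_left _ _) hz)
      have hm : v k z ∈ ball (0 : ℂ) ρ := by
        rw [mem_ball_zero_iff]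
        have h5 := hks z (hsub2 hz1)
        calc ‖v k z‖ = ‖(v k z - w z) + w z‖ := by ring_nf
          _ ≤ ‖v k z - w z‖ + ‖w z‖ := norm_add_le _ _
          _ < ρ := by linarith
      refine ⟨v k z, hm, ?_⟩
      obtain ⟨b1, b2, b3⟩ := hk.2 (v k z) hm
      have := hk.1 _ b2 _ hz1
      rw [b3, sub_self, norm_zero, mul_zero] at this
      exact sub_eq_zero.1 (norm_le_zero_iff.1 this)

end pure

end Pool.Agent.MBS

namespace Pool.Agent.MBS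
alias crit_norm := crit_norm_pr
end Pool.Agent.MBS
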