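import Pool.Agent.Lib_helper58.MBS.Base
import Pool.Agent.Lib_helper58.MBS.L.AINV

set_option autoImplicit false
set_option linter.unusedSectionVars false
set_option linter.unusedVariables false

open Filter Topology Metric Set

namespace Pool.Agent.MBS

open Pool.Agent.BR

section pure

variable {E : Type} [NormedAddCommGroup E] [NormedSpace ℂ E] [FiniteDimensional ℂ E]

theorem acrb_Wr {a : ℕ} (ha : 0 < a) {v : ℂ} (hv : v ≠ 0) {κ : ℝ} (hκ : 0 < κ) :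
    ∃ ρ' > 0, ∃ η > 0, ∀ u ∈ ball v ρ', ∀ δ ∈ ball (0 : ℂ) η,
      u ≠ 0 ∧ Wr a u δ ∈ ball v κ ∧ Wr a u δ ^ a = u ^ a + δ := by
  have hva : v ^ a ≠ 0 := pow_ne_zero a hv
  have hq : ContinuousAt (fun p : ℂ × ℂ => 1 + p.2 / p.1 ^ a) (v, 0) := by
    refine continuousAt_const.add (ContinuousAt.div continuousAt_snd (continuousAt_fst.pow a) ?_)
    exact hva
  have hq1 : (fun p : ℂ × ℂ => 1 + p.2 / p.1 ^ a) (v, 0) = 1 := by simp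
  have hW : ContinuousAt (fun p : ℂ × ℂ => Wr a p.1 p.2) (v, 0) := by
    unfold Wr
    refine continuousAt_fst.mul ?_
    refine Complex.continuous_exp.continuousAt.comp ?_
    refine ContinuousAt.div_const ?_ _
    refine ContinuousAt.clog hq ?_
    simp only [zero_div, add_zero]
    exact Complex.one_mem_slitPlane
  have hW1 : (fun p : ℂ × ℂ => Wr a p.1 p.2) (v, 0) = v := by simp [Wr]
  have e1 : ∀ᶠ p : ℂ × ℂ in 𝓝 (v, 0), p.1 ≠ 0 :=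
    continuousAt_fst.eventually_ne (by simpa using hv)
  have e2 : ∀ᶠ p : ℂ × ℂ in 𝓝 (v, 0), 1 + p.2 / p.1 ^ a ≠ 0 :=
    hq.eventually_ne (by simp)
  have e3 : ∀ᶠ p : ℂ × ℂ in 𝓝 (v, 0), Wr a p.1 p.2 ∈ ball v κ := by
    refine hW.eventually ?_
    rw [hW1]
    exact isOpen_ball.mem_nhds (mem_ball_self hκ)
  obtain ⟨ε, hε, h⟩ := Metric.eventually_nhds_iff_ball.1 (e1.and (e2.and e3))
  refine ⟨ε, hε, ε, hε, fun u hu δ hδ => ?_⟩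
  have hm : (u, δ) ∈ ball ((v, 0) : ℂ × ℂ) ε := by
    rw [← ball_prod_same]; exact ⟨hu, hδ⟩
  obtain ⟨h1, h2, h3⟩ := h _ hm
  refine ⟨h1, h3, ?_⟩
  simp only at h1 h2 h3
  have ha0 : (a : ℂ) ≠ 0 := by exact_mod_cast ha.ne'
  unfold Wr
  rw [mul_pow, ← Complex.exp_nat_mul, mul_div_cancel₀ _ ha0, Complex.exp_log h2]
  field_simp

theorem acrb_lip {F : ℂ → E} {v : ℂ} {R M : ℝ} (hR : 0 < R)
    (hF : ∀ z ∈ ball v R, AnalyticAt ℂ F z) (hM : ∀ z ∈ ball v R, ‖F z‖ ≤ M) :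
    ∀ z ∈ ball v (R / 2), ∀ z' ∈ ball v (R / 2), ‖F z' - F z‖ ≤ (M / (R / 4)) * ‖z' - z‖ := by
  intro z hz z' hz'
  have hsub : ∀ y ∈ ball v (R / 2), closedBall y (R / 4) ⊆ ball v R := by
    intro y hy w hw
    rw [mem_ball] at *
    rw [mem_closedBall] at hw
    calc dist w v ≤ dist w y + dist y v := dist_triangle _ _ _
      _ < R := by linarith
  refine Convex.norm_image_sub_le_of_norm_deriv_le (s := ball v (R / 2)) ?_ ?_ (convex_ball _ _)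
    hz hz'
  · intro y hy
    exact (hF y (ball_subset_ball (by linarith) hy)).differentiableAt
  · intro y hy
    refine Complex.norm_deriv_le_of_forall_mem_sphere_norm_le (by linarith) ?_ ?_
    · refine DifferentiableOn.diffContOnCl ?_
      rw [closure_ball _ (by linarith : (R / 4) ≠ 0)]
      intro w hw
      exact (hF w (hsub y hy hw)).differentiableAt.differentiableWithinAt
    · intro w hw
      exact hM w (hsub y hy (sphere_subset_closedBall hw))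

theorem acrb_deriv {ω : ℂ → ℂ} {v : ℂ} {ρ B₀ : ℝ} (hB₀ : 0 < B₀) (hv : v ∈ ball (0 : ℂ) ρ)
    (hω : AnalyticAt ℂ ω v) (hL : ∀ u ∈ ball (0 : ℂ) ρ, ‖u - v‖ ≤ B₀ * ‖ω u - ω v‖) :
    deriv ω v ≠ 0 := by
  intro h0
  have h1 : HasDerivAt ω 0 v := h0 ▸ hω.differentiableAt.hasDerivAt
  have h2 := (hasDerivAt_iff_tendsto_slope.1 h1).norm
  rw [norm_zero] at h2
  have h3 : ∀ᶠ u in 𝓝[≠] v, 1 / B₀ ≤ ‖slope ω v u‖ := by
    have h4 : ∀ᶠ u in 𝓝[≠] v, u ∈ ball (0 : ℂ) ρ :=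
      mem_nhdsWithin_of_mem_nhds (isOpen_ball.mem_nhds hv)
    filter_upwards [h4, self_mem_nhdsWithin] with u hu hne
    have hne' : u ≠ v := hne
    have hpos : 0 < ‖u - v‖ := norm_pos_iff.2 (sub_ne_zero.2 hne')
    rw [slope_def_module, norm_smul, norm_inv, div_le_iff₀ hB₀]
    have h5 := hL u hu
    calc (1 : ℝ) = ‖u - v‖⁻¹ * ‖u - v‖ := (inv_mul_cancel₀ hpos.ne').symm
      _ ≤ ‖u - v‖⁻¹ * (B₀ * ‖ω u - ω v‖) :=
          mul_le_mul_of_nonneg_left h5 (inv_nonneg.2 hpos.le)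
      _ = ‖u - v‖⁻¹ * ‖ω u - ω v‖ * B₀ := by ring
  have h6 := ge_of_tendsto h2 h3
  have : 0 < 1 / B₀ := by positivity
  linarith

/-- ACRB: the displacement in the normal form is bounded on circles -/
theorem crit_eta_pr {κ : Type} {F : Filter κ} (l : E →L[ℂ] ℂ) {a : ℕ} (ha : 0 < a) {r ρ r₁ B₀ : ℝ}
    (hρ : 0 < ρ) (hr₁ : r₁ ≤ r) (hB₀ : 0 < B₀) {β : ℂ → E} {b : κ → ℂ → E} {ω : ℂ → ℂ}
    {o : κ → ℂ → ℂ} {x : κ → ℂ} {m : κ → ℝ}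
    (hβ : ∀ z ∈ ball (0 : ℂ) r, AnalyticAt ℂ β z)
    (hb : ∀ᶠ k in F, ∀ z ∈ ball (0 : ℂ) r, AnalyticAt ℂ (b k) z)
    (hlim : TendstoUniformlyOn b β F (ball 0 r))
    (hω : ∀ u ∈ ball (0 : ℂ) ρ, AnalyticAt ℂ ω u ∧ ω u ∈ ball (0 : ℂ) r₁ ∧
      l (β (ω u)) = l (β 0) + u ^ a) (hω0 : ω 0 = 0)
    (hωL : ∀ u ∈ ball (0 : ℂ) ρ, ∀ u' ∈ ball (0 : ℂ) ρ, ‖ω u - ω u'‖ ≤ B₀ * ‖u - u'‖ ∧
      ‖u - u'‖ ≤ B₀ * ‖ω u - ω u'‖)
    (ho : ∀ᶠ k in F, ∀ u ∈ ball (0 : ℂ) ρ, AnalyticAt ℂ (o k) u ∧ o k u ∈ ball (0 : ℂ) r₁ ∧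
      l (b k (o k u)) = x k + u ^ a)
    (holim : TendstoUniformlyOn o ω F (ball 0 ρ))
    (hx : Tendsto x F (𝓝 (l (β 0)))) (hm : ∀ᶠ k in F, 0 < m k)
    (hN : ∀ z ∈ ball (0 : ℂ) r, z ≠ 0 → ∃ ρ' > 0, ∃ B : ℝ, ∀ ε > 0, ∀ᶠ k in F, ∀ ζ ∈ ball z ρ',
      ∃ u, ‖u - ζ‖ ≤ ε ∧ ‖β ζ - b k u‖ ≤ B * m k) :
    ∀ v ∈ ball (0 : ℂ) ρ, v ≠ 0 → ∃ ρ' > 0, ∃ B : ℝ, ∀ᶠ k in F, ∀ u ∈ ball v ρ',
      u ∈ ball (0 : ℂ) ρ ∧ u ≠ 0 ∧ Wr a u (x k - l (β 0)) ∈ ball (0 : ℂ) ρ ∧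
      ‖β (ω (Wr a u (x k - l (β 0)))) - b k (o k u)‖ ≤ B * m k := by
  intro v hv hv0
  have hz := (hω v hv).2.1
  have hzr : ω v ∈ ball (0 : ℂ) r := ball_subset_ball hr₁ hz
  have hz0 : ω v ≠ 0 := by
    intro e
    have h := (hωL v hv 0 (mem_ball_self hρ)).2
    rw [hω0, e, sub_zero, sub_zero, norm_zero, mul_zero] at h
    exact hv0 (norm_le_zero_iff.1 h)
  obtain ⟨ρN, hρN, BN, hBN⟩ := hN (ω v) hzr hz0
  -- 1. a closed ball around `ω v`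
  obtain ⟨s, hs, hsb⟩ : ∃ s > 0, closedBall (ω v) s ⊆ ball (0 : ℂ) r :=
    Metric.nhds_basis_closedBall.mem_iff.1 (isOpen_ball.mem_nhds hzr)
  obtain ⟨M₀, hM₀⟩ := (isCompact_closedBall (ω v) s).exists_bound_of_continuousOn (f := β)
    (fun z hz => (hβ z (hsb hz)).continuousAt.continuousWithinAt)
  -- 2. the radius R
  obtain ⟨R, hR, hRb⟩ : ∃ R > 0, ∀ u ∈ ball v R, u ∈ ball (0 : ℂ) ρ ∧ u ≠ 0 ∧
      ω u ∈ ball (ω v) (s / 2) := by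
    have e1 : ∀ᶠ u in 𝓝 v, u ∈ ball (0 : ℂ) ρ := isOpen_ball.mem_nhds hv
    have e2 : ∀ᶠ u in 𝓝 v, u ≠ 0 := isOpen_ne.mem_nhds hv0
    have e3 : ∀ᶠ u in 𝓝 v, ω u ∈ ball (ω v) (s / 2) :=
      (hω v hv).1.continuousAt.eventually (isOpen_ball.mem_nhds (mem_ball_self (by linarith)))
    obtain ⟨R, hR, h⟩ := Metric.eventually_nhds_iff_ball.1 (e1.and (e2.and e3))
    exact ⟨R, hR, h⟩
  -- 3. the power function
  obtain ⟨r₂, hr₂, hr₂R, ρ₂, hρ₂, δ₂, hδ₂, B₂, hB₂, hpow⟩ :=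
    unif_inv (φ := fun z : ℂ => z ^ a) (z₀ := v) (analyticAt_id.pow a) (by
      have : deriv (fun z : ℂ => z ^ a) v = a * v ^ (a - 1) := by simp
      rw [this]
      exact mul_ne_zero (by exact_mod_cast ha.ne') (pow_ne_zero _ hv0)) (R / 2) (by linarith)
  have hpow' := (hpow (fun z : ℂ => z ^ a) (fun z _ => analyticAt_id.pow a)
    (fun z _ => by simp [hδ₂.le])).1
  -- 4. the inverse of `o k`
  obtain ⟨r₃, hr₃, hr₃r, ρ₁, hρ₁, δ₁, hδ₁, B₁, hB₁, hinv⟩ :=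
    unif_inv (φ := ω) (z₀ := v) (hω v hv).1
      (acrb_deriv hB₀ hv (hω v hv).1 fun u hu => (hωL u hu v hv).2) r₂ hr₂
  -- 5. the radius κ
  obtain ⟨κ₀, hκ₀, hκb⟩ : ∃ κ₀ > 0, ∀ u ∈ ball v κ₀, u ∈ ball (0 : ℂ) ρ ∧
      ω u ∈ ball (ω v) (min (ρ₁ / 2) ρN) := by
    have e1 : ∀ᶠ u in 𝓝 v, u ∈ ball (0 : ℂ) ρ := isOpen_ball.mem_nhds hv
    have e3 : ∀ᶠ u in 𝓝 v, ω u ∈ ball (ω v) (min (ρ₁ / 2) ρN) :=
      (hω v hv).1.continuousAt.eventually (isOpen_ball.mem_nhds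
        (mem_ball_self (lt_min (by linarith) hρN)))
    obtain ⟨R, hR, h⟩ := Metric.eventually_nhds_iff_ball.1 (e1.and e3)
    exact ⟨R, hR, h⟩
  obtain ⟨ρ', hρ', η, hη, hW⟩ := acrb_Wr ha hv0 hκ₀
  refine ⟨min ρ' r₂, lt_min hρ' hr₂, BN + (M₀ + 1) / (R / 4) * (B₂ * (‖l‖ * BN)), ?_⟩
  have ev1 : ∀ᶠ k in F, x k - l (β 0) ∈ ball (0 : ℂ) η := by
    have h := hx.sub_const (l (β 0))
    rw [sub_self] at h
    exact h.eventually (isOpen_ball.mem_nhds (mem_ball_self hη))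
  have ev2 : ∀ᶠ k in F, ∀ u ∈ ball (0 : ℂ) ρ, dist (ω u) (o k u) < min δ₁ (s / 2) :=
    Metric.tendstoUniformlyOn_iff.1 holim _ (lt_min hδ₁ (by linarith))
  have ev3 : ∀ᶠ k in F, ∀ z ∈ ball (0 : ℂ) r, dist (β z) (b k z) < 1 :=
    Metric.tendstoUniformlyOn_iff.1 hlim _ one_pos
  filter_upwards [ev1, ev2, ev3, hb, ho, hm, hBN (ρ₁ / 2) (by linarith)] with k k1 k2 k3 k4 k5 k6 k7
  intro u hu
  have huρ' : u ∈ ball v ρ' := ball_subset_ball (min_le_left _ _) hu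
  have hur₂ : u ∈ ball v r₂ := ball_subset_ball (min_le_right _ _) hu
  have huR : u ∈ ball v (R / 2) := ball_subset_ball hr₂R hur₂
  obtain ⟨hu0, hWκ, hWa⟩ := hW u huρ' _ k1
  set W := Wr a u (x k - l (β 0)) with hWdef
  obtain ⟨hWρ, hWω⟩ := hκb W hWκ
  refine ⟨(hRb u (ball_subset_ball (by linarith) huR)).1, hu0, hWρ, ?_⟩
  obtain ⟨u', hu'1, hu'2⟩ := k7 (ω W) (ball_subset_ball (min_le_right _ _) hWω)
  -- the preimage of u' under `o k`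
  have hr₂ρ : ∀ z ∈ ball v r₂, z ∈ ball (0 : ℂ) ρ := fun z hz =>
    (hRb z (ball_subset_ball (by linarith) hz)).1
  obtain ⟨-, uu, huu⟩ := hinv (o k) (fun z hz => (k5 z (hr₂ρ z hz)).1) (fun z hz => by
    have h := k2 z (hr₂ρ z hz)
    rw [dist_comm, dist_eq_norm] at h
    exact h.le.trans (min_le_left _ _))
  have hu'b : u' ∈ ball (ω v) ρ₁ := by
    have h1 := ball_subset_ball (min_le_left _ _) hWω
    rw [mem_ball] at h1 ⊢
    rw [← dist_eq_norm] at hu'1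
    calc dist u' (ω v) ≤ dist u' (ω W) + dist (ω W) (ω v) := dist_triangle _ _ _
      _ < ρ₁ := by linarith
  obtain ⟨-, hũ, hoũ⟩ := huu u' hu'b
  set ũ := uu u' with hũdef
  have hũr₂ : ũ ∈ ball v r₂ := ball_subset_ball hr₃r hũ
  have hũR : ũ ∈ ball v (R / 2) := ball_subset_ball hr₂R hũr₂
  -- the powers
  have hp : ‖u ^ a - ũ ^ a‖ ≤ ‖l‖ * (BN * m k) := by
    have e1 : l (β (ω W)) = x k + u ^ a := by
      rw [(hω W hWρ).2.2, hWa]; ring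
    have e2 : l (b k u') = x k + ũ ^ a := by
      rw [← hoũ]; exact (k5 ũ (hr₂ρ ũ hũr₂)).2.2
    have e3 : u ^ a - ũ ^ a = l (β (ω W) - b k u') := by
      rw [map_sub, e1, e2]; ring
    rw [e3]
    exact (l.le_opNorm _).trans (mul_le_mul_of_nonneg_left hu'2 (norm_nonneg _))
  have hd : ‖u - ũ‖ ≤ B₂ * (‖l‖ * (BN * m k)) :=
    (hpow' u hur₂ ũ hũr₂).trans (mul_le_mul_of_nonneg_left hp hB₂.le)
  -- the Lipschitz bound
  have hokb : ∀ z ∈ ball v R, o k z ∈ ball (ω v) s := by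
    intro z hz
    obtain ⟨h1, -, h3⟩ := hRb z hz
    have h4 := k2 z h1
    rw [mem_ball] at h3 ⊢
    rw [dist_comm] at h4
    have h5 := h4.trans_le (min_le_right _ _)
    calc dist (o k z) (ω v) ≤ dist (o k z) (ω z) + dist (ω z) (ω v) := dist_triangle _ _ _
      _ < s := by linarith
  have hFa : ∀ z ∈ ball v R, AnalyticAt ℂ (fun z => b k (o k z)) z := by
    intro z hz
    have h1 := (hRb z hz).1
    have h2 : AnalyticAt ℂ (b k) (o k z) := k4 _ (hsb (ball_subset_closedBall (hokb z hz)))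
    exact AnalyticAt.comp (g := b k) (f := o k) h2 (k5 z h1).1
  have hFb : ∀ z ∈ ball v R, ‖b k (o k z)‖ ≤ M₀ + 1 := by
    intro z hz
    have h1 := ball_subset_closedBall (hokb z hz)
    have h2 := hM₀ _ h1
    have h3 := k3 _ (hsb h1)
    rw [dist_comm, dist_eq_norm] at h3
    have h4 : b k (o k z) = (b k (o k z) - β (o k z)) + β (o k z) := by abel
    rw [h4]
    exact (norm_add_le _ _).trans (by linarith)
  have hL := acrb_lip hR hFa hFb u huR ũ hũR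
  have hM1 : 0 ≤ (M₀ + 1) / (R / 4) := by
    have h0 : (0 : ℝ) ≤ M₀ + 1 := (norm_nonneg _).trans (hFb v (mem_ball_self hR))
    positivity
  have e5 : β (ω W) - b k (o k u) = (β (ω W) - b k u') + (b k (o k ũ) - b k (o k u)) := by
    rw [hoũ]; abel
  rw [e5]
  refine (norm_add_le _ _).trans ?_
  rw [norm_sub_rev] at hd
  have h6 := hL.trans (mul_le_mul_of_nonneg_left hd hM1)
  calc ‖β (ω W) - b k u'‖ + ‖b k (o k ũ) - b k (o k u)‖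
      ≤ BN * m k + (M₀ + 1) / (R / 4) * (B₂ * (‖l‖ * (BN * m k))) := add_le_add hu'2 h6
    _ = (BN + (M₀ + 1) / (R / 4) * (B₂ * (‖l‖ * BN))) * m k := by ring


end pure

end Pool.Agent.MBS

namespace Pool.Agent.MBS
alias crit_eta := crit_eta_pr
end Pool.Agent.MBS
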