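import Pool.Agent.Lib_helper58.MBS.Base

set_option autoImplicit false
set_option linter.unusedSectionVars false
set_option linter.unusedVariables false

open Filter Topology Metric Set

namespace Pool.Agent.MBS

open Pool.Agent.BR

section pure

variable {E : Type} [NormedAddCommGroup E] [NormedSpace ℂ E] [FiniteDimensional ℂ E]

theorem alau_zero {ρ s t : ℝ} (ht : 0 < t) (hts : t < s) (hsρ : s < ρ) {F : ℂ → E}
    (hF : ∀ u ∈ ball (0 : ℂ) ρ, u ≠ 0 → AnalyticAt ℂ F u)
    (h : ∀ n : ℕ, (∮ u in C(0, s), u ^ n • F u) = 0) {w : ℂ} (hw : t < ‖w‖) :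
    (∮ u in C(0, t), (u - w)⁻¹ • F u) = 0 := by
  have hFt : ∀ n : ℕ, (∮ u in C(0, t), u ^ n • F u) = 0 := by
    intro n
    rw [← h n]
    symm
    apply Complex.circleIntegral_eq_of_differentiable_on_annulus_off_countable ht hts.le
      Set.countable_empty
    · intro u hu
      have hu1 : u ∈ ball (0 : ℂ) ρ := by
        rw [mem_ball_zero_iff]
        have := mem_closedBall_zero_iff.1 hu.1
        linarith
      have hu0 : u ≠ 0 := by
        rintro rfl
        exact hu.2 (mem_ball_self ht)
      exact (((analyticAt_id.pow n).smul (hF u hu1 hu0)).continuousAt).continuousWithinAt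
    · intro u hu
      have hu1 : u ∈ ball (0 : ℂ) ρ := by
        rw [mem_ball_zero_iff]
        have := mem_ball_zero_iff.1 hu.1.1
        linarith
      have hu0 : u ≠ 0 := by
        rintro rfl
        exact hu.1.2 (mem_closedBall_self ht.le)
      exact ((analyticAt_id.pow n).smul (hF u hu1 hu0)).differentiableAt
  have hw0 : w ≠ 0 := by
    rintro rfl
    simp at hw
    linarith
  have hsph : ∀ u ∈ sphere (0 : ℂ) t, u ∈ ball (0 : ℂ) ρ ∧ u ≠ 0 ∧ u - w ≠ 0 := by
    intro u hu
    have hu' : ‖u‖ = t := mem_sphere_zero_iff_norm.1 hu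
    refine ⟨?_, ?_, ?_⟩
    · rw [mem_ball_zero_iff]; linarith
    · rintro rfl
      simp at hu'
      linarith
    · intro h0
      have : u = w := sub_eq_zero.1 h0
      rw [← this] at hw
      linarith
  have hcF : ContinuousOn F (sphere (0 : ℂ) t) := fun u hu =>
    (hF u (hsph u hu).1 (hsph u hu).2.1).continuousAt.continuousWithinAt
  have hcinv : ContinuousOn (fun u : ℂ => (u - w)⁻¹) (sphere (0 : ℂ) t) := by
    apply ContinuousOn.inv₀ (by fun_prop)
    intro u hu
    exact (hsph u hu).2.2
  have hstep : ∀ N : ℕ, (∮ u in C(0, t), (u - w)⁻¹ • F u) =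
      ∮ u in C(0, t), ((u / w) ^ N * (u - w)⁻¹) • F u := by
    intro N
    induction N with
    | zero => simp
    | succ N ih =>
      rw [ih]
      have e1 : (∮ u in C(0, t), ((u / w) ^ N * (u - w)⁻¹) • F u) -
          (∮ u in C(0, t), ((u / w) ^ (N + 1) * (u - w)⁻¹) • F u) =
          ∮ u in C(0, t), (-(w⁻¹) ^ (N + 1)) • (u ^ N • F u) := by
        rw [← circleIntegral.integral_sub]
        · apply circleIntegral.integral_congr ht.le
          intro u hu
          obtain ⟨hu1, hu2, hu3⟩ := hsph u hu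
          simp only []
          rw [← sub_smul, smul_smul]
          congr 1
          have hc : (u - w)⁻¹ * (u - w) = 1 := inv_mul_cancel₀ hu3
          have hi : w⁻¹ * w = 1 := inv_mul_cancel₀ hw0
          rw [div_eq_mul_inv, mul_pow, mul_pow, pow_succ, pow_succ]
          linear_combination (-(u ^ N * w⁻¹ ^ N * w⁻¹)) * hc +
            (-(u ^ N * w⁻¹ ^ N * (u - w)⁻¹)) * hi
        · apply ContinuousOn.circleIntegrable ht.le
          apply ContinuousOn.smul _ hcF
          apply ContinuousOn.mul _ hcinv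
          fun_prop
        · apply ContinuousOn.circleIntegrable ht.le
          apply ContinuousOn.smul _ hcF
          apply ContinuousOn.mul _ hcinv
          fun_prop
      rw [circleIntegral.integral_smul, hFt N, smul_zero, sub_eq_zero] at e1
      exact e1
  obtain ⟨M, hM⟩ := (isCompact_sphere (0 : ℂ) t).exists_bound_of_continuousOn
    (hcinv.smul hcF)
  have hbd : ∀ N : ℕ, ‖∮ u in C(0, t), (u - w)⁻¹ • F u‖ ≤ 2 * Real.pi * t * M * (t / ‖w‖) ^ N := by
    intro N
    rw [hstep N]
    have := circleIntegral.norm_integral_le_of_norm_le_const (f := fun u : ℂ =>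
      ((u / w) ^ N * (u - w)⁻¹) • F u) (c := (0 : ℂ)) (R := t) (C := (t / ‖w‖) ^ N * M) ht.le (by
        intro u hu
        rw [mul_smul, norm_smul, norm_pow, norm_div, mem_sphere_zero_iff_norm.1 hu]
        exact mul_le_mul_of_nonneg_left (hM u hu) (by positivity))
    calc _ ≤ _ := this
      _ = _ := by ring
  have hlim : Tendsto (fun N : ℕ => 2 * Real.pi * t * M * (t / ‖w‖) ^ N) atTop (𝓝 0) := by
    have := tendsto_pow_atTop_nhds_zero_of_lt_one (r := t / ‖w‖) (by positivity)
      (by rw [div_lt_one (by linarith)]; exact hw)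
    simpa using this.const_mul (2 * Real.pi * t * M)
  have := ge_of_tendsto' hlim hbd
  exact norm_le_zero_iff.1 this

theorem alau_formula {ρ s : ℝ} (hs : 0 < s) (hsρ : s < ρ) {F : ℂ → E}
    (hF : ∀ u ∈ ball (0 : ℂ) ρ, u ≠ 0 → AnalyticAt ℂ F u)
    (h : ∀ n : ℕ, (∮ u in C(0, s), u ^ n • F u) = 0) {w : ℂ} (hw0 : w ≠ 0) (hws : ‖w‖ < s) :
    (∮ u in C(0, s), (u - w)⁻¹ • F u) = (2 * Real.pi * Complex.I : ℂ) • F w := by
  have hwp : 0 < ‖w‖ := norm_pos_iff.2 hw0
  obtain ⟨t, ht0, ht⟩ : ∃ t : ℝ, 0 < t ∧ t < ‖w‖ := ⟨‖w‖ / 2, by linarith, by linarith⟩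
  have hts : t < s := by linarith
  have hwρ : w ∈ ball (0 : ℂ) ρ := by rw [mem_ball_zero_iff]; linarith
  have hann : (∮ u in C(0, s), dslope F w u) = ∮ u in C(0, t), dslope F w u := by
    apply Complex.circleIntegral_eq_of_differentiable_on_annulus_off_countable ht0 hts.le
      (Set.countable_singleton w)
    · intro u hu
      have hu1 : u ∈ ball (0 : ℂ) ρ := by
        rw [mem_ball_zero_iff]
        have := mem_closedBall_zero_iff.1 hu.1
        linarith
      have hu0 : u ≠ 0 := by
        rintro rfl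
        exact hu.2 (mem_ball_self ht0)
      by_cases huw : u = w
      · rw [huw]
        exact (continuousAt_dslope_same.2 (hF w hwρ hw0).differentiableAt).continuousWithinAt
      · exact ((continuousAt_dslope_of_ne huw).2
          (hF u hu1 hu0).continuousAt).continuousWithinAt
    · intro u hu
      have hu1 : u ∈ ball (0 : ℂ) ρ := by
        rw [mem_ball_zero_iff]
        have := mem_ball_zero_iff.1 hu.1.1
        linarith
      have hu0 : u ≠ 0 := by
        rintro rfl
        exact hu.1.2 (mem_closedBall_self ht0.le)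
      exact (differentiableAt_dslope_of_ne hu.2).2 (hF u hu1 hu0).differentiableAt
  have hsplit : ∀ r : ℝ, 0 < r → r < ρ → r ≠ ‖w‖ → (∮ u in C(0, r), dslope F w u) =
      (∮ u in C(0, r), (u - w)⁻¹ • F u) - (∮ u in C(0, r), (u - w)⁻¹) • F w := by
    intro r hr hrρ hrw
    have hsph : ∀ u ∈ sphere (0 : ℂ) r, u ∈ ball (0 : ℂ) ρ ∧ u ≠ 0 ∧ u ≠ w := by
      intro u hu
      have hu' : ‖u‖ = r := mem_sphere_zero_iff_norm.1 hu
      refine ⟨?_, ?_, ?_⟩
      · rw [mem_ball_zero_iff]; linarith
      · rintro rfl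
        simp at hu'
        linarith
      · rintro rfl
        exact hrw hu'.symm
    have hcF : ContinuousOn F (sphere (0 : ℂ) r) := fun u hu =>
      (hF u (hsph u hu).1 (hsph u hu).2.1).continuousAt.continuousWithinAt
    have hcinv : ContinuousOn (fun u : ℂ => (u - w)⁻¹) (sphere (0 : ℂ) r) := by
      apply ContinuousOn.inv₀ (by fun_prop)
      intro u hu
      exact sub_ne_zero.2 (hsph u hu).2.2
    rw [← circleIntegral.integral_smul_const, ← circleIntegral.integral_sub]
    · apply circleIntegral.integral_congr hr.le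
      intro u hu
      simp only []
      rw [dslope_of_ne _ (hsph u hu).2.2, slope_def_module, smul_sub]
    · exact ContinuousOn.circleIntegrable hr.le (hcinv.smul hcF)
    · exact ContinuousOn.circleIntegrable hr.le (hcinv.smul continuousOn_const)
  rw [hsplit s hs hsρ (by linarith), hsplit t ht0 (by linarith) ht.ne,
    alau_zero ht0 hts hsρ hF h ht, circleIntegral.integral_sub_inv_of_mem_ball
      (by rw [mem_ball_zero_iff]; exact hws)] at hann
  have hz : (∮ u in C(0, t), (u - w)⁻¹) = 0 := by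
    apply Complex.circleIntegral_eq_zero_of_differentiable_on_off_countable ht0.le
      Set.countable_empty
    · apply ContinuousOn.inv₀ (by fun_prop)
      intro u hu h0
      have : u = w := sub_eq_zero.1 h0
      rw [this, mem_closedBall_zero_iff] at hu
      linarith
    · intro u hu
      apply DifferentiableAt.inv (by fun_prop)
      intro h0
      have : u = w := sub_eq_zero.1 h0
      have hu' := hu.1
      rw [this, mem_ball_zero_iff] at hu'
      linarith
  rw [hz, zero_smul, sub_zero, sub_eq_zero] at hann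
  exact hann

/-- ALAU: a function on the punctured disc whose Laurent coefficients of order `≤ -a` vanish has at
most a pole of order `a - 1` -/
theorem pole_bound_pr {a : ℕ} (ha : 0 < a) {ρ s : ℝ} (hs : 0 < s) (hsρ : s < ρ) {η : ℂ → E}
    (hη : ∀ u ∈ ball (0 : ℂ) ρ, u ≠ 0 → AnalyticAt ℂ η u)
    (h : ∀ j : ℕ, a ≤ j → (∮ u in C(0, s), u ^ ((j : ℤ) - 1) • η u) = 0) :
    ∃ B : ℝ, ∀ u ∈ ball (0 : ℂ) (s / 2), u ≠ 0 → ‖u‖ ^ (a - 1) * ‖η u‖ ≤ B := by
  set F : ℂ → E := fun u => u ^ (a - 1) • η u with hFdef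
  have hF : ∀ u ∈ ball (0 : ℂ) ρ, u ≠ 0 → AnalyticAt ℂ F u := fun u hu hu0 =>
    (analyticAt_id.pow (a - 1)).smul (hη u hu hu0)
  have hint : ∀ n : ℕ, (∮ u in C(0, s), u ^ n • F u) = 0 := by
    intro n
    rw [← h (n + a) (by omega)]
    apply circleIntegral.integral_congr hs.le
    intro u hu
    simp only [hFdef]
    rw [smul_smul, ← pow_add, ← zpow_natCast]
    congr 2
    push_cast [Nat.cast_sub (show 1 ≤ a from ha)]
    ring
  have hcF : ContinuousOn F (sphere (0 : ℂ) s) := by
    intro u hu
    have hu' : ‖u‖ = s := mem_sphere_zero_iff_norm.1 hu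
    refine (hF u ?_ ?_).continuousAt.continuousWithinAt
    · rw [mem_ball_zero_iff]; linarith
    · rintro rfl
      simp at hu'
      linarith
  obtain ⟨M, hM⟩ := (isCompact_sphere (0 : ℂ) s).exists_bound_of_continuousOn hcF
  have hM0 : 0 ≤ M := le_trans (norm_nonneg _) (hM (s : ℂ) (by simp [hs.le]))
  refine ⟨2 * M, ?_⟩
  intro w hw hw0
  rw [mem_ball_zero_iff] at hw
  have hform := alau_formula hs hsρ hF hint hw0 (by linarith)
  have hb := circleIntegral.norm_integral_le_of_norm_le_const (f := fun u : ℂ =>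
      (u - w)⁻¹ • F u) (c := (0 : ℂ)) (R := s) (C := (s / 2)⁻¹ * M) hs.le (by
        intro u hu
        have hu' : ‖u‖ = s := mem_sphere_zero_iff_norm.1 hu
        rw [norm_smul, norm_inv]
        have h1 : s / 2 ≤ ‖u - w‖ := by
          have := norm_sub_norm_le u w
          linarith
        apply mul_le_mul _ (hM u hu) (norm_nonneg _) (by positivity)
        exact inv_anti₀ (by positivity) h1)
  rw [hform, norm_smul] at hb
  have hn : ‖(2 * Real.pi * Complex.I : ℂ)‖ = 2 * Real.pi := by
    rw [norm_mul, norm_mul, Complex.norm_I, Complex.norm_real, Real.norm_eq_abs,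
      abs_of_pos Real.pi_pos]
    simp
  rw [hn] at hb
  have hFw : ‖F w‖ = ‖w‖ ^ (a - 1) * ‖η w‖ := by
    simp only [hFdef]
    rw [norm_smul, norm_pow]
  rw [← hFw]
  have h2 : 2 * Real.pi * s * ((s / 2)⁻¹ * M) = 2 * Real.pi * (2 * M) := by
    field_simp
  rw [h2] at hb
  exact le_of_mul_le_mul_left hb (by positivity)


end pure

end Pool.Agent.MBS

namespace Pool.Agent.MBS
alias pole_bound := pole_bound_pr
end Pool.Agent.MBS
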