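import Pool.Agent.Lib_helper58.MBS.Base

/-! # Minimal Brody sets: block ALIM, ultrafilter limits of bounded holomorphic functions -/

set_option autoImplicit false
set_option linter.unusedSectionVars false
set_option linter.unusedVariables false

open Filter Topology Metric Set

namespace Pool.Agent.MBS

open Pool.Agent.BR

section pure

variable {E : Type} [NormedAddCommGroup E] [NormedSpace ℂ E] [FiniteDimensional ℂ E]

/-- Cauchy's estimate: a Lipschitz bound on the half ball -/
theorem alim_lip {f : ℂ → E} {z : ℂ} {r B : ℝ} (hr : 0 < r)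
    (h : ∀ w ∈ ball z r, AnalyticAt ℂ f w ∧ ‖f w‖ ≤ B) :
    ∀ x ∈ ball z (r / 2), ∀ y ∈ ball z (r / 2), ‖f y - f x‖ ≤ (4 * B / r) * ‖y - x‖ := by
  intro x hx y hy
  refine Convex.norm_image_sub_le_of_norm_deriv_le (s := ball z (r / 2)) (fun w hw => ?_)
    (fun w hw => ?_) (convex_ball z (r / 2)) hx hy
  · exact (h w (ball_subset_ball (by linarith) hw)).1.differentiableAt
  · have hcl : closedBall w (r / 4) ⊆ ball z r := by
      intro v hv
      rw [mem_closedBall] at hv
      rw [mem_ball] at hw ⊢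
      have := dist_triangle v w z
      linarith
    have h1 := Complex.norm_deriv_le_of_forall_mem_sphere_norm_le (c := w) (R := r / 4) (C := B)
      (f := f) (by positivity)
      (by
        apply DifferentiableOn.diffContOnCl
        rw [closure_ball w (by positivity)]
        exact fun v hv => (h v (hcl hv)).1.differentiableAt.differentiableWithinAt)
      (fun v hv => (h v (hcl (sphere_subset_closedBall hv))).2)
    refine h1.trans (le_of_eq ?_)
    field_simp

/-- the local uniform convergence on the half ball -/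
theorem alim_unif {κ : Type} (U : Filter κ) [U.NeBot] {g : κ → ℂ → E} {G : ℂ → E} {z : ℂ}
    {r B : ℝ} (hr : 0 < r)
    (h : ∀ᶠ k in U, ∀ w ∈ ball z r, AnalyticAt ℂ (g k) w ∧ ‖g k w‖ ≤ B)
    (hG : ∀ w ∈ ball z r, Tendsto (fun k => g k w) U (𝓝 (G w))) :
    TendstoLocallyUniformlyOn g G U (ball z (r / 2)) := by
  have hsub : ball z (r / 2) ⊆ ball z r := ball_subset_ball (by linarith)
  set L : ℝ := |4 * B / r| + 1 with hL
  have hL0 : 0 < L := by positivity
  have hlip : ∀ᶠ k in U, ∀ x ∈ ball z (r / 2), ∀ y ∈ ball z (r / 2),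
      ‖g k y - g k x‖ ≤ L * ‖y - x‖ := by
    filter_upwards [h] with k hk x hx y hy
    refine (alim_lip hr hk x hx y hy).trans (mul_le_mul_of_nonneg_right ?_ (norm_nonneg _))
    have := le_abs_self (4 * B / r)
    linarith
  have hlip' : ∀ x ∈ ball z (r / 2), ∀ y ∈ ball z (r / 2), ‖G y - G x‖ ≤ L * ‖y - x‖ := by
    intro x hx y hy
    exact le_of_tendsto ((hG y (hsub hy)).sub (hG x (hsub hx))).norm
      (hlip.mono fun k hk => hk x hx y hy)
  rw [Metric.tendstoLocallyUniformlyOn_iff]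
  intro ε hε x hx
  refine ⟨ball x (ε / (3 * L)) ∩ ball z (r / 2), ?_, ?_⟩
  · rw [inter_comm]
    exact inter_mem_nhdsWithin _ (ball_mem_nhds x (by positivity))
  · have h1 : ∀ᶠ k in U, dist (g k x) (G x) < ε / 3 :=
      (Metric.tendsto_nhds.1 (hG x (hsub hx))) (ε / 3) (by positivity)
    filter_upwards [h1, hlip] with k h2 h3 y hy
    have h4 := h3 x hx y hy.2
    have h5 := hlip' x hx y hy.2
    have h6 : ‖y - x‖ < ε / (3 * L) := by
      have := hy.1
      rwa [mem_ball, dist_eq_norm] at this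
    have h7 : L * ‖y - x‖ < ε / 3 := by
      calc L * ‖y - x‖ < L * (ε / (3 * L)) := mul_lt_mul_of_pos_left h6 hL0
        _ = ε / 3 := by field_simp
    rw [dist_eq_norm] at h2 ⊢
    calc ‖G y - g k y‖ = ‖((G y - G x) - (g k x - G x)) - (g k y - g k x)‖ := by
          congr 1; abel
      _ ≤ ‖(G y - G x) - (g k x - G x)‖ + ‖g k y - g k x‖ := norm_sub_le _ _
      _ ≤ ‖G y - G x‖ + ‖g k x - G x‖ + ‖g k y - g k x‖ := by
          have := norm_sub_le (G y - G x) (g k x - G x)
          linarith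
      _ < ε := by linarith

/-- ALIM: ultrafilter limits of bounded holomorphic functions on an open set -/
theorem ultra_hol_pr {κ : Type} (U : Ultrafilter κ) {O : Set ℂ} (hO : IsOpen O) (g : κ → ℂ → E)
    (h : ∀ z ∈ O, ∃ r > 0, ball z r ⊆ O ∧ ∃ B : ℝ, ∀ᶠ k in (U : Filter κ), ∀ w ∈ ball z r,
      AnalyticAt ℂ (g k) w ∧ ‖g k w‖ ≤ B) :
    ∃ G : ℂ → E, (∀ z ∈ O, AnalyticAt ℂ G z) ∧
      (∀ z ∈ O, ∀ zs : κ → ℂ, Tendsto zs U (𝓝 z) → Tendsto (fun k => g k (zs k)) U (𝓝 (G z))) ∧
      (∀ z ∈ O, ∀ zs : κ → ℂ, Tendsto zs U (𝓝 z) →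
        Tendsto (fun k => deriv (g k) (zs k)) U (𝓝 (deriv G z))) ∧
      ∀ K ⊆ O, IsCompact K → TendstoUniformlyOn g G U K := by
  classical
  have : ProperSpace E := FiniteDimensional.proper ℂ E
  have hpt : ∀ z : ℂ, ∃ w : E, z ∈ O → Tendsto (fun k => g k z) U (𝓝 w) := by
    intro z
    by_cases hz : z ∈ O
    · obtain ⟨r, hr, -, B, hB⟩ := h z hz
      have h1 : ∀ᶠ k in (U : Filter κ), g k z ∈ closedBall (0 : E) B := by
        filter_upwards [hB] with k hk
        rw [mem_closedBall_zero_iff]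
        exact (hk z (mem_ball_self hr)).2
      obtain ⟨w, -, hw⟩ := (isCompact_closedBall (0 : E) B).ultrafilter_le_nhds
        (U.map fun k => g k z) (by
          rw [le_principal_iff]
          exact h1)
      exact ⟨w, fun _ => hw⟩
    · exact ⟨0, fun h => absurd h hz⟩
  choose G hG using hpt
  have hloc : ∀ z ∈ O, ∃ r > 0, ball z r ⊆ O ∧
      (∀ᶠ k in (U : Filter κ), DifferentiableOn ℂ (g k) (ball z r)) ∧
      TendstoLocallyUniformlyOn g G U (ball z r) := by
    intro z hz
    obtain ⟨r, hr, hrO, B, hB⟩ := h z hz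
    refine ⟨r / 2, half_pos hr, (ball_subset_ball (by linarith)).trans hrO, ?_,
      alim_unif (U : Filter κ) hr hB fun w hw => hG w (hrO hw)⟩
    filter_upwards [hB] with k hk w hw
    exact (hk w (ball_subset_ball (by linarith) hw)).1.differentiableAt.differentiableWithinAt
  have han : ∀ z ∈ O, AnalyticAt ℂ G z := by
    intro z hz
    obtain ⟨r, hr, -, h1, h2⟩ := hloc z hz
    exact (h2.differentiableOn h1 isOpen_ball).analyticAt (ball_mem_nhds z hr)
  refine ⟨G, han, fun z hz zs hzs => ?_, fun z hz zs hzs => ?_, fun K hK hKc => ?_⟩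
  · obtain ⟨r, hr, -, h1, h2⟩ := hloc z hz
    refine h2.tendsto_comp (han z hz).continuousAt.continuousWithinAt (mem_ball_self hr) ?_
    rw [isOpen_ball.nhdsWithin_eq (mem_ball_self hr)]
    exact hzs
  · obtain ⟨r, hr, -, h1, h2⟩ := hloc z hz
    have h3 := h2.deriv h1 isOpen_ball
    refine h3.tendsto_comp (F := fun k => deriv (g k))
      (han z hz).deriv.continuousAt.continuousWithinAt (mem_ball_self hr) ?_
    rw [isOpen_ball.nhdsWithin_eq (mem_ball_self hr)]
    exact hzs
  · have h4 : TendstoLocallyUniformlyOn g G U O := by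
      intro u hu x hx
      obtain ⟨r, hr, -, -, h2⟩ := hloc x hx
      obtain ⟨t, ht, ht2⟩ := h2 u hu x (mem_ball_self hr)
      rw [isOpen_ball.nhdsWithin_eq (mem_ball_self hr)] at ht
      exact ⟨t, mem_nhdsWithin_of_mem_nhds ht, ht2⟩
    exact (tendstoLocallyUniformlyOn_iff_forall_isCompact hO).1 h4 K hK hKc

end pure

end Pool.Agent.MBS

namespace Pool.Agent.MBS
alias ultra_hol := ultra_hol_pr
end Pool.Agent.MBS
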