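import Pool.Agent.Lib_helper58.MBS.Base
import Pool.Agent.Lib_helper58.MBS.L.ACEQ
import Pool.Agent.Lib_helper58.MBS.L.ACRA
import Pool.Agent.Lib_helper58.MBS.L.ACRB
import Pool.Agent.Lib_helper58.MBS.L.ALAU
import Pool.Agent.Lib_helper58.MBS.L.ALIM

/-! # Minimal Brody sets: block ACRC -/

set_option autoImplicit false
set_option linter.unusedSectionVars false
set_option linter.unusedVariables false

open Filter Topology Metric Set

namespace Pool.Agent.MBS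

open Pool.Agent.BR

section pure

variable {E : Type} [NormedAddCommGroup E] [NormedSpace ℂ E] [FiniteDimensional ℂ E]

/-! ### the branch of the root -/

theorem acrc_slit {a : ℕ} {u δ : ℂ} (h : ‖δ‖ < ‖u‖ ^ a) : 1 + δ / u ^ a ∈ Complex.slitPlane := by
  have hu : 0 < ‖u‖ ^ a := lt_of_le_of_lt (norm_nonneg _) h
  have h1 : ‖δ / u ^ a‖ < 1 := by
    rw [norm_div, norm_pow, div_lt_one hu]
    exact h
  exact Complex.mem_slitPlane_of_norm_lt_one h1

theorem acrc_Wr_pow {a : ℕ} (ha : 0 < a) {u δ : ℂ} (h : ‖δ‖ < ‖u‖ ^ a) :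
    Wr a u δ ^ a = u ^ a + δ := by
  have hs := Complex.slitPlane_ne_zero (acrc_slit h)
  have hu : u ^ a ≠ 0 := by
    intro h0
    have : 0 < ‖u‖ ^ a := lt_of_le_of_lt (norm_nonneg _) h
    rw [← norm_pow, h0, norm_zero] at this
    exact lt_irrefl _ this
  have ha' : (a : ℂ) ≠ 0 := by exact_mod_cast ha.ne'
  unfold Wr
  rw [mul_pow, ← Complex.exp_nat_mul, mul_div_cancel₀ _ ha', Complex.exp_log hs]
  field_simp

theorem acrc_Wr_inv {a : ℕ} (ha : 0 < a) {u δ : ℂ} (h : ‖δ‖ < ‖u‖ ^ a) :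
    Wr a (Wr a u (-δ)) δ = u := by
  have h' : ‖-δ‖ < ‖u‖ ^ a := by rwa [norm_neg]
  have hs := acrc_slit h'
  have hs0 := Complex.slitPlane_ne_zero hs
  have hu : u ^ a ≠ 0 := by
    intro h0
    have : 0 < ‖u‖ ^ a := lt_of_le_of_lt (norm_nonneg _) h
    rw [← norm_pow, h0, norm_zero] at this
    exact lt_irrefl _ this
  have hp := acrc_Wr_pow ha h'
  have h1 : 1 + δ / Wr a u (-δ) ^ a = (1 + -δ / u ^ a)⁻¹ := by
    rw [hp]
    have h2 : 1 + -δ / u ^ a = (u ^ a + -δ) / u ^ a := by field_simp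
    rw [h2] at hs0 ⊢
    have h3 : u ^ a + -δ ≠ 0 := by
      intro h4
      rw [h4, zero_div] at hs0
      exact hs0 rfl
    field_simp
    ring
  have harg : (1 + -δ / u ^ a).arg ≠ Real.pi := (Complex.mem_slitPlane_iff_arg.mp hs).1
  unfold Wr at h1 ⊢
  have h5 : Complex.log (1 + -δ / u ^ a) / (a : ℂ) + -Complex.log (1 + -δ / u ^ a) / (a : ℂ) = 0 := by
    ring
  rw [h1, Complex.log_inv _ harg, mul_assoc, ← Complex.exp_add, h5, Complex.exp_zero, mul_one]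

theorem acrc_Wr_an {a : ℕ} {u δ : ℂ} (hu : u ≠ 0) (h : ‖δ‖ < ‖u‖ ^ a) :
    AnalyticAt ℂ (fun u : ℂ => Wr a u δ) u := by
  have hs := acrc_slit h
  have hp : u ^ a ≠ 0 := pow_ne_zero _ hu
  unfold Wr
  fun_prop (disch := assumption)

theorem acrc_Wr_tend {κ : Type} {F : Filter κ} {a : ℕ} {u : ℂ} {δ : κ → ℂ}
    (hδ : Tendsto δ F (𝓝 0)) : Tendsto (fun k => Wr a u (δ k)) F (𝓝 u) := by
  have h : ContinuousAt (fun δ : ℂ => Wr a u δ) 0 := by
    unfold Wr
    have hs : (1 + (0 : ℂ) / u ^ a) ∈ Complex.slitPlane := by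
      rw [zero_div, add_zero]
      exact Complex.one_mem_slitPlane
    fun_prop (disch := assumption)
  have h2 := h.tendsto.comp hδ
  have h3 : Wr a u 0 = u := by
    unfold Wr
    simp
  rw [h3] at h2
  exact h2

/-! ### circle integrals -/

theorem acrc_ci {κ : Type} {F : Filter κ} {s : ℝ} (hs : 0 < s) {f : ℂ → E} {g : κ → ℂ → E}
    (hf : ContinuousOn f (sphere 0 s)) (hg : ∀ᶠ k in F, ContinuousOn (g k) (sphere 0 s))
    (h : TendstoUniformlyOn g f F (sphere 0 s)) :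
    Tendsto (fun k => ∮ u in C(0, s), g k u) F (𝓝 (∮ u in C(0, s), f u)) := by
  rw [Metric.tendsto_nhds]
  intro ε hε
  have hp : 0 < 2 * Real.pi * s := by positivity
  have h1 := Metric.tendstoUniformlyOn_iff.mp h (ε / 2 / (2 * Real.pi * s)) (by positivity)
  filter_upwards [h1, hg] with k hk hgk
  have h2 : (∮ u in C(0, s), g k u) - (∮ u in C(0, s), f u) = ∮ u in C(0, s), (g k u - f u) :=
    (circleIntegral.integral_sub (hgk.circleIntegrable hs.le) (hf.circleIntegrable hs.le)).symm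
  rw [dist_eq_norm, h2]
  have h3 : ‖∮ u in C(0, s), (g k u - f u)‖ ≤ 2 * Real.pi * s * (ε / 2 / (2 * Real.pi * s)) := by
    apply circleIntegral.norm_integral_le_of_norm_le_const hs.le
    intro z hz
    have h4 := hk z hz
    rw [dist_comm, dist_eq_norm] at h4
    exact h4.le
  have h5 : 2 * Real.pi * s * (ε / 2 / (2 * Real.pi * s)) = ε / 2 := by field_simp
  rw [h5] at h3
  linarith

/-! ### lower bound of the derivative -/

theorem acrc_deriv {ω : ℂ → ℂ} {ρ B : ℝ} {u : ℂ} (hB : 0 < B) (hu : u ∈ ball (0 : ℂ) ρ)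
    (hω : DifferentiableAt ℂ ω u)
    (h : ∀ u' ∈ ball (0 : ℂ) ρ, ‖u - u'‖ ≤ B * ‖ω u - ω u'‖) : 1 ≤ B * ‖deriv ω u‖ := by
  have h1 := hasDerivAt_iff_tendsto_slope.mp hω.hasDerivAt
  have h2 : Tendsto (fun u' => B * ‖slope ω u u'‖) (𝓝[≠] u) (𝓝 (B * ‖deriv ω u‖)) :=
    h1.norm.const_mul B
  refine ge_of_tendsto h2 ?_
  have h3 : ∀ᶠ u' in 𝓝[≠] u, u' ∈ ball (0 : ℂ) ρ :=
    nhdsWithin_le_nhds (isOpen_ball.mem_nhds hu)
  filter_upwards [h3, self_mem_nhdsWithin] with u' hu' hne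
  have hne' : 0 < ‖u' - u‖ := norm_pos_iff.mpr (sub_ne_zero.mpr hne)
  have h4 := h u' hu'
  rw [slope_def_field, norm_div, ← mul_div_assoc, le_div_iff₀ hne', one_mul,
    norm_sub_rev u' u, norm_sub_rev (ω u') (ω u)]
  exact h4

theorem crit_pr {κ : Type} (U : Ultrafilter κ) (l : E →L[ℂ] ℂ) {a : ℕ} (ha : 0 < a) {r : ℝ}
    (hr : 0 < r) {β : ℂ → E} {b : κ → ℂ → E} {zs : κ → ℂ} {m : κ → ℝ}
    (hβ : ∀ z ∈ ball (0 : ℂ) r, AnalyticAt ℂ β z)
    (hb : ∀ᶠ k in (U : Filter κ), ∀ z ∈ ball (0 : ℂ) r, AnalyticAt ℂ (b k) z)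
    (hlim : TendstoUniformlyOn b β U (ball 0 r))
    (h1 : ∀ q, 1 ≤ q → q < a → iteratedDeriv q β 0 = 0) (h2 : l (iteratedDeriv a β 0) ≠ 0)
    (hz : Tendsto zs U (𝓝 0))
    (h3 : ∀ᶠ k in (U : Filter κ), ∀ q, 1 ≤ q → q < a → iteratedDeriv q (b k) (zs k) = 0)
    (hm : ∀ᶠ k in (U : Filter κ), 0 < m k)
    (hN : ∀ z ∈ ball (0 : ℂ) r, z ≠ 0 → ∃ ρ > 0, ∃ B : ℝ, ∀ ε > 0, ∀ᶠ k in (U : Filter κ),
      ∀ ζ ∈ ball z ρ, ∃ u, ‖u - ζ‖ ≤ ε ∧ ‖β ζ - b k u‖ ≤ B * m k) :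
    ∃ r₂ > 0, ∃ B : ℝ, ∀ z ∈ ball (0 : ℂ) r₂, z ≠ 0 → ∃ (u : κ → ℂ) (d : E),
      Tendsto u U (𝓝 z) ∧ Tendsto (fun k => ((m k : ℂ))⁻¹ • (b k (u k) - β z)) U (𝓝 d) ∧
      l d = 0 ∧ ‖d‖ * ‖l (deriv β z)‖ ≤ B := by
  obtain ⟨ρ, hρ, r₁, hr₁, hr₁r, B₀, hB₀, ω, o, hω, hω0, hωL, ho, holim, r₂, hr₂, hsurj, -⟩ :=
    crit_norm l ha hr hβ hb hlim h1 h2 hz h3
  -- the centres
  have hx : Tendsto (fun k => l (b k (zs k))) U (𝓝 (l (β 0))) := by
    apply (l.continuous.tendsto _).comp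
    have h0 : (0 : ℂ) ∈ ball (0 : ℂ) r := mem_ball_self hr
    apply hlim.tendsto_comp (hβ 0 h0).continuousAt.continuousWithinAt
    · rw [tendsto_nhdsWithin_iff]
      exact ⟨hz, hz.eventually (isOpen_ball.mem_nhds h0)⟩
  have heta := crit_eta (F := (U : Filter κ)) l ha hρ hr₁r hB₀ hβ hb hlim hω hω0 hωL ho holim
    hx hm hN
  set δ : κ → ℂ := fun k => l (b k (zs k)) - l (β 0) with hδd
  have hδ : Tendsto δ U (𝓝 0) := by
    have := hx.sub_const (l (β 0))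
    rwa [sub_self] at this
  set η : κ → ℂ → E := fun k u => ((m k : ℂ))⁻¹ • (β (ω (Wr a u (δ k))) - b k (o k u)) with hηd
  have hO : IsOpen (ball (0 : ℂ) ρ \ {0}) := isOpen_ball.sdiff isClosed_singleton
  -- analyticity and local bounds
  have hloc : ∀ v ∈ ball (0 : ℂ) ρ \ {0}, ∃ r' > 0, ball v r' ⊆ ball (0 : ℂ) ρ \ {0} ∧
      ∃ B : ℝ, ∀ᶠ k in (U : Filter κ), ∀ u ∈ ball v r', AnalyticAt ℂ (η k) u ∧ ‖η k u‖ ≤ B := by
    rintro v ⟨hv, hv0⟩
    have hv0' : v ≠ 0 := hv0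
    obtain ⟨ρ', hρ', B, hB⟩ := heta v hv hv0'
    obtain ⟨r'', hr'', hsub⟩ := Metric.isOpen_iff.mp hO v ⟨hv, hv0⟩
    have hvp : 0 < ‖v‖ := norm_pos_iff.mpr hv0'
    refine ⟨min (min ρ' r'') (‖v‖ / 2), by positivity, ?_, B, ?_⟩
    · exact (ball_subset_ball ((min_le_left _ _).trans (min_le_right _ _))).trans hsub
    · have hsm : ∀ᶠ k in (U : Filter κ), ‖δ k‖ < (‖v‖ / 2) ^ a := by
        have := hδ.norm
        rw [norm_zero] at this
        exact this.eventually (gt_mem_nhds (by positivity))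
      filter_upwards [hB, hsm, hm, hb, ho] with k hk hsk hmk hbk hok u hu
      have hu1 : u ∈ ball v ρ' :=
        ball_subset_ball ((min_le_left _ _).trans (min_le_left _ _)) hu
      have hu2 : u ∈ ball v (‖v‖ / 2) := ball_subset_ball (min_le_right _ _) hu
      obtain ⟨hk1, hk2, hk3, hk4⟩ := hk u hu1
      have hun : ‖v‖ / 2 < ‖u‖ := by
        have h5 : ‖u - v‖ < ‖v‖ / 2 := by simpa [dist_eq_norm] using hu2
        have h6 : ‖v‖ ≤ ‖u‖ + ‖u - v‖ := by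
          have := norm_sub_norm_le v u
          rw [norm_sub_rev v u] at this
          linarith
        linarith
      have hdu : ‖δ k‖ < ‖u‖ ^ a :=
        hsk.trans (pow_lt_pow_left₀ hun (by positivity) ha.ne')
      constructor
      · have a1 : AnalyticAt ℂ (fun u : ℂ => Wr a u (δ k)) u := acrc_Wr_an hk2 hdu
        have a2 : AnalyticAt ℂ (fun u : ℂ => ω (Wr a u (δ k))) u :=
          AnalyticAt.fun_comp (f := fun u : ℂ => Wr a u (δ k)) (hω _ hk3).1 a1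
        have a3 : AnalyticAt ℂ (fun u : ℂ => β (ω (Wr a u (δ k)))) u :=
          AnalyticAt.fun_comp (f := fun u : ℂ => ω (Wr a u (δ k)))
            (hβ _ (ball_subset_ball hr₁r (hω _ hk3).2.1)) a2
        have a4 : AnalyticAt ℂ (fun u : ℂ => b k (o k u)) u :=
          AnalyticAt.fun_comp (f := o k) (hbk _ (ball_subset_ball hr₁r (hok u hk1).2.1))
            (hok u hk1).1
        exact (a3.sub a4).const_smul
      · show ‖((m k : ℂ))⁻¹ • (β (ω (Wr a u (δ k))) - b k (o k u))‖ ≤ B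
        rw [norm_smul, norm_inv, Complex.norm_real, Real.norm_of_nonneg hmk.le,
          inv_mul_le_iff₀ hmk, mul_comm]
        exact hk4
  obtain ⟨G, hGan, hGlim, -, hGunif⟩ := ultra_hol U hO η hloc
  -- `G` takes its values in the kernel
  have hlη : ∀ v ∈ ball (0 : ℂ) ρ \ {0}, l (G v) = 0 := by
    intro v hv
    have hv0 : v ≠ 0 := hv.2
    have hvp : 0 < ‖v‖ := norm_pos_iff.mpr hv0
    have h5 := (l.continuous.tendsto _).comp (hGlim v hv (fun _ => v) tendsto_const_nhds)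
    refine tendsto_nhds_unique h5 ?_
    refine (tendsto_const_nhds (x := (0 : ℂ))).congr' ?_
    have hsm : ∀ᶠ k in (U : Filter κ), ‖δ k‖ < ‖v‖ ^ a := by
      have := hδ.norm
      rw [norm_zero] at this
      exact this.eventually (gt_mem_nhds (by positivity))
    obtain ⟨ρ', hρ', B, hB⟩ := heta v hv.1 hv0
    filter_upwards [hsm, ho, hB] with k hk hok hBk
    obtain ⟨-, -, hk3, -⟩ := hBk v (mem_ball_self hρ')
    show (0 : ℂ) = l (((m k : ℂ))⁻¹ • (β (ω (Wr a v (δ k))) - b k (o k v)))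
    rw [map_smul, map_sub, (hω _ hk3).2.2, (hok v hv.1).2.2, acrc_Wr_pow ha hk, hδd]
    simp only
    rw [show l (β 0) + (v ^ a + (l (b k (zs k)) - l (β 0))) - (l (b k (zs k)) + v ^ a) = 0 by
      ring, smul_zero]
  -- the Laurent coefficients
  have hs : 0 < ρ / 2 := by positivity
  have hsρ : ρ / 2 < ρ := by linarith
  have hsph : sphere (0 : ℂ) (ρ / 2) ⊆ ball (0 : ℂ) ρ \ {0} := by
    intro u hu
    have hu' : ‖u‖ = ρ / 2 := by simpa using hu
    refine ⟨by simpa [hu'] using hsρ, ?_⟩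
    intro h0
    rw [mem_singleton_iff] at h0
    rw [h0, norm_zero] at hu'
    linarith
  have hcpt : IsCompact (sphere (0 : ℂ) (ρ / 2)) := isCompact_sphere _ _
  have hGc : ContinuousOn G (sphere (0 : ℂ) (ρ / 2)) := fun u hu =>
    (hGan u (hsph hu)).continuousAt.continuousWithinAt
  have hGu := hGunif _ hsph hcpt
  obtain ⟨B₁, hB₁⟩ := hcpt.exists_bound_of_continuousOn hGc
  -- continuity of the members on the circle
  have hηc : ∀ᶠ k in (U : Filter κ), ContinuousOn (η k) (sphere (0 : ℂ) (ρ / 2)) := by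
    have h6 : ∀ v ∈ sphere (0 : ℂ) (ρ / 2), ∃ t ∈ 𝓝[sphere (0 : ℂ) (ρ / 2)] v,
        ∀ᶠ k in (U : Filter κ), ∀ u ∈ t, AnalyticAt ℂ (η k) u := by
      intro v hv
      obtain ⟨r', hr', -, B, hB⟩ := hloc v (hsph hv)
      exact ⟨ball v r', nhdsWithin_le_nhds (ball_mem_nhds v hr'),
        hB.mono fun k hk u hu => (hk u hu).1⟩
    have h7 : ∀ᶠ k in (U : Filter κ), ∀ u ∈ sphere (0 : ℂ) (ρ / 2), AnalyticAt ℂ (η k) u := by
      refine hcpt.induction_on (p := fun t => ∀ᶠ k in (U : Filter κ), ∀ u ∈ t,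
        AnalyticAt ℂ (η k) u) ?_ ?_ ?_ ?_
      · exact Eventually.of_forall fun k u hu => absurd hu (Set.notMem_empty u)
      · exact fun s t hst ht => ht.mono fun k hk u hu => hk u (hst hu)
      · intro s t hs' ht
        filter_upwards [hs', ht] with k hk1 hk2 u hu
        rcases hu with hu | hu
        · exact hk1 u hu
        · exact hk2 u hu
      · intro v hv
        obtain ⟨t, ht, h8⟩ := h6 v hv
        exact ⟨t, ht, h8⟩
    exact h7.mono fun k hk u hu => (hk u hu).continuousAt.continuousWithinAt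
  have hbd : ∀ᶠ k in (U : Filter κ), ∀ u ∈ sphere (0 : ℂ) (ρ / 2),
      ‖β (ω (Wr a u (δ k))) - b k (o k u)‖ ≤ (B₁ + 1) * m k := by
    filter_upwards [Metric.tendstoUniformlyOn_iff.mp hGu 1 one_pos, hm] with k hk hmk u hu
    have h6 := hk u hu
    rw [dist_comm, dist_eq_norm] at h6
    have h7 : ‖η k u‖ ≤ B₁ + 1 := by
      have h8 := norm_le_norm_add_norm_sub' (η k u) (G u)
      have h9 := hB₁ u hu
      linarith
    have h8 : β (ω (Wr a u (δ k))) - b k (o k u) = (m k : ℂ) • η k u := by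
      show _ = (m k : ℂ) • ((m k : ℂ))⁻¹ • (β (ω (Wr a u (δ k))) - b k (o k u))
      rw [smul_inv_smul₀]
      exact_mod_cast hmk.ne'
    rw [h8, norm_smul, Complex.norm_real, Real.norm_of_nonneg hmk.le, mul_comm]
    exact mul_le_mul_of_nonneg_right h7 hmk.le
  have hβω : ∀ u ∈ ball (0 : ℂ) ρ, AnalyticAt ℂ (fun u => β (ω u)) u := fun u hu =>
    AnalyticAt.fun_comp (f := ω) (hβ _ (ball_subset_ball hr₁r (hω u hu).2.1)) (hω u hu).1
  have hbo : ∀ᶠ k in (U : Filter κ), ∀ u ∈ ball (0 : ℂ) ρ,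
      AnalyticAt ℂ (fun u => b k (o k u)) u := by
    filter_upwards [hb, ho] with k hbk hok u hu
    exact AnalyticAt.fun_comp (f := o k) (hbk _ (ball_subset_ball hr₁r (hok u hu).2.1)) (hok u hu).1
  have hcoef : ∀ j : ℕ, a ≤ j → (∮ u in C(0, ρ / 2), u ^ ((j : ℤ) - 1) • G u) = 0 := by
    intro j hj
    have h6 := ceq (F := (U : Filter κ)) ha hs hsρ (β := fun u => β (ω u))
      (b := fun k u => b k (o k u)) hβω hbo hδ hm hbd j hj
    have hzc : ContinuousOn (fun u : ℂ => u ^ ((j : ℤ) - 1)) (sphere (0 : ℂ) (ρ / 2)) := by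
      intro u hu
      exact (continuousAt_zpow₀ u _ (Or.inl (hsph hu).2)).continuousWithinAt
    obtain ⟨M, hM⟩ := hcpt.exists_bound_of_continuousOn hzc
    have h7 : TendstoUniformlyOn (fun k u => u ^ ((j : ℤ) - 1) • η k u)
        (fun u => u ^ ((j : ℤ) - 1) • G u) U (sphere (0 : ℂ) (ρ / 2)) := by
      rw [Metric.tendstoUniformlyOn_iff] at hGu ⊢
      intro ε hε
      have hM1 : 0 < |M| + 1 := by positivity
      filter_upwards [hGu (ε / (|M| + 1)) (by positivity)] with k hk u hu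
      have h8 := hk u hu
      rw [dist_eq_norm] at h8 ⊢
      rw [← smul_sub, norm_smul]
      have h9 : ‖u ^ ((j : ℤ) - 1)‖ ≤ |M| + 1 :=
        (hM u hu).trans ((le_abs_self M).trans (by linarith))
      calc ‖u ^ ((j : ℤ) - 1)‖ * ‖G u - η k u‖
          ≤ (|M| + 1) * ‖G u - η k u‖ := mul_le_mul_of_nonneg_right h9 (norm_nonneg _)
        _ < (|M| + 1) * (ε / (|M| + 1)) := mul_lt_mul_of_pos_left h8 hM1
        _ = ε := by field_simp
    have h8 := acrc_ci (F := (U : Filter κ)) hs (hzc.smul hGc)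
      (hηc.mono fun k hk => hzc.smul hk) h7
    refine tendsto_nhds_unique h8 (h6.congr fun k => ?_)
    rw [← circleIntegral.integral_smul]
    congr 1
    funext u
    show ((m k : ℂ))⁻¹ • u ^ ((j : ℤ) - 1) • (β (ω (Wr a u (δ k))) - b k (o k u)) =
      u ^ ((j : ℤ) - 1) • ((m k : ℂ))⁻¹ • (β (ω (Wr a u (δ k))) - b k (o k u))
    rw [smul_comm]
  obtain ⟨B₂, hB₂⟩ := pole_bound ha hs hsρ (fun u hu hu0 => hGan u ⟨hu, hu0⟩) hcoef
  -- the conclusion
  refine ⟨min r₂ (ρ / 2 / 2 / B₀), by positivity, a * B₀ * B₂, fun z hzr hz0 => ?_⟩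
  obtain ⟨u, huρ, huz⟩ := hsurj z (ball_subset_ball (min_le_left _ _) hzr)
  have hzn : ‖z‖ < ρ / 2 / 2 / B₀ := by
    have := ball_subset_ball (min_le_right _ _) hzr
    simpa using this
  have hu0 : u ≠ 0 := by
    rintro rfl
    exact hz0 (huz ▸ hω0)
  have hun : ‖u‖ < ρ / 2 / 2 := by
    have h6 := (hωL u huρ 0 (mem_ball_self hρ)).2
    rw [hω0, huz, sub_zero, sub_zero] at h6
    rw [lt_div_iff₀ hB₀] at hzn
    linarith
  have hup : 0 < ‖u‖ := norm_pos_iff.mpr hu0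
  have huO : u ∈ ball (0 : ℂ) ρ \ {0} := ⟨huρ, hu0⟩
  have hsm : ∀ᶠ k in (U : Filter κ), ‖δ k‖ < ‖u‖ ^ a := by
    have := hδ.norm
    rw [norm_zero] at this
    exact this.eventually (gt_mem_nhds (by positivity))
  have hδn : Tendsto (fun k => -δ k) U (𝓝 0) := by
    have := hδ.neg
    rwa [neg_zero] at this
  have hus : Tendsto (fun k => Wr a u (-δ k)) U (𝓝 u) := acrc_Wr_tend hδn
  refine ⟨fun k => o k (Wr a u (-δ k)), -G u, ?_, ?_, ?_, ?_⟩
  · rw [← huz]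
    apply holim.tendsto_comp (hω u huρ).1.continuousAt.continuousWithinAt
    rw [tendsto_nhdsWithin_iff]
    exact ⟨hus, hus.eventually (isOpen_ball.mem_nhds huρ)⟩
  · refine (hGlim u huO _ hus).neg.congr' ?_
    filter_upwards [hsm] with k hk
    show -(((m k : ℂ))⁻¹ • (β (ω (Wr a (Wr a u (-δ k)) (δ k))) - b k (o k (Wr a u (-δ k))))) =
      ((m k : ℂ))⁻¹ • (b k (o k (Wr a u (-δ k))) - β z)
    rw [acrc_Wr_inv ha hk, huz, ← smul_neg, neg_sub]
  · rw [map_neg, hlη u huO, neg_zero]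
  · have hdω := acrc_deriv hB₀ huρ (hω u huρ).1.differentiableAt fun u' hu' =>
      (hωL u huρ u' hu').2
    have h6 : l (deriv β z) * deriv ω u = a * u ^ (a - 1) := by
      have d1 : HasDerivAt (fun u => l (β (ω u))) (l (deriv ω u • deriv β (ω u))) u := by
        have d2 := (hβ _ (ball_subset_ball hr₁r (hω u huρ).2.1)).differentiableAt.hasDerivAt
        have d3 := (hω u huρ).1.differentiableAt.hasDerivAt
        exact l.hasFDerivAt.comp_hasDerivAt u (d2.scomp u d3)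
      have d4 : HasDerivAt (fun u : ℂ => l (β 0) + u ^ a) (a * u ^ (a - 1)) u :=
        (hasDerivAt_pow a u).const_add _
      have d5 : (fun u => l (β (ω u))) =ᶠ[𝓝 u] fun u : ℂ => l (β 0) + u ^ a := by
        filter_upwards [isOpen_ball.mem_nhds huρ] with v hv
        exact (hω v hv).2.2
      have d6 := d1.unique (d4.congr_of_eventuallyEq d5)
      rw [map_smul, smul_eq_mul, huz] at d6
      rw [mul_comm]
      exact d6
    have h7 : ‖l (deriv β z)‖ ≤ a * B₀ * ‖u‖ ^ (a - 1) := by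
      have h8 : ‖l (deriv β z)‖ * ‖deriv ω u‖ = a * ‖u‖ ^ (a - 1) := by
        rw [← norm_mul, h6, norm_mul, norm_pow, Complex.norm_natCast]
      calc ‖l (deriv β z)‖ ≤ ‖l (deriv β z)‖ * (B₀ * ‖deriv ω u‖) :=
            le_mul_of_one_le_right (norm_nonneg _) hdω
        _ = B₀ * (‖l (deriv β z)‖ * ‖deriv ω u‖) := by ring
        _ = a * B₀ * ‖u‖ ^ (a - 1) := by
            rw [h8]
            ring
    have h8 := hB₂ u (by simpa using hun) hu0
    calc ‖-G u‖ * ‖l (deriv β z)‖ ≤ ‖G u‖ * (a * B₀ * ‖u‖ ^ (a - 1)) := by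
          rw [norm_neg]
          exact mul_le_mul_of_nonneg_left h7 (norm_nonneg _)
      _ = a * B₀ * (‖u‖ ^ (a - 1) * ‖G u‖) := by ring
      _ ≤ a * B₀ * B₂ := mul_le_mul_of_nonneg_left h8 (by positivity)

end pure

end Pool.Agent.MBS

namespace Pool.Agent.MBS
alias crit := crit_pr
end Pool.Agent.MBS
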