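import Pool.Agent.Lib_helper58.MBS.Base

/-! # MBS, block AGL: growth: a maximum of `log ‖σ z‖ - c ‖z‖ ^ 2` -/

set_option autoImplicit false
set_option linter.unusedSectionVars false
set_option linter.unusedVariables false

open Filter Topology Metric Set

namespace Pool.Agent.MBS

open Pool.Agent.BR

/-- a quadratic exponential beats a linear one -/
theorem agl_decay (B K : ℝ) {c : ℝ} (hc : 0 < c) :
    Tendsto (fun z : ℂ => B * Real.exp (K * ‖z‖) * Real.exp (-(c * ‖z‖ ^ 2))) (cocompact ℂ)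
      (𝓝 0) := by
  have h1 : Tendsto (fun r : ℝ => B * Real.exp (K * r) * Real.exp (-(c * r ^ 2))) atTop (𝓝 0) := by
    have h2 : Tendsto (fun r : ℝ => r * (c * r - K)) atTop atTop := by
      refine tendsto_id.atTop_mul_atTop₀ ?_
      exact tendsto_atTop_add_const_right _ (-K) (tendsto_id.const_mul_atTop hc)
    have h3 : Tendsto (fun r : ℝ => B * Real.exp (-(r * (c * r - K)))) atTop (𝓝 (B * 0)) :=
      (Real.tendsto_exp_neg_atTop_nhds_zero.comp h2).const_mul B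
    rw [mul_zero] at h3
    refine h3.congr fun r => ?_
    rw [mul_assoc, ← Real.exp_add]
    congr 2
    ring
  exact h1.comp (tendsto_norm_cocompact_atTop (E := ℂ))

theorem agl_sq (z w : ℂ) : ‖z + w‖ ^ 2 = ‖z‖ ^ 2 + 2 * ((starRingEnd ℂ) z * w).re + ‖w‖ ^ 2 := by
  rw [← Complex.normSq_eq_norm_sq, ← Complex.normSq_eq_norm_sq, ← Complex.normSq_eq_norm_sq,
    Complex.normSq_apply, Complex.normSq_apply, Complex.normSq_apply]
  simp only [Complex.add_re, Complex.add_im, Complex.mul_re, Complex.conj_re, Complex.conj_im]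
  ring

section pure

theorem growth_max_pr {N : ℕ} (σ : ℂ → EuclideanSpace ℂ (Fin N)) (hσ : Differentiable ℂ σ)
    (B K : ℝ)
    (hb : ∀ z, ‖σ z‖ ≤ B * Real.exp (K * ‖z‖)) (hne : ∃ z, σ z ≠ 0) (δ : ℝ) (hδ : 0 < δ) :
    ∃ (z₀ : ℂ) (s : ℂ → EuclideanSpace ℂ (Fin N)), Differentiable ℂ s ∧ ‖s 0‖ = 1 ∧
      (∀ ζ, ‖ζ‖ ≤ 3 → ‖s ζ‖ ≤ 1 + δ) ∧ ∀ ζ, ∃ c : ℂ, s ζ = c • σ (z₀ + ζ) := by
  obtain ⟨z₁, hz₁⟩ := hne
  set c : ℝ := Real.log (1 + δ) / 9 with hcdef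
  have hlog : 0 < Real.log (1 + δ) := Real.log_pos (by linarith)
  have hc : 0 < c := by positivity
  have hc9 : Real.exp (c * 9) = 1 + δ := by
    rw [hcdef, div_mul_cancel₀ _ (by norm_num), Real.exp_log (by linarith)]
  set V : ℂ → ℝ := fun z => ‖σ z‖ * Real.exp (-(c * ‖z‖ ^ 2)) with hV
  have hVc : Continuous V := by
    have := hσ.continuous
    fun_prop
  have hV1 : 0 < V z₁ := mul_pos (norm_pos_iff.2 hz₁) (Real.exp_pos _)
  have hev : ∀ᶠ z in cocompact ℂ, V z ≤ V z₁ := by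
    filter_upwards [(agl_decay B K hc).eventually_lt_const hV1] with z hz
    exact (mul_le_mul_of_nonneg_right (hb z) (Real.exp_pos _).le).trans hz.le
  obtain ⟨z₀, hz₀⟩ := hVc.exists_forall_ge' z₁ hev
  have hV0 : 0 < V z₀ := hV1.trans_le (hz₀ z₁)
  have hs0 : 0 < ‖σ z₀‖ := (pos_iff_pos_of_mul_pos hV0).2 (Real.exp_pos _)
  refine ⟨z₀, fun ζ => (Complex.exp (-(2 * c * (starRingEnd ℂ) z₀ * ζ)) / (‖σ z₀‖ : ℂ)) •
    σ (z₀ + ζ), ?_, ?_, ?_, fun ζ => ⟨_, rfl⟩⟩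
  · have h1 : Differentiable ℂ (fun ζ : ℂ => σ (z₀ + ζ)) := hσ.comp (by fun_prop)
    have h2 : Differentiable ℂ (fun ζ : ℂ =>
        Complex.exp (-(2 * c * (starRingEnd ℂ) z₀ * ζ)) / (‖σ z₀‖ : ℂ)) := by fun_prop
    exact h2.smul h1
  · simp only [mul_zero, neg_zero, Complex.exp_zero, add_zero]
    rw [norm_smul, norm_div, norm_one, Complex.norm_real, norm_norm,
      one_div, inv_mul_cancel₀ hs0.ne']
  · intro ζ hζ
    rw [norm_smul, norm_div, Complex.norm_exp, Complex.norm_real, norm_norm]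
    have hre : (-(2 * c * (starRingEnd ℂ) z₀ * ζ)).re =
        -(2 * c * ((starRingEnd ℂ) z₀ * ζ).re) := by
      rw [Complex.neg_re, mul_assoc, show (2 * c : ℂ) = ((2 * c : ℝ) : ℂ) by push_cast; ring,
        Complex.re_ofReal_mul]
    rw [hre]
    set R : ℝ := ((starRingEnd ℂ) z₀ * ζ).re with hR
    have h1 : ‖σ (z₀ + ζ)‖ * Real.exp (-(c * ‖z₀ + ζ‖ ^ 2)) ≤
        ‖σ z₀‖ * Real.exp (-(c * ‖z₀‖ ^ 2)) := hz₀ (z₀ + ζ)
    rw [agl_sq] at h1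
    have h2 : ‖σ (z₀ + ζ)‖ ≤ ‖σ z₀‖ * Real.exp (c * (2 * R + ‖ζ‖ ^ 2)) := by
      have h3 := mul_le_mul_of_nonneg_right h1
        (Real.exp_pos (c * (‖z₀‖ ^ 2 + 2 * R + ‖ζ‖ ^ 2))).le
      rw [mul_assoc, mul_assoc, ← Real.exp_add, ← Real.exp_add] at h3
      have h4 : -(c * (‖z₀‖ ^ 2 + 2 * R + ‖ζ‖ ^ 2)) + c * (‖z₀‖ ^ 2 + 2 * R + ‖ζ‖ ^ 2) = 0 := by
        ring
      have h5 : -(c * ‖z₀‖ ^ 2) + c * (‖z₀‖ ^ 2 + 2 * R + ‖ζ‖ ^ 2) = c * (2 * R + ‖ζ‖ ^ 2) := by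
        ring
      rw [h4, h5, Real.exp_zero, mul_one] at h3
      exact h3
    have h6 : Real.exp (-(2 * c * R)) / ‖σ z₀‖ * ‖σ (z₀ + ζ)‖ ≤
        Real.exp (-(2 * c * R)) / ‖σ z₀‖ * (‖σ z₀‖ * Real.exp (c * (2 * R + ‖ζ‖ ^ 2))) :=
      mul_le_mul_of_nonneg_left h2 (by positivity)
    refine h6.trans ?_
    have h7 : Real.exp (-(2 * c * R)) / ‖σ z₀‖ * (‖σ z₀‖ * Real.exp (c * (2 * R + ‖ζ‖ ^ 2))) =
        Real.exp (c * ‖ζ‖ ^ 2) := by
      rw [div_mul_eq_mul_div, mul_left_comm, mul_div_assoc, mul_comm ‖σ z₀‖,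
        div_mul_cancel₀ _ hs0.ne', ← Real.exp_add]
      congr 1
      ring
    rw [h7, ← hc9]
    refine Real.exp_le_exp.2 (mul_le_mul_of_nonneg_left ?_ hc.le)
    have h8 : ‖ζ‖ ^ 2 ≤ 3 ^ 2 := pow_le_pow_left₀ (norm_nonneg _) hζ 2
    linarith


end pure

end Pool.Agent.MBS

namespace Pool.Agent.MBS
alias growth_max := growth_max_pr
end Pool.Agent.MBS
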