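import Pool.Agent.Lib_helper58.MBS.Base

set_option autoImplicit false
set_option linter.unusedSectionVars false
set_option linter.unusedVariables false

open Filter Topology Metric Set

namespace Pool.Agent.MBS

open Pool.Agent.BR

section pure

variable {E : Type} [NormedAddCommGroup E] [NormedSpace ℂ E] [FiniteDimensional ℂ E]

theorem agro_hasDeriv (D : ℂ → E) (q : ℕ) {x : ℂ} (h : AnalyticAt ℂ D x) :
    HasDerivAt (iteratedDeriv q D) (iteratedDeriv (q + 1) D x) x := by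
  have : CompleteSpace E := FiniteDimensional.complete ℂ E
  have h1 : AnalyticAt ℂ (iteratedDeriv q D) x := by
    rw [iteratedDeriv_eq_iterate]
    exact h.iterated_deriv q
  rw [iteratedDeriv_succ]
  exact h1.differentiableAt.hasDerivAt

theorem gronwall_jet_pr (p : ℕ) (C ρ : ℝ) (hC : 0 ≤ C) (hρ : 0 < ρ) :
    ∃ C' > 0, ∀ (x₀ : ℂ) (D : ℂ → E), (∀ x ∈ ball x₀ ρ, AnalyticAt ℂ D x) →
      (∀ x ∈ ball x₀ ρ, ‖iteratedDeriv p D x‖ ≤
        C * ∑ q ∈ Finset.range p, ‖iteratedDeriv q D x‖) →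
      ∀ x ∈ ball x₀ ρ, ∀ x' ∈ ball x₀ ρ, ∑ q ∈ Finset.range p, ‖iteratedDeriv q D x'‖ ≤
        C' * ∑ q ∈ Finset.range p, ‖iteratedDeriv q D x‖ := by
  set K : ℝ := 2 * ρ * (1 + C * p) with hK
  have hK0 : 0 ≤ K := by positivity
  refine ⟨(p + 1) * Real.exp K, by positivity, ?_⟩
  intro x₀ D hD hle x hx x' hx'
  -- the segment
  set γ : ℝ → ℂ := fun t => x + (t : ℂ) * (x' - x) with hγ
  have hγmem : ∀ t ∈ Icc (0 : ℝ) 1, γ t ∈ ball x₀ ρ := by
    intro t ht
    have hc := (convex_ball x₀ ρ) hx hx' (a := 1 - t) (b := t) (by linarith [ht.2]) ht.1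
      (by ring)
    have : (1 - t) • x + t • x' = γ t := by
      simp only [hγ, Complex.real_smul]
      push_cast
      ring
    rwa [this] at hc
  have hγd : ∀ t : ℝ, HasDerivAt γ (x' - x) t := by
    intro t
    have h1 : HasDerivAt (fun t : ℝ => (t : ℂ)) 1 t := Complex.ofRealCLM.hasDerivAt
    have h2 := (h1.mul_const (x' - x)).const_add x
    rw [one_mul] at h2
    exact h2
  have hdist : ‖x' - x‖ ≤ 2 * ρ := by
    have h1 : dist x x₀ < ρ := hx
    have h2 : dist x' x₀ < ρ := hx'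
    have h3 : dist x' x ≤ dist x' x₀ + dist x x₀ := dist_triangle_right x' x x₀
    rw [dist_eq_norm] at h3
    linarith
  set Y : ℝ → (Fin p → E) := fun t q => iteratedDeriv q D (γ t) with hY
  set Y' : ℝ → (Fin p → E) := fun t q => (x' - x) • iteratedDeriv (q + 1) D (γ t) with hY'
  have hYd : ∀ t ∈ Icc (0 : ℝ) 1, HasDerivAt Y (Y' t) t := by
    intro t ht
    rw [hasDerivAt_pi]
    intro q
    have h1 := agro_hasDeriv D q (hD _ (hγmem t ht))
    have h2 := HasDerivAt.scomp t h1 (hγd t)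
    exact h2
  have hsum : ∀ t, ∑ q ∈ Finset.range p, ‖iteratedDeriv q D (γ t)‖ ≤ p * ‖Y t‖ := by
    intro t
    calc ∑ q ∈ Finset.range p, ‖iteratedDeriv q D (γ t)‖
        ≤ ∑ _q ∈ Finset.range p, ‖Y t‖ := by
          apply Finset.sum_le_sum
          intro q hq
          exact norm_le_pi_norm (Y t) ⟨q, Finset.mem_range.1 hq⟩
      _ = p * ‖Y t‖ := by simp
  have hbound : ∀ t ∈ Icc (0 : ℝ) 1, ‖Y' t‖ ≤ K * ‖Y t‖ := by
    intro t ht
    rw [pi_norm_le_iff_of_nonneg (by positivity)]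
    intro q
    have hn : ‖Y' t q‖ = ‖x' - x‖ * ‖iteratedDeriv ((q : ℕ) + 1) D (γ t)‖ := by
      simp only [hY', norm_smul]
    rw [hn]
    have hq1 : ‖iteratedDeriv ((q : ℕ) + 1) D (γ t)‖ ≤ (1 + C * p) * ‖Y t‖ := by
      have hYn : 0 ≤ ‖Y t‖ := norm_nonneg _
      have hCp : 0 ≤ C * p := by positivity
      by_cases hq : (q : ℕ) + 1 < p
      · have h1 : ‖iteratedDeriv ((q : ℕ) + 1) D (γ t)‖ ≤ ‖Y t‖ :=
          norm_le_pi_norm (Y t) ⟨(q : ℕ) + 1, hq⟩
        nlinarith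
      · have hqp : (q : ℕ) + 1 = p := by have := q.2; omega
        rw [hqp]
        have h1 := hle _ (hγmem t ht)
        have h2 := mul_le_mul_of_nonneg_left (hsum t) hC
        nlinarith
    calc ‖x' - x‖ * ‖iteratedDeriv ((q : ℕ) + 1) D (γ t)‖
        ≤ (2 * ρ) * ((1 + C * p) * ‖Y t‖) := by
          apply mul_le_mul hdist hq1 (norm_nonneg _) (by positivity)
      _ = K * ‖Y t‖ := by rw [hK]; ring
  have hgr := norm_le_gronwallBound_of_norm_deriv_right_le (f := Y) (f' := Y') (δ := ‖Y 0‖)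
    (K := K) (ε := 0) (a := 0) (b := 1)
    (fun t ht => (hYd t ht).continuousAt.continuousWithinAt)
    (fun t ht => (hYd t ⟨ht.1, ht.2.le⟩).hasDerivWithinAt) le_rfl
    (fun t ht => by
      have := hbound t ⟨ht.1, ht.2.le⟩
      linarith) 1 ⟨zero_le_one, le_rfl⟩
  rw [gronwallBound_ε0, sub_zero, mul_one] at hgr
  have h0 : γ 0 = x := by simp [hγ]
  have h1 : γ 1 = x' := by simp [hγ]
  have hY0 : ‖Y 0‖ ≤ ∑ q ∈ Finset.range p, ‖iteratedDeriv q D x‖ := by
    rw [pi_norm_le_iff_of_nonneg (Finset.sum_nonneg fun _ _ => norm_nonneg _)]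
    intro q
    have : ‖Y 0 q‖ = ‖iteratedDeriv (q : ℕ) D x‖ := by simp only [hY, h0]
    rw [this]
    exact Finset.single_le_sum (f := fun q => ‖iteratedDeriv q D x‖)
      (fun _ _ => norm_nonneg _) (Finset.mem_range.2 q.2)
  have hs1 := hsum 1
  rw [h1] at hs1
  have hS0 : 0 ≤ ∑ q ∈ Finset.range p, ‖iteratedDeriv q D x‖ :=
    Finset.sum_nonneg fun _ _ => norm_nonneg _
  have he : 0 < Real.exp K := Real.exp_pos K
  calc ∑ q ∈ Finset.range p, ‖iteratedDeriv q D x'‖ ≤ p * ‖Y 1‖ := hs1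
    _ ≤ p * (‖Y 0‖ * Real.exp K) := by gcongr
    _ ≤ p * ((∑ q ∈ Finset.range p, ‖iteratedDeriv q D x‖) * Real.exp K) := by gcongr
    _ ≤ (p + 1) * Real.exp K * ∑ q ∈ Finset.range p, ‖iteratedDeriv q D x‖ := by
        nlinarith [mul_nonneg hS0 he.le]

end pure

end Pool.Agent.MBS

namespace Pool.Agent.MBS
alias gronwall_jet := gronwall_jet_pr
end Pool.Agent.MBS
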