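import Pool.Agent.Lib_helper58.MBS.Base

/-! # MBS, block AJET: equality of jets is a local estimate -/

set_option autoImplicit false
set_option linter.unusedSectionVars false
set_option linter.unusedVariables false

open Filter Topology Metric Set

namespace Pool.Agent.MBS

open Pool.Agent.BR

section pure

variable {E : Type} [NormedAddCommGroup E] [NormedSpace ℂ E] [FiniteDimensional ℂ E]

/-- the order is at least `p` if and only if the function is `O(‖z‖ ^ p)` -/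
theorem ajet_order {g : ℂ → E} (hg : AnalyticAt ℂ g 0) (p : ℕ) :
    (p : ℕ∞) ≤ analyticOrderAt g 0 ↔ ∃ C : ℝ, ∀ᶠ z in 𝓝 (0 : ℂ), ‖g z‖ ≤ C * ‖z‖ ^ p := by
  constructor
  · intro h
    obtain ⟨q, hq, hqe⟩ := (natCast_le_analyticOrderAt hg).1 h
    refine ⟨‖q 0‖ + 1, ?_⟩
    have h1 : ∀ᶠ z in 𝓝 (0 : ℂ), ‖q z‖ < ‖q 0‖ + 1 :=
      hq.continuousAt.norm.eventually_lt continuousAt_const (by simp)
    filter_upwards [hqe, h1] with z hz1 hz2
    rw [hz1, norm_smul, norm_pow, sub_zero, mul_comm]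
    exact mul_le_mul_of_nonneg_right hz2.le (by positivity)
  · rintro ⟨C, hC⟩
    by_contra hcon
    rw [not_le] at hcon
    have hne : analyticOrderAt g 0 ≠ ⊤ := ne_top_of_lt hcon
    obtain ⟨q, hq, hq0, hqe⟩ := hg.analyticOrderAt_ne_top.1 hne
    set n := analyticOrderNatAt g 0 with hn
    have hnp : n < p := by
      have h1 : ((n : ℕ) : ℕ∞) = analyticOrderAt g 0 := by
        rw [hn]
        exact Nat.cast_analyticOrderNatAt hne
      rw [← h1] at hcon
      exact_mod_cast hcon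
    have hlim : Tendsto (fun z : ℂ => C * ‖z‖ ^ (p - n)) (𝓝[≠] 0) (𝓝 0) := by
      have hc : ContinuousAt (fun z : ℂ => C * ‖z‖ ^ (p - n)) 0 := by fun_prop
      have h2 : C * ‖(0 : ℂ)‖ ^ (p - n) = 0 := by
        rw [norm_zero, zero_pow (by omega), mul_zero]
      have h3 := hc.tendsto
      rw [h2] at h3
      exact h3.mono_left nhdsWithin_le_nhds
    have hql : Tendsto (fun z : ℂ => ‖q z‖) (𝓝[≠] 0) (𝓝 ‖q 0‖) :=
      hq.continuousAt.norm.tendsto.mono_left nhdsWithin_le_nhds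
    have hle : ∀ᶠ z in 𝓝[≠] (0 : ℂ), ‖q z‖ ≤ C * ‖z‖ ^ (p - n) := by
      filter_upwards [self_mem_nhdsWithin, (hqe.filter_mono nhdsWithin_le_nhds),
        (hC.filter_mono nhdsWithin_le_nhds)] with z hz0 hz1 hz2
      have hz0' : z ≠ 0 := hz0
      have hzn : 0 < ‖z‖ := norm_pos_iff.2 hz0'
      rw [hz1, norm_smul, norm_pow, sub_zero] at hz2
      have h4 : ‖z‖ ^ p = ‖z‖ ^ n * ‖z‖ ^ (p - n) := by
        rw [← pow_add]
        congr 1
        omega
      rw [h4] at hz2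
      have h5 : ‖z‖ ^ n * ‖q z‖ ≤ ‖z‖ ^ n * (C * ‖z‖ ^ (p - n)) := by
        calc ‖z‖ ^ n * ‖q z‖ ≤ C * (‖z‖ ^ n * ‖z‖ ^ (p - n)) := hz2
          _ = _ := by ring
      exact le_of_mul_le_mul_left h5 (pow_pos hzn n)
    have h6 : ‖q 0‖ ≤ 0 := le_of_tendsto_of_tendsto hql hlim hle
    exact hq0 (norm_le_zero_iff.1 h6)

theorem jets_eq_iff_pr {c d : ℂ → E} (hc : AnalyticAt ℂ c 0) (hd : AnalyticAt ℂ d 0) (p : ℕ) :
    (∀ q < p, iteratedDeriv q c 0 = iteratedDeriv q d 0) ↔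
      ∃ C : ℝ, ∀ᶠ z in 𝓝 (0 : ℂ), ‖c z - d z‖ ≤ C * ‖z‖ ^ p := by
  have : CompleteSpace E := FiniteDimensional.complete ℂ E
  have hg : AnalyticAt ℂ (c - d) 0 := hc.sub hd
  have h1 := ajet_order hg p
  have h2 := natCast_le_analyticOrderAt_iff_iteratedDeriv_eq_zero (n := p) hg
  have h3 : ∀ q : ℕ, iteratedDeriv q (c - d) 0 = iteratedDeriv q c 0 - iteratedDeriv q d 0 := by
    intro q
    exact iteratedDeriv_sub hc.contDiffAt hd.contDiffAt
  have h4 : (∀ q < p, iteratedDeriv q c 0 = iteratedDeriv q d 0) ↔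
      ∀ i < p, iteratedDeriv i (c - d) 0 = 0 := by
    refine forall_congr' fun q => forall_congr' fun _ => ?_
    rw [h3, sub_eq_zero]
  rw [h4, ← h2, h1]
  rfl


end pure

end Pool.Agent.MBS

namespace Pool.Agent.MBS
alias jets_eq_iff := jets_eq_iff_pr
end Pool.Agent.MBS
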