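import Pool.Agent.Lib_helper58.MBS.Base

set_option autoImplicit false
set_option linter.unusedSectionVars false
set_option linter.unusedVariables false

open Filter Topology Metric Set

namespace Pool.Agent.MBS

open Pool.Agent.BR

section pure

variable {E : Type} [NormedAddCommGroup E] [NormedSpace ℂ E] [FiniteDimensional ℂ E]

theorem ami_fin {g : ℂ → ℂ} {r' r : ℝ} (hrr : r < r')
    (hg : ∀ z ∈ ball (0 : ℂ) r', AnalyticAt ℂ g z) (hne : ∃ z ∈ ball (0 : ℂ) r', g z ≠ 0) :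
    {z : ℂ | z ∈ closedBall (0 : ℂ) r ∧ g z = 0}.Finite := by
  by_contra hinf
  have hinf : {z : ℂ | z ∈ closedBall (0 : ℂ) r ∧ g z = 0}.Infinite := hinf
  obtain ⟨x, hx, hacc⟩ :=
    hinf.exists_accPt_of_subset_isCompact (isCompact_closedBall 0 r) (fun z hz => hz.1)
  have hx' : x ∈ ball (0 : ℂ) r' := closedBall_subset_ball hrr hx
  have hfreq : ∃ᶠ z in 𝓝[≠] x, g z = 0 := by
    rw [accPt_iff_frequently_nhdsNE] at hacc
    exact hacc.mono fun z hz => hz.2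
  have hz := AnalyticOnNhd.eqOn_zero_of_preconnected_of_frequently_eq_zero (f := g)
    (U := ball (0 : ℂ) r') (fun z hz => hg z hz) (convex_ball (0 : ℂ) r').isPreconnected hx' hfreq
  obtain ⟨z, hz1, hz2⟩ := hne
  exact hz2 (hz hz1)

/-- the set of the points near which `G = H ∘ t` with `t` analytic, `|t| < r` -/
def amiA (r r₂ : ℝ) (G H : ℂ → E) : Set ℂ :=
  {w | w ∈ ball (0 : ℂ) r₂ ∧ ∃ t : ℂ → ℂ, AnalyticAt ℂ t w ∧ ‖t w‖ < r ∧
    ∀ᶠ w' in 𝓝 w, G w' = H (t w')}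

theorem ami_open (r r₂ : ℝ) (G H : ℂ → E) : IsOpen (amiA r r₂ G H) := by
  rw [isOpen_iff_mem_nhds]
  rintro w ⟨hw, t, ht, htr, hG⟩
  have h1 : ∀ᶠ w' in 𝓝 w, w' ∈ ball (0 : ℂ) r₂ := isOpen_ball.mem_nhds hw
  have h2 := ht.eventually_analyticAt
  have h3 : ∀ᶠ w' in 𝓝 w, ‖t w'‖ < r := ht.continuousAt.norm.eventually (gt_mem_nhds htr)
  have h4 := hG.eventually_nhds
  filter_upwards [h1, h2, h3, h4] with w' a b c d
  exact ⟨a, t, b, c, d⟩

theorem ami_closed (l : E →L[ℂ] ℂ) {r' r r₂ : ℝ} (hrr : r < r') (hr₂r : r₂ ≤ r) {G H : ℂ → E}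
    (hG : ∀ z ∈ ball (0 : ℂ) r', AnalyticAt ℂ G z)
    (hH : ∀ z ∈ ball (0 : ℂ) r', AnalyticAt ℂ H z) {w : ℂ} (hw : w ∈ ball (0 : ℂ) r₂)
    (hE : ∀ u : ℂ, ‖u‖ ≤ r → l (H u) = l (G w) → deriv (fun z => l (H z)) u ≠ 0)
    (hbd : ∀ u : ℂ, ‖u‖ = r → l (H u) ≠ l (G w))
    (hcl : w ∈ closure (amiA r r₂ G H)) : w ∈ amiA r r₂ G H := by
  obtain ⟨ws, hws, hlim⟩ := mem_closure_iff_seq_limit.1 hcl
  choose hwr ts hts htr hGs using hws
  have hsub : ∀ z ∈ ball (0 : ℂ) r₂, z ∈ ball (0 : ℂ) r' := fun z hz =>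
    ball_subset_ball (hr₂r.trans hrr.le) hz
  have hcb : ∀ z : ℂ, ‖z‖ ≤ r → z ∈ ball (0 : ℂ) r' := fun z hz => by
    rw [mem_ball_zero_iff]; exact lt_of_le_of_lt hz hrr
  obtain ⟨u, hu, ψ, hψ, hψu⟩ := (isCompact_closedBall (0 : ℂ) r).tendsto_subseq
    (x := fun n => ts n (ws n)) (fun n => by rw [mem_closedBall_zero_iff]; exact (htr n).le)
  rw [mem_closedBall_zero_iff] at hu
  have hwψ : Tendsto (fun n => ws (ψ n)) atTop (𝓝 w) := hlim.comp hψ.tendsto_atTop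
  have hbu : l (H u) = l (G w) := by
    have e1 : Tendsto (fun n => l (H (ts (ψ n) (ws (ψ n))))) atTop (𝓝 (l (H u))) :=
      ((l.continuous.continuousAt (x := H u)).comp (hH u (hcb u hu)).continuousAt).tendsto.comp hψu
    have e2 : Tendsto (fun n => l (G (ws (ψ n)))) atTop (𝓝 (l (G w))) :=
      ((l.continuous.continuousAt (x := G w)).comp
        (hG w (hsub w hw)).continuousAt).tendsto.comp hwψ
    have e3 : (fun n => l (H (ts (ψ n) (ws (ψ n))))) = fun n => l (G (ws (ψ n))) := by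
      funext n
      rw [(hGs (ψ n)).self_of_nhds]
    rw [e3] at e1
    exact tendsto_nhds_unique e1 e2
  have hur : ‖u‖ < r := lt_of_le_of_ne hu fun e => hbd u e hbu
  have hb : AnalyticAt ℂ (fun z => l (H z)) u := (l.analyticAt _).comp (hH u (hcb u hu))
  have ha : AnalyticAt ℂ (fun z => l (G z)) w := (l.analyticAt _).comp (hG w (hsub w hw))
  have hb' : deriv (fun z => l (H z)) u ≠ 0 := hE u hu hbu
  set τ : ℂ → ℂ := hb.hasStrictDerivAt.localInverse _ _ _ hb' with hτ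
  have hτa : AnalyticAt ℂ τ (l (H u)) := hb.analyticAt_localInverse hb'
  have hτu : τ (l (H u)) = u :=
    HasStrictFDerivAt.localInverse_apply_image (hb.hasStrictDerivAt.hasStrictFDerivAt_equiv hb')
  have hleft : ∀ᶠ v in 𝓝 u, τ (l (H v)) = v :=
    HasStrictDerivAt.eventually_left_inverse hb.hasStrictDerivAt hb'
  set t : ℂ → ℂ := fun z => τ (l (G z)) with ht
  have hta : AnalyticAt ℂ t w := by
    have h : AnalyticAt ℂ τ ((fun z => l (G z)) w) := by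
      simp only; rw [← hbu]; exact hτa
    exact AnalyticAt.comp (g := τ) (f := fun z => l (G z)) h ha
  have htw : t w = u := by
    simp only [ht]
    rw [← hbu]; exact hτu
  obtain ⟨ρ, hρ, hρb⟩ : ∃ ρ > 0, ∀ z ∈ ball w ρ, AnalyticAt ℂ t z ∧ ‖t z‖ < r ∧
      z ∈ ball (0 : ℂ) r₂ := by
    have h1 := hta.eventually_analyticAt
    have h2 : ∀ᶠ z in 𝓝 w, ‖t z‖ < r :=
      hta.continuousAt.norm.eventually (gt_mem_nhds (by simp only [htw]; exact hur))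
    have h3 : ∀ᶠ z in 𝓝 w, z ∈ ball (0 : ℂ) r₂ := isOpen_ball.mem_nhds hw
    obtain ⟨ρ, hρ, h⟩ := Metric.eventually_nhds_iff_ball.1 (h1.and (h2.and h3))
    exact ⟨ρ, hρ, h⟩
  have hD : AnalyticOnNhd ℂ (fun z => G z - H (t z)) (ball w ρ) := by
    intro z hz
    obtain ⟨h1, h2, h3⟩ := hρb z hz
    exact (hG z (hsub z h3)).sub ((hH (t z) (hcb _ h2.le)).comp h1)
  obtain ⟨n, hn1, hn2⟩ : ∃ n, ws (ψ n) ∈ ball w ρ ∧
      ∀ᶠ v in 𝓝 (ts (ψ n) (ws (ψ n))), τ (l (H v)) = v := by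
    have h1 : ∀ᶠ n in atTop, ws (ψ n) ∈ ball w ρ := hwψ.eventually (isOpen_ball.mem_nhds
      (mem_ball_self hρ))
    have h2 : ∀ᶠ n in atTop, ∀ᶠ v in 𝓝 (ts (ψ n) (ws (ψ n))), τ (l (H v)) = v :=
      hψu.eventually hleft.eventually_nhds
    exact (h1.and h2).exists
  have hz : (fun z => G z - H (t z)) =ᶠ[𝓝 (ws (ψ n))] 0 := by
    have h1 : ∀ᶠ z in 𝓝 (ws (ψ n)), τ (l (H (ts (ψ n) z))) = ts (ψ n) z :=
      (hts (ψ n)).continuousAt.eventually hn2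
    filter_upwards [h1, hGs (ψ n)] with z e1 e2
    have e3 : t z = ts (ψ n) z := by
      simp only [ht]
      rw [e2, e1]
    simp only [Pi.zero_apply]
    rw [e3, e2, sub_self]
  have hzero := hD.eqOn_zero_of_preconnected_of_eventuallyEq_zero
    (convex_ball w ρ).isPreconnected hn1 hz
  refine ⟨hw, t, hta, by rw [htw]; exact hur, ?_⟩
  filter_upwards [isOpen_ball.mem_nhds (mem_ball_self hρ)] with z hz
  exact sub_eq_zero.1 (hzero hz)

/-- AMI: two curves with a common image germ: the value at the critical point -/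
theorem match_img_pr (l : E →L[ℂ] ℂ) {φ : ℂ → ℂ} {r' r r₂ c : ℝ} (hr : 0 < r) (hrr : r < r')
    (hφ : ∀ z ∈ ball (0 : ℂ) r', AnalyticAt ℂ φ z) (hc : 0 < c)
    (h1 : ∀ w : ℂ, ‖w‖ = r → c ≤ ‖φ w - φ 0‖) (hr₂ : 0 < r₂) (hr₂r : r₂ ≤ r)
    (h2 : ∀ w ∈ ball (0 : ℂ) r₂, ‖φ w - φ 0‖ < c / 4) {G H : ℂ → E}
    (hG : ∀ z ∈ ball (0 : ℂ) r', AnalyticAt ℂ G z)
    (hH : ∀ z ∈ ball (0 : ℂ) r', AnalyticAt ℂ H z)
    (hGφ : ∀ z ∈ ball (0 : ℂ) r', ‖l (G z) - φ z‖ ≤ c / 16)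
    (hHφ : ∀ z ∈ ball (0 : ℂ) r', ‖l (H z) - φ z‖ ≤ c / 16) {w₁ : ℂ}
    (hw₁ : w₁ ∈ ball (0 : ℂ) r₂) {t : ℂ → ℂ} (ht : AnalyticAt ℂ t w₁) (htr : ‖t w₁‖ < r)
    (hGH : ∀ᶠ w in 𝓝 w₁, G w = H (t w)) :
    ∃ u, ‖u‖ ≤ r ∧ G 0 = H u := by
  have hcb : ∀ z : ℂ, ‖z‖ ≤ r → z ∈ ball (0 : ℂ) r' := fun z hz => by
    rw [mem_ball_zero_iff]; exact lt_of_le_of_lt hz hrr
  have h0 : (0 : ℂ) ∈ ball (0 : ℂ) r' := hcb 0 (by simpa using hr.le)
  have hrC : ‖(r : ℂ)‖ = r := by simp [abs_of_pos hr]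
  -- nonconstancy
  have hnc : ∀ F : ℂ → ℂ, (∀ z ∈ ball (0 : ℂ) r', ‖F z - φ z‖ ≤ c / 16) → F (r : ℂ) ≠ F 0 := by
    intro F hF e
    have e1 := h1 (r : ℂ) hrC
    have e2 := hF (r : ℂ) (hcb _ hrC.le)
    have e3 := hF 0 h0
    have e4 : φ (r : ℂ) - φ 0 = (F 0 - φ 0) - (F (r : ℂ) - φ (r : ℂ)) := by rw [e]; ring
    rw [e4] at e1
    have e5 := norm_sub_le (F 0 - φ 0) (F (r : ℂ) - φ (r : ℂ))
    linarith
  have hbA : ∀ z ∈ ball (0 : ℂ) r', AnalyticAt ℂ (fun z => l (H z)) z := fun z hz =>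
    (l.analyticAt _).comp (hH z hz)
  have haA : ∀ z ∈ ball (0 : ℂ) r', AnalyticAt ℂ (fun z => l (G z)) z := fun z hz =>
    (l.analyticAt _).comp (hG z hz)
  have hZ : {z : ℂ | z ∈ closedBall (0 : ℂ) r ∧ deriv (fun z => l (H z)) z = 0}.Finite := by
    refine ami_fin hrr (fun z hz => (hbA z hz).deriv) ?_
    by_contra hcon
    push Not at hcon
    refine hnc (fun z => l (H z)) hHφ ?_
    exact isOpen_ball.is_const_of_deriv_eq_zero (convex_ball (0 : ℂ) r').isPreconnected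
      (fun z hz => (hbA z hz).differentiableAt.differentiableWithinAt) (fun z hz => hcon z hz)
      (hcb _ hrC.le) h0
  set Z := {z : ℂ | z ∈ closedBall (0 : ℂ) r ∧ deriv (fun z => l (H z)) z = 0} with hZdef
  have hE : (⋃ u ∈ Z, {w : ℂ | w ∈ closedBall (0 : ℂ) r ∧ l (G w) - l (H u) = 0}).Finite := by
    refine hZ.biUnion fun u hu => ?_
    refine ami_fin hrr (fun z hz => (haA z hz).sub analyticAt_const) ?_
    by_contra hcon
    push Not at hcon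
    refine hnc (fun z => l (G z)) hGφ ?_
    have e1 := hcon _ (hcb _ hrC.le)
    have e2 := hcon _ h0
    have : l (G (r : ℂ)) = l (G 0) := by
      rw [sub_eq_zero.1 e1, sub_eq_zero.1 e2]
    exact this
  set EE := ⋃ u ∈ Z, {w : ℂ | w ∈ closedBall (0 : ℂ) r ∧ l (G w) - l (H u) = 0} with hEE
  have hopen := ami_open r r₂ G H
  have hw₁A : w₁ ∈ amiA r r₂ G H := ⟨hw₁, t, ht, htr, hGH⟩
  -- a nonzero point of A
  obtain ⟨w₂, hw₂A, hw₂0⟩ : ∃ w ∈ amiA r r₂ G H, w ≠ 0 := by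
    by_cases h : w₁ = 0
    · obtain ⟨ε, hε, hb⟩ := Metric.isOpen_iff.1 hopen w₁ hw₁A
      refine ⟨((ε / 2 : ℝ) : ℂ), hb ?_, ?_⟩
      · rw [h, mem_ball_zero_iff, Complex.norm_real, Real.norm_eq_abs, abs_of_pos (by linarith)]
        linarith
      · simp only [ne_eq, Complex.ofReal_eq_zero]
        linarith
    · exact ⟨w₁, hw₁A, h⟩
  obtain ⟨ε, hε, hb⟩ := Metric.isOpen_iff.1 hopen w₂ hw₂A
  have hn2 : 0 < ‖w₂‖ := norm_pos_iff.2 hw₂0
  set δ := ε / ‖w₂‖ with hδ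
  have hδ0 : 0 < δ := div_pos hε hn2
  have hin : ∀ θ ∈ Ioo (0 : ℝ) δ, w₂ * (1 + (θ : ℂ) * Complex.I) ∈ amiA r r₂ G H := by
    intro θ hθ
    apply hb
    rw [mem_ball, dist_eq_norm]
    have : w₂ * (1 + (θ : ℂ) * Complex.I) - w₂ = w₂ * ((θ : ℂ) * Complex.I) := by ring
    rw [this, norm_mul, norm_mul, Complex.norm_I, mul_one, Complex.norm_real, Real.norm_eq_abs,
      abs_of_pos hθ.1]
    calc ‖w₂‖ * θ < ‖w₂‖ * δ := mul_lt_mul_of_pos_left hθ.2 hn2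
      _ = ε := by rw [hδ]; field_simp
  obtain ⟨θ, hθ, hθE⟩ : ∃ θ ∈ Ioo (0 : ℝ) δ, ∀ s ∈ Ioc (0 : ℝ) 1,
      (s : ℂ) * (w₂ * (1 + (θ : ℂ) * Complex.I)) ∉ EE := by
    by_contra hcon
    push Not at hcon
    choose! s hs1 hs2 using hcon
    have hfin : (Ioo (0 : ℝ) δ).Finite := by
      refine Set.Finite.of_injOn (f := fun θ : ℝ => (s θ : ℂ) * (w₂ * (1 + (θ : ℂ) * Complex.I)))
        (t := EE) (fun θ hθ => hs2 θ hθ) ?_ hE
      intro θ hθ θ' hθ' e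
      simp only at e
      have e1 : w₂ * ((s θ : ℂ) * (1 + (θ : ℂ) * Complex.I)) =
          w₂ * ((s θ' : ℂ) * (1 + (θ' : ℂ) * Complex.I)) := by
        linear_combination e
      have e2 := mul_left_cancel₀ hw₂0 e1
      have e3 := congrArg Complex.re e2
      have e4 := congrArg Complex.im e2
      simp at e3 e4
      have hs0 : s θ' ≠ 0 := (hs1 θ' hθ').1.ne'
      rw [e3] at e4
      exact mul_left_cancel₀ hs0 e4
    exact (Ioo_infinite hδ0) hfin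
  set w₃ := w₂ * (1 + (θ : ℂ) * Complex.I) with hw₃
  have hw₃A : w₃ ∈ amiA r r₂ G H := hin θ hθ
  have hw₃r : ‖w₃‖ < r₂ := by
    have := hw₃A.1
    rwa [mem_ball_zero_iff] at this
  have hseg : (fun s : ℝ => (s : ℂ) * w₃) '' Ioc 0 1 ⊆ amiA r r₂ G H := by
    refine IsPreconnected.subset_of_closure_inter_subset ?_ hopen ?_ ?_
    · refine isPreconnected_Ioc.image _ ?_
      exact (Complex.continuous_ofReal.mul continuous_const).continuousOn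
    · exact ⟨w₃, ⟨1, ⟨one_pos, le_refl 1⟩, by simp⟩, hw₃A⟩
    · rintro _ ⟨hcl, s, hs, rfl⟩
      simp only at hcl ⊢
      have hsn : ‖(s : ℂ) * w₃‖ ≤ ‖w₃‖ := by
        rw [norm_mul, Complex.norm_real, Real.norm_eq_abs, abs_of_pos hs.1]
        exact mul_le_of_le_one_left (norm_nonneg _) hs.2
      have hwb : (s : ℂ) * w₃ ∈ ball (0 : ℂ) r₂ := by
        rw [mem_ball_zero_iff]; exact lt_of_le_of_lt hsn hw₃r
      refine ami_closed l hrr hr₂r hG hH hwb ?_ ?_ hcl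
      · intro u hu e hd
        refine hθE s hs ?_
        rw [hEE]
        refine mem_iUnion₂.2 ⟨u, ⟨by rwa [mem_closedBall_zero_iff], hd⟩, ?_, ?_⟩
        · rw [mem_closedBall_zero_iff]
          exact (hsn.trans hw₃r.le).trans hr₂r
        · rw [sub_eq_zero]; exact e.symm
      · intro u hu e
        have e1 := h1 u hu
        have e2 := hHφ u (hcb u hu.le)
        have hwb' : (s : ℂ) * w₃ ∈ ball (0 : ℂ) r' := ball_subset_ball (hr₂r.trans hrr.le) hwb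
        have e3 := hGφ _ hwb'
        have e4 := h2 _ hwb
        have e5 : φ u - φ 0 = -(l (H u) - φ u) + ((l (G ((s : ℂ) * w₃)) - φ ((s : ℂ) * w₃)) +
            (φ ((s : ℂ) * w₃) - φ 0)) := by rw [e]; ring
        have e6 := norm_add_le (-(l (H u) - φ u)) ((l (G ((s : ℂ) * w₃)) - φ ((s : ℂ) * w₃)) +
            (φ ((s : ℂ) * w₃) - φ 0))
        have e7 := norm_add_le (l (G ((s : ℂ) * w₃)) - φ ((s : ℂ) * w₃)) (φ ((s : ℂ) * w₃) - φ 0)
        rw [← e5, norm_neg] at e6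
        linarith
  -- the limit
  have hA : ∀ n : ℕ, ((1 / ((n : ℝ) + 1) : ℝ) : ℂ) * w₃ ∈ amiA r r₂ G H := by
    intro n
    refine hseg ⟨1 / ((n : ℝ) + 1), ⟨by positivity, ?_⟩, rfl⟩
    rw [div_le_one (by positivity)]
    linarith [n.cast_nonneg (α := ℝ)]
  choose hwr ts hts htsr hGs using hA
  have hlim : Tendsto (fun n : ℕ => ((1 / ((n : ℝ) + 1) : ℝ) : ℂ) * w₃) atTop (𝓝 0) := by
    have h := (Complex.continuous_ofReal.tendsto 0).comp (tendsto_one_div_add_atTop_nhds_zero_nat (𝕜 := ℝ))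
    have h' := h.mul_const w₃
    simpa using h'
  obtain ⟨u, hu, ψ, hψ, hψu⟩ := (isCompact_closedBall (0 : ℂ) r).tendsto_subseq
    (x := fun n => ts n (((1 / ((n : ℝ) + 1) : ℝ) : ℂ) * w₃))
    (fun n => by rw [mem_closedBall_zero_iff]; exact (htsr n).le)
  rw [mem_closedBall_zero_iff] at hu
  refine ⟨u, hu, ?_⟩
  have e1 : Tendsto (fun n => H (ts (ψ n) (((1 / (((ψ n : ℕ) : ℝ) + 1) : ℝ) : ℂ) * w₃))) atTop
      (𝓝 (H u)) := (hH u (hcb u hu)).continuousAt.tendsto.comp hψu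
  have e2 : Tendsto (fun n => G (((1 / (((ψ n : ℕ) : ℝ) + 1) : ℝ) : ℂ) * w₃)) atTop (𝓝 (G 0)) :=
    (hG 0 h0).continuousAt.tendsto.comp (hlim.comp hψ.tendsto_atTop)
  have e3 : (fun n => H (ts (ψ n) (((1 / (((ψ n : ℕ) : ℝ) + 1) : ℝ) : ℂ) * w₃))) =
      fun n => G (((1 / (((ψ n : ℕ) : ℝ) + 1) : ℝ) : ℂ) * w₃) := by
    funext n
    rw [(hGs (ψ n)).self_of_nhds]
  rw [e3] at e1
  exact tendsto_nhds_unique e2 e1


end pure

end Pool.Agent.MBS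

namespace Pool.Agent.MBS
alias match_img := match_img_pr
end Pool.Agent.MBS
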