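import Pool.Agent.Lib_helper58.MBS.Base

set_option autoImplicit false

open Filter Topology Metric Set

namespace Pool.Agent.MBS

theorem aord_taylor {g : ℂ → ℂ} {R B : ℝ} (hR : 0 < R) {μ : ℕ}
    (hg : ∀ a, ‖a‖ < R → AnalyticAt ℂ g a) (hB : ∀ a, ‖a‖ < R → ‖g a‖ ≤ B)
    (h0 : ∀ n < μ, iteratedDeriv n g 0 = 0) :
    ∀ a : ℂ, ‖a‖ ≤ R / 4 → ‖g a‖ ≤ 2 * B * 2 ^ μ * (‖a‖ / (R / 2)) ^ μ := by
  intro a ha
  have hB0 : 0 ≤ B := (norm_nonneg _).trans (hB 0 (by simpa using hR))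
  have hdiff : DifferentiableOn ℂ g (ball 0 R) := fun z hz =>
    ((hg z (by simpa using hz)).differentiableAt).differentiableWithinAt
  have hmem : a ∈ ball (0 : ℂ) R := by
    rw [mem_ball_zero_iff]; linarith
  have hsum := Complex.hasSum_taylorSeries_on_ball hdiff hmem
  have hR2 : 0 < R / 2 := by linarith
  set t : ℝ := ‖a‖ / (R / 2) with ht
  have ht0 : 0 ≤ t := div_nonneg (norm_nonneg _) hR2.le
  have ht2 : t ≤ 1 / 2 := by
    rw [ht, div_le_iff₀ hR2]; linarith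
  have hterm : ∀ n : ℕ, ‖((Nat.factorial n : ℂ))⁻¹ • (a - 0) ^ n • iteratedDeriv n g 0‖ ≤
      B * 2 ^ μ * t ^ μ * (1 / 2) ^ n := by
    intro n
    rcases lt_or_ge n μ with hn | hn
    · rw [h0 n hn, smul_zero, smul_zero, norm_zero]
      positivity
    · have hc := Complex.norm_iteratedDeriv_le_of_forall_mem_sphere_norm_le (f := g) (c := 0)
        (C := B) n hR2 ?_ ?_
      · have e1 : ‖((Nat.factorial n : ℂ))⁻¹ • (a - 0) ^ n • iteratedDeriv n g 0‖ =
            (Nat.factorial n : ℝ)⁻¹ * (‖a‖ ^ n * ‖iteratedDeriv n g 0‖) := by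
          rw [norm_smul, norm_smul, sub_zero, norm_inv, norm_pow, Complex.norm_natCast]
        rw [e1]
        have hf : (0 : ℝ) < Nat.factorial n := by exact_mod_cast Nat.factorial_pos n
        calc (Nat.factorial n : ℝ)⁻¹ * (‖a‖ ^ n * ‖iteratedDeriv n g 0‖)
            ≤ (Nat.factorial n : ℝ)⁻¹ * (‖a‖ ^ n * (Nat.factorial n * B / (R / 2) ^ n)) := by
              gcongr
          _ = B * t ^ n := by
              have e2 : t ^ n = ‖a‖ ^ n / (R / 2) ^ n := by rw [ht]; exact div_pow _ _ _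
              have e3 : (R / 2) ^ n ≠ 0 := (pow_pos hR2 n).ne'
              rw [e2]
              generalize (R / 2) ^ n = w at *
              field_simp
          _ = B * (t ^ μ * t ^ (n - μ)) := by
              rw [← pow_add, Nat.add_sub_cancel' hn]
          _ ≤ B * (t ^ μ * (1 / 2) ^ (n - μ)) := by
              gcongr
          _ = B * 2 ^ μ * t ^ μ * (1 / 2) ^ n := by
              have : (1 / 2 : ℝ) ^ n = (1 / 2) ^ μ * (1 / 2) ^ (n - μ) := by
                rw [← pow_add, Nat.add_sub_cancel' hn]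
              rw [this]
              have h2 : (2 : ℝ) ^ μ * (1 / 2) ^ μ = 1 := by
                rw [← mul_pow]; norm_num
              calc B * (t ^ μ * (1 / 2) ^ (n - μ))
                  = B * (t ^ μ * (1 / 2) ^ (n - μ)) * (2 ^ μ * (1 / 2) ^ μ) := by rw [h2, mul_one]
                _ = _ := by ring
      · apply DifferentiableOn.diffContOnCl
        rw [closure_ball (0 : ℂ) hR2.ne']
        intro z hz
        exact ((hg z (by
          have := mem_closedBall_zero_iff.1 hz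
          linarith)).differentiableAt).differentiableWithinAt
      · intro z hz
        apply hB
        have := mem_sphere_zero_iff_norm.1 hz
        linarith
  have hs : HasSum (fun n : ℕ => B * 2 ^ μ * t ^ μ * (1 / 2 : ℝ) ^ n) (B * 2 ^ μ * t ^ μ * 2) :=
    hasSum_geometric_two.mul_left _
  calc ‖g a‖ ≤ B * 2 ^ μ * t ^ μ * 2 := hsum.norm_le_of_bounded hs hterm
    _ = 2 * B * 2 ^ μ * t ^ μ := by ring

/-- AORD: vanishing to order `μ` on the lines through the origin, with a parameter -/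
theorem ord_bound_pr {V S : Type} [NormedAddCommGroup V] [NormedSpace ℂ V] [FiniteDimensional ℂ V]
    [NormedAddCommGroup S] [NormedSpace ℂ S] [FiniteDimensional ℂ S] (G : V × S → ℂ) (s₀ : S)
    (hG : AnalyticAt ℂ G (0, s₀)) (μ : ℕ)
    (h : ∀ᶠ s in 𝓝 s₀, ∀ e : V, ∀ n < μ, iteratedDeriv n (fun a : ℂ => G (a • e, s)) 0 = 0) :
    ∃ C : ℝ, ∀ᶠ x in 𝓝 ((0, s₀) : V × S), ‖G x‖ ≤ C * ‖x.1‖ ^ μ := by
  have h1 : ∀ᶠ x in 𝓝 ((0, s₀) : V × S), AnalyticAt ℂ G x := hG.eventually_analyticAt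
  have h2 : ∀ᶠ x in 𝓝 ((0, s₀) : V × S), ‖G x‖ < ‖G (0, s₀)‖ + 1 :=
    hG.continuousAt.norm.eventually_lt continuousAt_const (by simp)
  obtain ⟨R, hR, hRR⟩ := Metric.eventually_nhds_iff_ball.1 (h1.and h2)
  obtain ⟨r, hr, hrr⟩ := Metric.eventually_nhds_iff_ball.1 h
  set B := ‖G (0, s₀)‖ + 1 with hBdef
  refine ⟨2 * B * 2 ^ μ * (1 / (R / 2)) ^ μ, ?_⟩
  have hm : 0 < min r (R / 4) := lt_min hr (by linarith)
  filter_upwards [Metric.ball_mem_nhds ((0, s₀) : V × S) hm] with x hx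
  obtain ⟨v, s⟩ := x
  have hx' := (Prod.dist_eq (α := V) (β := S) (x := (v, s)) (y := (0, s₀))) ▸ (mem_ball.1 hx)
  have hv : ‖v‖ < min r (R / 4) := by
    have := lt_of_le_of_lt (le_max_left _ _) hx'
    simpa using this
  have hs : dist s s₀ < min r (R / 4) := lt_of_le_of_lt (le_max_right _ _) hx'
  have hh := hrr s (mem_ball.2 (lt_of_lt_of_le hs (min_le_left _ _)))
  have hvR : ‖v‖ < R / 4 := lt_of_lt_of_le hv (min_le_right _ _)
  have hsR : dist s s₀ < R := by
    have := lt_of_lt_of_le hs (min_le_right _ _)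
    linarith
  have hmemR : ∀ w : V, ‖w‖ < R → ((w, s) : V × S) ∈ ball ((0, s₀) : V × S) R := by
    intro w hw
    rw [mem_ball, Prod.dist_eq]
    exact max_lt (by simpa using hw) hsR
  by_cases hv0 : v = 0
  · subst hv0
    rcases Nat.eq_zero_or_pos μ with hμ | hμ
    · subst hμ
      have := (hRR (0, s) (hmemR 0 (by simpa using hR))).2
      simp only [pow_zero, mul_one]
      have hB0 : 0 < B := by positivity
      linarith
    · have := hh 0 0 hμ
      simp only [iteratedDeriv_zero, smul_zero] at this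
      rw [this]
      simp [hμ.ne']
  · have hvn : 0 < ‖v‖ := norm_pos_iff.2 hv0
    set e : V := ((‖v‖ : ℂ))⁻¹ • v with he
    have hen : ‖e‖ = 1 := by
      rw [he, norm_smul, norm_inv, Complex.norm_real, norm_norm, inv_mul_cancel₀ hvn.ne']
    have hve : ((‖v‖ : ℂ)) • e = v := by
      rw [he, smul_smul, mul_inv_cancel₀ (by exact_mod_cast hvn.ne'), one_smul]
    have key := aord_taylor (g := fun a : ℂ => G (a • e, s)) hR (B := B) (μ := μ) ?_ ?_
      (fun n hn => hh e n hn) (‖v‖ : ℂ) ?_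
    · simp only [hve, Complex.norm_real, norm_norm] at key
      calc ‖G (v, s)‖ ≤ 2 * B * 2 ^ μ * (‖v‖ / (R / 2)) ^ μ := key
        _ = 2 * B * 2 ^ μ * (1 / (R / 2)) ^ μ * ‖v‖ ^ μ := by
          rw [div_eq_mul_one_div ‖v‖, mul_pow]; ring
    · intro a ha
      have hmem : ((a • e, s) : V × S) ∈ ball ((0, s₀) : V × S) R :=
        hmemR _ (by rw [norm_smul, hen, mul_one]; exact ha)
      have hA := (hRR _ hmem).1
      have hl : AnalyticAt ℂ (fun a : ℂ => ((a • e, s) : V × S)) a := by fun_prop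
      exact AnalyticAt.fun_comp (g := G) (f := fun a : ℂ => ((a • e, s) : V × S)) hA hl
    · intro a ha
      have hmem : ((a • e, s) : V × S) ∈ ball ((0, s₀) : V × S) R :=
        hmemR _ (by rw [norm_smul, hen, mul_one]; exact ha)
      exact (hRR _ hmem).2.le
    · rw [Complex.norm_real, norm_norm]
      exact hvR.le

/-- AORD: the converse in one variable -/
theorem deriv_zero_of_bound_pr {g : ℂ → ℂ} (hg : AnalyticAt ℂ g 0) {μ : ℕ} {C : ℝ}
    (h : ∀ᶠ a in 𝓝 (0 : ℂ), ‖g a‖ ≤ C * ‖a‖ ^ μ) : ∀ n < μ, iteratedDeriv n g 0 = 0 := by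
  rw [← natCast_le_analyticOrderAt_iff_iteratedDeriv_eq_zero hg]
  by_contra hlt
  push Not at hlt
  obtain ⟨m, hm⟩ := ENat.ne_top_iff_exists.1 (ne_top_of_lt hlt)
  have hmμ : m < μ := by
    rw [← hm] at hlt
    exact_mod_cast hlt
  obtain ⟨q, hq, hq0, hqe⟩ := (hg.analyticOrderAt_eq_natCast).1 hm.symm
  apply hq0
  have hl1 : Tendsto (fun a : ℂ => ‖q a‖) (𝓝[≠] 0) (𝓝 ‖q 0‖) :=
    (hq.continuousAt.norm.tendsto).mono_left nhdsWithin_le_nhds
  have hl2 : Tendsto (fun a : ℂ => C * ‖a‖ ^ (μ - m)) (𝓝[≠] 0) (𝓝 0) := by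
    have : Tendsto (fun a : ℂ => C * ‖a‖ ^ (μ - m)) (𝓝 0) (𝓝 (C * ‖(0 : ℂ)‖ ^ (μ - m))) := by
      apply Continuous.tendsto
      fun_prop
    rw [norm_zero, zero_pow (by omega), mul_zero] at this
    exact this.mono_left nhdsWithin_le_nhds
  have hle : ‖q 0‖ ≤ 0 := by
    refine le_of_tendsto_of_tendsto hl1 hl2 ?_
    filter_upwards [h.filter_mono nhdsWithin_le_nhds, hqe.filter_mono nhdsWithin_le_nhds,
      self_mem_nhdsWithin] with a ha1 ha2 ha3
    have ha0 : 0 < ‖a‖ := norm_pos_iff.2 ha3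
    rw [ha2, sub_zero, norm_smul, norm_pow] at ha1
    have hsplit : ‖a‖ ^ μ = ‖a‖ ^ m * ‖a‖ ^ (μ - m) := by
      rw [← pow_add, Nat.add_sub_cancel' hmμ.le]
    rw [hsplit] at ha1
    have hp : 0 < ‖a‖ ^ m := pow_pos ha0 _
    have : ‖a‖ ^ m * ‖q a‖ ≤ ‖a‖ ^ m * (C * ‖a‖ ^ (μ - m)) := by linarith
    exact le_of_mul_le_mul_left this hp
  exact norm_le_zero_iff.1 hle

end Pool.Agent.MBS

namespace Pool.Agent.MBS
alias ord_bound := ord_bound_pr
alias deriv_zero_of_bound := deriv_zero_of_bound_pr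
end Pool.Agent.MBS
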