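import Pool.Agent.Lib_helper58.MBS.Base
import Pool.Agent.Lib_helper58.MBS.L.BCMP

set_option autoImplicit false
set_option linter.unusedSectionVars false
set_option linter.unusedVariables false

open Filter Topology Metric Set

namespace Pool.Agent.MBS

open Pool.Agent.BR

section fam

variable {E X : Type} [NormedAddCommGroup E] [NormedSpace ℂ E] [FiniteDimensional ℂ E]
  [MetricSpace X] [CompactSpace X] {A : Cha E X} {C : ℝ} {M : Set (ℂ → X)}

theorem bmin_tr_cont (w : ℂ) : Continuous (tr w : (ℂ → X) → (ℂ → X)) :=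
  continuous_pi fun z => continuous_apply (z + w)

theorem bmin_tr_tr (f : ℂ → X) (w w' : ℂ) : tr w (tr w' f) = tr (w + w') f := by
  funext z
  simp only [tr]
  rw [add_assoc]

theorem bmin_inv {f g : ℂ → X} (hg : g ∈ closure (range fun w => tr w f)) (w : ℂ) :
    tr w g ∈ closure (range fun w => tr w f) := by
  have h1 : tr w g ∈ (tr w : (ℂ → X) → (ℂ → X)) '' closure (range fun w => tr w f) :=
    ⟨g, hg, rfl⟩
  have h2 := image_closure_subset_closure_image (bmin_tr_cont w) h1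
  refine closure_mono ?_ h2
  rintro _ ⟨_, ⟨w', rfl⟩, rfl⟩
  exact ⟨w + w', (bmin_tr_tr f w w').symm⟩

theorem bmin_sub {f : ℂ → X} (hf : f ∈ BF A C) : closure (range fun w => tr w f) ⊆ BF A C := by
  refine closure_minimal ?_ (bf_closed A C)
  rintro _ ⟨w, rfl⟩
  exact bf_tr hf w

/-- BMIN: existence of minimal sets -/
theorem exists_min_pr {f : ℂ → X} (hf : f ∈ BF A C)
    (hnc : ∀ g ∈ closure (range fun w => tr w f), ∃ z z', g z ≠ g z') :
    ∃ M, Min A C M ∧ M ⊆ closure (range fun w => tr w f) := by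
  set K : Set (ℂ → X) := closure (range fun w => tr w f) with hK
  let S : Set (Set (ℂ → X)) :=
    {N | IsClosed N ∧ N.Nonempty ∧ N ⊆ K ∧ ∀ g ∈ N, ∀ w, tr w g ∈ N}
  have hKS : K ∈ S :=
    ⟨isClosed_closure, ⟨tr 0 f, subset_closure ⟨0, rfl⟩⟩, Subset.rfl, fun g hg w => bmin_inv hg w⟩
  obtain ⟨M, hMK, hM⟩ := zorn_superset_nonempty S (by
    intro c hc hchain hne
    refine ⟨⋂₀ c, ⟨isClosed_sInter fun s hs => (hc hs).1, ?_, ?_, ?_⟩, fun s hs =>
      sInter_subset_of_mem hs⟩
    · haveI : Nonempty c := hne.to_subtype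
      refine IsCompact.nonempty_sInter_of_directed_nonempty_isCompact_isClosed ?_
        (fun U hU => (hc hU).2.1) (fun U hU => (hc hU).1.isCompact) (fun U hU => (hc hU).1)
      intro a ha b hb
      rcases hchain.total ha hb with h | h
      · exact ⟨a, ha, Subset.rfl, h⟩
      · exact ⟨b, hb, h, Subset.rfl⟩
    · obtain ⟨s, hs⟩ := hne
      exact (sInter_subset_of_mem hs).trans (hc hs).2.2.1
    · intro g hg w
      rw [mem_sInter] at hg ⊢
      exact fun s hs => (hc hs).2.2.2 g (hg s hs) w) K hKS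
  have hMS : M ∈ S := hM.prop
  refine ⟨M, ⟨hMS.2.2.1.trans (bmin_sub hf), hMS.1, hMS.2.1, hMS.2.2.2, ?_, fun g hg =>
    hnc g (hMS.2.2.1 hg)⟩, hMS.2.2.1⟩
  intro N hN hNc hNe hNi
  have hNS : N ∈ S := ⟨hNc, hNe, hN.trans hMS.2.2.1, hNi⟩
  exact Subset.antisymm hN (hM.le_of_le hNS hN)

end fam

end Pool.Agent.MBS

namespace Pool.Agent.MBS
alias exists_min := exists_min_pr
end Pool.Agent.MBS
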