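import Pool.Agent.Lib_helper58.MBS.Base
import Pool.Agent.Lib_helper58.MBS.L.AJET

/-! # Minimal Brody sets: block BNC -/

set_option autoImplicit false
set_option linter.unusedSectionVars false
set_option linter.unusedVariables false

open Filter Topology Metric Set

namespace Pool.Agent.MBS

open Pool.Agent.BR

namespace BNC

variable {E X : Type} [NormedAddCommGroup E] [NormedSpace ℂ E]
  [MetricSpace X] {A : Cha E X}

/-- the change of charts -/
theorem deriv_change {f : ℂ → X} {z : ℂ} (hf : A.HolAt f z) {i j : A.ι}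
    (hi : f z ∈ (A.ch i).source) (hj : f z ∈ (A.ch j).source) :
    deriv (A.loc j f) z =
      fderiv ℂ (fun ξ => A.ch j ((A.ch i).symm ξ)) (A.ch i (f z)) (deriv (A.loc i f) z) := by
  have h1 : (fun w => (fun ξ => A.ch j ((A.ch i).symm ξ)) (A.loc i f w)) =ᶠ[𝓝 z] A.loc j f := by
    filter_upwards [hf.1.eventually_mem ((A.ch i).open_source.mem_nhds hi)] with w hw
    simp [Cha.loc, (A.ch i).left_inv hw]
  have h2 : HasDerivAt (A.loc i f) (deriv (A.loc i f) z) z :=
    (hf.2 i hi).differentiableAt.hasDerivAt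
  have h3 : HasFDerivAt (fun ξ => A.ch j ((A.ch i).symm ξ))
      (fderiv ℂ (fun ξ => A.ch j ((A.ch i).symm ξ)) (A.ch i (f z))) (A.loc i f z) :=
    (A.trans i j _ hi hj).differentiableAt.hasFDerivAt
  have h4 := h3.comp_hasDerivAt z h2
  exact (h4.congr_of_eventuallyEq h1.symm).deriv

theorem nc_of {f : ℂ → X} {z : ℂ} (hf : A.HolAt f z) (i : A.ι)
    (hi : f z ∈ (A.ch i).source) (h : deriv (A.loc i f) z ≠ 0) : NC A f z := by
  intro j hj h0
  apply h
  rw [deriv_change hf hj hi, h0, map_zero]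

/-- `f` is locally constant near `z` -/
def LC (f : ℂ → X) (z : ℂ) : Prop := ∀ᶠ w in 𝓝 z, f w = f z

theorem lc_of_loc {f : ℂ → X} {z : ℂ} (hf : A.HolAt f z) (i : A.ι) (hi : f z ∈ (A.ch i).source)
    {e : E} (h : ∀ᶠ w in 𝓝 z, A.loc i f w = e) : LC f z := by
  have h0 : A.loc i f z = e := h.self_of_nhds
  filter_upwards [h, hf.1.eventually_mem ((A.ch i).open_source.mem_nhds hi)] with w hw hws
  exact (A.ch i).injOn hws hi (by rw [← h0] at hw; exact hw)

theorem not_lc [FiniteDimensional ℂ E] {f : ℂ → X} (hf : ∀ z, A.HolAt f z) (hne : ∃ z z', f z ≠ f z') (z : ℂ) :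
    ¬ LC f z := by
  intro hz
  have := FiniteDimensional.complete ℂ E
  obtain ⟨S, hS⟩ : ∃ S : Set ℂ, S = {z | LC f z} := ⟨_, rfl⟩
  have hopen : IsOpen S := by
    rw [isOpen_iff_mem_nhds]
    intro w hw
    rw [hS] at hw ⊢
    have hw' : ∀ᶠ v in 𝓝 w, f v = f w := hw
    have := hw'.eventually_nhds
    filter_upwards [this] with v hv
    have hv0 : f v = f w := hv.self_of_nhds
    change ∀ᶠ u in 𝓝 v, f u = f v
    filter_upwards [hv] with u hu
    rw [hu, hv0]
  have hclosed : IsClosed S := by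
    rw [← isOpen_compl_iff, isOpen_iff_mem_nhds]
    intro w hw
    obtain ⟨i, hi⟩ := A.cover (f w)
    have his : f w ∈ (A.ch i).source := A.W_sub i (subset_closure hi)
    have hc := (hf w).1.eventually_mem ((A.ch i).open_source.mem_nhds his)
    obtain ⟨r, hr, hball⟩ := Metric.eventually_nhds_iff_ball.1 hc
    filter_upwards [ball_mem_nhds w hr] with v hv hvS
    apply hw
    rw [hS] at hvS ⊢
    have han : AnalyticOnNhd ℂ (A.loc i f) (ball w r) := fun u hu => (hf u).2 i (hball u hu)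
    have hcon : AnalyticOnNhd ℂ (fun _ : ℂ => A.loc i f v) (ball w r) := fun u hu =>
      analyticAt_const
    have heq : A.loc i f =ᶠ[𝓝 v] fun _ => A.loc i f v := by
      have hvS' : ∀ᶠ u in 𝓝 v, f u = f v := hvS
      filter_upwards [hvS'] with u hu
      simp [Cha.loc, hu]
    have hall := han.eqOn_of_preconnected_of_eventuallyEq hcon
      (convex_ball w r).isPreconnected hv heq
    refine lc_of_loc (hf w) i his (e := A.loc i f v) ?_
    filter_upwards [ball_mem_nhds w hr] with u hu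
    exact hall hu
  have huniv : S = univ := by
    have : IsClopen S := ⟨hclosed, hopen⟩
    rcases isClopen_iff.1 this with h | h
    · exact absurd (show z ∈ S by rw [hS]; exact hz) (by rw [h]; exact notMem_empty _)
    · exact h
  have hloc : IsLocallyConstant f := by
    rw [IsLocallyConstant.iff_eventually_eq]
    intro w
    have : w ∈ S := by rw [huniv]; exact mem_univ _
    rw [hS] at this
    exact this
  obtain ⟨a, b, hab⟩ := hne
  exact hab (hloc.apply_eq_of_isPreconnected isPreconnected_univ (mem_univ a) (mem_univ b))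

theorem ev_nc [FiniteDimensional ℂ E] {f : ℂ → X} (hf : ∀ z, A.HolAt f z) (hne : ∃ z z', f z ≠ f z') (z : ℂ) :
    ∀ᶠ w in 𝓝[≠] z, NC A f w := by
  have := FiniteDimensional.complete ℂ E
  obtain ⟨i, hi⟩ := A.cover (f z)
  have his : f z ∈ (A.ch i).source := A.W_sub i (subset_closure hi)
  have han : AnalyticAt ℂ (A.loc i f) z := (hf z).2 i his
  have hand : AnalyticAt ℂ (deriv (A.loc i f)) z := AnalyticAt.deriv han
  rcases hand.eventually_eq_zero_or_eventually_ne_zero with h | h
  · exfalso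
    apply not_lc hf hne z
    obtain ⟨r, hr, hball⟩ := Metric.eventually_nhds_iff_ball.1
      (h.and han.eventually_analyticAt)
    refine lc_of_loc (hf z) i his (e := A.loc i f z) ?_
    filter_upwards [ball_mem_nhds z hr] with u hu
    have hd : DifferentiableOn ℂ (A.loc i f) (ball z r) := fun w hw =>
      (hball w hw).2.differentiableAt.differentiableWithinAt
    exact (convex_ball z r).is_const_of_fderivWithin_eq_zero (𝕜 := ℂ) hd
      (fun w hw => by
        rw [fderivWithin_of_isOpen isOpen_ball hw]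
        ext
        simp [(hball w hw).1]) hu (mem_ball_self hr)
  · have hc := (hf z).1.eventually_mem ((A.ch i).open_source.mem_nhds his)
    filter_upwards [h, nhdsWithin_le_nhds hc] with w hw hws
    exact nc_of (hf w) i hws hw

theorem vanb {E : Type} [NormedAddCommGroup E] [NormedSpace ℂ E] [FiniteDimensional ℂ E]
    {c : ℂ → E} {z : ℂ} (hc : AnalyticAt ℂ c z) (s : ℕ) :
    (∀ q, 1 ≤ q → q ≤ s → iteratedDeriv q c z = 0) ↔
      ∃ C : ℝ, ∀ᶠ w in 𝓝 z, ‖c w - c z‖ ≤ C * ‖w - z‖ ^ (s + 1) := by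
  have hc' : AnalyticAt ℂ (fun w => c (w + z)) 0 := by
    have h1 : AnalyticAt ℂ (fun w : ℂ => w + z) 0 := by fun_prop
    exact AnalyticAt.fun_comp (g := c) (f := fun w : ℂ => w + z) (by simpa using hc) h1
  have hd : AnalyticAt ℂ (fun _ : ℂ => c z) 0 := analyticAt_const
  have hj := jets_eq_iff hc' hd (s + 1)
  have h1 : (∀ q < s + 1, iteratedDeriv q (fun w => c (w + z)) 0 =
      iteratedDeriv q (fun _ : ℂ => c z) 0) ↔
      (∀ q, 1 ≤ q → q ≤ s → iteratedDeriv q c z = 0) := by
    have hq : ∀ q, iteratedDeriv q (fun w => c (w + z)) 0 = iteratedDeriv q c z := by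
      intro q
      rw [iteratedDeriv_comp_add_const]
      simp
    constructor
    · intro h q h1 h2
      have h3 := h q (by omega)
      rw [hq, iteratedDeriv_const, if_neg (by omega)] at h3
      exact h3
    · intro h q h1
      rw [hq, iteratedDeriv_const]
      by_cases h0 : q = 0
      · simp [h0]
      · rw [if_neg h0]
        exact h q (by omega) (by omega)
  rw [← h1, hj]
  refine exists_congr fun C => ?_
  have hmap : 𝓝 z = map (fun w => w + z) (𝓝 (0 : ℂ)) := by
    have := (Homeomorph.addRight z).map_nhds_eq (0 : ℂ)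
    simp only [Homeomorph.coe_addRight, zero_add] at this
    exact this.symm
  rw [hmap, eventually_map]
  simp

end BNC

section fam

variable {E X : Type} [NormedAddCommGroup E] [NormedSpace ℂ E] [FiniteDimensional ℂ E]
  [MetricSpace X] [CompactSpace X] {A : Cha E X} {C : ℝ} {M : Set (ℂ → X)}

theorem crit_countable_pr {f : ℂ → X} (hf : ∀ z, A.HolAt f z) (hne : ∃ z z', f z ≠ f z') :
    IsClosed {z | ¬ NC A f z} ∧ {z | ¬ NC A f z}.Countable := by
  constructor
  · rw [← isOpen_compl_iff, isOpen_iff_mem_nhds]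
    intro z hz
    have hz' : NC A f z := by simpa using hz
    have h := BNC.ev_nc hf hne z
    rw [eventually_nhdsWithin_iff] at h
    filter_upwards [h] with w hw
    by_cases hwz : w = z
    · rw [hwz]; exact hz
    · simpa using hw hwz
  · have hU : ∀ z : ℂ, ∃ U ∈ 𝓝 z, ∀ w ∈ U, ¬ NC A f w → w = z := by
      intro z
      have h := BNC.ev_nc hf hne z
      rw [eventually_nhdsWithin_iff] at h
      exact ⟨_, h, fun w hw hw' => by_contra fun hwz => hw' (hw hwz)⟩
    choose U hU1 hU2 using hU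
    obtain ⟨s, hs, hcov⟩ := TopologicalSpace.countable_cover_nhds hU1
    refine hs.mono fun z hz => ?_
    have : z ∈ ⋃ x ∈ s, U x := by rw [hcov]; exact mem_univ _
    obtain ⟨x, hx, hzx⟩ := mem_iUnion₂.1 this
    rw [hU2 x z hzx hz]
    exact hx

theorem nc_iff_pr {f : ℂ → X} {z : ℂ} (hf : A.HolAt f z) (i : A.ι) (hi : f z ∈ (A.ch i).source) :
    NC A f z ↔ deriv (A.loc i f) z ≠ 0 :=
  ⟨fun h => h i hi, fun h => BNC.nc_of hf i hi h⟩

theorem van_finite_pr {f : ℂ → X} (hf : ∀ z, A.HolAt f z) (hne : ∃ z z', f z ≠ f z') (z : ℂ) :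
    ∃ s, ¬ VanAt A s f z := by
  by_contra hcon
  push Not at hcon
  obtain ⟨i, hi⟩ := A.cover (f z)
  have his : f z ∈ (A.ch i).source := A.W_sub i (subset_closure hi)
  have han : AnalyticAt ℂ (A.loc i f) z := (hf z).2 i his
  apply BNC.not_lc hf hne z
  refine BNC.lc_of_loc (hf z) i his (e := A.loc i f z) ?_
  rcases han.eventually_eq_or_eventually_ne (analyticAt_const (v := A.loc i f z)) with h | h
  · exact h
  · exfalso
    have han' : AnalyticAt ℂ (fun w => A.loc i f w - A.loc i f z) z := han.sub analyticAt_const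
    have hnz : ¬ ∀ᶠ w in 𝓝 z, A.loc i f w - A.loc i f z = 0 := by
      intro h0
      have h1 : ∀ᶠ w in 𝓝[≠] z, False := by
        filter_upwards [h, nhdsWithin_le_nhds h0] with w h1 h2
        exact h1 (sub_eq_zero.1 h2)
      exact h1.exists.elim fun _ h2 => h2
    obtain ⟨n, g, hg, hg0, hgn⟩ := (han'.exists_eventuallyEq_pow_smul_nonzero_iff).2 hnz
    obtain ⟨K, hK⟩ := (BNC.vanb han n).1 (hcon n i his)
    have hcg : ContinuousAt g z := hg.continuousAt
    have hb : ∀ᶠ w in 𝓝[≠] z, ‖g w‖ ≤ K * ‖w - z‖ := by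
      filter_upwards [nhdsWithin_le_nhds hK, nhdsWithin_le_nhds hgn, self_mem_nhdsWithin]
        with w h1 h2 h3
      have h4 : 0 < ‖w - z‖ ^ n := pow_pos (norm_pos_iff.2 (sub_ne_zero.2 h3)) n
      rw [h2, norm_smul, norm_pow, pow_succ] at h1
      have h5 : ‖w - z‖ ^ n * ‖g w‖ ≤ ‖w - z‖ ^ n * (K * ‖w - z‖) := by linarith
      exact le_of_mul_le_mul_left h5 h4
    have hl1 : Tendsto (fun w => ‖g w‖) (𝓝[≠] z) (𝓝 ‖g z‖) :=
      (hcg.norm.tendsto).mono_left nhdsWithin_le_nhds
    have hl2 : Tendsto (fun w => K * ‖w - z‖) (𝓝[≠] z) (𝓝 0) := by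
      have h1 : ContinuousAt (fun w : ℂ => K * ‖w - z‖) z := by fun_prop
      have h2 := h1.tendsto
      simp only [sub_self, norm_zero, mul_zero] at h2
      exact h2.mono_left nhdsWithin_le_nhds
    have h6 := le_of_tendsto_of_tendsto hl1 hl2 hb
    exact hg0 (norm_le_zero_iff.1 h6)

theorem van_iff_pr {f : ℂ → X} {z : ℂ} (hf : ∀ᶠ w in 𝓝 z, A.HolAt f w) (i : A.ι)
    (hi : f z ∈ (A.ch i).source) (s : ℕ) :
    VanAt A s f z ↔ ∀ q, 1 ≤ q → q ≤ s → iteratedDeriv q (A.loc i f) z = 0 := by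
  refine ⟨fun h => h i hi, fun h j hj => ?_⟩
  have hfz : A.HolAt f z := hf.self_of_nhds
  rw [BNC.vanb (hfz.2 j hj)]
  rw [BNC.vanb (hfz.2 i hi)] at h
  obtain ⟨K, hK⟩ := h
  have hψ : HasFDerivAt (fun ξ => A.ch j ((A.ch i).symm ξ))
      (fderiv ℂ (fun ξ => A.ch j ((A.ch i).symm ξ)) (A.ch i (f z))) (A.loc i f z) :=
    (A.trans i j _ hi hj).differentiableAt.hasFDerivAt
  obtain ⟨K', hK'⟩ := hψ.isBigO_sub.bound
  have hcont : ContinuousAt (A.loc i f) z := (hfz.2 i hi).continuousAt
  refine ⟨|K'| * K, ?_⟩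
  filter_upwards [hK, hcont.eventually hK',
    hfz.1.eventually_mem ((A.ch i).open_source.mem_nhds hi)] with w h1 h2 h3
  have h4 : A.ch j ((A.ch i).symm (A.loc i f w)) = A.loc j f w := by
    simp [Cha.loc, (A.ch i).left_inv h3]
  have h5 : A.ch j ((A.ch i).symm (A.loc i f z)) = A.loc j f z := by
    simp [Cha.loc, (A.ch i).left_inv hi]
  rw [h4, h5] at h2
  calc ‖A.loc j f w - A.loc j f z‖ ≤ K' * ‖A.loc i f w - A.loc i f z‖ := h2
    _ ≤ |K'| * ‖A.loc i f w - A.loc i f z‖ :=
        mul_le_mul_of_nonneg_right (le_abs_self _) (norm_nonneg _)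
    _ ≤ |K'| * (K * ‖w - z‖ ^ (s + 1)) := mul_le_mul_of_nonneg_left h1 (abs_nonneg _)
    _ = |K'| * K * ‖w - z‖ ^ (s + 1) := by ring

end fam

end Pool.Agent.MBS

namespace Pool.Agent.MBS
alias crit_countable := crit_countable_pr
alias nc_iff := nc_iff_pr
alias van_finite := van_finite_pr
alias van_iff := van_iff_pr
end Pool.Agent.MBS
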