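import Pool.Agent.Lib_helper58.MBS.Base
import Pool.Agent.Lib_helper58.MBS.L.BCMP
import Pool.Agent.Lib_helper58.MBS.L.BLIM

/-! # Minimal Brody sets: block BSEQ -/

set_option autoImplicit false
set_option linter.unusedSectionVars false
set_option linter.unusedVariables false

open Filter Topology Metric Set

namespace Pool.Agent.MBS

open Pool.Agent.BR

section fam

variable {E X : Type} [NormedAddCommGroup E] [NormedSpace ℂ E] [FiniteDimensional ℂ E]
  [MetricSpace X] [CompactSpace X] {A : Cha E X} {C : ℝ} {M : Set (ℂ → X)}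

/-- BSEQ: limits of translates are limits of sequences of translates -/
theorem orbit_seq_pr {f g : ℂ → X} (hf : f ∈ BF A C) (hg : g ∈ closure (range fun w => tr w f)) :
    ∃ z : ℕ → ℂ, ∀ w, Tendsto (fun n => f (z n + w)) atTop (𝓝 (g w)) := by
  set S : Set (ℂ → X) := range fun w => tr w f with hS
  have hSB : S ⊆ BF A C := by
    rintro _ ⟨w, rfl⟩
    exact bf_tr hf w
  have hgB : g ∈ BF A C := closure_minimal hSB (bf_closed A C) hg
  have : (𝓝[S] g).NeBot := mem_closure_iff_nhdsWithin_neBot.1 hg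
  have hev : ∀ᶠ h in 𝓝[S] g, h ∈ S := self_mem_nhdsWithin
  have hlim : Tendsto (fun h : ℂ → X => h) (𝓝[S] g) (𝓝 g) := tendsto_id.mono_left nhdsWithin_le_nhds
  have key : ∀ n : ℕ, ∃ w : ℂ, ∀ z : ℂ, ‖z‖ ≤ n → dist (tr w f z) (g z) < 1 / ((n : ℝ) + 1) := by
    intro n
    have h1 := bf_unif (A := A) (C := C) (F := 𝓝[S] g) (g := fun h : ℂ → X => h) (f := g)
      (hev.mono fun h hh => hSB hh) hgB hlim (n : ℝ) (1 / ((n : ℝ) + 1)) (by positivity)
    obtain ⟨h, h2, h3⟩ := (h1.and hev).exists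
    obtain ⟨w, rfl⟩ := h3
    exact ⟨w, h2⟩
  choose w hw using key
  refine ⟨w, fun z => ?_⟩
  rw [tendsto_iff_dist_tendsto_zero]
  refine squeeze_zero' (Eventually.of_forall fun n => dist_nonneg) ?_
    tendsto_one_div_add_atTop_nhds_zero_nat
  obtain ⟨N, hN⟩ := exists_nat_ge ‖z‖
  filter_upwards [eventually_ge_atTop N] with n hn
  have h1 : ‖z‖ ≤ n := hN.trans (by exact_mod_cast hn)
  have h2 := (hw n z h1).le
  simp only [tr] at h2
  rwa [add_comm z (w n)] at h2

end fam


end Pool.Agent.MBS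

namespace Pool.Agent.MBS
alias orbit_seq := orbit_seq_pr
end Pool.Agent.MBS
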