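import Pool.Agent.Lib_helper58.MBS.Base
import Pool.Agent.Lib_helper58.MBS.L.BLIM
import Pool.Agent.Lib_helper58.MBS.L.BNC

/-! # Minimal Brody sets, block BSMP: sample points (MP_45e720_ag) -/

set_option autoImplicit false
set_option linter.unusedSectionVars false
set_option linter.unusedVariables false

open Filter Topology Metric Set

namespace Pool.Agent.MBS

open Pool.Agent.BR

section fam

variable {E X : Type} [NormedAddCommGroup E] [NormedSpace ℂ E] [FiniteDimensional ℂ E]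
  [MetricSpace X] [CompactSpace X] {A : Cha E X} {C : ℝ} {M : Set (ℂ → X)}

/-- BSMP: limits of sample points are sample points -/
theorem smp_lim_pr {κ : Type} {F : Filter κ} [F.NeBot] {g : κ → ℂ → X} {f : ℂ → X}
    (hg : ∀ᶠ k in F, g k ∈ BF A C) (hf : f ∈ BF A C) (hlim : Tendsto g F (𝓝 f)) {z : κ → ℂ}
    {z₀ : ℂ} (hz : Tendsto z F (𝓝 z₀)) {θ ε : ℝ} (h : ∀ᶠ k in F, Smp θ ε (g k) (z k)) :
    Smp θ ε f z₀ := by
  intro u hu
  have h1 : Tendsto (fun k => z k + (u - z₀)) F (𝓝 u) := by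
    have := hz.add_const (u - z₀)
    rwa [add_sub_cancel] at this
  have h2 := bf_eval hg hf hlim hz
  have h3 := bf_eval hg hf hlim h1
  refine ge_of_tendsto (h2.dist h3) ?_
  filter_upwards [h] with k hk
  have h4 := hk (z k + (u - z₀)) (by rwa [add_sub_cancel_left])
  rwa [add_sub_cancel_left] at h4

/-- BSMP: sample points are noncritical -/
theorem smp_nc_pr {lam L : ℝ} (hB : BLip A lam L) {θ ε : ℝ} (hθ : 0 < θ) (hε : 0 < ε) {f : ℂ → X}
    (hf : ∀ z, A.HolAt f z) {z : ℂ} (h : Smp θ ε f z) : NC A f z := by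
  obtain ⟨i, hi⟩ := hB.leb (f z)
  have hfW : f z ∈ A.W i := hi (mem_ball_self hB.lam_pos)
  have hfs : f z ∈ (A.ch i).source := A.W_sub i (subset_closure hfW)
  rw [nc_iff (hf z) i hfs]
  intro h0
  have hL : 0 < L := lt_of_lt_of_le one_pos hB.L_one
  have hd : HasDerivAt (A.loc i f) 0 z := by
    have := ((hf z).2 i hfs).differentiableAt.hasDerivAt
    rwa [h0] at this
  have hc : 0 < θ / (2 * L) := by positivity
  have h1 : ∀ᶠ u in 𝓝 z, ‖A.loc i f u - A.loc i f z‖ ≤ θ / (2 * L) * ‖u - z‖ := by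
    have h2 := hd.isLittleO.def hc
    filter_upwards [h2] with u hu
    simpa using hu
  have h2 : ∀ᶠ u in 𝓝 z, f u ∈ ball (f z) lam :=
    (hf z).1.eventually (ball_mem_nhds (f z) hB.lam_pos)
  have h3 : ∀ᶠ u in 𝓝 z, ‖u - z‖ ≤ ε := by
    filter_upwards [closedBall_mem_nhds z hε] with u hu
    rwa [mem_closedBall_iff_norm] at hu
  obtain ⟨u, ⟨⟨hu1, hu2⟩, hu3⟩, hu4⟩ :
      ∃ u, ((‖A.loc i f u - A.loc i f z‖ ≤ θ / (2 * L) * ‖u - z‖ ∧ f u ∈ ball (f z) lam) ∧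
        ‖u - z‖ ≤ ε) ∧ u ≠ z := by
    have h5 : ∀ᶠ u in 𝓝[≠] z, ((‖A.loc i f u - A.loc i f z‖ ≤ θ / (2 * L) * ‖u - z‖ ∧
        f u ∈ ball (f z) lam) ∧ ‖u - z‖ ≤ ε) :=
      ((h1.and h2).and h3).filter_mono nhdsWithin_le_nhds
    have h6 : ∀ᶠ u in 𝓝[≠] z, u ≠ z := eventually_mem_nhdsWithin
    exact (h5.and h6).exists
  have h7 := h u hu3
  have h8 := hB.le_ch i (f z) (subset_closure hfW) (f z) (mem_ball_self hB.lam_pos) (f u) hu2
  have h9 : ‖A.ch i (f z) - A.ch i (f u)‖ ≤ θ / (2 * L) * ‖u - z‖ := by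
    rw [norm_sub_rev]
    exact hu1
  have h10 : 0 < ‖u - z‖ := norm_pos_iff.2 (sub_ne_zero.2 hu4)
  have h11 : L * (θ / (2 * L) * ‖u - z‖) = θ / 2 * ‖u - z‖ := by
    field_simp
  have h12 : L * ‖A.ch i (f z) - A.ch i (f u)‖ ≤ L * (θ / (2 * L) * ‖u - z‖) :=
    mul_le_mul_of_nonneg_left h9 hL.le
  nlinarith

end fam

end Pool.Agent.MBS

namespace Pool.Agent.MBS
alias smp_lim := smp_lim_pr
alias smp_nc := smp_nc_pr
end Pool.Agent.MBS
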