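import Pool.Agent.Lib_helper58.MBS.Base
import Pool.Agent.Lib_helper58.MBS.L.AJET

set_option autoImplicit false
set_option linter.unusedSectionVars false
set_option linter.unusedVariables false

open Filter Topology Metric Set

namespace Pool.Agent.MBS

open Pool.Agent.BR

/-- the local inverse of a coordinate change -/
theorem cfam_inv {ψ : ℂ → ℂ} (hψ : AnalyticAt ℂ ψ 0) (h0 : ψ 0 = 0) (h1 : deriv ψ 0 ≠ 0) :
    ∃ φ : ℂ → ℂ, AnalyticAt ℂ φ 0 ∧ φ 0 = 0 ∧ (∀ᶠ z in 𝓝 (0 : ℂ), φ (ψ z) = z) ∧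
      ∀ᶠ z in 𝓝 (0 : ℂ), ψ (φ z) = z := by
  have ha : AnalyticAt ℂ (hψ.hasStrictDerivAt.localInverse _ _ _ h1) (ψ 0) :=
    hψ.analyticAt_localInverse h1
  have hi : hψ.hasStrictDerivAt.localInverse _ _ _ h1 (ψ 0) = 0 :=
    HasStrictFDerivAt.localInverse_apply_image ..
  have hr : ∀ᶠ y in 𝓝 (ψ 0), ψ (hψ.hasStrictDerivAt.localInverse _ _ _ h1 y) = y :=
    HasStrictDerivAt.eventually_right_inverse ..
  have hl : ∀ᶠ y in 𝓝 (0 : ℂ), hψ.hasStrictDerivAt.localInverse _ _ _ h1 (ψ y) = y :=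
    HasStrictDerivAt.eventually_left_inverse ..
  rw [h0] at ha hi hr
  exact ⟨_, ha, hi, hl, hr⟩

section par

variable {E : Type} [NormedAddCommGroup E] [NormedSpace ℂ E] [FiniteDimensional ℂ E]

/-- derivatives with respect to the second variable -/
theorem cfam_par {D : ℂ × ℂ → E} {x₀ : ℂ × ℂ} (hD : AnalyticAt ℂ D x₀) (q : ℕ) :
    ∃ Dq : ℂ × ℂ → E, AnalyticAt ℂ Dq x₀ ∧
      ∀ᶠ x in 𝓝 x₀, iteratedDeriv q (fun z => D (x.1, z)) x.2 = Dq x := by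
  have : CompleteSpace E := FiniteDimensional.complete ℂ E
  induction q with
  | zero => exact ⟨D, hD, Eventually.of_forall fun x => by simp⟩
  | succ q ih =>
    obtain ⟨Dq, hDq, he⟩ := ih
    refine ⟨fun x => fderiv ℂ Dq x ((0 : ℂ), (1 : ℂ)), ?_, ?_⟩
    · exact ((ContinuousLinearMap.apply ℂ E ((0 : ℂ), (1 : ℂ))).analyticAt _).comp hDq.fderiv
    · filter_upwards [he.eventually_nhds, hDq.eventually_analyticAt] with x hx hx'
      rw [iteratedDeriv_succ]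
      have ht : Tendsto (fun z : ℂ => (x.1, z)) (𝓝 x.2) (𝓝 x) := by
        have h : ContinuousAt (fun z : ℂ => (x.1, z)) x.2 := by fun_prop
        exact h
      have h1 : iteratedDeriv q (fun z => D (x.1, z)) =ᶠ[𝓝 x.2] fun z => Dq (x.1, z) :=
        ht.eventually hx
      rw [h1.deriv_eq]
      have h2 : HasFDerivAt Dq (fderiv ℂ Dq x) (x.1, x.2) := hx'.differentiableAt.hasFDerivAt
      have h3 : HasDerivAt (fun z : ℂ => (x.1, z)) ((0 : ℂ), (1 : ℂ)) x.2 :=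
        (hasDerivAt_const _ _).prodMk (hasDerivAt_id _)
      have h4 := h2.comp_hasDerivAt x.2 h3
      exact h4.deriv

/-- analytic maps are locally Lipschitz -/
theorem cfam_lip {F : Type} [NormedAddCommGroup F] [NormedSpace ℂ F] {τ : E → F} {y : E}
    (hτ : AnalyticAt ℂ τ y) :
    ∃ L : ℝ, 0 ≤ L ∧ ∃ s ∈ 𝓝 y, ∀ u ∈ s, ∀ v ∈ s, ‖τ u - τ v‖ ≤ L * ‖u - v‖ := by
  obtain ⟨K, s, hs, hK⟩ := hτ.hasStrictFDerivAt.exists_lipschitzOnWith
  refine ⟨K, K.coe_nonneg, s, hs, fun u hu v hv => ?_⟩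
  have h := hK.dist_le_mul u hu v hv
  rwa [dist_eq_norm, dist_eq_norm] at h

/-- the polynomial curve with given jets -/
noncomputable def cfP {k : ℕ} (v : Fin (k + 1) → E) (z : ℂ) : E :=
  ∑ r : Fin (k + 1), (z ^ (r : ℕ) * (((r : ℕ).factorial : ℂ))⁻¹) • v r

theorem cfam_jet {k : ℕ} (v : Fin (k + 1) → E) (q : Fin (k + 1)) :
    iteratedDeriv q (cfP v) 0 = v q := by
  have h0 : cfP v = fun z : ℂ => ∑ r : Fin (k + 1),
      (z ^ (r : ℕ) * (((r : ℕ).factorial : ℂ))⁻¹) • v r := rfl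
  rw [h0, iteratedDeriv_fun_sum (fun r _ => by fun_prop)]
  rw [Finset.sum_eq_single q]
  · rw [iteratedDeriv_smul_const (by fun_prop), iteratedDeriv_mul_const_field,
      iteratedDeriv_fun_pow_zero, if_pos rfl,
      mul_inv_cancel₀ (by exact_mod_cast Nat.factorial_ne_zero _), one_smul]
  · intro r _ hr
    rw [iteratedDeriv_smul_const (by fun_prop), iteratedDeriv_mul_const_field,
      iteratedDeriv_fun_pow_zero, if_neg (fun h => hr (Fin.ext h.symm)), Nat.cast_zero, zero_mul,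
      zero_smul]
  · intro h
    exact absurd (Finset.mem_univ q) h

theorem cfam_zero {k : ℕ} (v : Fin (k + 1) → E) : cfP v 0 = v 0 := by
  have h := cfam_jet v 0
  simpa using h

theorem cfam_an {k : ℕ} (s w : Fin (k + 1) → E) (x₀ : ℂ × ℂ) :
    AnalyticAt ℂ (fun x : ℂ × ℂ => cfP (s + x.1 • w) x.2) x₀ := by
  have h0 : (fun x : ℂ × ℂ => cfP (s + x.1 • w) x.2) = fun x : ℂ × ℂ =>
      ∑ r : Fin (k + 1), (x.2 ^ (r : ℕ) * (((r : ℕ).factorial : ℂ))⁻¹) • (s r + x.1 • w r) := rfl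
  rw [h0]
  refine Finset.analyticAt_fun_sum _ fun r _ => ?_
  exact ((analyticAt_snd.pow _).mul analyticAt_const).smul
    (analyticAt_const.add (analyticAt_fst.smul analyticAt_const))

theorem cfam_diff {k : ℕ} (s : Fin (k + 1) → E) (p : Fin (k + 1)) (e : E) (a z : ℂ) :
    cfP (s + a • (Pi.single p e : Fin (k + 1) → E)) z - cfP s z =
      (z ^ (p : ℕ) * (((p : ℕ).factorial : ℂ))⁻¹) • (a • e) := by
  unfold cfP
  rw [← Finset.sum_sub_distrib, Finset.sum_eq_single p]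
  · rw [← smul_sub]
    congr 1
    simp
  · intro r _ hr
    rw [← smul_sub]
    simp [Pi.single_eq_of_ne hr]
  · intro h
    exact absurd (Finset.mem_univ p) h

theorem cfam_diff_le {k : ℕ} (s : Fin (k + 1) → E) (p : Fin (k + 1)) (e : E) (a z : ℂ) :
    ‖cfP (s + a • (Pi.single p e : Fin (k + 1) → E)) z - cfP s z‖ ≤ ‖z‖ ^ (p : ℕ) * ‖a • e‖ := by
  rw [cfam_diff, norm_smul, norm_mul, norm_pow, norm_inv]
  refine mul_le_mul_of_nonneg_right ?_ (norm_nonneg _)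
  refine mul_le_of_le_one_right (by positivity) ?_
  apply inv_le_one_of_one_le₀
  rw [Complex.norm_natCast]
  exact_mod_cast Nat.one_le_iff_ne_zero.2 (Nat.factorial_ne_zero _)

end par

section jets

variable {E X : Type} [NormedAddCommGroup E] [NormedSpace ℂ E] [FiniteDimensional ℂ E]
  [MetricSpace X] [CompactSpace X] {A : Cha E X} {C : ℝ} {M : Set (ℂ → X)} {k m : ℕ}
  {P : (ℂ → X) → ℂ} {Q : A.ι → (Fin (k + 1) → E) → ℂ}

theorem cfam_hol (j : A.ι) {g : ℂ → E} {z : ℂ} (hg : AnalyticAt ℂ g z)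
    (ht : g z ∈ (A.ch j).target) : A.HolAt (fun z => (A.ch j).symm (g z)) z := by
  refine ⟨?_, fun i' hi' => ?_⟩
  · have h1 : ContinuousAt (A.ch j).symm (g z) := (A.ch j).continuousAt_symm ht
    exact ContinuousAt.comp (f := g) (x := z) h1 hg.continuousAt
  · have h1 := A.trans j i' ((A.ch j).symm (g z)) ((A.ch j).map_target ht) hi'
    rw [(A.ch j).right_inv ht] at h1
    exact h1.comp hg

/-- CFAM: jets of a one-parameter family of reparametrised germs in another chart -/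
theorem jets_family_pr (i j : A.ι) {c : ℂ → X} (hc : Ger A c) (hi : c 0 ∈ (A.ch i).source)
    (hj : c 0 ∈ (A.ch j).source) {ψ : ℂ → ℂ} (hψ : AnalyticAt ℂ ψ 0) (h0 : ψ 0 = 0)
    (h1 : deriv ψ 0 ≠ 0) (p : Fin (k + 1)) (s : Fin (k + 1) → E)
    (hs : ∀ q ≤ p, s q = jt A k j (fun z => c (ψ z)) q) (e : E) :
    ∃ (d : ℂ → ℂ → X) (S : ℂ → Fin (k + 1) → E) (B : ℝ),
      (∀ᶠ a in 𝓝 (0 : ℂ), Ger A (d a) ∧ d a 0 ∈ (A.ch i).source ∧ d a 0 ∈ (A.ch j).source ∧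
        jt A k j (fun z => d a (ψ z)) = s + a • (Pi.single p e : Fin (k + 1) → E) ∧
        jt A k i (d a) = S a) ∧
      (∀ᶠ a in 𝓝 (0 : ℂ), ∀ q < p, S a q = jt A k i c q) ∧
      (∀ᶠ a in 𝓝 (0 : ℂ), ‖S a p - jt A k i c p‖ ≤ B * ‖a‖) ∧
      ContinuousAt S 0 := by
  have : CompleteSpace E := FiniteDimensional.complete ℂ E
  obtain ⟨φ, hφ, φ0, hφψ, hψφ⟩ := cfam_inv hψ h0 h1
  set w : Fin (k + 1) → E := (Pi.single p e : Fin (k + 1) → E) with hw
  have hs0 : s 0 = A.ch j (c 0) := by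
    have h := hs 0 (Fin.zero_le p)
    rw [h]
    change iteratedDeriv 0 (A.loc j (fun z => c (ψ z))) 0 = _
    rw [iteratedDeriv_zero]
    change A.ch j (c (ψ 0)) = _
    rw [h0]
  -- the curves in the chart `j`
  set Bφ : ℂ × ℂ → E := fun x => cfP (s + x.1 • w) (φ x.2) with hBφ
  have hBan : ∀ x : ℂ × ℂ, AnalyticAt ℂ φ x.2 → AnalyticAt ℂ Bφ x := by
    intro x hx
    have h2 : AnalyticAt ℂ (fun y : ℂ × ℂ => (y.1, φ y.2)) x :=
      analyticAt_fst.prod (hx.comp analyticAt_snd)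
    exact (cfam_an s w (x.1, φ x.2)).comp (f := fun y : ℂ × ℂ => (y.1, φ y.2)) h2
  have hB0 : Bφ (0, 0) = s 0 := by
    change cfP (s + (0 : ℂ) • w) (φ 0) = s 0
    rw [φ0, zero_smul, add_zero, cfam_zero]
  have hBa : AnalyticAt ℂ Bφ (0, 0) := hBan (0, 0) hφ
  have hBc : Tendsto Bφ (𝓝 (0, 0)) (𝓝 (s 0)) := by
    have h := hBa.continuousAt
    rw [ContinuousAt, hB0] at h
    exact h
  have hst : s 0 ∈ (A.ch j).target := by rw [hs0]; exact (A.ch j).map_source hj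
  have hsy : (A.ch j).symm (s 0) = c 0 := by rw [hs0, (A.ch j).left_inv hj]
  -- the transition map
  set τ : E → E := fun ξ => A.ch i ((A.ch j).symm ξ) with hτd
  have hτ : AnalyticAt ℂ τ (s 0) := by
    have h := A.trans j i (c 0) hj hi
    rw [← hs0] at h
    exact h
  obtain ⟨L, hL0, N, hN, hL⟩ := cfam_lip hτ
  set D : ℂ × ℂ → E := fun x => τ (Bφ x) with hDd
  have hD : AnalyticAt ℂ D (0, 0) := by
    have h2 : AnalyticAt ℂ τ (Bφ (0, 0)) := by rw [hB0]; exact hτ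
    exact h2.comp hBa
  -- events near `(0, 0)`
  have E1 : ∀ᶠ x in 𝓝 ((0, 0) : ℂ × ℂ), Bφ x ∈ (A.ch j).target :=
    hBc.eventually ((A.ch j).open_target.mem_nhds hst)
  have E2 : ∀ᶠ x in 𝓝 ((0, 0) : ℂ × ℂ), AnalyticAt ℂ φ x.2 := by
    have h : Tendsto (fun x : ℂ × ℂ => x.2) (𝓝 (0, 0)) (𝓝 0) := continuous_snd.tendsto _
    exact h.eventually hφ.eventually_analyticAt
  have E3 : ∀ᶠ x in 𝓝 ((0, 0) : ℂ × ℂ), Bφ x ∈ N := hBc.eventually hN
  have Eline : Tendsto (fun a : ℂ => ((a, 0) : ℂ × ℂ)) (𝓝 0) (𝓝 (0, 0)) := by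
    have h : ContinuousAt (fun a : ℂ => ((a, 0) : ℂ × ℂ)) 0 := by fun_prop
    exact h
  have Evert : ∀ a : ℂ, Tendsto (fun z : ℂ => ((a, z) : ℂ × ℂ)) (𝓝 0) (𝓝 (a, 0)) := by
    intro a
    have h : ContinuousAt (fun z : ℂ => ((a, z) : ℂ × ℂ)) 0 := by fun_prop
    exact h
  -- size of `φ`
  obtain ⟨Kφ, hKφ0, hKφ⟩ : ∃ K : ℝ, 0 ≤ K ∧ ∀ᶠ z in 𝓝 (0 : ℂ), ‖φ z‖ ≤ K * ‖z‖ := by
    obtain ⟨K, hK0, n, hn, hK⟩ := cfam_lip hφ
    refine ⟨K, hK0, ?_⟩
    filter_upwards [hn] with z hz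
    have h := hK z hz 0 (mem_of_mem_nhds hn)
    rwa [φ0, sub_zero, sub_zero] at h
  -- the jets of `D (a, ·)`
  have hDa : ∀ᶠ a in 𝓝 (0 : ℂ), AnalyticAt ℂ (fun z => D (a, z)) 0 := by
    filter_upwards [Eline.eventually hD.eventually_analyticAt] with a ha
    have h2 : AnalyticAt ℂ (fun z : ℂ => ((a, z) : ℂ × ℂ)) 0 := analyticAt_const.prod analyticAt_id
    exact AnalyticAt.comp (g := D) (f := fun z : ℂ => ((a, z) : ℂ × ℂ)) ha h2
  have hD0 : AnalyticAt ℂ (fun z => D (0, z)) 0 := hDa.self_of_nhds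
  -- `d 0` and `c` have the same jets up to the order `p`
  have hcs : ∀ᶠ z in 𝓝 (0 : ℂ), c z ∈ (A.ch j).source := by
    have h := hc.self_of_nhds.1
    exact h.eventually ((A.ch j).open_source.mem_nhds hj)
  have hcj : AnalyticAt ℂ (A.loc j c) 0 := hc.self_of_nhds.2 j hj
  have hci : AnalyticAt ℂ (A.loc i c) 0 := hc.self_of_nhds.2 i hi
  have hcψ : AnalyticAt ℂ (A.loc j (fun z => c (ψ z))) 0 := by
    have h2 : AnalyticAt ℂ (A.loc j c) (ψ 0) := by rw [h0]; exact hcj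
    exact h2.comp hψ
  have hPs : AnalyticAt ℂ (cfP s) 0 := by
    have h2 := cfam_an s (0 : Fin (k + 1) → E) (0, 0)
    have h3 : AnalyticAt ℂ (fun z : ℂ => (((0 : ℂ), z) : ℂ × ℂ)) 0 :=
      analyticAt_const.prod analyticAt_id
    have h4 := AnalyticAt.comp (g := fun x : ℂ × ℂ => cfP (s + x.1 • (0 : Fin (k + 1) → E)) x.2)
      (f := fun z : ℂ => (((0 : ℂ), z) : ℂ × ℂ)) h2 h3
    have h5 : ((fun x : ℂ × ℂ => cfP (s + x.1 • (0 : Fin (k + 1) → E)) x.2) ∘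
        fun z : ℂ => (((0 : ℂ), z) : ℂ × ℂ)) = cfP s := by
      funext z
      simp
    rwa [h5] at h4
  have J1 : ∃ C : ℝ, ∀ᶠ z in 𝓝 (0 : ℂ), ‖cfP s z - A.loc j (fun z => c (ψ z)) z‖ ≤
      C * ‖z‖ ^ ((p : ℕ) + 1) := by
    refine (jets_eq_iff hPs hcψ ((p : ℕ) + 1)).1 ?_
    intro q hq
    have hqk : q < k + 1 := lt_of_lt_of_le hq p.2
    have h2 := cfam_jet s ⟨q, hqk⟩
    have h3 := hs ⟨q, hqk⟩ (by rw [Fin.le_def]; exact Nat.lt_succ_iff.1 hq)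
    change iteratedDeriv q (cfP s) 0 = _ at h2
    rw [h2, h3]
    rfl
  have J2 : ∀ q : Fin (k + 1), q ≤ p → iteratedDeriv q (fun z => D (0, z)) 0 = jt A k i c q := by
    obtain ⟨C₁, hC₁⟩ := J1
    have h2 : ∃ C : ℝ, ∀ᶠ z in 𝓝 (0 : ℂ), ‖D (0, z) - A.loc i c z‖ ≤ C * ‖z‖ ^ ((p : ℕ) + 1) := by
      refine ⟨L * (|C₁| * Kφ ^ ((p : ℕ) + 1)), ?_⟩
      have hφt : Tendsto φ (𝓝 0) (𝓝 0) := by
        have h := hφ.continuousAt
        rwa [ContinuousAt, φ0] at h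
      have hcN : ∀ᶠ z in 𝓝 (0 : ℂ), A.ch j (c z) ∈ N := by
        have h : Tendsto (A.loc j c) (𝓝 0) (𝓝 (s 0)) := by
          have h := hcj.continuousAt
          rw [ContinuousAt] at h
          have h3 : A.loc j c 0 = s 0 := hs0.symm
          rwa [h3] at h
        exact h.eventually hN
      filter_upwards [hφt.eventually hC₁, (Evert 0).eventually E3, hcN, hcs, hψφ, hKφ] with
        z z1 z2 z3 z4 z5 z6
      have h3 : A.loc i c z = τ (A.ch j (c z)) := by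
        change A.ch i (c z) = A.ch i ((A.ch j).symm (A.ch j (c z)))
        rw [(A.ch j).left_inv z4]
      have h4 : Bφ (0, z) = cfP s (φ z) := by
        change cfP (s + (0 : ℂ) • w) (φ z) = _
        rw [zero_smul, add_zero]
      have h5 : A.loc j (fun z => c (ψ z)) (φ z) = A.ch j (c z) := by
        change A.ch j (c (ψ (φ z))) = _
        rw [z5]
      rw [h3]
      refine (hL _ z2 _ z3).trans ?_
      rw [mul_assoc]
      refine mul_le_mul_of_nonneg_left ?_ hL0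
      rw [h4, ← h5]
      refine z1.trans ?_
      calc C₁ * ‖φ z‖ ^ ((p : ℕ) + 1) ≤ |C₁| * (Kφ * ‖z‖) ^ ((p : ℕ) + 1) :=
            mul_le_mul (le_abs_self _) (pow_le_pow_left₀ (norm_nonneg _) z6 _) (by positivity)
              (abs_nonneg _)
        _ = |C₁| * Kφ ^ ((p : ℕ) + 1) * ‖z‖ ^ ((p : ℕ) + 1) := by rw [mul_pow]; ring
    intro q hq
    exact (jets_eq_iff hD0 hci ((p : ℕ) + 1)).2 h2 q (Nat.lt_succ_iff.2 hq)
  -- analyticity of the jets in `a`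
  have J3 : ∀ q : ℕ, AnalyticAt ℂ (fun a : ℂ => iteratedDeriv q (fun z => D (a, z)) 0) 0 := by
    intro q
    obtain ⟨Dq, hDq, he⟩ := cfam_par hD q
    have h2 : AnalyticAt ℂ (fun a : ℂ => Dq (a, 0)) 0 := by
      have h3 : AnalyticAt ℂ (fun a : ℂ => ((a, 0) : ℂ × ℂ)) 0 := analyticAt_id.prod analyticAt_const
      exact AnalyticAt.comp (g := Dq) (f := fun a : ℂ => ((a, 0) : ℂ × ℂ)) hDq h3
    refine h2.congr ?_
    filter_upwards [Eline.eventually he] with a ha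
    exact ha.symm
  obtain ⟨Bp, hBp0, np, hnp, hBp⟩ := cfam_lip (J3 p)
  refine ⟨fun a z => (A.ch j).symm (Bφ (a, z)),
    fun a q => iteratedDeriv q (fun z => D (a, z)) 0, Bp, ?_, ?_, ?_, ?_⟩
  · -- the germs
    have G1 : ∀ᶠ a in 𝓝 (0 : ℂ), ∀ᶠ z in 𝓝 (0 : ℂ), Bφ (a, z) ∈ (A.ch j).target ∧
        AnalyticAt ℂ φ z := (E1.and E2).curry_nhds
    have G2 : ∀ᶠ a in 𝓝 (0 : ℂ), (A.ch j).symm (Bφ (a, 0)) ∈ (A.ch i).source := by
      have h2 : Tendsto (A.ch j).symm (𝓝 (s 0)) (𝓝 (c 0)) := by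
        have h := (A.ch j).continuousAt_symm hst
        rwa [ContinuousAt, hsy] at h
      exact ((h2.comp (hBc.comp Eline)).eventually ((A.ch i).open_source.mem_nhds hi))
    have G3 : ∀ᶠ a in 𝓝 (0 : ℂ), ∀ᶠ z in 𝓝 (0 : ℂ), Bφ (a, ψ z) ∈ (A.ch j).target ∧
        φ (ψ z) = z := by
      have h2 : Tendsto (fun x : ℂ × ℂ => ((x.1, ψ x.2) : ℂ × ℂ)) (𝓝 (0, 0)) (𝓝 (0, 0)) := by
        have h3 : ContinuousAt (fun x : ℂ × ℂ => ψ x.2) (0, 0) :=
          ContinuousAt.comp (g := ψ) (f := fun x : ℂ × ℂ => x.2) hψ.continuousAt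
            continuous_snd.continuousAt
        have h4 : ContinuousAt (fun x : ℂ × ℂ => ((x.1, ψ x.2) : ℂ × ℂ)) (0, 0) :=
          continuous_fst.continuousAt.prodMk h3
        have h5 := h4.tendsto
        simp only [h0] at h5
        exact h5
      have h6 : Tendsto (fun x : ℂ × ℂ => x.2) (𝓝 (0, 0)) (𝓝 0) := continuous_snd.tendsto _
      exact ((h2.eventually E1).and (h6.eventually hφψ)).curry_nhds
    filter_upwards [G1, G2, G3] with a a1 a2 a3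
    have a1' := a1.self_of_nhds
    refine ⟨?_, a2, (A.ch j).map_target a1'.1, ?_, rfl⟩
    · filter_upwards [a1] with z hz
      have h2 : AnalyticAt ℂ (fun z => Bφ (a, z)) z := by
        have h3 : AnalyticAt ℂ (fun z : ℂ => ((a, z) : ℂ × ℂ)) z := analyticAt_const.prod analyticAt_id
        exact AnalyticAt.comp (g := Bφ) (f := fun z : ℂ => ((a, z) : ℂ × ℂ)) (hBan (a, z) hz.2) h3
      exact cfam_hol j h2 hz.1
    · funext q
      change iteratedDeriv q (fun z => A.ch j ((A.ch j).symm (Bφ (a, ψ z)))) 0 = _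
      have h2 : (fun z => A.ch j ((A.ch j).symm (Bφ (a, ψ z)))) =ᶠ[𝓝 0] cfP (s + a • w) := by
        filter_upwards [a3] with z hz
        rw [(A.ch j).right_inv hz.1]
        change cfP (s + a • w) (φ (ψ z)) = _
        rw [hz.2]
      rw [h2.iteratedDeriv_eq, cfam_jet]
  · -- entries below `p`
    have H1 : ∀ᶠ a in 𝓝 (0 : ℂ), ∀ᶠ z in 𝓝 (0 : ℂ), Bφ (a, z) ∈ N := E3.curry_nhds
    filter_upwards [H1, hDa] with a a1 a2 q hq
    rw [← J2 q hq.le]
    have h2 : ∃ C : ℝ, ∀ᶠ z in 𝓝 (0 : ℂ), ‖D (a, z) - D (0, z)‖ ≤ C * ‖z‖ ^ (p : ℕ) := by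
      refine ⟨L * (Kφ ^ (p : ℕ) * ‖a • e‖), ?_⟩
      filter_upwards [a1, (Evert 0).eventually E3, hKφ] with z z1 z2 z3
      refine (hL _ z1 _ z2).trans ?_
      rw [mul_assoc]
      refine mul_le_mul_of_nonneg_left ?_ hL0
      have h4 : Bφ (0, z) = cfP s (φ z) := by
        change cfP (s + (0 : ℂ) • w) (φ z) = _
        rw [zero_smul, add_zero]
      rw [h4]
      refine (cfam_diff_le s p e a (φ z)).trans ?_
      calc ‖φ z‖ ^ (p : ℕ) * ‖a • e‖ ≤ (Kφ * ‖z‖) ^ (p : ℕ) * ‖a • e‖ :=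
            mul_le_mul_of_nonneg_right (pow_le_pow_left₀ (norm_nonneg _) z3 _) (norm_nonneg _)
        _ = Kφ ^ (p : ℕ) * ‖a • e‖ * ‖z‖ ^ (p : ℕ) := by rw [mul_pow]; ring
    exact (jets_eq_iff a2 hD0 (p : ℕ)).2 h2 q hq
  · filter_upwards [hnp] with a ha
    have h2 := hBp a ha 0 (mem_of_mem_nhds hnp)
    rw [J2 p le_rfl, sub_zero] at h2
    exact h2
  · rw [continuousAt_pi]
    intro q
    exact (J3 q).continuousAt

end jets

end Pool.Agent.MBS

namespace Pool.Agent.MBS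
alias jets_family := jets_family_pr
end Pool.Agent.MBS
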