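import Pool.Agent.Lib_helper58.MBS.Base
import Pool.Agent.Lib_helper58.MBS.L.AORD
import Pool.Agent.Lib_helper58.MBS.L.CFAM

/-! # MBS block COCI: the order condition does not depend on the chart and the parametrisation -/

set_option autoImplicit false
set_option linter.unusedSectionVars false
set_option linter.unusedVariables false

open Filter Topology Metric Set

namespace Pool.Agent.MBS

open Pool.Agent.BR

section jets

variable {E X : Type} [NormedAddCommGroup E] [NormedSpace ℂ E] [FiniteDimensional ℂ E]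
  [MetricSpace X] [CompactSpace X] {A : Cha E X} {C : ℝ} {M : Set (ℂ → X)} {k m : ℕ}
  {P : (ℂ → X) → ℂ} {Q : A.ι → (Fin (k + 1) → E) → ℂ}

theorem coci_ger {d : ℂ → X} (hd : Ger A d) {ψ : ℂ → ℂ} (hψ : AnalyticAt ℂ ψ 0) (h0 : ψ 0 = 0) :
    Ger A (fun z => d (ψ z)) := by
  have h1 : Tendsto ψ (𝓝 0) (𝓝 0) := by
    have := hψ.continuousAt.tendsto
    rwa [h0] at this
  filter_upwards [h1.eventually hd, hψ.eventually_analyticAt] with z hz hz'
  refine ⟨ContinuousAt.comp (f := ψ) (x := z) hz.1 hz'.continuousAt, fun i hi => ?_⟩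
  have h2 : AnalyticAt ℂ (A.loc i d) (ψ z) := hz.2 i hi
  exact h2.comp (f := ψ) hz'

/-- the jet `t` with the entries of index `≤ p` replaced by those of `J` -/
noncomputable def cociT (p : Fin (k + 1)) (J t : Fin (k + 1) → E) : Fin (k + 1) → E :=
  fun q => if q ≤ p then J q else t q

theorem coci_an (p : Fin (k + 1)) (J : Fin (k + 1) → E) (x : E × (Fin (k + 1) → E)) :
    AnalyticAt ℂ (fun y : E × (Fin (k + 1) → E) =>
      cociT p J y.2 + (Pi.single p y.1 : Fin (k + 1) → E)) x := by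
  rw [analyticAt_pi_iff]
  intro q
  have h1 : AnalyticAt ℂ (fun y : E × (Fin (k + 1) → E) => cociT p J y.2 q) x := by
    unfold cociT
    by_cases hq : q ≤ p
    · simp only [hq, if_true]; exact analyticAt_const
    · simp only [hq, if_false]
      exact ((ContinuousLinearMap.proj (R := ℂ) (φ := fun _ : Fin (k + 1) => E) q).comp
        (ContinuousLinearMap.snd ℂ E (Fin (k + 1) → E))).analyticAt x
  have h2 : AnalyticAt ℂ (fun y : E × (Fin (k + 1) → E) =>
      (Pi.single p y.1 : Fin (k + 1) → E) q) x := by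
    by_cases hq : q = p
    · subst hq
      simp only [Pi.single_eq_same]
      exact (ContinuousLinearMap.fst ℂ E (Fin (k + 1) → E)).analyticAt x
    · simp only [Pi.single_eq_of_ne hq]
      exact analyticAt_const
  exact h1.add h2

theorem oc_inv_pr (hJ : JD A k m P Q) (p : Fin (k + 1)) (μ : ℕ) (i j : A.ι) {c : ℂ → X}
    (hc : Ger A c) (hi : c 0 ∈ (A.ch i).source) (hj : c 0 ∈ (A.ch j).source) {ψ : ℂ → ℂ}
    (hψ : AnalyticAt ℂ ψ 0) (h0 : ψ 0 = 0) (h1 : deriv ψ 0 ≠ 0) (h : OC A Q p μ i c) :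
    OC A Q p μ j (fun z => c (ψ z)) := by
  intro s hs e
  obtain ⟨d, S, B, hd1, hd2, hd3, hd4⟩ := jets_family i j hc hi hj hψ h0 h1 p s hs e
  -- analyticity of `a ↦ Q j (s + a e)`
  have hs0 : s 0 ∈ (A.ch j).target := by
    rw [hs 0 (Fin.zero_le p)]
    have : jt A k j (fun z => c (ψ z)) 0 = A.ch j (c 0) := by
      simp [jt, Cha.loc, h0]
    rw [this]
    exact (A.ch j).map_source hj
  have hJ0 : (jt A k i c) 0 ∈ (A.ch i).target := by
    have : jt A k i c 0 = A.ch i (c 0) := by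
      simp [jt, Cha.loc]
    rw [this]
    exact (A.ch i).map_source hi
  have hg : AnalyticAt ℂ (fun a : ℂ => Q j (s + a • (Pi.single p e : Fin (k + 1) → E))) 0 := by
    have h2 : AnalyticAt ℂ (fun a : ℂ => s + a • (Pi.single p e : Fin (k + 1) → E)) 0 :=
      analyticAt_const.add (analyticAt_id.smul analyticAt_const)
    have h3 : AnalyticAt ℂ (Q j) ((fun a : ℂ => s + a • (Pi.single p e : Fin (k + 1) → E)) 0) := by
      simp only [zero_smul, add_zero]
      exact hJ.an j s hs0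
    exact AnalyticAt.comp (g := Q j) (f := fun a : ℂ => s + a • (Pi.single p e : Fin (k + 1) → E))
      h3 h2
  -- the function `G`
  set J := jt A k i c with hJdef
  set G : E × (Fin (k + 1) → E) → ℂ :=
    fun y => Q i (cociT p J y.2 + (Pi.single p y.1 : Fin (k + 1) → E)) with hG
  have hGan : AnalyticAt ℂ G (0, S 0) := by
    have h3 : AnalyticAt ℂ (Q i) ((fun y : E × (Fin (k + 1) → E) =>
        cociT p J y.2 + (Pi.single p y.1 : Fin (k + 1) → E)) (0, S 0)) := by
      apply hJ.an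
      simp only [Pi.single_zero, add_zero, cociT, Fin.zero_le, if_true]
      exact hJ0
    exact AnalyticAt.comp (g := Q i) (f := fun y : E × (Fin (k + 1) → E) =>
      cociT p J y.2 + (Pi.single p y.1 : Fin (k + 1) → E)) h3 (coci_an p J (0, S 0))
  have hGoc : ∀ᶠ t in 𝓝 (S 0), ∀ e' : E, ∀ n < μ,
      iteratedDeriv n (fun a : ℂ => G (a • e', t)) 0 = 0 := by
    refine Eventually.of_forall fun t e' n hn => ?_
    have h2 := h (cociT p J t) (fun q hq => by simp [cociT, hq, hJdef]) e' n hn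
    have h3 : (fun a : ℂ => G (a • e', t)) =
        fun a : ℂ => Q i (cociT p J t + a • (Pi.single p e' : Fin (k + 1) → E)) := by
      funext a
      simp only [hG]
      rw [← Pi.single_smul]
    rw [h3]; exact h2
  obtain ⟨D, hD⟩ := ord_bound G (S 0) hGan μ hGoc
  -- the path
  have hv : Tendsto (fun a : ℂ => S a p - J p) (𝓝 0) (𝓝 0) := by
    rw [tendsto_zero_iff_norm_tendsto_zero]
    have hB : Tendsto (fun a : ℂ => B * ‖a‖) (𝓝 0) (𝓝 0) := by
      have : Tendsto (fun a : ℂ => B * ‖a‖) (𝓝 0) (𝓝 (B * ‖(0 : ℂ)‖)) :=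
        (continuous_const.mul continuous_norm).tendsto 0
      simpa using this
    exact squeeze_zero' (Eventually.of_forall fun a => norm_nonneg _) hd3 hB
  have hpath : Tendsto (fun a : ℂ => (S a p - J p, S a)) (𝓝 0) (𝓝 ((0 : E), S 0)) :=
    hv.prodMk_nhds hd4.tendsto
  have hbd : ∀ᶠ a in 𝓝 (0 : ℂ), ‖Q j (s + a • (Pi.single p e : Fin (k + 1) → E))‖ ≤
      (‖deriv ψ 0‖ ^ m * (|D| * |B| ^ μ)) * ‖a‖ ^ μ := by
    filter_upwards [hd1, hd2, hd3, hpath.eventually hD] with a ha1 ha2 ha3 ha4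
    obtain ⟨hger, hsi, hsj, hjj, hji⟩ := ha1
    have e1 : Q j (s + a • (Pi.single p e : Fin (k + 1) → E)) = P (fun z => d a (ψ z)) := by
      rw [← hjj]
      refine (hJ.eq j _ (coci_ger hger hψ h0) ?_).symm
      simp only [h0]; exact hsj
    have e2 : P (fun z => d a (ψ z)) = (deriv ψ 0) ^ m * P (d a) := hJ.inv (d a) hger ψ hψ h0
    have e3 : P (d a) = Q i (S a) := by
      rw [← hji]; exact hJ.eq i (d a) hger hsi
    have e4 : Q i (S a) = G (S a p - J p, S a) := by
      simp only [hG]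
      congr 1
      funext q
      by_cases hq : q = p
      · subst hq
        simp [cociT]
      · rw [Pi.add_apply, Pi.single_eq_of_ne hq, add_zero]
        unfold cociT
        by_cases hq' : q ≤ p
        · rw [if_pos hq']
          exact ha2 q (lt_of_le_of_ne hq' hq)
        · rw [if_neg hq']
    rw [e1, e2, e3, e4, norm_mul, norm_pow]
    have h5 : ‖G (S a p - J p, S a)‖ ≤ |D| * |B| ^ μ * ‖a‖ ^ μ := by
      have h6 : ‖S a p - J p‖ ≤ |B| * ‖a‖ :=
        ha3.trans (mul_le_mul_of_nonneg_right (le_abs_self B) (norm_nonneg a))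
      calc ‖G (S a p - J p, S a)‖ ≤ D * ‖S a p - J p‖ ^ μ := ha4
        _ ≤ |D| * ‖S a p - J p‖ ^ μ :=
          mul_le_mul_of_nonneg_right (le_abs_self D) (by positivity)
        _ ≤ |D| * (|B| * ‖a‖) ^ μ :=
          mul_le_mul_of_nonneg_left (pow_le_pow_left₀ (norm_nonneg _) h6 μ) (abs_nonneg D)
        _ = |D| * |B| ^ μ * ‖a‖ ^ μ := by rw [mul_pow]; ring
    calc ‖deriv ψ 0‖ ^ m * ‖G (S a p - J p, S a)‖
        ≤ ‖deriv ψ 0‖ ^ m * (|D| * |B| ^ μ * ‖a‖ ^ μ) :=
          mul_le_mul_of_nonneg_left h5 (by positivity)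
      _ = _ := by ring
  exact deriv_zero_of_bound hg hbd

end jets

end Pool.Agent.MBS

namespace Pool.Agent.MBS
alias oc_inv := oc_inv_pr
end Pool.Agent.MBS
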