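import Pool.Agent.Lib_helper58.MBS.Base
import Pool.Agent.Lib_helper58.MBS.L.COCI

set_option autoImplicit false
set_option linter.unusedSectionVars false
set_option linter.unusedVariables false

open Filter Topology Metric Set

namespace Pool.Agent.MBS

open Pool.Agent.BR

section jets

variable {E X : Type} [NormedAddCommGroup E] [NormedSpace ℂ E] [FiniteDimensional ℂ E]
  [MetricSpace X] [CompactSpace X] {A : Cha E X} {C : ℝ} {M : Set (ℂ → X)} {k m : ℕ}
  {P : (ℂ → X) → ℂ} {Q : A.ι → (Fin (k + 1) → E) → ℂ}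

/-- derivatives along a fixed direction -/
theorem cbad_dir {V : Type} [NormedAddCommGroup V] [NormedSpace ℂ V] {O : Set V} (hO : IsOpen O)
    (G : V → ℂ) (hG : ∀ t ∈ O, AnalyticAt ℂ G t) (v : V) (n : ℕ) :
    ∃ D : V → ℂ, (∀ t ∈ O, AnalyticAt ℂ D t) ∧ ∀ (t : V) (a : ℂ), t + a • v ∈ O →
      iteratedDeriv n (fun b : ℂ => G (t + b • v)) a = D (t + a • v) := by
  induction n with
  | zero => exact ⟨G, hG, fun t a _ => by rw [iteratedDeriv_zero]⟩
  | succ n ih =>
    obtain ⟨D, hD, hDe⟩ := ih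
    refine ⟨fun t => fderiv ℂ D t v, fun t ht => ?_, fun t a ha => ?_⟩
    · exact ((ContinuousLinearMap.apply ℂ ℂ v).analyticAt _).comp (hD t ht).fderiv
    · rw [iteratedDeriv_succ]
      have hcont : Continuous fun b : ℂ => t + b • v := by fun_prop
      have hev : ∀ᶠ b in 𝓝 a, t + b • v ∈ O := hcont.continuousAt.eventually (hO.mem_nhds ha)
      have heq : iteratedDeriv n (fun b : ℂ => G (t + b • v)) =ᶠ[𝓝 a]
          fun b => D (t + b • v) := hev.mono fun b hb => hDe t b hb
      rw [heq.deriv_eq]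
      have h1 : HasFDerivAt D (fderiv ℂ D (t + a • v)) (t + a • v) :=
        (hD _ ha).differentiableAt.hasFDerivAt
      have h2 : HasDerivAt (fun b : ℂ => t + b • v) v a := by
        have h3 := ((hasDerivAt_id a).smul_const v).const_add t
        simpa using h3
      exact (h1.comp_hasDerivAt a h2).deriv

/-- a set without accumulation points is closed and countable -/
theorem cbad_count {S : Set ℂ} (h : ∀ z, ∀ᶠ w in 𝓝[≠] z, w ∉ S) :
    IsClosed S ∧ S.Countable := by
  constructor
  · rw [← isOpen_compl_iff, isOpen_iff_mem_nhds]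
    intro z hz
    have h1 := h z
    rw [eventually_nhdsWithin_iff] at h1
    filter_upwards [h1] with w hw
    by_cases hwz : w = z
    · rw [hwz]
      exact hz
    · exact hw hwz
  · refine (HereditarilyLindelofSpace.isLindelof S).countable_of_isDiscrete ?_
    rw [isDiscrete_iff_nhdsNE]
    intro z _
    rw [← disjoint_iff, Filter.disjoint_principal_right]
    exact h z

/-- CBAD: the bad points of a member -/
theorem bad_set_pr (hM : Min A C M) (hJ : JD A k m P Q) (p : Fin (k + 1)) (μ : ℕ) {f : ℂ → X}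
    (hf : f ∈ M) (h : ∃ z i, f z ∈ (A.ch i).source ∧ ¬ OC A Q p μ i (tr z f)) :
    ∃ B : Set ℂ, IsClosed B ∧ B.Countable ∧
      ∀ z ∉ B, ∀ i, f z ∈ (A.ch i).source → ¬ OC A Q p μ i (tr z f) := by
  classical
  have : CompleteSpace E := FiniteDimensional.complete ℂ E
  have hfB : f ∈ BF A C := hM.sub hf
  set Bad : Set ℂ := {z | ∃ i, f z ∈ (A.ch i).source ∧ OC A Q p μ i (tr z f)} with hBad
  -- independence of the chart
  have hind : ∀ z i j, f z ∈ (A.ch i).source → f z ∈ (A.ch j).source →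
      OC A Q p μ i (tr z f) → OC A Q p μ j (tr z f) := by
    intro z i j hi hj ho
    have hi' : (tr z f) 0 ∈ (A.ch i).source := by
      show f (0 + z) ∈ (A.ch i).source
      rw [zero_add]
      exact hi
    have hj' : (tr z f) 0 ∈ (A.ch j).source := by
      show f (0 + z) ∈ (A.ch j).source
      rw [zero_add]
      exact hj
    have h1 := oc_inv hJ p μ i j (ger_tr hfB z) hi' hj' (ψ := fun w => w) analyticAt_id rfl
      (by rw [deriv_id'']; exact one_ne_zero) ho
    exact h1
  -- local dichotomy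
  have hloc : ∀ z₀, (∃ᶠ z in 𝓝[≠] z₀, z ∈ Bad) → ∃ r > 0, ball z₀ r ⊆ Bad := by
    intro z₀ hfr
    obtain ⟨i, hi⟩ := A.cover (f z₀)
    have hi : f z₀ ∈ (A.ch i).source := A.W_sub i (subset_closure hi)
    have hcont : ContinuousAt f z₀ := (hfB.1 z₀).1
    have hev : ∀ᶠ z in 𝓝 z₀, f z ∈ (A.ch i).source :=
      hcont.eventually ((A.ch i).open_source.mem_nhds hi)
    obtain ⟨r, hr, hball⟩ := Metric.eventually_nhds_iff_ball.mp hev
    refine ⟨r, hr, fun z₁ hz₁ => ⟨i, hball z₁ hz₁, ?_⟩⟩
    intro s hs e n hn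
    set S : ℂ → Fin (k + 1) → E := fun z q =>
      if q ≤ p then iteratedDeriv q (A.loc i f) z else s q with hS
    have hO : IsOpen {t : Fin (k + 1) → E | t 0 ∈ (A.ch i).target} :=
      (A.ch i).open_target.preimage (continuous_apply 0)
    obtain ⟨D, hD, hDe⟩ := cbad_dir hO (Q i) (hJ.an i) (Pi.single p e : Fin (k + 1) → E) n
    have hDe0 : ∀ t : Fin (k + 1) → E, t 0 ∈ (A.ch i).target →
        iteratedDeriv n (fun a : ℂ => Q i (t + a • (Pi.single p e : Fin (k + 1) → E))) 0 =
          D t := by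
      intro t ht
      have h0 : t + (0 : ℂ) • (Pi.single p e : Fin (k + 1) → E) = t := by
        rw [zero_smul, add_zero]
      have := hDe t 0 (by rw [h0]; exact ht)
      rw [h0] at this
      exact this
    have hS0 : ∀ z ∈ ball z₀ r, S z 0 ∈ (A.ch i).target := by
      intro z hz
      rw [hS]
      show (if (0 : Fin (k + 1)) ≤ p then
        iteratedDeriv ((0 : Fin (k + 1)) : ℕ) (A.loc i f) z else s 0) ∈ (A.ch i).target
      rw [if_pos (Fin.zero_le p)]
      show iteratedDeriv 0 (A.loc i f) z ∈ (A.ch i).target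
      rw [iteratedDeriv_zero]
      exact (A.ch i).map_source (hball z hz)
    have hSan : ∀ z ∈ ball z₀ r, AnalyticAt ℂ S z := by
      intro z hz
      rw [hS]
      refine AnalyticAt.pi fun q => ?_
      by_cases hq : q ≤ p
      · simp only [hq, if_true]
        have h1 : AnalyticAt ℂ (A.loc i f) z := (hfB.1 z).2 i (hball z hz)
        rw [iteratedDeriv_eq_iterate]
        exact h1.iterated_deriv q
      · simp only [hq, if_false]
        exact analyticAt_const
    have hGan : AnalyticOnNhd ℂ (fun z => D (S z)) (ball z₀ r) := by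
      intro z hz
      exact AnalyticAt.comp (hD _ (hS0 z hz)) (hSan z hz)
    have hzero : ∃ᶠ z in 𝓝[≠] z₀, D (S z) = 0 := by
      have h1 : ∀ᶠ z in 𝓝[≠] z₀, z ∈ ball z₀ r :=
        nhdsWithin_le_nhds (ball_mem_nhds z₀ hr)
      refine (hfr.and_eventually h1).mono ?_
      rintro z ⟨⟨j, hj, hoc⟩, hz⟩
      have hoc' := hind z j i hj (hball z hz) hoc
      rw [← hDe0 (S z) (hS0 z hz)]
      refine hoc' (S z) ?_ e n hn
      intro q hq
      rw [hS]
      show (if q ≤ p then iteratedDeriv (q : ℕ) (A.loc i f) z else s q) = jt A k i (tr z f) q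
      rw [if_pos hq]
      exact (jet_tr i f z q).symm
    have hEq := hGan.eqOn_zero_of_preconnected_of_frequently_eq_zero
      (convex_ball z₀ r).isPreconnected (mem_ball_self hr) hzero
    have h2 := hEq hz₁
    have h3 : S z₁ = s := by
      funext q
      rw [hS]
      show (if q ≤ p then iteratedDeriv (q : ℕ) (A.loc i f) z₁ else s q) = s q
      by_cases hq : q ≤ p
      · rw [if_pos hq, hs q hq]
        exact (jet_tr i f z₁ q).symm
      · rw [if_neg hq]
    rw [hDe0 s (by rw [← h3]; exact hS0 z₁ hz₁), ← h3]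
    exact h2
  -- accumulation points
  set Acc : Set ℂ := {z₀ | ∃ᶠ z in 𝓝[≠] z₀, z ∈ Bad} with hAcc
  have hopen : IsOpen Acc := by
    rw [Metric.isOpen_iff]
    intro z₀ hz₀
    obtain ⟨r, hr, hb⟩ := hloc z₀ hz₀
    refine ⟨r, hr, fun z₁ hz₁ => ?_⟩
    have h1 : ∀ᶠ z in 𝓝[≠] z₁, z ∈ Bad := by
      have h2 : ball z₀ r ∈ 𝓝 z₁ := isOpen_ball.mem_nhds hz₁
      exact nhdsWithin_le_nhds (mem_of_superset h2 hb)
    exact h1.frequently
  have hclosed : IsClosed Acc := by
    rw [← isOpen_compl_iff, isOpen_iff_mem_nhds]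
    intro z₀ hz₀
    have h1 : ∀ᶠ z in 𝓝[≠] z₀, z ∉ Bad := by
      have h2 : ¬ ∃ᶠ z in 𝓝[≠] z₀, z ∈ Bad := hz₀
      rw [Filter.not_frequently] at h2
      exact h2
    have h3 := eventually_eventually_nhdsWithin.mpr h1
    have h4 : ∀ᶠ z in 𝓝[≠] z₀, z ∈ Accᶜ := by
      filter_upwards [h3, self_mem_nhdsWithin] with z hz hne
      show ¬ ∃ᶠ w in 𝓝[≠] z, w ∈ Bad
      rw [Filter.not_frequently]
      rw [isOpen_compl_singleton.nhdsWithin_eq hne] at hz
      exact hz.filter_mono nhdsWithin_le_nhds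
    rw [eventually_nhdsWithin_iff] at h4
    filter_upwards [h4] with z hz
    by_cases hzz : z = z₀
    · rw [hzz]
      exact hz₀
    · exact hz hzz
  have hempty : Acc = ∅ := by
    rcases isClopen_iff.mp ⟨hclosed, hopen⟩ with h1 | h1
    · exact h1
    · exfalso
      obtain ⟨z, i, hi, hno⟩ := h
      have hz : z ∈ Acc := by rw [h1]; exact mem_univ z
      obtain ⟨r, hr, hb⟩ := hloc z hz
      obtain ⟨j, hj, hoc⟩ := hb (mem_ball_self hr)
      exact hno (hind z j i hj hi hoc)
  have hfin := cbad_count (S := Bad) (by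
    intro z
    have h1 : z ∉ Acc := by rw [hempty]; exact notMem_empty z
    have h2 : ¬ ∃ᶠ w in 𝓝[≠] z, w ∈ Bad := h1
    rw [Filter.not_frequently] at h2
    exact h2)
  refine ⟨Bad, hfin.1, hfin.2, ?_⟩
  intro z hz i hi hoc
  exact hz ⟨i, hi, hoc⟩

end jets


end Pool.Agent.MBS

namespace Pool.Agent.MBS
alias bad_set := bad_set_pr
end Pool.Agent.MBS
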