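import Pool.Agent.Lib_helper58.MBS.Base

set_option autoImplicit false
set_option linter.unusedSectionVars false
set_option linter.unusedVariables false

open Filter Topology Metric Set

namespace Pool.Agent.MBS

open Pool.Agent.BR

section jets

variable {E X : Type} [NormedAddCommGroup E] [NormedSpace ℂ E] [FiniteDimensional ℂ E]
  [MetricSpace X] [CompactSpace X] {A : Cha E X} {C : ℝ} {M : Set (ℂ → X)} {k m : ℕ}
  {P : (ℂ → X) → ℂ} {Q : A.ι → (Fin (k + 1) → E) → ℂ}

/-- CRPG: reparametrised germs are germs, and can be reparametrised again -/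
theorem rp_ger_pr (hM : M ⊆ BF A C) {c : ℂ → X} (hc : c ∈ Rp M) : Ger A c := by
  obtain ⟨h, hh, χ, hχ, -, rfl⟩ := hc
  have hh' := (hM hh).1
  unfold Ger
  filter_upwards [hχ.eventually_analyticAt] with z hz
  refine ⟨ContinuousAt.comp (f := χ) (g := h) (x := z) (hh' (χ z)).1 hz.continuousAt,
    fun i hi => ?_⟩
  have h2 : AnalyticAt ℂ (A.loc i h) (χ z) := (hh' (χ z)).2 i hi
  exact AnalyticAt.comp (f := χ) (g := A.loc i h) (x := z) h2 hz

theorem rp_comp_pr {c : ℂ → X} (hc : c ∈ Rp M) {ψ : ℂ → ℂ} (hψ : AnalyticAt ℂ ψ 0) (h0 : ψ 0 = 0)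
    (h1 : deriv ψ 0 ≠ 0) : (fun z => c (ψ z)) ∈ Rp M := by
  obtain ⟨h, hh, χ, hχ, hd, rfl⟩ := hc
  have hχ' : AnalyticAt ℂ χ (ψ 0) := by rw [h0]; exact hχ
  refine ⟨h, hh, fun z => χ (ψ z), AnalyticAt.comp (f := ψ) (g := χ) (x := 0) hχ' hψ, ?_, rfl⟩
  have h2 : HasDerivAt (fun z => χ (ψ z)) (deriv χ (ψ 0) * deriv ψ 0) 0 :=
    HasDerivAt.comp (0 : ℂ) hχ'.differentiableAt.hasDerivAt hψ.differentiableAt.hasDerivAt
  rw [h2.deriv, h0]
  exact mul_ne_zero hd h1

/-- the polynomial with the given derivatives at the origin -/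
noncomputable def cger_pol (n : ℕ) (a : ℕ → E) (z : ℂ) : E :=
  ∑ q ∈ Finset.range n, (z ^ q / (q.factorial : ℂ)) • a q

theorem cger_deriv (N : ℕ) (a : ℕ → E) (ha : a (N + 1) = 0) (z : ℂ) :
    HasDerivAt (cger_pol (N + 1) a) (cger_pol (N + 1) (fun q => a (q + 1)) z) z := by
  have h1 : ∀ q ∈ Finset.range (N + 1), HasDerivAt (fun z : ℂ => (z ^ q / (q.factorial : ℂ)) • a q)
      (((q : ℂ) * z ^ (q - 1) / (q.factorial : ℂ)) • a q) z := by
    intro q _
    exact ((hasDerivAt_pow q z).div_const _).smul_const (a q)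
  have h2 := HasDerivAt.fun_sum h1
  have h3 : ∑ q ∈ Finset.range (N + 1), (((q : ℂ) * z ^ (q - 1) / (q.factorial : ℂ)) • a q) =
      cger_pol (N + 1) (fun q => a (q + 1)) z := by
    unfold cger_pol
    rw [Finset.sum_range_succ', Finset.sum_range_succ (fun q =>
      (z ^ q / (q.factorial : ℂ)) • a (q + 1)) N, ha, smul_zero, add_zero]
    simp only [Nat.cast_zero, zero_mul, zero_div, zero_smul, add_zero]
    refine Finset.sum_congr rfl fun q _ => ?_
    congr 1
    rw [Nat.add_sub_cancel, Nat.factorial_succ]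
    push_cast
    have h4 : ((q : ℂ) + 1) ≠ 0 := by exact_mod_cast Nat.succ_ne_zero q
    have h5 : (q.factorial : ℂ) ≠ 0 := by exact_mod_cast Nat.factorial_ne_zero q
    field_simp
  rw [← h3]
  exact h2

theorem cger_iter (N : ℕ) (r : ℕ) : ∀ a : ℕ → E, (∀ q, N < q → a q = 0) →
    iteratedDeriv r (cger_pol (N + 1) a) 0 = a r := by
  induction r with
  | zero =>
    intro a ha
    rw [iteratedDeriv_zero]
    unfold cger_pol
    rw [Finset.sum_range_succ']
    simp
  | succ r ih =>
    intro a ha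
    rw [iteratedDeriv_succ']
    have h1 : deriv (cger_pol (N + 1) a) = cger_pol (N + 1) (fun q => a (q + 1)) := by
      funext z
      exact (cger_deriv N a (ha (N + 1) (Nat.lt_succ_self N)) z).deriv
    rw [h1]
    exact ih (fun q => a (q + 1)) (fun q hq => ha (q + 1) (by omega))

theorem cger_an (n : ℕ) (a : ℕ → E) (z : ℂ) : AnalyticAt ℂ (cger_pol n a) z := by
  have h1 : Differentiable ℂ (cger_pol n a) := by
    unfold cger_pol
    fun_prop
  exact h1.analyticAt z

/-- CREA: every jet in a chart is the jet of a polynomial germ -/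
theorem exists_germ_pr (i : A.ι) (s : Fin (k + 1) → E) (hs : s 0 ∈ (A.ch i).target) :
    ∃ c : ℂ → X, Ger A c ∧ c 0 ∈ (A.ch i).source ∧ jt A k i c = s := by
  classical
  let a : ℕ → E := fun q => if h : q < k + 1 then s ⟨q, h⟩ else 0
  have ha0 : a 0 = s 0 := by
    simp [a]
  have haz : ∀ q, k < q → a q = 0 := by
    intro q hq
    simp only [a]
    rw [dif_neg (by omega)]
  set p : ℂ → E := cger_pol (k + 1) a with hp
  have hp0 : p 0 = s 0 := by
    have := cger_iter k 0 a haz
    rw [iteratedDeriv_zero] at this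
    rw [hp, this, ha0]
  have hpa : ∀ z, AnalyticAt ℂ p z := fun z => cger_an (k + 1) a z
  have hev : ∀ᶠ z in 𝓝 (0 : ℂ), p z ∈ (A.ch i).target := by
    refine (hpa 0).continuousAt.eventually ((A.ch i).open_target.mem_nhds ?_)
    rw [hp0]
    exact hs
  refine ⟨fun z => (A.ch i).symm (p z), ?_, ?_, ?_⟩
  · unfold Ger
    filter_upwards [hev] with z hz
    refine ⟨?_, fun j hj => ?_⟩
    · exact ContinuousAt.comp (f := p) (g := (A.ch i).symm) (x := z)
        ((A.ch i).continuousAt_symm hz) (hpa z).continuousAt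
    · have h1 : (A.ch i).symm (p z) ∈ (A.ch i).source := (A.ch i).map_target hz
      have h2 := A.trans i j _ h1 hj
      rw [(A.ch i).right_inv hz] at h2
      exact AnalyticAt.comp (f := p) (g := fun ξ => A.ch j ((A.ch i).symm ξ)) (x := z) h2 (hpa z)
  · have h1 : p 0 ∈ (A.ch i).target := by rw [hp0]; exact hs
    exact (A.ch i).map_target h1
  · funext q
    have h1 : A.loc i (fun z => (A.ch i).symm (p z)) =ᶠ[𝓝 0] p :=
      hev.mono fun z hz => (A.ch i).right_inv hz
    unfold jt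
    rw [h1.iteratedDeriv_eq, hp, cger_iter k q a haz]
    simp only [a]
    rw [dif_pos q.isLt]

end jets


end Pool.Agent.MBS

namespace Pool.Agent.MBS
alias rp_ger := rp_ger_pr
alias rp_comp := rp_comp_pr
alias exists_germ := exists_germ_pr
end Pool.Agent.MBS
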