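import Pool.Agent.Lib_helper58.MBS.Base
import Pool.Agent.Lib_helper58.MBS.L.BJET

set_option autoImplicit false
set_option linter.unusedSectionVars false
set_option linter.unusedVariables false

open Filter Topology Metric Set

namespace Pool.Agent.MBS

open Pool.Agent.BR

section jets

variable {E X : Type} [NormedAddCommGroup E] [NormedSpace ℂ E] [FiniteDimensional ℂ E]
  [MetricSpace X] [CompactSpace X] {A : Cha E X} {C : ℝ} {M : Set (ℂ → X)} {k m : ℕ}
  {P : (ℂ → X) → ℂ} {Q : A.ι → (Fin (k + 1) → E) → ℂ}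

theorem cocl_dir {V : Type} [NormedAddCommGroup V] [NormedSpace ℂ V] {O : Set V} (hO : IsOpen O)
    (G : V → ℂ) (hG : ∀ t ∈ O, AnalyticAt ℂ G t) (v : V) (n : ℕ) :
    ∃ D : V → ℂ, (∀ t ∈ O, AnalyticAt ℂ D t) ∧ ∀ (t : V) (a : ℂ), t + a • v ∈ O →
      iteratedDeriv n (fun b : ℂ => G (t + b • v)) a = D (t + a • v) := by
  induction n with
  | zero => exact ⟨G, hG, fun t a _ => by rw [iteratedDeriv_zero]⟩
  | succ n ih =>
    obtain ⟨D, hD, hDe⟩ := ih
    refine ⟨fun t => fderiv ℂ D t v, fun t ht => ?_, fun t a ha => ?_⟩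
    · exact ((ContinuousLinearMap.apply ℂ ℂ v).analyticAt _).comp (hD t ht).fderiv
    · rw [iteratedDeriv_succ]
      have hcont : Continuous fun b : ℂ => t + b • v := by fun_prop
      have hev : ∀ᶠ b in 𝓝 a, t + b • v ∈ O := hcont.continuousAt.eventually (hO.mem_nhds ha)
      have heq : iteratedDeriv n (fun b : ℂ => G (t + b • v)) =ᶠ[𝓝 a]
          fun b => D (t + b • v) := hev.mono fun b hb => hDe t b hb
      rw [heq.deriv_eq]
      have h1 : HasFDerivAt D (fderiv ℂ D (t + a • v)) (t + a • v) :=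
        (hD _ ha).differentiableAt.hasFDerivAt
      have h2 : HasDerivAt (fun b : ℂ => t + b • v) v a := by
        have h3 := ((hasDerivAt_id a).smul_const v).const_add t
        simpa using h3
      exact (h1.comp_hasDerivAt a h2).deriv

/-- COCL: the order condition is closed -/
theorem oc_closed_pr (hM : Min A C M) (hJ : JD A k m P Q) (p : Fin (k + 1)) (μ : ℕ) :
    IsClosed {f | f ∈ M ∧ ∀ z i, f z ∈ (A.ch i).source → OC A Q p μ i (tr z f)} := by
  classical
  rw [isClosed_iff_ultrafilter]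
  intro f U hU hS
  have hlim : Tendsto (fun g : ℂ → X => g) (U : Filter (ℂ → X)) (𝓝 f) := hU
  have hS' : ∀ᶠ g in (U : Filter (ℂ → X)),
      g ∈ M ∧ ∀ z i, g z ∈ (A.ch i).source → OC A Q p μ i (tr z g) := hS
  have hgM : ∀ᶠ g in (U : Filter (ℂ → X)), g ∈ M := hS'.mono fun g hg => hg.1
  have hfM : f ∈ M := hM.closed.mem_of_tendsto hlim hgM
  refine ⟨hfM, fun z i hi s hs e n hn => ?_⟩
  have hgB : ∀ᶠ g in (U : Filter (ℂ → X)), g ∈ BF A C := hgM.mono fun g hg => hM.sub hg
  have hO : IsOpen {t : Fin (k + 1) → E | t 0 ∈ (A.ch i).target} :=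
    (A.ch i).open_target.preimage (continuous_apply 0)
  obtain ⟨D, hD, hDe⟩ := cocl_dir hO (Q i) (hJ.an i) (Pi.single p e : Fin (k + 1) → E) n
  have hDe0 : ∀ t : Fin (k + 1) → E, t 0 ∈ (A.ch i).target →
      iteratedDeriv n (fun a : ℂ => Q i (t + a • (Pi.single p e : Fin (k + 1) → E))) 0 = D t := by
    intro t ht
    have h0 : t + (0 : ℂ) • (Pi.single p e : Fin (k + 1) → E) = t := by
      rw [zero_smul, add_zero]
    have := hDe t 0 (by rw [h0]; exact ht)
    rw [h0] at this
    exact this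
  have hs0 : s 0 ∈ (A.ch i).target := by
    rw [hs 0 (Fin.zero_le p)]
    have : jt A k i (tr z f) 0 = A.ch i (f z) := by
      simp [jt, Cha.loc, tr]
    rw [this]
    exact (A.ch i).map_source hi
  rw [hDe0 s hs0]
  -- the approximating jets
  let S : (ℂ → X) → Fin (k + 1) → E := fun g q => if q ≤ p then jt A k i (tr z g) q else s q
  have hSlim : Tendsto S (U : Filter (ℂ → X)) (𝓝 s) := by
    rw [tendsto_pi_nhds]
    intro q
    by_cases hq : q ≤ p
    · have h1 : (fun g : ℂ → X => S g q) = fun g => iteratedDeriv q (A.loc i g) z := by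
        funext g
        simp only [S, if_pos hq]
        exact jet_tr i g z q
      rw [h1, hs q hq]
      have h2 : jt A k i (tr z f) q = iteratedDeriv q (A.loc i f) z := jet_tr i f z q
      rw [h2]
      exact bf_jet hgB (hM.sub hfM) hlim tendsto_const_nhds i hi q
    · have h1 : (fun g : ℂ → X => S g q) = fun _ => s q := by
        funext g
        simp only [S, if_neg hq]
      rw [h1]
      exact tendsto_const_nhds
  have hDlim : Tendsto (fun g => D (S g)) (U : Filter (ℂ → X)) (𝓝 (D s)) :=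
    (hD s hs0).continuousAt.tendsto.comp hSlim
  have hev : ∀ᶠ g in (U : Filter (ℂ → X)), D (S g) = 0 := by
    have h3 : ∀ᶠ g in (U : Filter (ℂ → X)), S g 0 ∈ (A.ch i).target := by
      have h4 := hSlim.eventually (hO.mem_nhds hs0)
      exact h4
    have h5 : ∀ᶠ g in (U : Filter (ℂ → X)), g z ∈ (A.ch i).source := by
      have h6 : Tendsto (fun g : ℂ → X => g z) (U : Filter (ℂ → X)) (𝓝 (f z)) :=
        ((continuous_apply z).tendsto f).comp hlim
      exact h6.eventually ((A.ch i).open_source.mem_nhds hi)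
    filter_upwards [hS', h3, h5] with g hg h3 h5
    rw [← hDe0 (S g) h3]
    refine hg.2 z i h5 (S g) ?_ e n hn
    intro q hq
    simp only [S, if_pos hq]
  have h7 : Tendsto (fun g => D (S g)) (U : Filter (ℂ → X)) (𝓝 0) :=
    (tendsto_congr' hev).2 tendsto_const_nhds
  exact tendsto_nhds_unique hDlim h7

end jets


end Pool.Agent.MBS

namespace Pool.Agent.MBS
alias oc_closed := oc_closed_pr
end Pool.Agent.MBS
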