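import Pool.Agent.Lib_helper58.MBS.Base
import Pool.Agent.Lib_helper58.MBS.L.BVIS
import Pool.Agent.Lib_helper58.MBS.L.COCL

set_option autoImplicit false
set_option linter.unusedSectionVars false
set_option linter.unusedVariables false

open Filter Topology Metric Set

namespace Pool.Agent.MBS

open Pool.Agent.BR

section jets

variable {E X : Type} [NormedAddCommGroup E] [NormedSpace ℂ E] [FiniteDimensional ℂ E]
  [MetricSpace X] [CompactSpace X] {A : Cha E X} {C : ℝ} {M : Set (ℂ → X)} {k m : ℕ}
  {P : (ℂ → X) → ℂ} {Q : A.ι → (Fin (k + 1) → E) → ℂ}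

theorem cord_tr_tr (z w : ℂ) (g : ℂ → X) : tr z (tr w g) = tr (z + w) g := by
  funext u
  simp only [tr]
  congr 1
  ring

theorem cord_jt0 (i : A.ι) (z : ℂ) (f : ℂ → X) : jt A k i (tr z f) 0 = A.ch i (f z) := by
  simp [jt, Cha.loc, tr]

theorem cord_jt (i : A.ι) (z : ℂ) (f : ℂ → X) (q : Fin (k + 1)) :
    jt A k i (tr z f) q = iteratedDeriv q (A.loc i f) z :=
  jet_tr i f z q

theorem cord_zero {g : ℂ → ℂ} {U : Set ℂ} (hU : IsPreconnected U) (h0 : (0 : ℂ) ∈ U)
    (hg : AnalyticOnNhd ℂ g U) (h : ∀ n, iteratedDeriv n g 0 = 0) {a : ℂ} (ha : a ∈ U) :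
    g a = 0 := by
  have h1 := (hg 0 h0).hasFPowerSeriesAt
  have h2 : (FormalMultilinearSeries.ofScalars ℂ
      (fun n => iteratedDeriv n g 0 / (n.factorial : ℂ)) : FormalMultilinearSeries ℂ ℂ ℂ) = 0 := by
    have : (fun n => iteratedDeriv n g 0 / (n.factorial : ℂ)) = fun _ => 0 := by
      funext n
      rw [h n, zero_div]
    rw [this]
    ext n
    simp [FormalMultilinearSeries.ofScalars]
  rw [h2] at h1
  have h3 : g =ᶠ[𝓝 0] 0 := HasFPowerSeriesAt.eventually_eq_zero h1
  exact hg.eqOn_zero_of_preconnected_of_eventuallyEq_zero hU h0 h3 ha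

/-- CORD: the order `μ` -/
theorem exists_order_pr (hM : Min A C M) (hJ : JD A k m P Q) (p : Fin (k + 1))
    (h1 : ∀ f ∈ M, ∃ z, ¬ Zp A Q p f z) (h2 : ∀ f ∈ M, ∀ z, Zp A Q (p + 1) f z) :
    ∃ μ : ℕ, 0 < μ ∧ (∀ f ∈ M, ∀ z i, f z ∈ (A.ch i).source → OC A Q p μ i (tr z f)) ∧
      ∀ f ∈ M, ∃ z i, f z ∈ (A.ch i).source ∧ ¬ OC A Q p (μ + 1) i (tr z f) := by
  classical
  -- the dichotomy
  have hd : ∀ μ : ℕ, (∀ f ∈ M, ∀ z i, f z ∈ (A.ch i).source → OC A Q p μ i (tr z f)) ∨
      ∀ f ∈ M, ¬ ∀ z i, f z ∈ (A.ch i).source → OC A Q p μ i (tr z f) := by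
    intro μ
    refine min_dich hM (fun f => ∀ z i, f z ∈ (A.ch i).source → OC A Q p μ i (tr z f))
      (oc_closed hM hJ p μ) ?_
    intro g hg h w z i hi
    rw [cord_tr_tr]
    exact h (z + w) i hi
  -- not all orders
  have hex : ∃ μ : ℕ, ¬ ∀ f ∈ M, ∀ z i, f z ∈ (A.ch i).source → OC A Q p μ i (tr z f) := by
    by_contra hcon
    push Not at hcon
    obtain ⟨f, hf⟩ := hM.ne
    obtain ⟨z, hz⟩ := h1 f hf
    have hall : ∀ i, f z ∈ (A.ch i).source → ∀ s : Fin (k + 1) → E,
        (∀ q ≤ p, s q = jt A k i (tr z f) q) → ∀ e : E, ∀ n,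
        iteratedDeriv n (fun a : ℂ => Q i (s + a • (Pi.single p e : Fin (k + 1) → E))) 0 = 0 := by
      intro i hi s hs e n
      exact hcon (n + 1) f hf z i hi s hs e n (Nat.lt_succ_self n)
    have hline : ∀ (i : A.ι) (s : Fin (k + 1) → E) (e : E) (a : ℂ),
        (s + a • (Pi.single p e : Fin (k + 1) → E)) 0 ∈ (A.ch i).target →
        AnalyticAt ℂ (fun a : ℂ => Q i (s + a • (Pi.single p e : Fin (k + 1) → E))) a := by
      intro i s e a h
      have h3 := hJ.an i _ h
      have h4 : AnalyticAt ℂ (fun a : ℂ => s + a • (Pi.single p e : Fin (k + 1) → E)) a :=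
        analyticAt_const.add (analyticAt_id.smul analyticAt_const)
      exact AnalyticAt.comp (f := fun a : ℂ => s + a • (Pi.single p e : Fin (k + 1) → E))
        (g := Q i) (x := a) h3 h4
    by_cases hp : p = 0
    · -- the level zero
      have hz' : ∃ i, f z ∈ (A.ch i).source := by
        obtain ⟨i, hi⟩ := A.cover (f z)
        exact ⟨i, A.W_sub i (subset_closure hi)⟩
      obtain ⟨i, hi⟩ := hz'
      have hti : A.ch i (f z) ∈ (A.ch i).target := (A.ch i).map_source hi
      obtain ⟨r, hr, hball⟩ := Metric.isOpen_iff.1 (A.ch i).open_target _ hti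
      have hvan : ∀ s : Fin (k + 1) → E, s 0 ∈ ball (A.ch i (f z)) r → Q i s = 0 := by
        intro s hs
        set e : E := s 0 - A.ch i (f z) with he
        set s' : Fin (k + 1) → E := s - (Pi.single p e : Fin (k + 1) → E) with hs'
        have hs'0 : s' 0 = A.ch i (f z) := by
          rw [hs', hp]
          simp [he]
        have hmatch : ∀ q ≤ p, s' q = jt A k i (tr z f) q := by
          intro q hq
          rw [hp] at hq
          have hq0 : q = 0 := le_antisymm hq (Fin.zero_le q)
          rw [hq0, hs'0, cord_jt0]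
        have hmem0 : ∀ a : ℂ, (s' + a • (Pi.single p e : Fin (k + 1) → E)) 0 =
            A.ch i (f z) + a • e := by
          intro a
          rw [Pi.add_apply, hs'0, Pi.smul_apply, hp, Pi.single_eq_same]
        let U : Set ℂ := {a : ℂ | ‖a • e‖ < r}
        have hU : IsPreconnected U := by
          have hc : Convex ℝ U := by
            intro a ha b hb x y hx hy hxy
            have ha' : ‖a‖ * ‖e‖ < r := by
              have := ha
              simp only [U, Set.mem_ofPred_eq, norm_smul] at this
              exact this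
            have hb' : ‖b‖ * ‖e‖ < r := by
              have := hb
              simp only [U, Set.mem_ofPred_eq, norm_smul] at this
              exact this
            simp only [U, Set.mem_ofPred_eq, norm_smul]
            have h5 : ‖x • a + y • b‖ ≤ x * ‖a‖ + y * ‖b‖ := by
              refine (norm_add_le _ _).trans ?_
              rw [norm_smul, norm_smul, Real.norm_of_nonneg hx, Real.norm_of_nonneg hy]
            have h6 : ‖x • a + y • b‖ * ‖e‖ ≤ x * (‖a‖ * ‖e‖) + y * (‖b‖ * ‖e‖) := by
              nlinarith [norm_nonneg e]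
            refine lt_of_le_of_lt h6 ?_
            rcases lt_or_eq_of_le hx with hx' | hx'
            · nlinarith
            · have hy1 : y = 1 := by linarith
              rw [← hx', hy1]
              linarith
          exact hc.isPreconnected
        have h0U : (0 : ℂ) ∈ U := by
          simp only [U, Set.mem_ofPred_eq, zero_smul, norm_zero]
          exact hr
        have h1U : (1 : ℂ) ∈ U := by
          simp only [U, Set.mem_ofPred_eq, one_smul]
          rw [he]
          exact mem_ball_iff_norm.1 hs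
        have hanU : AnalyticOnNhd ℂ
            (fun a : ℂ => Q i (s' + a • (Pi.single p e : Fin (k + 1) → E))) U := by
          intro a ha
          refine hline i s' e a ?_
          rw [hmem0]
          refine hball ?_
          rw [mem_ball_iff_norm, add_sub_cancel_left]
          exact ha
        have h7 := cord_zero hU h0U hanU (fun n => hall i hi s' hmatch e n) h1U
        have h8 : s' + (1 : ℂ) • (Pi.single p e : Fin (k + 1) → E) = s := by
          rw [one_smul, hs']
          exact sub_add_cancel _ _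
        have h9 : Q i (s' + (1 : ℂ) • (Pi.single p e : Fin (k + 1) → E)) = 0 := h7
        rw [h8] at h9
        exact h9
      -- a germ through the ball
      have hVo : IsOpen ((A.ch i).source ∩ (A.ch i) ⁻¹' ball (A.ch i (f z)) r) :=
        (A.ch i).isOpen_inter_preimage isOpen_ball
      obtain ⟨c, hc, hc0, hcP⟩ := hJ.ne _ hVo ⟨f z, hi, mem_ball_self hr⟩
      apply hcP
      rw [hJ.eq i c hc hc0.1]
      apply hvan
      have : jt A k i c 0 = A.ch i (c 0) := by
        simp [jt, Cha.loc]
      rw [this]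
      exact hc0.2
    · -- the positive levels
      apply hz
      intro i hi s hs0 hs
      have hne : (0 : Fin (k + 1)) ≠ p := fun h => hp h.symm
      set e : E := s p - jt A k i (tr z f) p with he
      set s' : Fin (k + 1) → E := s - (Pi.single p e : Fin (k + 1) → E) with hs'
      have hmatch : ∀ q ≤ p, s' q = jt A k i (tr z f) q := by
        intro q hq
        rcases lt_or_eq_of_le hq with hlt | heq
        · have hqp : q ≠ p := ne_of_lt hlt
          rw [hs', Pi.sub_apply, Pi.single_eq_of_ne hqp, sub_zero, cord_jt]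
          exact hs q hlt
        · rw [heq, hs', Pi.sub_apply, Pi.single_eq_same, he, sub_sub_cancel]
      have hmem0 : ∀ a : ℂ, (s' + a • (Pi.single p e : Fin (k + 1) → E)) 0 = s 0 := by
        intro a
        rw [Pi.add_apply, hs', Pi.sub_apply, Pi.smul_apply, Pi.single_eq_of_ne hne, smul_zero,
          sub_zero, add_zero]
      have hanU : AnalyticOnNhd ℂ
          (fun a : ℂ => Q i (s' + a • (Pi.single p e : Fin (k + 1) → E))) univ := by
        intro a _
        refine hline i s' e a ?_
        rw [hmem0]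
        exact hs0
      have h7 := cord_zero isPreconnected_univ (mem_univ _) hanU
        (fun n => hall i hi s' hmatch e n) (mem_univ 1)
      have h8 : s' + (1 : ℂ) • (Pi.single p e : Fin (k + 1) → E) = s := by
        rw [one_smul, hs']
        exact sub_add_cancel _ _
      have h9 : Q i (s' + (1 : ℂ) • (Pi.single p e : Fin (k + 1) → E)) = 0 := h7
      rw [h8] at h9
      exact h9
  -- the order one
  have hone : ∀ f ∈ M, ∀ z i, f z ∈ (A.ch i).source → OC A Q p 1 i (tr z f) := by
    intro f hf z i hi s hs e n hn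
    have hn0 : n = 0 := by omega
    subst hn0
    rw [iteratedDeriv_zero, zero_smul, add_zero]
    refine h2 f hf z i hi s ?_ ?_
    · rw [hs 0 (Fin.zero_le p), cord_jt0]
      exact (A.ch i).map_source hi
    · intro q hq
      rw [hs q (Fin.le_def.2 (Nat.lt_succ_iff.1 hq)), cord_jt]
  have hzero : ∀ f ∈ M, ∀ z i, f z ∈ (A.ch i).source → OC A Q p 0 i (tr z f) := by
    intro f hf z i hi s hs e n hn
    exact absurd hn (Nat.not_lt_zero n)
  set N := Nat.find hex with hN
  have hNs : ¬ ∀ f ∈ M, ∀ z i, f z ∈ (A.ch i).source → OC A Q p N i (tr z f) :=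
    Nat.find_spec hex
  have hN0 : N ≠ 0 := fun h => by
    rw [h] at hNs
    exact hNs hzero
  have hN1 : N ≠ 1 := fun h => by
    rw [h] at hNs
    exact hNs hone
  obtain ⟨μ, hμ⟩ : ∃ μ, N = μ + 1 := ⟨N - 1, by omega⟩
  refine ⟨μ, by omega, ?_, ?_⟩
  · have := Nat.find_min hex (m := μ) (by rw [← hN, hμ]; exact Nat.lt_succ_self μ)
    push Not at this
    exact this
  · rw [hμ] at hNs
    intro f hf
    have h3 := (hd (μ + 1)).resolve_left hNs f hf
    push Not at h3
    exact h3

end jets


end Pool.Agent.MBS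

namespace Pool.Agent.MBS
alias exists_order := exists_order_pr
end Pool.Agent.MBS
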