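import Pool.Agent.Lib_helper58.MBS.Base
import Pool.Agent.Lib_helper58.MBS.L.AJET
import Pool.Agent.Lib_helper58.MBS.L.CGER

set_option autoImplicit false
set_option linter.unusedSectionVars false
set_option linter.unusedVariables false

open Filter Topology Metric Set

namespace Pool.Agent.MBS

open Pool.Agent.BR

section jets

variable {E X : Type} [NormedAddCommGroup E] [NormedSpace ℂ E] [FiniteDimensional ℂ E]
  [MetricSpace X] [CompactSpace X] {A : Cha E X} {C : ℝ} {M : Set (ℂ → X)} {k m : ℕ}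
  {P : (ℂ → X) → ℂ} {Q : A.ι → (Fin (k + 1) → E) → ℂ}

/-- the reparametrisation `z + t z ^ p / p!` -/
noncomputable def cphi_psi (p : ℕ) (t : ℂ) (z : ℂ) : ℂ := z + t / (p.factorial : ℂ) * z ^ p

theorem cphi_psi_an (p : ℕ) (t z : ℂ) : AnalyticAt ℂ (cphi_psi p t) z := by
  unfold cphi_psi
  fun_prop

theorem cphi_psi_zero {p : ℕ} (hp : 1 ≤ p) (t : ℂ) : cphi_psi p t 0 = 0 := by
  unfold cphi_psi
  rw [zero_pow (by omega)]
  ring

theorem cphi_psi_deriv {p : ℕ} (hp : 1 ≤ p) {t : ℂ} (ht : ‖t‖ < 1) :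
    deriv (cphi_psi p t) 0 ≠ 0 := by
  have h1 : HasDerivAt (cphi_psi p t)
      (1 + t / (p.factorial : ℂ) * ((p : ℂ) * (0 : ℂ) ^ (p - 1))) 0 := by
    unfold cphi_psi
    have h2 := (hasDerivAt_id (0 : ℂ)).add
      ((hasDerivAt_pow p (0 : ℂ)).const_mul (t / (p.factorial : ℂ)))
    exact h2
  rw [h1.deriv]
  rcases Nat.lt_or_ge 1 p with h | h
  · rw [zero_pow (by omega)]
    simp
  · have : p = 1 := by omega
    subst this
    simp only [Nat.factorial_one, Nat.cast_one, div_one, Nat.sub_self, pow_zero, mul_one]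
    intro h3
    have h4 : t = -1 := by
      linear_combination h3
    rw [h4, norm_neg, norm_one] at ht
    exact lt_irrefl _ ht

theorem cphi_jets {g : ℂ → E} (hg : AnalyticAt ℂ g 0) {p : ℕ} (hp : 1 ≤ p) (t : ℂ) {q : ℕ}
    (hq : q ≤ p) : iteratedDeriv q (fun z => g (cphi_psi p t z)) 0 =
      iteratedDeriv q g 0 + if q = p then t • deriv g 0 else 0 := by
  have : CompleteSpace E := FiniteDimensional.complete ℂ E
  set τ : ℂ := t / (p.factorial : ℂ) with hτ
  set v : E := deriv g 0 with hv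
  have hc : AnalyticAt ℂ (fun z => g (cphi_psi p t z)) 0 := by
    have h1 : AnalyticAt ℂ g (cphi_psi p t 0) := by
      rw [cphi_psi_zero hp]
      exact hg
    exact AnalyticAt.fun_comp h1 (cphi_psi_an p t 0)
  have hpoly : AnalyticAt ℂ (fun z : ℂ => (τ * z ^ p)) 0 := by fun_prop
  have hpoly2 : AnalyticAt ℂ (fun z : ℂ => (τ * z ^ p) • v) 0 :=
    hpoly.smul analyticAt_const
  have hd : AnalyticAt ℂ (fun z => g z + (τ * z ^ p) • v) 0 := hg.add hpoly2
  -- the Lipschitz bound of the derivative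
  have hbig : ∃ K : ℝ, 0 ≤ K ∧ ∃ r > 0, ∀ ξ ∈ ball (0 : ℂ) r, DifferentiableAt ℂ g ξ ∧
      ‖deriv g ξ - v‖ ≤ K * ‖ξ‖ := by
    have h1 := hg.deriv.differentiableAt.hasDerivAt.isBigO_sub
    obtain ⟨K, hK, hKb⟩ := h1.exists_pos
    rw [Asymptotics.isBigOWith_iff] at hKb
    have h2 : ∀ᶠ ξ in 𝓝 (0 : ℂ), DifferentiableAt ℂ g ξ :=
      hg.eventually_analyticAt.mono fun ξ h => h.differentiableAt
    obtain ⟨r, hr, hb⟩ := Metric.eventually_nhds_iff_ball.mp (h2.and hKb)
    refine ⟨K, hK.le, r, hr, fun ξ hξ => ⟨(hb ξ hξ).1, ?_⟩⟩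
    have h3 := (hb ξ hξ).2
    rw [sub_zero] at h3
    exact h3
  obtain ⟨K, hK, r, hr, hb⟩ := hbig
  have hkey : ∃ C : ℝ, ∀ᶠ z in 𝓝 (0 : ℂ),
      ‖g (cphi_psi p t z) - (g z + (τ * z ^ p) • v)‖ ≤ C * ‖z‖ ^ (p + 1) := by
    set B : ℝ := 1 + ‖τ‖ with hB
    have hB1 : 1 ≤ B := by
      rw [hB]
      linarith [norm_nonneg τ]
    refine ⟨K * B * ‖τ‖, ?_⟩
    have h1 : ∀ᶠ z in 𝓝 (0 : ℂ), ‖z‖ < min 1 (r / B) := by
      have h2 : (0 : ℝ) < min 1 (r / B) := lt_min one_pos (div_pos hr (by linarith))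
      have h3 := Metric.ball_mem_nhds (0 : ℂ) h2
      filter_upwards [h3] with z hz
      rwa [mem_ball_zero_iff] at hz
    filter_upwards [h1] with z hz
    have hz1 : ‖z‖ < 1 := lt_of_lt_of_le hz (min_le_left _ _)
    have hz2 : B * ‖z‖ < r := by
      have h2 : ‖z‖ < r / B := lt_of_lt_of_le hz (min_le_right _ _)
      rw [lt_div_iff₀ (by linarith)] at h2
      linarith
    set w := cphi_psi p t z with hw
    have hwz : w - z = τ * z ^ p := by
      rw [hw, cphi_psi, ← hτ]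
      ring
    have hwn : ‖w‖ ≤ B * ‖z‖ := by
      have h2 : w = z + τ * z ^ p := by rw [← hwz]; ring
      rw [h2]
      refine le_trans (norm_add_le _ _) ?_
      rw [norm_mul, norm_pow]
      have h3 : ‖z‖ ^ p ≤ ‖z‖ := by
        calc ‖z‖ ^ p ≤ ‖z‖ ^ 1 := pow_le_pow_of_le_one (norm_nonneg _) hz1.le hp
          _ = ‖z‖ := pow_one _
      have h4 := mul_le_mul_of_nonneg_left h3 (norm_nonneg τ)
      rw [hB]
      linarith
    have hzn : ‖z‖ ≤ B * ‖z‖ := by
      have := mul_le_mul_of_nonneg_right hB1 (norm_nonneg z)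
      linarith
    set G : ℂ → E := fun ξ => g ξ - ξ • v with hG
    have hsub : ∀ ξ ∈ closedBall (0 : ℂ) (B * ‖z‖), ξ ∈ ball (0 : ℂ) r := by
      intro ξ hξ
      rw [mem_closedBall_zero_iff] at hξ
      rw [mem_ball_zero_iff]
      exact lt_of_le_of_lt hξ hz2
    have hGd : ∀ ξ ∈ closedBall (0 : ℂ) (B * ‖z‖), HasDerivAt G (deriv g ξ - v) ξ := by
      intro ξ hξ
      have h2 := (hb ξ (hsub ξ hξ)).1.hasDerivAt
      have h3 := (hasDerivAt_id ξ).smul_const v
      rw [one_smul] at h3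
      exact h2.sub h3
    have hmv := (convex_closedBall (0 : ℂ) (B * ‖z‖)).norm_image_sub_le_of_norm_hasDerivWithin_le
      (f := G) (C := K * (B * ‖z‖)) (fun ξ hξ => (hGd ξ hξ).hasDerivWithinAt)
      (fun ξ hξ => by
        refine le_trans (hb ξ (hsub ξ hξ)).2 ?_
        exact mul_le_mul_of_nonneg_left (mem_closedBall_zero_iff.mp hξ) hK)
      (x := z) (y := w) (mem_closedBall_zero_iff.mpr hzn) (mem_closedBall_zero_iff.mpr hwn)
    have h5 : g w - (g z + (τ * z ^ p) • v) = G w - G z := by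
      rw [hG, ← hwz]
      show g w - (g z + (w - z) • v) = g w - w • v - (g z - z • v)
      rw [sub_smul]
      abel
    rw [h5]
    refine le_trans hmv (le_of_eq ?_)
    rw [hwz, norm_mul, norm_pow, pow_succ]
    ring
  have hj := (jets_eq_iff hc hd (p + 1)).mpr hkey q (by omega)
  rw [hj, iteratedDeriv_fun_add hg.contDiffAt hpoly2.contDiffAt,
    iteratedDeriv_smul_const hpoly.contDiffAt, iteratedDeriv_const_mul_field,
    iteratedDeriv_fun_pow_zero]
  congr 1
  by_cases h : q = p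
  · rw [if_pos h, if_pos h, hτ]
    congr 1
    have : (p.factorial : ℂ) ≠ 0 := Nat.cast_ne_zero.mpr (Nat.factorial_ne_zero p)
    field_simp
  · rw [if_neg h, if_neg h, Nat.cast_zero, mul_zero, zero_smul]

theorem cphi_end {Φ : (Fin (k + 1) → E) → ℂ} {J : Fin (k + 1) → E} (hΦ : AnalyticAt ℂ Φ J)
    (p : Fin (k + 1)) {x : ℂ → E} {v : E} (hx : HasDerivAt x v 0) (hx0 : x 0 = 0)
    (h : ∀ᶠ t in 𝓝 (0 : ℂ), Φ (J + (Pi.single p (x t) : Fin (k + 1) → E)) = 0) :
    fderiv ℂ Φ J (Pi.single p v : Fin (k + 1) → E) = 0 := by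
  set L : E →L[ℂ] (Fin (k + 1) → E) :=
    ContinuousLinearMap.single ℂ (fun _ : Fin (k + 1) => E) p with hL
  have hLa : ∀ y : E, L y = (Pi.single p y : Fin (k + 1) → E) := fun y => rfl
  have h1 : HasDerivAt (fun t => J + L (x t)) (L v) 0 :=
    (L.hasFDerivAt.comp_hasDerivAt (0 : ℂ) hx).const_add J
  have h2 : HasFDerivAt Φ (fderiv ℂ Φ J) (J + L (x 0)) := by
    rw [hx0, map_zero, add_zero]
    exact hΦ.differentiableAt.hasFDerivAt
  have h3 : HasDerivAt (fun t => Φ (J + L (x t))) (fderiv ℂ Φ J (L v)) 0 :=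
    h2.comp_hasDerivAt (0 : ℂ) h1
  have h4 : (fun t => Φ (J + L (x t))) =ᶠ[𝓝 0] fun _ => 0 := h
  have h5 : deriv (fun t => Φ (J + L (x t))) 0 = 0 := by
    rw [h4.deriv_eq, deriv_const]
  rw [← hLa, ← h3.deriv, h5]

/-- CPHI: the equation `Φ` and its derivative along the tangent direction -/
theorem phi_tangent_pr (hM : Min A C M) (hJ : JD A k m P Q) (p : Fin (k + 1)) {c : ℂ → X}
    (hc : c ∈ Rp M) (i : A.ι) (hi : c 0 ∈ (A.ch i).source) {Φ : (Fin (k + 1) → E) → ℂ}
    (hΦ : AnalyticAt ℂ Φ (jt A k i c))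
    (h : ∀ᶠ s in 𝓝 (jt A k i c), ∀ d ∈ Rp M, d 0 ∈ (A.ch i).source →
      (∀ q ≤ p, s q = jt A k i d q) → Φ s = 0) :
    fderiv ℂ Φ (jt A k i c) (Pi.single p (deriv (A.loc i c) 0) : Fin (k + 1) → E) = 0 := by
  have : CompleteSpace E := FiniteDimensional.complete ℂ E
  have hger : Ger A c := rp_ger hM.sub hc
  have hhol : A.HolAt c 0 := hger.self_of_nhds
  have hg : AnalyticAt ℂ (A.loc i c) 0 := hhol.2 i hi
  have hsing : Continuous fun y : E => (Pi.single p y : Fin (k + 1) → E) :=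
    (ContinuousLinearMap.single ℂ (fun _ : Fin (k + 1) => E) p).continuous
  by_cases hp : p = 0
  · subst hp
    set x : ℂ → E := fun t => A.loc i c t - A.loc i c 0 with hx
    have hxd : HasDerivAt x (deriv (A.loc i c) 0) 0 := by
      have h1 := hg.differentiableAt.hasDerivAt.sub_const (A.loc i c 0)
      exact h1
    have hx0 : x 0 = 0 := sub_self _
    refine cphi_end hΦ 0 hxd hx0 ?_
    have hcont : Tendsto (fun t : ℂ => jt A k i c + (Pi.single 0 (x t) : Fin (k + 1) → E))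
        (𝓝 0) (𝓝 (jt A k i c)) := by
      have h1 : ContinuousAt (fun t : ℂ => jt A k i c +
          (Pi.single 0 (x t) : Fin (k + 1) → E)) 0 :=
        continuousAt_const.add (hsing.continuousAt.comp hxd.continuousAt)
      have h2 := h1.tendsto
      simp only [hx0, Pi.single_zero, add_zero] at h2
      exact h2
    have hc' := hc
    obtain ⟨h₀, hh₀, χ, hχ, hχ0, hcχ⟩ := hc'
    have he1 : ∀ᶠ t in 𝓝 (0 : ℂ), AnalyticAt ℂ χ t := hχ.eventually_analyticAt
    have he2 : ∀ᶠ t in 𝓝 (0 : ℂ), deriv χ t ≠ 0 :=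
      hχ.deriv.continuousAt.eventually_ne hχ0
    have he3 : ∀ᶠ t in 𝓝 (0 : ℂ), c t ∈ (A.ch i).source :=
      hhol.1.eventually ((A.ch i).open_source.mem_nhds hi)
    filter_upwards [hcont.eventually h, he1, he2, he3] with t ht h1 h2 h3
    refine ht (fun z => c (z + t)) ?_ (by show c (0 + t) ∈ (A.ch i).source; rwa [zero_add]) ?_
    · refine ⟨h₀, hh₀, fun z => χ (z + t), ?_, ?_, ?_⟩
      · have h4 : AnalyticAt ℂ χ ((fun z : ℂ => z + t) 0) := by
          show AnalyticAt ℂ χ (0 + t)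
          rwa [zero_add]
        exact AnalyticAt.fun_comp h4 (by fun_prop)
      · rw [deriv_comp_add_const, zero_add]
        exact h2
      · rw [hcχ]
    · intro q hq
      have hq0 : q = 0 := le_antisymm hq (Fin.zero_le q)
      subst hq0
      simp only [Pi.add_apply, Pi.single_eq_same, jt]
      show iteratedDeriv 0 (A.loc i c) 0 + x t =
        iteratedDeriv 0 (A.loc i fun z => c (z + t)) 0
      rw [iteratedDeriv_zero, iteratedDeriv_zero, hx]
      show A.loc i c 0 + (A.loc i c t - A.loc i c 0) = A.ch i (c (0 + t))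
      rw [zero_add]
      show A.loc i c 0 + (A.loc i c t - A.loc i c 0) = A.loc i c t
      abel
  · have hp1 : 1 ≤ (p : ℕ) := by
      have : (p : ℕ) ≠ 0 := fun h0 => hp (Fin.ext h0)
      omega
    set v : E := deriv (A.loc i c) 0 with hv
    set x : ℂ → E := fun t => t • v with hx
    have hxd : HasDerivAt x v 0 := by
      have h1 := (hasDerivAt_id (0 : ℂ)).smul_const v
      rw [one_smul] at h1
      exact h1
    have hx0 : x 0 = 0 := zero_smul _ _
    refine cphi_end hΦ p hxd hx0 ?_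
    have hcont : Tendsto (fun t : ℂ => jt A k i c + (Pi.single p (x t) : Fin (k + 1) → E))
        (𝓝 0) (𝓝 (jt A k i c)) := by
      have h1 : ContinuousAt (fun t : ℂ => jt A k i c +
          (Pi.single p (x t) : Fin (k + 1) → E)) 0 :=
        continuousAt_const.add (hsing.continuousAt.comp hxd.continuousAt)
      have h2 := h1.tendsto
      simp only [hx0, Pi.single_zero, add_zero] at h2
      exact h2
    have he1 : ∀ᶠ t in 𝓝 (0 : ℂ), ‖t‖ < 1 := by
      have h3 := Metric.ball_mem_nhds (0 : ℂ) one_pos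
      filter_upwards [h3] with t ht
      rwa [mem_ball_zero_iff] at ht
    filter_upwards [hcont.eventually h, he1] with t ht h1
    refine ht (fun z => c (cphi_psi p t z))
      (rp_comp hc (cphi_psi_an p t 0) (cphi_psi_zero hp1 t) (cphi_psi_deriv hp1 h1)) ?_ ?_
    · show c (cphi_psi p t 0) ∈ (A.ch i).source
      rw [cphi_psi_zero hp1]
      exact hi
    · intro q hq
      have hq' : (q : ℕ) ≤ (p : ℕ) := hq
      have h2 := cphi_jets hg hp1 t hq'
      show (jt A k i c + (Pi.single p (x t) : Fin (k + 1) → E)) q =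
        iteratedDeriv (q : ℕ) (fun z => A.loc i c (cphi_psi p t z)) 0
      rw [h2, Pi.add_apply]
      congr 1
      by_cases hqp : q = p
      · subst hqp
        rw [Pi.single_eq_same, if_pos rfl]
      · rw [Pi.single_eq_of_ne hqp, if_neg (fun h0 => hqp (Fin.ext h0))]

end jets


end Pool.Agent.MBS

namespace Pool.Agent.MBS
alias phi_tangent := phi_tangent_pr
end Pool.Agent.MBS
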