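import Pool.Agent.Lib_helper58.MBS.Base
import Pool.Agent.Lib_helper58.MBS.L.BCMP
import Pool.Agent.Lib_helper58.MBS.L.BJET
import Pool.Agent.Lib_helper58.MBS.L.CPLI

/-! # Minimal Brody sets, block CPIM: immersed curves and the invariant jet differential -/

set_option autoImplicit false
set_option linter.unusedSectionVars false
set_option linter.unusedVariables false

open Filter Topology Metric Set

namespace Pool.Agent.MBS

open Pool.Agent.BR

section jets

variable {E X : Type} [NormedAddCommGroup E] [NormedSpace ℂ E] [FiniteDimensional ℂ E]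
  [MetricSpace X] [CompactSpace X] {A : Cha E X} {C : ℝ} {M : Set (ℂ → X)} {k m : ℕ}
  {P : (ℂ → X) → ℂ} {Q : A.ι → (Fin (k + 1) → E) → ℂ}

theorem jd_zero_pr (hJ : JD A k m P Q) {f : ℂ → X} (hf : f ∈ BF A C) (h : P f = 0) {g : ℂ → X}
    (hg : g ∈ closure (range fun w => tr w f)) : P g = 0 := by
  have h1 : IsClosed (BF A C ∩ P ⁻¹' {0}) :=
    (jd_cont hJ).preimage_isClosed_of_isClosed (bf_closed A C) isClosed_singleton
  have h2 : (range fun w => tr w f) ⊆ BF A C ∩ P ⁻¹' {0} := by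
    rintro _ ⟨w, rfl⟩
    refine ⟨bf_tr hf w, ?_⟩
    show P (tr w f) = 0
    rw [jd_const hJ hf w, h]
  exact (closure_minimal h2 h1 hg).2

theorem jd_immersed_pr (hJ : JD A k m P Q) {f : ℂ → X} (hf : f ∈ BF A C) (h : P f ≠ 0) :
    ∃ c > 0, ∃ C' > 0, f ∈ A.KK c C' := by
  by_contra hcon
  have hex : ∀ n : ℕ, ∃ (z : ℂ) (i : A.ι), f z ∈ A.W i ∧
      ‖deriv (A.loc i f) z‖ < 1 / ((n : ℝ) + 1) := by
    intro n
    by_contra hn
    push Not at hn
    apply hcon
    refine ⟨1 / ((n : ℝ) + 1), by positivity, max C 1, lt_of_lt_of_le one_pos (le_max_right _ _),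
      hf.1, fun z i hi => ⟨hn z i hi, (hf.2 z i hi).trans (le_max_left _ _)⟩⟩
  choose z i hzi hd using hex
  -- the ultrafilter
  set U : Ultrafilter ℕ := Filter.hyperfilter ℕ with hU
  have hUle : (U : Filter ℕ) ≤ atTop := Nat.hyperfilter_le_atTop
  have := A.fin
  obtain ⟨j, hj⟩ : ∃ j : A.ι, ∀ᶠ n in (U : Filter ℕ), i n = j := by
    have h1 : (univ : Set A.ι).Finite := finite_univ
    have h2 : (univ : Set A.ι) ∈ (U.map i : Filter A.ι) := univ_mem
    obtain ⟨j, -, hj⟩ := Ultrafilter.eq_pure_of_finite_mem (f := U.map i) h1 h2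
    refine ⟨j, ?_⟩
    have h3 : ({j} : Set A.ι) ∈ U.map i := by rw [hj]; exact mem_singleton j
    exact h3
  have hcomp : IsCompact (BF A C) := (bf_closed A C).isCompact
  obtain ⟨g, hg, hlim⟩ : ∃ g ∈ BF A C, Tendsto (fun n => tr (z n) f) U (𝓝 g) := by
    have h1 : ((U.map fun n => tr (z n) f : Ultrafilter (ℂ → X)) : Filter (ℂ → X)) ≤
        𝓟 (BF A C) := by
      rw [le_principal_iff]
      show (fun n => tr (z n) f) ⁻¹' (BF A C) ∈ (U : Filter ℕ)
      exact Filter.univ_mem' (fun n => bf_tr hf (z n))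
    obtain ⟨g, hg, h2⟩ := isCompact_iff_ultrafilter_le_nhds.1 hcomp _ h1
    exact ⟨g, hg, h2⟩
  have hBF : ∀ᶠ n in (U : Filter ℕ), tr (z n) f ∈ BF A C :=
    Filter.Eventually.of_forall (fun n => bf_tr hf (z n))
  -- the limit point
  have h0 : Tendsto (fun n => f (z n)) U (𝓝 (g 0)) := by
    have h1 := (tendsto_pi_nhds.1 hlim) 0
    have h2 : (fun n => tr (z n) f 0) = fun n => f (z n) := by
      funext n
      simp [tr]
    rwa [h2] at h1
  have hgc : g 0 ∈ closure (A.W j) := by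
    refine mem_closure_of_tendsto h0 ?_
    filter_upwards [hj] with n hn
    have := hzi n
    rwa [hn] at this
  have hgs : g 0 ∈ (A.ch j).source := A.W_sub j hgc
  have hjet := bf_jet hBF hg hlim (z := fun _ => (0 : ℂ)) tendsto_const_nhds j hgs 1
  have hjet2 : Tendsto (fun n => iteratedDeriv 1 (A.loc j (tr (z n) f)) 0) U (𝓝 0) := by
    have h1 : Tendsto (fun n : ℕ => 1 / ((n : ℝ) + 1)) U (𝓝 0) :=
      tendsto_one_div_add_atTop_nhds_zero_nat.mono_left hUle
    refine squeeze_zero_norm' ?_ h1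
    filter_upwards [hj] with n hn
    rw [jet_tr, iteratedDeriv_one]
    have := hd n
    rw [hn] at this
    exact this.le
  have hd0 : deriv (A.loc j g) 0 = 0 := by
    have := tendsto_nhds_unique hjet hjet2
    rwa [iteratedDeriv_one] at this
  have hP0 : P g = 0 := hJ.sing j g (Eventually.of_forall hg.1) hgs hd0
  -- the value of `P`
  have hlim' : Tendsto (fun n => tr (z n) f) U (𝓝[BF A C] g) :=
    tendsto_nhdsWithin_iff.2 ⟨hlim, hBF⟩
  have h1 : Tendsto (fun n => P (tr (z n) f)) U (𝓝 (P g)) :=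
    ((jd_cont hJ) g hg).tendsto.comp hlim'
  have h2 : (fun n => P (tr (z n) f)) = fun _ => P f := by
    funext n
    exact jd_const hJ hf (z n)
  rw [h2] at h1
  have h3 := tendsto_nhds_unique h1 tendsto_const_nhds
  exact h (by rw [← h3, hP0])

end jets

end Pool.Agent.MBS

namespace Pool.Agent.MBS
alias jd_immersed := jd_immersed_pr
alias jd_zero := jd_zero_pr
end Pool.Agent.MBS
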