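import Pool.Agent.Lib_helper58.MBS.Base
import Pool.Agent.Lib_helper58.MBS.L.BLIM

/-! # Minimal Brody sets: block DFAR (exponential growth of the displacement) -/

set_option autoImplicit false
set_option linter.unusedSectionVars false
set_option linter.unusedVariables false

open Filter Topology Metric Set

namespace Pool.Agent.MBS

open Pool.Agent.BR

section win

variable {E X : Type} [NormedAddCommGroup E] [NormedSpace ℂ E] [FiniteDimensional ℂ E]
  [MetricSpace X] [CompactSpace X] {A : Cha E X} {C lam L : ℝ} {M : Set (ℂ → X)} {k : ℕ}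

omit [CompactSpace X] in
theorem dfar_mono {θ ε : ℝ} {g h : ℂ → X} {z : ℂ} {K K' : ℝ} (hK : K ≤ K')
    (h1 : Mle θ ε g h z K) : Mle θ ε g h z K' := fun ζ h2 h3 => by
  obtain ⟨u, hu, hu'⟩ := h1 ζ h2 h3
  exact ⟨u, hu, hu'.trans hK⟩

/-- DFAR: exponential growth of the displacement -/
theorem mle_far_pr {θ ε C₀ R δ : ℝ} (hC₀ : 1 ≤ C₀) (hδ : 0 < δ) (hH : HH M θ ε C₀ R δ)
    (hM : Min A C M) {f : ℂ → X} (hf : f ∈ M) {κ : Type} {F : Filter κ} {h : κ → ℂ → X}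
    {m : κ → ℝ} (hhM : ∀ᶠ n in F, h n ∈ M) (hh : Tendsto h F (𝓝 f)) (hm : ∀ n, 0 ≤ m n)
    (h1 : ∀ᶠ n in F, Mle θ ε f (h n) 0 (m n)) (z : ℂ) :
    ∀ᶠ n in F, Mle θ ε f (h n) z (C₀ ^ (‖z‖ + 1) * m n) := by
  have h2 := bf_unif (hhM.mono fun n hn => hM.sub hn) (hM.sub hf) hh (‖z‖ + |R| + 1) δ hδ
  set N : ℕ := ⌈‖z‖⌉₊ with hN
  have hN1 : ‖z‖ ≤ N := Nat.le_ceil _
  have hN2 : (N : ℝ) ≤ ‖z‖ + 1 := (Nat.ceil_lt_add_one (norm_nonneg z)).le
  have hC0 : 0 ≤ C₀ := zero_le_one.trans hC₀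
  filter_upwards [hhM, h1, h2] with n h3 h4 h5
  have hz : ∀ j : ℕ, j ≤ N → ‖((j : ℂ) / (N : ℂ)) * z‖ ≤ ‖z‖ := by
    intro j hj
    rw [norm_mul, norm_div, Complex.norm_natCast, Complex.norm_natCast]
    have h6 : (j : ℝ) / (N : ℝ) ≤ 1 := by
      apply div_le_one_of_le₀ _ (Nat.cast_nonneg _)
      exact_mod_cast hj
    calc (j : ℝ) / (N : ℝ) * ‖z‖ ≤ 1 * ‖z‖ := mul_le_mul_of_nonneg_right h6 (norm_nonneg z)
      _ = ‖z‖ := one_mul _
  have hind : ∀ j : ℕ, j ≤ N → Mle θ ε f (h n) (((j : ℂ) / (N : ℂ)) * z) (C₀ ^ j * m n) := by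
    intro j
    induction j with
    | zero =>
      intro _
      simpa using h4
    | succ j ih =>
      intro hj
      have hj' : j ≤ N := by omega
      have hNpos : 0 < (N : ℝ) := by
        have : 0 < N := by omega
        exact_mod_cast this
      have hNpos' : (N : ℂ) ≠ 0 := by
        have : N ≠ 0 := by omega
        exact_mod_cast this
      have h6 := hH f hf (h n) h3 (((j : ℂ) / (N : ℂ)) * z) (C₀ ^ j * m n)
        (mul_nonneg (pow_nonneg hC0 j) (hm n)) (fun w hw => ?_) (ih hj')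
        ((((j + 1 : ℕ) : ℂ) / (N : ℂ)) * z) ?_
      · refine dfar_mono (le_of_eq ?_) h6
        rw [pow_succ]
        ring
      · rw [dist_comm]
        refine (h5 w ?_).le
        have h7 : w = (w - ((j : ℂ) / (N : ℂ)) * z) + ((j : ℂ) / (N : ℂ)) * z := by ring
        calc ‖w‖ = ‖(w - ((j : ℂ) / (N : ℂ)) * z) + ((j : ℂ) / (N : ℂ)) * z‖ := by rw [← h7]
          _ ≤ ‖w - ((j : ℂ) / (N : ℂ)) * z‖ + ‖((j : ℂ) / (N : ℂ)) * z‖ := norm_add_le _ _
          _ ≤ R + ‖z‖ := add_le_add hw (hz j hj')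
          _ ≤ ‖z‖ + |R| + 1 := by linarith [le_abs_self R]
      · have h8 : (((j + 1 : ℕ) : ℂ) / (N : ℂ)) * z - ((j : ℂ) / (N : ℂ)) * z = z / (N : ℂ) := by
          push_cast
          field_simp
          ring
        rw [h8, norm_div, Complex.norm_natCast]
        exact div_le_one_of_le₀ hN1 hNpos.le
  have h9 := hind N le_rfl
  have h10 : ((N : ℂ) / (N : ℂ)) * z = z := by
    by_cases h11 : N = 0
    · have h12 : z = 0 := by
        rw [h11] at hN1
        exact norm_le_zero_iff.1 (by simpa using hN1)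
      rw [h12, mul_zero]
    · have h13 : (N : ℂ) ≠ 0 := by exact_mod_cast h11
      rw [div_self h13, one_mul]
  rw [h10] at h9
  refine dfar_mono (mul_le_mul_of_nonneg_right ?_ (hm n)) h9
  calc C₀ ^ N = C₀ ^ (N : ℝ) := (Real.rpow_natCast C₀ N).symm
    _ ≤ C₀ ^ (‖z‖ + 1) := Real.rpow_le_rpow_of_exponent_le hC₀ hN2

end win


end Pool.Agent.MBS

namespace Pool.Agent.MBS
alias mle_far := mle_far_pr
end Pool.Agent.MBS
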