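import Pool.Agent.Lib_helper58.MBS.Base
import Pool.Agent.Lib_helper58.MBS.L.BLIM
import Pool.Agent.Lib_helper58.MBS.L.DWCV

/-! # Minimal Brody sets: block DODE (the linear differential inequality) -/

set_option autoImplicit false
set_option linter.unusedSectionVars false
set_option linter.unusedVariables false

open Filter Topology Metric Set

namespace Pool.Agent.MBS

open Pool.Agent.BR

section lin

variable {E : Type} [NormedAddCommGroup E] [NormedSpace ℂ E] [FiniteDimensional ℂ E]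

theorem dode_lin {c' : E} {l : E →L[ℂ] ℂ} (hl : l c' = 1) (T : E →L[ℂ] ℂ)
    (hT : ∀ v, LinearIndependent ℂ ![v, c'] → T v ≠ 0) :
    ∃ κ > 0, ∀ v, l v = 0 → κ * ‖v‖ ≤ ‖T v‖ := by
  have : ProperSpace E := FiniteDimensional.proper ℂ E
  have hind : ∀ v, l v = 0 → v ≠ 0 → T v ≠ 0 := by
    intro v hv hv0
    refine hT v ?_
    rw [LinearIndependent.pair_iff]
    intro s t hst
    have h1 := congrArg l hst
    rw [map_add, map_smul, map_smul, hv, hl, map_zero, smul_zero, zero_add, smul_eq_mul,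
      mul_one] at h1
    rw [h1, zero_smul, add_zero, smul_eq_zero] at hst
    exact ⟨hst.resolve_right hv0, h1⟩
  set K : Set E := {v | l v = 0} ∩ sphere 0 1 with hK
  have hKc : IsCompact K :=
    (isCompact_sphere (0 : E) 1).inter_left (isClosed_eq l.continuous continuous_const)
  have hscale : ∀ v : E, v ≠ 0 → l v = 0 → ((‖v‖ : ℂ)⁻¹ • v) ∈ K := by
    intro v hv0 hv
    refine ⟨?_, ?_⟩
    · change l ((‖v‖ : ℂ)⁻¹ • v) = 0
      rw [map_smul, hv, smul_zero]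
    · rw [mem_sphere_zero_iff_norm, norm_smul, norm_inv, Complex.norm_real, norm_norm,
        inv_mul_cancel₀ (norm_ne_zero_iff.2 hv0)]
  rcases K.eq_empty_or_nonempty with hKe | hKn
  · refine ⟨1, one_pos, fun v hv => ?_⟩
    by_cases hv0 : v = 0
    · rw [hv0, norm_zero, mul_zero]
      exact norm_nonneg _
    · exact absurd (hscale v hv0 hv) (by rw [hKe]; exact fun h => h)
  · obtain ⟨v₀, hv₀, hmin⟩ := hKc.exists_isMinOn hKn (T.continuous.norm.continuousOn)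
    have hv0 : v₀ ≠ 0 := by
      intro h
      have h1 : ‖v₀‖ = 1 := mem_sphere_zero_iff_norm.1 hv₀.2
      rw [h, norm_zero] at h1
      exact one_ne_zero h1.symm
    refine ⟨‖T v₀‖, norm_pos_iff.2 (hind v₀ hv₀.1 hv0), fun v hv => ?_⟩
    by_cases hv0 : v = 0
    · rw [hv0, norm_zero, mul_zero]
      exact norm_nonneg _
    · have h1 : ‖T v₀‖ ≤ ‖T ((‖v‖ : ℂ)⁻¹ • v)‖ := hmin (hscale v hv0 hv)
      rw [map_smul, norm_smul, norm_inv, Complex.norm_real, norm_norm] at h1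
      have h2 : 0 < ‖v‖ := norm_pos_iff.2 hv0
      calc ‖T v₀‖ * ‖v‖ ≤ (‖v‖⁻¹ * ‖T v‖) * ‖v‖ := mul_le_mul_of_nonneg_right h1 h2.le
        _ = ‖T v‖ := by field_simp

theorem dode_l_it (l : E →L[ℂ] ℂ) {F : ℂ → E} {x : ℂ} (hF : AnalyticAt ℂ F x) (n : ℕ) :
    l (iteratedDeriv n F x) = iteratedDeriv n (fun y => l (F y)) x := by
  have h1 : ContDiffAt ℂ (n : WithTop ℕ∞) F x := hF.contDiffAt
  have h2 := l.iteratedFDeriv_comp_left h1 (i := n) le_rfl
  have h3 : iteratedDeriv n (fun y => l (F y)) x = iteratedFDeriv ℂ n (l ∘ F) x (fun _ => 1) := rfl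
  rw [h3, h2]
  rfl

/-- the linear differential inequality from the strict differentiability -/
theorem dode_core {k : ℕ} {p : Fin (k + 1)} {D : (Fin (k + 1) → E) →L[ℂ] ℂ} {κ : ℝ} (hκ : 0 < κ)
    {w : Fin (k + 1) → E} (hw : ∀ q : Fin (k + 1), p < q → w q = 0)
    (h1 : κ * ‖w p‖ ≤ ‖D (Pi.single p (w p) : Fin (k + 1) → E)‖)
    (h2 : ‖D w‖ ≤ κ / 2 * ‖w‖) :
    ‖w p‖ ≤ (1 + 2 * ‖D‖ / κ) * ∑ q ∈ Finset.univ.filter (· < p), ‖w q‖ := by
  set S : ℝ := ∑ q ∈ Finset.univ.filter (· < p), ‖w q‖ with hS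
  have hS0 : 0 ≤ S := Finset.sum_nonneg fun _ _ => norm_nonneg _
  set wl : Fin (k + 1) → E := w - (Pi.single p (w p) : Fin (k + 1) → E) with hwl
  have hwln : ‖wl‖ ≤ S := by
    rw [pi_norm_le_iff_of_nonneg hS0]
    intro q
    rcases lt_trichotomy q p with hq | hq | hq
    · have h3 : wl q = w q := by
        rw [hwl, Pi.sub_apply, Pi.single_eq_of_ne hq.ne, sub_zero]
      rw [h3]
      exact Finset.single_le_sum (f := fun q => ‖w q‖) (fun _ _ => norm_nonneg _)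
        (Finset.mem_filter.2 ⟨Finset.mem_univ q, hq⟩)
    · have h3 : wl q = 0 := by
        rw [hwl, Pi.sub_apply, hq, Pi.single_eq_same, sub_self]
      rw [h3, norm_zero]
      exact hS0
    · have h3 : wl q = 0 := by
        rw [hwl, Pi.sub_apply, Pi.single_eq_of_ne hq.ne', sub_zero, hw q hq]
      rw [h3, norm_zero]
      exact hS0
  have hws : ‖(Pi.single p (w p) : Fin (k + 1) → E)‖ ≤ ‖w p‖ := by
    rw [pi_norm_le_iff_of_nonneg (norm_nonneg _)]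
    intro q
    by_cases hq : q = p
    · rw [hq, Pi.single_eq_same]
    · rw [Pi.single_eq_of_ne hq, norm_zero]
      exact norm_nonneg _
  have hsum : (Pi.single p (w p) : Fin (k + 1) → E) = w - wl := by
    rw [hwl, sub_sub_cancel]
  have hwn : ‖w‖ ≤ ‖w p‖ + S := by
    have h3 : w = (Pi.single p (w p) : Fin (k + 1) → E) + wl := by
      rw [hwl, add_sub_cancel]
    calc ‖w‖ = ‖(Pi.single p (w p) : Fin (k + 1) → E) + wl‖ := by rw [← h3]
      _ ≤ _ := norm_add_le _ _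
      _ ≤ ‖w p‖ + S := add_le_add hws hwln
  have h4 : κ * ‖w p‖ ≤ κ / 2 * (‖w p‖ + S) + ‖D‖ * S := by
    calc κ * ‖w p‖ ≤ ‖D (Pi.single p (w p) : Fin (k + 1) → E)‖ := h1
      _ = ‖D w - D wl‖ := by rw [hsum, map_sub]
      _ ≤ ‖D w‖ + ‖D wl‖ := norm_sub_le _ _
      _ ≤ κ / 2 * ‖w‖ + ‖D‖ * ‖wl‖ := add_le_add h2 (D.le_opNorm _)
      _ ≤ κ / 2 * (‖w p‖ + S) + ‖D‖ * S := by
          have h5 : κ / 2 * ‖w‖ ≤ κ / 2 * (‖w p‖ + S) :=
            mul_le_mul_of_nonneg_left hwn (by linarith)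
          have h6 : ‖D‖ * ‖wl‖ ≤ ‖D‖ * S := mul_le_mul_of_nonneg_left hwln (norm_nonneg _)
          linarith
  have h5 : (κ / 2) * ‖w p‖ ≤ (κ / 2 + ‖D‖) * S := by linarith
  have h6 : (1 + 2 * ‖D‖ / κ) * S = ((κ / 2 + ‖D‖) * S) / (κ / 2) := by
    field_simp
  rw [h6, le_div_iff₀ (by linarith)]
  linarith

end lin

section win

variable {E X : Type} [NormedAddCommGroup E] [NormedSpace ℂ E] [FiniteDimensional ℂ E]
  [MetricSpace X] [CompactSpace X] {A : Cha E X} {C lam L : ℝ} {M : Set (ℂ → X)} {k : ℕ}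

theorem dode_an {f : ℂ → X} {z₀ : ℂ}
    {i : A.ι} {l : E →L[ℂ] ℂ} {r ρ B : ℝ} {V : Set (ℂ → X)} {u : (ℂ → X) → ℂ → ℂ}
    (hW : Win A M f z₀ i l lam r ρ B V u) {g : ℂ → X} (hg : g ∈ V) {x : ℂ}
    (hx : x ∈ ball (l (A.loc i f z₀)) ρ) : AnalyticAt ℂ (gr A i u g) x := by
  have h1 : AnalyticAt ℂ (A.loc i g) (u g x) := hW.an g hg _ (hW.mem g hg x hx)
  exact h1.comp (hW.u_an g hg x hx)

theorem dode_l {f : ℂ → X} {z₀ : ℂ}
    {i : A.ι} {l : E →L[ℂ] ℂ} {r ρ B : ℝ} {V : Set (ℂ → X)} {u : (ℂ → X) → ℂ → ℂ}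
    (hW : Win A M f z₀ i l lam r ρ B V u) {g : ℂ → X} (hg : g ∈ V) {x : ℂ}
    (hx : x ∈ ball (l (A.loc i f z₀)) ρ) : l (gr A i u g x) = x :=
  hW.eq g hg x hx

theorem dode_deriv_u {f : ℂ → X} {z₀ : ℂ}
    {i : A.ι} {l : E →L[ℂ] ℂ} {r ρ B : ℝ} {V : Set (ℂ → X)} {u : (ℂ → X) → ℂ → ℂ}
    (hW : Win A M f z₀ i l lam r ρ B V u) {g : ℂ → X} (hg : g ∈ V) {x : ℂ}
    (hx : x ∈ ball (l (A.loc i f z₀)) ρ) :
    l (deriv (gr A i u g) x) = 1 ∧ deriv (u g) x ≠ 0 := by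
  have h0 : AnalyticAt ℂ (gr A i u g) x := dode_an hW hg hx
  have h1 : l (deriv (gr A i u g) x) = 1 := by
    have h2 := dode_l_it l h0 1
    rw [iteratedDeriv_one, iteratedDeriv_one] at h2
    rw [h2]
    have h3 : (fun y => l (gr A i u g y)) =ᶠ[𝓝 x] fun y => y := by
      filter_upwards [isOpen_ball.mem_nhds hx] with y hy
      exact dode_l hW hg hy
    rw [h3.deriv_eq]
    simp
  refine ⟨h1, fun h2 => ?_⟩
  have h3 : AnalyticAt ℂ (A.loc i g) (u g x) := hW.an g hg _ (hW.mem g hg x hx)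
  have h4 : HasDerivAt (u g) 0 x := by
    have := (hW.u_an g hg x hx).differentiableAt.hasDerivAt
    rwa [h2] at this
  have h5 : HasDerivAt (gr A i u g) ((0 : ℂ) • deriv (A.loc i g) (u g x)) x :=
    h3.differentiableAt.hasDerivAt.scomp x h4
  rw [h5.deriv, zero_smul, map_zero] at h1
  exact zero_ne_one h1

/-- the reparametrised germ at a point of the graph -/
theorem dode_rp (hB : BLip A lam L) {f : ℂ → X} {z₀ : ℂ}
    {i : A.ι} {l : E →L[ℂ] ℂ} {r ρ B : ℝ} {V : Set (ℂ → X)} {u : (ℂ → X) → ℂ → ℂ}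
    (hW : Win A M f z₀ i l lam r ρ B V u) {g : ℂ → X} (hg : g ∈ V) {x : ℂ}
    (hx : x ∈ ball (l (A.loc i f z₀)) ρ) :
    AnalyticAt ℂ (fun ζ => u g (x + ζ)) 0 ∧ deriv (fun ζ => u g (x + ζ)) 0 ≠ 0 ∧
      (fun ζ => g (u g (x + ζ))) ∈ Rp M ∧ g (u g (x + 0)) ∈ (A.ch i).source ∧
      ∀ q : Fin (k + 1), jt A k i (fun ζ => g (u g (x + ζ))) q =
        iteratedDeriv q (gr A i u g) x := by
  have h1 : AnalyticAt ℂ (fun ζ => u g (x + ζ)) 0 := by
    have h2 : AnalyticAt ℂ (u g) (x + 0) := by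
      rw [add_zero]
      exact hW.u_an g hg x hx
    exact AnalyticAt.comp (f := fun ζ : ℂ => x + ζ) (x := 0) h2 (by fun_prop)
  have h3 : deriv (fun ζ => u g (x + ζ)) 0 ≠ 0 := by
    rw [deriv_comp_const_add, add_zero]
    exact (dode_deriv_u hW hg hx).2
  refine ⟨h1, h3, ⟨g, hW.V_sub hg, _, h1, h3, rfl⟩, ?_, fun q => ?_⟩
  · rw [add_zero]
    exact hB.src i (f z₀) (subset_closure hW.core) (hW.near g hg _ (hW.mem g hg x hx))
  · have h4 : A.loc i (fun ζ => g (u g (x + ζ))) = fun ζ => gr A i u g (x + ζ) := rfl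
    rw [jt, h4, iteratedDeriv_comp_const_add]
    simp

/-- uniform convergence of the graphs -/
theorem dode_unif (hB : BLip A lam L) (hM : Min A C M) {f : ℂ → X} (hf : f ∈ M) {z₀ : ℂ}
    {i : A.ι} {l : E →L[ℂ] ℂ} {r ρ B : ℝ} {V : Set (ℂ → X)} {u : (ℂ → X) → ℂ → ℂ}
    (hW : Win A M f z₀ i l lam r ρ B V u) {ε : ℝ} (hε : 0 < ε) :
    ∀ᶠ g in 𝓝[M] f, ∀ x ∈ ball (l (A.loc i f z₀)) ρ,
      ‖gr A i u g x - gr A i u f x‖ ≤ ε := by
  have hL : 0 < L := zero_lt_one.trans_le hB.L_one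
  have hBp := hW.B_pos
  have h1 : Tendsto (fun g : ℂ → X => g) (𝓝[M] f) (𝓝 f) := nhdsWithin_le_nhds
  have h2 : ∀ᶠ g in 𝓝[M] f, g ∈ V := hW.V_mem
  have h3 := win_tendsto hB hM hf hW hW.f_mem h2 (Eventually.of_forall fun _ => hW.f_mem) h1
    tendsto_const_nhds (ε / 2 / B) (div_pos (half_pos hε) hBp)
  have h4 : ∀ᶠ g in 𝓝[M] f, g ∈ BF A C :=
    eventually_nhdsWithin_of_forall fun g hg => hM.sub hg
  have h5 := bf_unif h4 (hM.sub hf) h1 (‖z₀‖ + r) (ε / 2 / L) (div_pos (half_pos hε) hL)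
  filter_upwards [h2, h3, h5] with g hg2 hg3 hg5 x hx
  have hu := hW.mem f hW.f_mem x hx
  have h6 : ‖A.loc i g (u g x) - A.loc i g (u f x)‖ ≤ ε / 2 := by
    refine (hW.up g hg2 _ (hW.mem g hg2 x hx) _ hu).trans ?_
    calc B * ‖u g x - u f x‖ ≤ B * (ε / 2 / B) :=
          mul_le_mul_of_nonneg_left (hg3 x hx) hBp.le
      _ = ε / 2 := by field_simp
  have h7 : ‖A.loc i g (u f x) - A.loc i f (u f x)‖ ≤ ε / 2 := by
    have h8 := hB.ch_le i (f z₀) (subset_closure hW.core) _ (hW.near g hg2 _ hu) _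
      (hW.near f hW.f_mem _ hu)
    refine le_trans h8 ?_
    have h9 : ‖u f x‖ ≤ ‖z₀‖ + r := by
      have h10 : ‖u f x - z₀‖ < r := by
        rw [← dist_eq_norm]
        exact hu
      calc ‖u f x‖ = ‖z₀ + (u f x - z₀)‖ := by rw [add_sub_cancel]
        _ ≤ ‖z₀‖ + ‖u f x - z₀‖ := norm_add_le _ _
        _ ≤ ‖z₀‖ + r := by linarith
    calc L * dist (g (u f x)) (f (u f x)) ≤ L * (ε / 2 / L) :=
          mul_le_mul_of_nonneg_left (hg5 _ h9).le hL.le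
      _ = ε / 2 := by field_simp
  calc ‖gr A i u g x - gr A i u f x‖
      = ‖(A.loc i g (u g x) - A.loc i g (u f x)) + (A.loc i g (u f x) - A.loc i f (u f x))‖ := by
        rw [sub_add_sub_cancel]
        rfl
    _ ≤ ε / 2 + ε / 2 := (norm_add_le _ _).trans (add_le_add h6 h7)
    _ = ε := by ring

/-- convergence of the derivatives of the graphs -/
theorem dode_jet (hB : BLip A lam L) (hM : Min A C M) {f : ℂ → X} (hf : f ∈ M) {z₀ : ℂ}
    {i : A.ι} {l : E →L[ℂ] ℂ} {r ρ B : ℝ} {V : Set (ℂ → X)} {u : (ℂ → X) → ℂ → ℂ}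
    (hW : Win A M f z₀ i l lam r ρ B V u) (k : ℕ) {ε : ℝ} (hε : 0 < ε) :
    ∃ ρ' > 0, ρ' ≤ ρ ∧ ∃ V' ∈ 𝓝[M] f, V' ⊆ V ∧ ∀ g ∈ V', ∀ x ∈ ball (l (A.loc i f z₀)) ρ',
      ∀ q ≤ k, ‖iteratedDeriv q (gr A i u g) x -
        iteratedDeriv q (gr A i u f) (l (A.loc i f z₀))‖ < ε := by
  have : CompleteSpace E := FiniteDimensional.complete ℂ E
  set x₀ := l (A.loc i f z₀) with hx₀
  have hρ := hW.ρ_pos
  -- continuity of the derivatives of the graph of `f`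
  have hcont : ∀ q : ℕ, ∀ᶠ x in 𝓝 x₀, ‖iteratedDeriv q (gr A i u f) x -
      iteratedDeriv q (gr A i u f) x₀‖ < ε / 2 := by
    intro q
    have h1 : AnalyticAt ℂ (gr A i u f) x₀ := dode_an hW hW.f_mem (mem_ball_self hρ)
    have h2 : AnalyticAt ℂ (iteratedDeriv q (gr A i u f)) x₀ := by
      rw [iteratedDeriv_eq_iterate]
      exact h1.iterated_deriv q
    have h3 := h2.continuousAt.tendsto (ball_mem_nhds _ (half_pos hε))
    filter_upwards [h3] with x hx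
    rw [← dist_eq_norm]
    exact hx
  have hcont' : ∀ᶠ x in 𝓝 x₀, ∀ q ∈ Finset.range (k + 1), ‖iteratedDeriv q (gr A i u f) x -
      iteratedDeriv q (gr A i u f) x₀‖ < ε / 2 :=
    (Finset.eventually_all _).2 fun q _ => hcont q
  obtain ⟨ρ₁, hρ₁, hρ₁a⟩ := Metric.eventually_nhds_iff_ball.1 hcont'
  -- a uniform bound for the Cauchy estimates
  set R : ℝ := ρ / 4 with hR
  have hRpos : 0 < R := by rw [hR]; linarith
  obtain ⟨N, hN1, hN⟩ : ∃ N : ℝ, 0 < N ∧ ∀ q ∈ Finset.range (k + 1),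
      (q.factorial : ℝ) / R ^ q ≤ N := by
    refine ⟨1 + ∑ q ∈ Finset.range (k + 1), (q.factorial : ℝ) / R ^ q, ?_, fun q hq => ?_⟩
    · have : 0 ≤ ∑ q ∈ Finset.range (k + 1), (q.factorial : ℝ) / R ^ q :=
        Finset.sum_nonneg fun q _ => by positivity
      linarith
    · have := Finset.single_le_sum (f := fun q => (q.factorial : ℝ) / R ^ q)
        (fun q _ => by positivity) hq
      linarith
  have hη : 0 < ε / 4 / N := div_pos (by linarith) hN1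
  have hU := dode_unif hB hM hf hW hη
  refine ⟨min ρ₁ (ρ / 2), lt_min hρ₁ (by linarith), (min_le_right _ _).trans (by linarith),
    {g | g ∈ V ∧ ∀ x ∈ ball x₀ ρ, ‖gr A i u g x - gr A i u f x‖ ≤ ε / 4 / N},
    by filter_upwards [hW.V_mem, hU] with g h1 h2 using ⟨h1, h2⟩, fun g hg => hg.1, ?_⟩
  rintro g ⟨hgV, hgU⟩ x hx q hq
  have hxρ : dist x x₀ < ρ / 2 := lt_of_lt_of_le hx (min_le_right _ _)
  have hsub : closedBall x R ⊆ ball x₀ ρ := by
    intro y hy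
    have h1 := dist_triangle y x x₀
    have h2 : dist y x ≤ R := hy
    rw [hR] at h2
    exact mem_ball.2 (by linarith)
  have hxb : x ∈ ball x₀ ρ := hsub (mem_closedBall_self hRpos.le)
  have h1 : ‖iteratedDeriv q (fun y => gr A i u g y - gr A i u f y) x‖ ≤
      q.factorial * (ε / 4 / N) / R ^ q := by
    refine Complex.norm_iteratedDeriv_le_of_forall_mem_sphere_norm_le q hRpos ?_ ?_
    · refine DifferentiableOn.diffContOnCl ?_
      rw [closure_ball x hRpos.ne']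
      intro y hy
      exact ((dode_an hW hgV (hsub hy)).differentiableAt.sub
        (dode_an hW hW.f_mem (hsub hy)).differentiableAt).differentiableWithinAt
    · intro y hy
      exact hgU y (hsub (sphere_subset_closedBall hy))
  have h2 : iteratedDeriv q (fun y => gr A i u g y - gr A i u f y) x =
      iteratedDeriv q (gr A i u g) x - iteratedDeriv q (gr A i u f) x :=
    iteratedDeriv_fun_sub (dode_an hW hgV hxb).contDiffAt (dode_an hW hW.f_mem hxb).contDiffAt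
  rw [h2] at h1
  have h3 : (q.factorial : ℝ) * (ε / 4 / N) / R ^ q ≤ ε / 4 := by
    have h4 := hN q (Finset.mem_range.2 (by omega))
    calc (q.factorial : ℝ) * (ε / 4 / N) / R ^ q = (q.factorial : ℝ) / R ^ q * (ε / 4 / N) := by
          ring
      _ ≤ N * (ε / 4 / N) := mul_le_mul_of_nonneg_right h4 hη.le
      _ = ε / 4 := by field_simp
  have h5 := hρ₁a x (mem_ball.2 (lt_of_lt_of_le (mem_ball.1 hx) (min_le_left _ _))) q (Finset.mem_range.2 (by omega))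
  calc ‖iteratedDeriv q (gr A i u g) x - iteratedDeriv q (gr A i u f) x₀‖
      = ‖(iteratedDeriv q (gr A i u g) x - iteratedDeriv q (gr A i u f) x) +
        (iteratedDeriv q (gr A i u f) x - iteratedDeriv q (gr A i u f) x₀)‖ := by
        rw [sub_add_sub_cancel]
    _ ≤ _ := norm_add_le _ _
    _ < ε := by linarith

theorem gr_ode_pr (hE : Module.finrank ℂ E = 2) (hB : BLip A lam L) (hM : Min A C M) {f : ℂ → X}
    (hf : f ∈ M) {z₀ : ℂ} {i : A.ι} {l : E →L[ℂ] ℂ} {r ρ B : ℝ} {V : Set (ℂ → X)}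
    {u : (ℂ → X) → ℂ → ℂ} (hW : Win A M f z₀ i l lam r ρ B V u) (p : Fin (k + 1))
    (hR : ∀ χ : ℂ → ℂ, AnalyticAt ℂ χ 0 → χ 0 = z₀ → deriv χ 0 ≠ 0 →
      Reg A k M p i (fun ζ => f (χ ζ))) :
    ∃ ρ' > 0, ρ' ≤ ρ ∧ ∃ C' ≥ 0, ∃ V' ∈ 𝓝[M] f, V' ⊆ V ∧ ∀ g ∈ V', ∀ h ∈ V',
      ∀ x ∈ ball (l (A.loc i f z₀)) ρ',
        ‖iteratedDeriv p (fun y => gr A i u h y - gr A i u g y) x‖ ≤
          C' * ∑ q ∈ Finset.range p, ‖iteratedDeriv q (fun y => gr A i u h y - gr A i u g y) x‖ := by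
  set x₀ := l (A.loc i f z₀) with hx₀
  have hρ := hW.ρ_pos
  have hx₀b : x₀ ∈ ball (l (A.loc i f z₀)) ρ := mem_ball_self hρ
  obtain ⟨h1, h2, -, -, h5⟩ := dode_rp (k := k) hB hW hW.f_mem hx₀b
  have h3 : u f (x₀ + 0) = z₀ := by
    rw [add_zero]
    exact (win_uniq hW hW.f_mem (mem_ball_self hW.r_pos) hx₀b).symm
  obtain ⟨Φ, hΦ, hΦ1, hΦ2⟩ := hR _ h1 h3 h2
  set c : ℂ → X := fun ζ => f (u f (x₀ + ζ)) with hc
  set J₀ : Fin (k + 1) → E := jt A k i c with hJ₀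
  have hJ₀q : ∀ q : Fin (k + 1), J₀ q = iteratedDeriv q (gr A i u f) x₀ := h5
  set D := fderiv ℂ Φ J₀ with hD
  have hcd : deriv (A.loc i c) 0 = deriv (gr A i u f) x₀ := by
    have h6 : A.loc i c = fun ζ => gr A i u f (x₀ + ζ) := rfl
    rw [h6, deriv_comp_const_add, add_zero]
  have hlc : l (deriv (A.loc i c) 0) = 1 := by
    rw [hcd]
    exact (dode_deriv_u hW hW.f_mem hx₀b).1
  obtain ⟨κ, hκ, hκ1⟩ := dode_lin hlc
    (D.comp (ContinuousLinearMap.single ℂ (fun _ : Fin (k + 1) => E) p)) (fun v hv => hΦ1 v hv)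
  -- strict differentiability
  have hstr := hΦ.hasStrictFDerivAt.isLittleO
  have hstr' := hstr.bound (half_pos hκ)
  have hev : ∀ᶠ s in 𝓝 J₀ ×ˢ 𝓝 J₀, (‖Φ s.1 - Φ s.2 - D (s.1 - s.2)‖ ≤ κ / 2 * ‖s.1 - s.2‖) ∧
      (∀ d ∈ Rp M, d 0 ∈ (A.ch i).source → (∀ q ≤ p, s.1 q = jt A k i d q) → Φ s.1 = 0) ∧
      (∀ d ∈ Rp M, d 0 ∈ (A.ch i).source → (∀ q ≤ p, s.2 q = jt A k i d q) → Φ s.2 = 0) := by
    rw [nhds_prod_eq] at hstr'
    exact hstr'.and ((tendsto_fst.eventually hΦ2).and (tendsto_snd.eventually hΦ2))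
  rw [← nhds_prod_eq] at hev
  obtain ⟨ε, hε, hεb⟩ := Metric.eventually_nhds_iff_ball.1 hev
  obtain ⟨ρ', hρ', hρ'ρ, V', hV', hV'V, hJ⟩ := dode_jet hB hM hf hW k hε
  have hnn : (0 : ℝ) ≤ 1 + 2 * ‖D‖ / κ := by positivity
  refine ⟨ρ', hρ', hρ'ρ, 1 + 2 * ‖D‖ / κ, hnn, V', hV', hV'V, fun g hg h hh x hx => ?_⟩
  have hxb : x ∈ ball (l (A.loc i f z₀)) ρ := ball_subset_ball hρ'ρ hx
  -- the two jets
  set J : Fin (k + 1) → E := fun q => iteratedDeriv q (gr A i u g) x with hJdef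
  set J' : Fin (k + 1) → E := fun q => if q ≤ p then iteratedDeriv q (gr A i u h) x
    else iteratedDeriv q (gr A i u g) x with hJ'def
  have hJb : J ∈ ball J₀ ε := by
    rw [mem_ball, dist_pi_lt_iff hε]
    intro q
    rw [dist_eq_norm, hJ₀q q]
    exact hJ g hg x hx q (Nat.lt_succ_iff.1 q.2)
  have hJ'b : J' ∈ ball J₀ ε := by
    rw [mem_ball, dist_pi_lt_iff hε]
    intro q
    rw [dist_eq_norm, hJ₀q q, hJ'def]
    dsimp only
    split_ifs
    · exact hJ h hh x hx q (Nat.lt_succ_iff.1 q.2)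
    · exact hJ g hg x hx q (Nat.lt_succ_iff.1 q.2)
  have hpair : (J', J) ∈ ball (J₀, J₀) ε := by
    rw [mem_ball, Prod.dist_eq]
    exact max_lt hJ'b hJb
  obtain ⟨hA1, hA2, hA3⟩ := hεb _ hpair
  obtain ⟨-, -, hgR, hgs, hgj⟩ := dode_rp (k := k) hB hW (hV'V hg) hxb
  obtain ⟨-, -, hhR, hhs, hhj⟩ := dode_rp (k := k) hB hW (hV'V hh) hxb
  have hΦJ : Φ J = 0 := hA3 _ hgR hgs fun q _ => (hgj q).symm
  have hΦJ' : Φ J' = 0 := by
    refine hA2 _ hhR hhs fun q hq => ?_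
    rw [hhj q]
    exact if_pos hq
  dsimp only at hA1
  rw [hΦJ, hΦJ', sub_zero, zero_sub, norm_neg] at hA1
  -- the difference
  have hdiff : ∀ q : ℕ, iteratedDeriv q (fun y => gr A i u h y - gr A i u g y) x =
      iteratedDeriv q (gr A i u h) x - iteratedDeriv q (gr A i u g) x := fun q =>
    iteratedDeriv_fun_sub (dode_an hW (hV'V hh) hxb).contDiffAt
      (dode_an hW (hV'V hg) hxb).contDiffAt
  set w : Fin (k + 1) → E := J' - J with hw
  have hw1 : ∀ q : Fin (k + 1), q ≤ p → w q =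
      iteratedDeriv q (fun y => gr A i u h y - gr A i u g y) x := by
    intro q hq
    rw [hdiff, hw, Pi.sub_apply, hJ'def, hJdef]
    dsimp only
    rw [if_pos hq]
  have hw2 : ∀ q : Fin (k + 1), p < q → w q = 0 := by
    intro q hq
    rw [hw, Pi.sub_apply, hJ'def, hJdef]
    dsimp only
    rw [if_neg (not_le.2 hq), sub_self]
  have hlw : l (w p) = 0 := by
    rw [hw1 p le_rfl, dode_l_it l ((dode_an hW (hV'V hh) hxb).fun_sub (dode_an hW (hV'V hg) hxb))]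
    have h6 : (fun y => l (gr A i u h y - gr A i u g y)) =ᶠ[𝓝 x] fun _ => (0 : ℂ) := by
      filter_upwards [isOpen_ball.mem_nhds hxb] with y hy
      rw [map_sub, dode_l hW (hV'V hh) hy, dode_l hW (hV'V hg) hy, sub_self]
    rw [h6.iteratedDeriv_eq]
    simp
  have hfin := dode_core hκ hw2 (hκ1 (w p) hlw) hA1
  rw [hw1 p le_rfl] at hfin
  refine hfin.trans (mul_le_mul_of_nonneg_left (le_of_eq ?_) hnn)
  -- the two sums agree
  rw [Finset.sum_congr rfl fun q hq => by rw [hw1 q (Finset.mem_filter.1 hq).2.le]]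
  refine Finset.sum_bij (fun (q : Fin (k + 1)) _ => (q : ℕ)) ?_ ?_ ?_ ?_
  · intro q hq
    exact Finset.mem_range.2 (Finset.mem_filter.1 hq).2
  · intro q _ q' _ hqq
    exact Fin.ext hqq
  · intro n hn
    have hn' := Finset.mem_range.1 hn
    exact ⟨⟨n, by omega⟩, Finset.mem_filter.2 ⟨Finset.mem_univ _, hn'⟩, rfl⟩
  · intro q _
    rfl


end win

end Pool.Agent.MBS

namespace Pool.Agent.MBS
alias gr_ode := gr_ode_pr
end Pool.Agent.MBS
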