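import Pool.Agent.Lib_helper58.MBS.Base

/-! # Minimal Brody sets: block DLST -/

set_option autoImplicit false
set_option linter.unusedSectionVars false
set_option linter.unusedVariables false

open Filter Topology Metric Set

namespace Pool.Agent.MBS

open Pool.Agent.BR

section win

variable {E X : Type} [NormedAddCommGroup E] [NormedSpace ℂ E] [FiniteDimensional ℂ E]
  [MetricSpace X] [CompactSpace X] {A : Cha E X} {C lam L : ℝ} {M : Set (ℂ → X)} {k : ℕ}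

theorem mle_least_pr {θ ε : ℝ} (hε : 0 < ε) {f h : ℂ → X} (hf : f ∈ BF A C) (hh : h ∈ BF A C) :
    ∃ K : ℝ, 0 ≤ K ∧ Mle θ ε f h 0 K ∧ (K = 0 ∨ ∃ ζ, ‖ζ‖ ≤ 2 ∧ Smp θ ε f ζ ∧
      ∀ u, ‖u - ζ‖ ≤ ε → K ≤ dist (f ζ) (h u)) := by
  have hfc : Continuous f := continuous_iff_continuousAt.2 fun z => (hf.1 z).1
  have hhc : Continuous h := continuous_iff_continuousAt.2 fun z => (hh.1 z).1
  have hK : IsCompact (closedBall (0 : ℂ) ε) := isCompact_closedBall _ _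
  obtain ⟨G, hG⟩ : ∃ G : ℂ → ℂ → ℝ, G = fun ζ v => dist (f ζ) (h (ζ + v)) := ⟨_, rfl⟩
  have hGc : Continuous ↿G := by
    rw [hG]
    exact (hfc.comp continuous_fst).dist (hhc.comp (continuous_fst.add continuous_snd))
  have hd : Continuous fun ζ => sInf (G ζ '' closedBall (0 : ℂ) ε) := hK.continuous_sInf hGc
  have hGζ : ∀ ζ, ContinuousOn (G ζ) (closedBall (0 : ℂ) ε) := fun ζ =>
    (hGc.comp (Continuous.prodMk continuous_const continuous_id)).continuousOn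
  have hne : (closedBall (0 : ℂ) ε).Nonempty := ⟨0, mem_closedBall_self hε.le⟩
  have hmem : ∀ ζ, ∃ v ∈ closedBall (0 : ℂ) ε, G ζ v = sInf (G ζ '' closedBall (0 : ℂ) ε) := by
    intro ζ
    obtain ⟨v, hv, hv'⟩ := (hK.image_of_continuousOn (hGζ ζ)).sInf_mem (hne.image _)
    exact ⟨v, hv, hv'⟩
  have hbdd : ∀ ζ, BddBelow (G ζ '' closedBall (0 : ℂ) ε) := fun ζ =>
    (hK.image_of_continuousOn (hGζ ζ)).bddBelow
  have hle : ∀ ζ u : ℂ, ‖u - ζ‖ ≤ ε → sInf (G ζ '' closedBall (0 : ℂ) ε) ≤ dist (f ζ) (h u) := by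
    intro ζ u hu
    refine csInf_le (hbdd ζ) ⟨u - ζ, by simpa using hu, ?_⟩
    rw [hG]
    simp
  have hnn : ∀ ζ, 0 ≤ sInf (G ζ '' closedBall (0 : ℂ) ε) := by
    intro ζ
    obtain ⟨v, hv, hv'⟩ := hmem ζ
    rw [← hv', hG]
    exact dist_nonneg
  have hat : ∀ ζ, ∃ u, ‖u - ζ‖ ≤ ε ∧ dist (f ζ) (h u) = sInf (G ζ '' closedBall (0 : ℂ) ε) := by
    intro ζ
    obtain ⟨v, hv, hv'⟩ := hmem ζ
    refine ⟨ζ + v, by simpa using hv, ?_⟩
    rw [← hv', hG]
  -- the set of sample points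
  obtain ⟨S, hS⟩ : ∃ S : Set ℂ, S = {ζ | ‖ζ‖ ≤ 2 ∧ Smp θ ε f ζ} := ⟨_, rfl⟩
  have hSeq : S = closedBall 0 2 ∩ ⋂ v ∈ closedBall (0 : ℂ) ε,
      {ζ | θ * ‖v‖ ≤ dist (f ζ) (f (ζ + v))} := by
    rw [hS]
    ext ζ
    simp only [mem_ofPred_eq, mem_inter_iff, mem_closedBall, dist_zero_right, mem_iInter]
    refine and_congr_right fun _ => ⟨fun h1 v hv => ?_, fun h1 u hu => ?_⟩
    · have := h1 (ζ + v) (by simpa using hv)
      simpa using this
    · have := h1 (u - ζ) hu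
      simpa using this
  have hSc : IsCompact S := by
    rw [hSeq]
    refine (isCompact_closedBall _ _).inter_right (isClosed_biInter fun v _ => ?_)
    exact isClosed_le continuous_const (hfc.dist (hfc.comp (continuous_id.add continuous_const)))
  rcases S.eq_empty_or_nonempty with hSe | hSne
  · refine ⟨0, le_rfl, fun ζ h1 h2 => ?_, Or.inl rfl⟩
    have : ζ ∈ S := by rw [hS]; exact ⟨by simpa using h1, h2⟩
    rw [hSe] at this
    exact absurd this (notMem_empty _)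
  · obtain ⟨ζ₀, hζ₀, hmax⟩ := hSc.exists_isMaxOn hSne hd.continuousOn
    refine ⟨sInf (G ζ₀ '' closedBall (0 : ℂ) ε), hnn ζ₀, fun ζ h1 h2 => ?_, Or.inr ?_⟩
    · have h3 : ζ ∈ S := by rw [hS]; exact ⟨by simpa using h1, h2⟩
      obtain ⟨u, hu, hu'⟩ := hat ζ
      refine ⟨u, hu, ?_⟩
      rw [hu']
      exact hmax h3
    · rw [hS] at hζ₀
      exact ⟨ζ₀, hζ₀.1, hζ₀.2, hle ζ₀⟩

end win

end Pool.Agent.MBS

namespace Pool.Agent.MBS
alias mle_least := mle_least_pr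
end Pool.Agent.MBS
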