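import Pool.Agent.Lib_helper58.MBS.Base

/-! # Minimal Brody sets: block ETF (the forms) -/

set_option autoImplicit false
set_option linter.unusedSectionVars false
set_option linter.unusedVariables false

open Filter Topology Metric Set

namespace Pool.Agent.MBS

open Pool.Agent.BR

section sec

variable {E X : Type} [NormedAddCommGroup E] [NormedSpace ℂ E] [FiniteDimensional ℂ E]
  [MetricSpace X] [CompactSpace X] {A : Cha E X} {C lam L : ℝ} {M : Set (ℂ → X)} {k N : ℕ}

/-- two independent vectors of a plane span it -/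
theorem etf_span (hE : Module.finrank ℂ E = 2) {e₁ e₂ : E}
    (he : LinearIndependent ℂ ![e₁, e₂]) (v : E) : ∃ a b : ℂ, v = a • e₁ + b • e₂ := by
  have h1 := he.span_eq_top_of_card_eq_finrank (by rw [hE]; simp)
  have h2 : v ∈ Submodule.span ℂ (Set.range ![e₁, e₂]) := by rw [h1]; trivial
  rw [Matrix.range_cons, Matrix.range_cons, Matrix.range_empty, Set.union_empty,
    Set.singleton_union, Submodule.mem_span_pair] at h2
  obtain ⟨a, b, h3⟩ := h2
  exact ⟨a, b, h3.symm⟩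

/-- ETF: the forms on the kernel of a linear form -/
theorem form_ker_pr (hE : Module.finrank ℂ E = 2) (F : A.Frm N k) (l : E →L[ℂ] ℂ) {e₁ e₂ : E}
    (h1 : l e₁ = 1) (h2 : l e₂ = 0) (i : A.ι) {ξ : E} (hξ : ξ ∈ (A.ch i).target) (b : ℂ) (v : E) :
    F.T i ξ (b • e₂) v = (- (b * l v)) ^ k • F.T i ξ e₁ e₂ := by
  have heq := (F.tf i).equi ξ hξ
  by_cases he2 : e₂ = 0
  · subst he2
    rcases Nat.eq_zero_or_pos k with hk | hk
    · subst hk
      have hc : ∀ u w : E, F.T i ξ u w = F.T i ξ 0 0 := by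
        intro u w
        have h := heq 0 0 0 0 u w
        simp at h
        exact h.symm
      rw [hc (b • (0 : E)) v, hc e₁ 0]
      simp
    · have hk' : k ≠ 0 := hk.ne'
      have h3 : F.T i ξ (b • (0 : E)) v = 0 := by
        have h := heq 0 0 0 1 (0 : E) v
        simp [hk'] at h
        simpa using h
      have h4 : F.T i ξ e₁ 0 = 0 := by
        have h := heq 1 0 0 0 e₁ (0 : E)
        simp [hk'] at h
        simpa using h
      rw [h3, h4, smul_zero]
  · have he : LinearIndependent ℂ ![e₁, e₂] := by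
      rw [LinearIndependent.pair_iff]
      intro s t hst
      have h5 : l (s • e₁ + t • e₂) = 0 := by rw [hst, map_zero]
      rw [map_add, map_smul, map_smul, h1, h2] at h5
      have hs : s = 0 := by simpa using h5
      refine ⟨hs, ?_⟩
      rw [hs, zero_smul, zero_add] at hst
      rcases smul_eq_zero.1 hst with h6 | h6
      · exact h6
      · exact absurd h6 he2
    obtain ⟨c, d, hv⟩ := etf_span hE he v
    have hlv : l v = c := by
      rw [hv, map_add, map_smul, map_smul, h1, h2]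
      simp
    have h := heq 0 b c d e₁ e₂
    rw [zero_smul, zero_add, ← hv] at h
    rw [h, hlv]
    congr 2
    ring

/-- ETF: the forms of two vectors are multiples of the form of a basis -/
theorem form_par_pr (hE : Module.finrank ℂ E = 2) (F : A.Frm N k) {e₁ e₂ : E}
    (he : LinearIndependent ℂ ![e₁, e₂]) (i : A.ι) {ξ : E} (hξ : ξ ∈ (A.ch i).target) (u v : E) :
    ∃ c : ℂ, F.T i ξ u v = c • F.T i ξ e₁ e₂ := by
  obtain ⟨a, b, hu⟩ := etf_span hE he u
  obtain ⟨c, d, hv⟩ := etf_span hE he v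
  refine ⟨(a * d - b * c) ^ k, ?_⟩
  rw [hu, hv]
  exact (F.tf i).equi ξ hξ a b c d e₁ e₂

/-- the form is homogeneous -/
theorem etf_hom (F : A.Frm N k) (i : A.ι) {ξ : E} (hξ : ξ ∈ (A.ch i).target) (u v : E) :
    ∃ u' v' : E, ‖u'‖ ≤ 1 ∧ ‖v'‖ ≤ 1 ∧
      F.T i ξ u v = ((‖u‖ : ℂ) * (‖v‖ : ℂ)) ^ k • F.T i ξ u' v' := by
  have hn : ∀ w : E, ∃ w' : E, ‖w'‖ ≤ 1 ∧ w = (‖w‖ : ℂ) • w' := by
    intro w
    by_cases hw : w = 0
    · exact ⟨0, by simp, by simp [hw]⟩
    · have hw' : ‖w‖ ≠ 0 := norm_ne_zero_iff.2 hw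
      have hw'' : (‖w‖ : ℂ) ≠ 0 := by exact_mod_cast hw'
      refine ⟨((‖w‖ : ℂ))⁻¹ • w, ?_, ?_⟩
      · rw [norm_smul, norm_inv, Complex.norm_real, norm_norm, inv_mul_cancel₀ hw']
      · rw [smul_smul, mul_inv_cancel₀ hw'', one_smul]
  obtain ⟨u', hu1, hu2⟩ := hn u
  obtain ⟨v', hv1, hv2⟩ := hn v
  refine ⟨u', v', hu1, hv1, ?_⟩
  have h := (F.tf i).equi ξ hξ (‖u‖ : ℂ) 0 0 (‖v‖ : ℂ) u' v'
  rw [zero_smul, zero_smul, add_zero, zero_add, ← hu2, ← hv2] at h
  rw [h]
  congr 2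
  ring

/-- ETF: bound for the forms on the cores -/
theorem form_bound_pr (F : A.Frm N k) : ∃ B > 0, ∀ i, ∀ x ∈ closure (A.W i), ∀ u v : E,
    ‖F.T i (A.ch i x) u v‖ ≤ B * (‖u‖ * ‖v‖) ^ k := by
  have hi : ∀ i : A.ι, ∃ B : ℝ, ∀ x ∈ closure (A.W i), ∀ u v : E, ‖u‖ ≤ 1 → ‖v‖ ≤ 1 →
      ‖F.T i (A.ch i x) u v‖ ≤ B := by
    intro i
    have hK1 : IsCompact (A.ch i '' closure (A.W i)) :=
      (isClosed_closure.isCompact).image_of_continuousOn ((A.ch i).continuousOn.mono (A.W_sub i))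
    have hK2 : A.ch i '' closure (A.W i) ⊆ (A.ch i).target := by
      rintro _ ⟨x, hx, rfl⟩
      exact (A.ch i).map_source (A.W_sub i hx)
    have hS : IsCompact (closedBall (0 : E) 1) := isCompact_closedBall 0 1
    have hP := hK1.prod (hS.prod hS)
    have hc : ContinuousOn (fun p : E × E × E => F.T i p.1 p.2.1 p.2.2)
        ((A.ch i '' closure (A.W i)) ×ˢ (closedBall (0 : E) 1 ×ˢ closedBall (0 : E) 1)) := by
      rintro ⟨ξ, u, v⟩ ⟨h1, -⟩
      exact ((F.tf i).hol ξ (hK2 h1) u v).continuousAt.continuousWithinAt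
    obtain ⟨B, hB⟩ := hP.exists_bound_of_continuousOn hc
    refine ⟨B, fun x hx u v hu hv => ?_⟩
    exact hB (A.ch i x, u, v) ⟨⟨x, hx, rfl⟩, by simpa using hu, by simpa using hv⟩
  choose B hB using hi
  have := A.fin
  obtain ⟨B', hB'⟩ := (Set.finite_range B).bddAbove
  refine ⟨max B' 1, lt_of_lt_of_le one_pos (le_max_right _ _), fun i x hx u v => ?_⟩
  obtain ⟨u', v', hu, hv, h⟩ := etf_hom F i ((A.ch i).map_source (A.W_sub i hx)) u v
  rw [h, norm_smul, norm_pow, norm_mul, Complex.norm_real, Complex.norm_real, norm_norm, norm_norm,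
    mul_comm]
  refine mul_le_mul_of_nonneg_right ?_ (by positivity)
  exact (hB i x hx u' v' hu hv).trans ((hB' ⟨i, rfl⟩).trans (le_max_left _ _))

end sec


end Pool.Agent.MBS

namespace Pool.Agent.MBS
alias form_ker := form_ker_pr
alias form_par := form_par_pr
alias form_bound := form_bound_pr
end Pool.Agent.MBS
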