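import Pool.Agent.Lib_helper58.MBS.Base
import Pool.Agent.Lib_helper58.MBS.L.ACRC
import Pool.Agent.Lib_helper58.MBS.L.BCHT
import Pool.Agent.Lib_helper58.MBS.L.BLIM
import Pool.Agent.Lib_helper58.MBS.L.BNC
import Pool.Agent.Lib_helper58.MBS.L.ETF

/-! # Minimal Brody sets: block ECRI (the section near the critical points of a stable curve) -/

set_option autoImplicit false
set_option linter.unusedSectionVars false
set_option linter.unusedVariables false

open Filter Topology Metric Set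

namespace Pool.Agent.MBS

open Pool.Agent.BR

section ecri_pure

/-- choice of points converging to `z₀` -/
theorem ecri_choose {κ : Type} {U : Filter κ} {m : κ → ℝ} (hm : ∀ᶠ n in U, 0 < m n)
    (hm0 : Tendsto m U (𝓝 0)) {z₀ : ℂ} (S : κ → Set ℂ)
    (h : ∀ ε > 0, ∀ᶠ n in U, ∃ z, ‖z - z₀‖ < ε ∧ z ∈ S n) :
    ∃ zs : κ → ℂ, Tendsto zs U (𝓝 z₀) ∧ ∀ᶠ n in U, zs n ∈ S n := by
  classical
  have h1 : ∀ n, (S n).Nonempty → 0 < m n → ∃ z ∈ S n, dist z₀ z < infDist z₀ (S n) + m n := by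
    intro n hn hmn
    exact (infDist_lt_iff hn).1 (by linarith)
  set zs : κ → ℂ := fun n => if hn : (S n).Nonempty ∧ 0 < m n then (h1 n hn.1 hn.2).choose else 0
    with hzs
  have h2 : ∀ᶠ n in U, (S n).Nonempty ∧ 0 < m n := by
    filter_upwards [h 1 one_pos, hm] with n ⟨z, _, hz⟩ hmn
    exact ⟨⟨z, hz⟩, hmn⟩
  have h3 : ∀ n, (S n).Nonempty ∧ 0 < m n →
      zs n ∈ S n ∧ dist z₀ (zs n) < infDist z₀ (S n) + m n := by
    intro n hn
    have := (h1 n hn.1 hn.2).choose_spec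
    simp only [hzs, dif_pos hn]
    exact this
  refine ⟨zs, ?_, ?_⟩
  · rw [Metric.tendsto_nhds]
    intro ε hε
    have h4 : ∀ᶠ n in U, m n < ε / 2 := (hm0.eventually (gt_mem_nhds (by positivity)))
    filter_upwards [h (ε / 2) (by positivity), h2, h4] with n ⟨z, hz, hzS⟩ hn hmn
    have h5 := (h3 n hn).2
    have h6 : infDist z₀ (S n) ≤ dist z₀ z := infDist_le_dist_of_mem hzS
    rw [dist_comm, dist_eq_norm] at h6
    rw [dist_comm]
    linarith
  · filter_upwards [h2] with n hn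
    exact (h3 n hn).1

/-- a basis adapted to a linear form on a plane -/
theorem ecri_basis {E : Type} [NormedAddCommGroup E] [NormedSpace ℂ E] [FiniteDimensional ℂ E]
    (hE : Module.finrank ℂ E = 2) (l : E →L[ℂ] ℂ) {x : E} (hx : l x ≠ 0) :
    ∃ e₁ e₂ : E, l e₁ = 1 ∧ l e₂ = 0 ∧ e₂ ≠ 0 ∧ ∀ d, l d = 0 → ∃ b : ℂ, d = b • e₂ := by
  have hr : LinearMap.range (l : E →ₗ[ℂ] ℂ) = ⊤ := by
    rw [LinearMap.range_eq_top]
    intro y
    refine ⟨(y / l x) • x, ?_⟩
    simp [hx]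
  have h1 := LinearMap.finrank_range_add_finrank_ker (l : E →ₗ[ℂ] ℂ)
  rw [hr, hE, finrank_top, Module.finrank_self] at h1
  have h2 : Module.finrank ℂ (LinearMap.ker (l : E →ₗ[ℂ] ℂ)) = 1 := by omega
  obtain ⟨w, hw, hspan⟩ := finrank_eq_one_iff'.1 h2
  refine ⟨(l x)⁻¹ • x, w, by simp [hx], ?_, fun h => hw (Subtype.ext h), fun d hd => ?_⟩
  · simp
  · obtain ⟨b, hb⟩ := hspan ⟨d, by simpa using hd⟩
    exact ⟨b, by rw [← Submodule.coe_smul, hb]⟩

end ecri_pure

section sec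

variable {E X : Type} [NormedAddCommGroup E] [NormedSpace ℂ E] [FiniteDimensional ℂ E]
  [MetricSpace X] [CompactSpace X] {A : Cha E X} {C lam L : ℝ} {M : Set (ℂ → X)} {k N : ℕ}

/-- ECRI: the section is bounded near the critical points of a stable curve -/
theorem sig_crit_pr (hE : Module.finrank ℂ E = 2) (hB : BLip A lam L) (hM : Min A C M)
    (F : A.Frm N k) {κ : Type} {U : Ultrafilter κ} {f : ℂ → X} {h : κ → ℂ → X} {m : κ → ℝ}
    (hS : Sit A M U f h m) (hst : Stable A M f) {z₀ : ℂ} (hz₀ : ¬ NC A f z₀) :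
    ∃ r > 0, ∃ B : ℝ, ∀ z ∈ ball z₀ r, z ≠ z₀ → NC A f z ∧
      ∀ v, IsSig A F (U : Filter κ) f h m z v → ‖v‖ ≤ B := by
  classical
  have hfB : f ∈ BF A C := hM.sub hS.f_mem
  have hhB : ∀ᶠ n in (U : Filter κ), h n ∈ BF A C := hS.h_mem.mono fun n hn => hM.sub hn
  have hf := hfB.1
  obtain ⟨i, hi⟩ := hB.leb (f z₀)
  have hlam := hB.lam_pos
  have hiW : f z₀ ∈ A.W i := hi (mem_ball_self hlam)
  have hicl : f z₀ ∈ closure (A.W i) := subset_closure hiW
  have his : f z₀ ∈ (A.ch i).source := A.W_sub i hicl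
  -- the order
  have hex := van_finite hf (hM.nc f hS.f_mem) z₀
  set a := Nat.find hex with ha
  have ha1 : ¬ VanAt A a f z₀ := Nat.find_spec hex
  have ha0 : 0 < a := by
    rcases Nat.eq_zero_or_pos a with h0 | h0
    · exact absurd (fun j _ q h1 h2 => by omega) (h0 ▸ ha1)
    · exact h0
  have ha2 : VanAt A (a - 1) f z₀ := by
    by_contra hcon
    have := Nat.find_min' hex hcon
    omega
  have hHol : ∀ᶠ w in 𝓝 z₀, A.HolAt f w := Eventually.of_forall hf
  have hv1 : ∀ q, 1 ≤ q → q < a → iteratedDeriv q (A.loc i f) z₀ = 0 := by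
    intro q hq hqa
    exact ha2 i his q hq (by omega)
  have hv2 : iteratedDeriv a (A.loc i f) z₀ ≠ 0 := by
    intro hcon
    apply ha1
    rw [van_iff hHol i his a]
    intro q hq hqa
    rcases Nat.lt_or_ge q a with h1 | h1
    · exact hv1 q hq h1
    · have : q = a := le_antisymm hqa h1
      rw [this]; exact hcon
  -- the linear form
  obtain ⟨l, hl⟩ := SeparatingDual.exists_ne_zero (R := ℂ) hv2
  obtain ⟨e₁, e₂, he₁, he₂, he₂0, hker⟩ := ecri_basis hE l hl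
  -- the chart
  obtain ⟨r₁, hr₁, hf1, hh1, hunif⟩ := bf_chart hhB hfB hS.lim z₀ i his
  -- nearby curves stay in the ball
  have hcont : ContinuousAt f z₀ := (hf z₀).1
  obtain ⟨rc, hrc, hfc⟩ := Metric.continuousAt_iff.1 hcont (lam / 2) (by positivity)
  have hhc : ∀ᶠ n in (U : Filter κ), ∀ z, ‖z‖ ≤ ‖z₀‖ + rc → dist (h n z) (f z) < lam / 2 :=
    bf_unif hhB hfB hS.lim (‖z₀‖ + rc) (lam / 2) (by positivity)
  have hfball : ∀ z ∈ ball z₀ rc, f z ∈ ball (f z₀) lam := by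
    intro z hz
    have := hfc (mem_ball.1 hz)
    rw [mem_ball]; linarith
  have hhball : ∀ᶠ n in (U : Filter κ), ∀ z ∈ ball z₀ rc, h n z ∈ ball (f z₀) lam := by
    filter_upwards [hhc] with n hn z hz
    have h1 := hfc (mem_ball.1 hz)
    have h2 : ‖z‖ ≤ ‖z₀‖ + rc := by
      have h3 : ‖z - z₀‖ < rc := by rwa [← dist_eq_norm]
      have h4 : ‖z‖ ≤ ‖z - z₀‖ + ‖z₀‖ := by
        have := norm_add_le (z - z₀) z₀
        simpa using this
      linarith
    have h3 := hn z h2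
    rw [mem_ball]
    calc dist (h n z) (f z₀) ≤ dist (h n z) (f z) + dist (f z) (f z₀) := dist_triangle _ _ _
      _ < lam := by linarith
  -- noncritical points near `z₀`
  have hder : ∀ᶠ z in 𝓝[≠] z₀, deriv (A.loc i f) z ≠ 0 := by
    have h1 : AnalyticAt ℂ (A.loc i f) z₀ := (hf1 z₀ (mem_ball_self hr₁)).2
    rcases h1.deriv.eventually_eq_zero_or_eventually_ne_zero with h2 | h2
    · exfalso
      apply hv2
      obtain ⟨a', ha'⟩ : ∃ a', a = a' + 1 := ⟨a - 1, by omega⟩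
      rw [ha', iteratedDeriv_succ']
      have h3 : deriv (A.loc i f) =ᶠ[𝓝 z₀] fun _ => (0 : E) := h2
      rw [(h3.iteratedDeriv_eq a')]
      simp
    · exact h2
  obtain ⟨r₀, hr₀, hr₀d⟩ : ∃ r₀ > 0, ∀ z ∈ ball z₀ r₀, z ≠ z₀ → deriv (A.loc i f) z ≠ 0 := by
    rw [eventually_nhdsWithin_iff, Metric.eventually_nhds_iff_ball] at hder
    obtain ⟨r₀, hr₀, h1⟩ := hder
    exact ⟨r₀, hr₀, fun z hz hne => h1 z hz hne⟩
  -- the radius
  obtain ⟨r, hr, hrr₁, hrrc, hrr₀⟩ : ∃ r > 0, r ≤ r₁ ∧ 3 * r < rc ∧ r ≤ r₀ := by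
    refine ⟨min r₁ (min (rc / 4) r₀), by positivity, min_le_left _ _, ?_, ?_⟩
    · have h1 : min r₁ (min (rc / 4) r₀) ≤ rc / 4 := (min_le_right _ _).trans (min_le_left _ _)
      linarith
    · exact (min_le_right _ _).trans (min_le_right _ _)
  have hNC : ∀ z ∈ ball z₀ r, z ≠ z₀ → NC A f z := by
    intro z hz hne
    rw [nc_iff (hf z) i (hf1 z (ball_subset_ball hrr₁ hz)).1]
    exact hr₀d z (ball_subset_ball hrr₀ hz) hne
  -- the critical points of the nearby curves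
  have hlimM : Tendsto h (U : Filter κ) (𝓝[M] f) := tendsto_nhdsWithin_iff.2 ⟨hS.lim, hS.h_mem⟩
  obtain ⟨zs, hzs, hzsV⟩ : ∃ zs : κ → ℂ, Tendsto zs (U : Filter κ) (𝓝 z₀) ∧
      ∀ᶠ n in (U : Filter κ), zs n ∈ {z | VanAt A (a - 1) (h n) z} := by
    refine ecri_choose hS.m_pos hS.m_lim (fun n => {z | VanAt A (a - 1) (h n) z}) ?_
    intro ε hε
    exact hlimM.eventually (hst (a - 1) z₀ ha2 ε hε)
  -- translation
  set β : ℂ → E := fun w => A.loc i f (w + z₀) with hβdef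
  set b : κ → ℂ → E := fun n w => A.loc i (h n) (w + z₀) with hbdef
  have hmem : ∀ w ∈ ball (0 : ℂ) r, w + z₀ ∈ ball z₀ r := by
    intro w hw
    rw [mem_ball, dist_eq_norm] at hw ⊢
    simpa using hw
  have hshift : ∀ (g : ℂ → E) (w : ℂ), AnalyticAt ℂ g (w + z₀) →
      AnalyticAt ℂ (fun w => g (w + z₀)) w := by
    intro g w hg
    exact AnalyticAt.comp (g := g) (f := fun w : ℂ => w + z₀) (x := w) hg (by fun_prop)
  have hβ : ∀ z ∈ ball (0 : ℂ) r, AnalyticAt ℂ β z := fun z hz =>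
    hshift _ z (hf1 _ (ball_subset_ball hrr₁ (hmem z hz))).2
  have hb : ∀ᶠ n in (U : Filter κ), ∀ z ∈ ball (0 : ℂ) r, AnalyticAt ℂ (b n) z := by
    filter_upwards [hh1] with n hn z hz
    exact hshift _ z (hn _ (ball_subset_ball hrr₁ (hmem z hz))).2
  have hlim : TendstoUniformlyOn b β (U : Filter κ) (ball 0 r) := by
    rw [Metric.tendstoUniformlyOn_iff] at hunif ⊢
    intro ε hε
    filter_upwards [hunif ε hε] with n hn z hz
    exact hn (z + z₀) (ball_subset_ball hrr₁ (hmem z hz))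
  have hiter : ∀ (g : ℂ → E) (q : ℕ) (w : ℂ),
      iteratedDeriv q (fun w => g (w + z₀)) w = iteratedDeriv q g (w + z₀) := by
    intro g q w
    exact congrFun (iteratedDeriv_comp_add_const q g z₀) w
  have hc1 : ∀ q, 1 ≤ q → q < a → iteratedDeriv q β 0 = 0 := by
    intro q hq hqa
    rw [hβdef, hiter, zero_add]
    exact hv1 q hq hqa
  have hc2 : l (iteratedDeriv a β 0) ≠ 0 := by
    rw [hβdef, hiter, zero_add]
    exact hl
  have hcz : Tendsto (fun n => zs n - z₀) (U : Filter κ) (𝓝 0) := by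
    simpa using hzs.sub_const z₀
  have hc3 : ∀ᶠ n in (U : Filter κ), ∀ q, 1 ≤ q → q < a →
      iteratedDeriv q (b n) (zs n - z₀) = 0 := by
    filter_upwards [hzsV, hzs (ball_mem_nhds z₀ hr₁), hh1] with n h1 h2 h3 q hq hqa
    have h4 := h1 i (h3 (zs n) h2).1 q hq (by omega)
    simp only [hbdef]
    rw [hiter, sub_add_cancel]
    exact h4
  have hcN : ∀ z ∈ ball (0 : ℂ) r, z ≠ 0 → ∃ ρ > 0, ∃ B : ℝ, ∀ ε > 0, ∀ᶠ n in (U : Filter κ),
      ∀ ζ ∈ ball z ρ, ∃ u, ‖u - ζ‖ ≤ ε ∧ ‖β ζ - b n u‖ ≤ B * m n := by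
    intro z hz hne
    have h1 : NC A f (z + z₀) := hNC _ (hmem z hz) (by simpa using hne)
    obtain ⟨ρ, hρ, B, h2⟩ := hS.nn _ h1
    refine ⟨min ρ r, by positivity, L * B, fun ε hε => ?_⟩
    filter_upwards [h2 (min ε r) (by positivity), hhball] with n hn hnb ζ hζ
    have h3 : ‖ζ - z‖ < min ρ r := by
      rw [mem_ball, dist_eq_norm] at hζ; exact hζ
    have h4 : ‖z‖ < r := by simpa using hz
    have h5 : ζ + z₀ ∈ ball (z + z₀) ρ := by
      rw [mem_ball, dist_eq_norm]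
      have : ζ + z₀ - (z + z₀) = ζ - z := by ring
      rw [this]
      exact h3.trans_le (min_le_left _ _)
    obtain ⟨u, hu1, hu2⟩ := hn _ h5
    have hζn : ‖ζ‖ < 2 * r := by
      have h6 : ‖ζ‖ ≤ ‖ζ - z‖ + ‖z‖ := by
        have := norm_add_le (ζ - z) z
        simpa using this
      have h7 := h3.trans_le (min_le_right ρ r)
      linarith
    have hun : ‖u - z₀‖ < rc := by
      have h6 : ‖u - z₀‖ ≤ ‖u - (ζ + z₀)‖ + ‖ζ‖ := by
        have := norm_add_le (u - (ζ + z₀)) ζ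
        have h8 : u - (ζ + z₀) + ζ = u - z₀ := by ring
        rwa [h8] at this
      have h7 := hu1.trans (min_le_right ε r)
      linarith
    refine ⟨u - z₀, ?_, ?_⟩
    · have h8 : u - z₀ - ζ = u - (ζ + z₀) := by ring
      rw [h8]
      exact hu1.trans (min_le_left _ _)
    · have h9 : f (ζ + z₀) ∈ ball (f z₀) lam := by
        apply hfball
        rw [mem_ball, dist_eq_norm]
        simp only [add_sub_cancel_right]
        linarith
      have h10 : h n u ∈ ball (f z₀) lam := by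
        apply hnb
        rw [mem_ball, dist_eq_norm]
        exact hun
      have h11 := hB.ch_le i (f z₀) hicl _ h9 _ h10
      have h12 : ‖β ζ - b n (u - z₀)‖ = ‖A.ch i (f (ζ + z₀)) - A.ch i (h n u)‖ := by
        simp [hβdef, hbdef, Cha.loc]
      rw [h12, mul_assoc]
      exact h11.trans (mul_le_mul_of_nonneg_left hu2 (by linarith [hB.L_one]))
  obtain ⟨r₂, hr₂, B, hcrit⟩ := crit U l ha0 hr hβ hb hlim hc1 hc2 hcz hc3 hS.m_pos hcN
  obtain ⟨B', hB', hform⟩ := form_bound F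
  refine ⟨min r r₂, by positivity, (B / ‖e₂‖) ^ k * (B' * (‖e₁‖ * ‖e₂‖) ^ k), fun z hz hne => ?_⟩
  have hzr : z ∈ ball z₀ r := ball_subset_ball (min_le_left _ _) hz
  have hzr₂ : z - z₀ ∈ ball (0 : ℂ) r₂ := by
    have := ball_subset_ball (min_le_right r r₂) hz
    rw [mem_ball, dist_eq_norm] at this
    simpa using this
  refine ⟨hNC z hzr hne, fun v hv => ?_⟩
  obtain ⟨u, d, hu, hd, hld, hdB⟩ := hcrit (z - z₀) hzr₂ (sub_ne_zero.2 hne)
  have hzrc : z ∈ ball z₀ rc := ball_subset_ball (by linarith) hzr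
  have hfz : f z ∈ ball (f z₀) lam := hfball z hzrc
  have hfzW : f z ∈ A.W i := hi hfz
  have hfzs : f z ∈ (A.ch i).source := A.W_sub i (subset_closure hfzW)
  -- the points `u n + z₀`
  have hu' : Tendsto (fun n => u n + z₀) (U : Filter κ) (𝓝 z) := by
    have := hu.add_const z₀
    simpa using this
  have hq : Tendsto (fun n => ((m n : ℂ))⁻¹ • (A.loc i (h n) (u n + z₀) - A.loc i f z))
      (U : Filter κ) (𝓝 d) := by
    have h1 : (fun n => ((m n : ℂ))⁻¹ • (A.loc i (h n) (u n + z₀) - A.loc i f z)) =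
        fun n => ((m n : ℂ))⁻¹ • (b n (u n) - β (z - z₀)) := by
      funext n
      simp [hβdef, hbdef]
    rw [h1]; exact hd
  have hnear : ∃ B'' : ℝ, ∀ᶠ n in (U : Filter κ),
      dist (f z) (h n (u n + z₀)) ≤ B'' * m n := by
    refine ⟨L * (‖d‖ + 1), ?_⟩
    have h1 : ∀ᶠ n in (U : Filter κ),
        ‖((m n : ℂ))⁻¹ • (A.loc i (h n) (u n + z₀) - A.loc i f z)‖ < ‖d‖ + 1 :=
      hq.norm.eventually (gt_mem_nhds (by linarith))
    filter_upwards [h1, hS.m_pos, hhball, hu' (isOpen_ball.mem_nhds hzrc)] with n h2 h3 h4 h5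
    have h6 := hB.le_ch i (f z₀) hicl _ hfz _ (h4 _ h5)
    have h7 : ‖A.ch i (f z) - A.ch i (h n (u n + z₀))‖ ≤ (‖d‖ + 1) * m n := by
      rw [norm_smul, norm_inv, Complex.norm_real, Real.norm_of_nonneg h3.le] at h2
      rw [norm_sub_rev]
      have h8 : (m n)⁻¹ * ‖A.ch i (h n (u n + z₀)) - A.ch i (f z)‖ < ‖d‖ + 1 := h2
      have h9 : ‖A.ch i (h n (u n + z₀)) - A.ch i (f z)‖ =
          (m n)⁻¹ * ‖A.ch i (h n (u n + z₀)) - A.ch i (f z)‖ * m n := by
        field_simp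
      rw [h9]
      exact mul_le_mul_of_nonneg_right h8.le h3.le
    calc dist (f z) (h n (u n + z₀)) ≤ L * ‖A.ch i (f z) - A.ch i (h n (u n + z₀))‖ := h6
      _ ≤ L * ((‖d‖ + 1) * m n) := mul_le_mul_of_nonneg_left h7 (by linarith [hB.L_one])
      _ = L * (‖d‖ + 1) * m n := by ring
  have hlim1 := hv i hfzs (fun n => u n + z₀) hu' hnear
  -- the limit in the form
  have htar : A.loc i f z ∈ (A.ch i).target := (A.ch i).map_source hfzs
  have hTcont : ContinuousAt (fun p : E × E × E => F.T i p.1 p.2.1 p.2.2)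
      (A.loc i f z, d, deriv (A.loc i f) z) := ((F.tf i).hol _ htar _ _).continuousAt
  have hlim2 : Tendsto (fun n => F.T i (A.loc i f z)
      (((m n : ℂ))⁻¹ • (A.loc i (h n) (u n + z₀) - A.loc i f z)) (deriv (A.loc i f) z))
      (U : Filter κ) (𝓝 (F.T i (A.loc i f z) d (deriv (A.loc i f) z))) := by
    have h1 : Tendsto (fun n => ((A.loc i f z,
        ((m n : ℂ))⁻¹ • (A.loc i (h n) (u n + z₀) - A.loc i f z), deriv (A.loc i f) z) :
          E × E × E)) (U : Filter κ) (𝓝 (A.loc i f z, d, deriv (A.loc i f) z)) :=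
      tendsto_const_nhds.prodMk_nhds (hq.prodMk_nhds tendsto_const_nhds)
    exact hTcont.tendsto.comp h1
  have hveq : v = F.T i (A.loc i f z) d (deriv (A.loc i f) z) := tendsto_nhds_unique hlim1 hlim2
  obtain ⟨t, ht⟩ := hker d hld
  have hform1 := form_ker hE F l he₁ he₂ i htar t (deriv (A.loc i f) z)
  have hderiv : deriv β (z - z₀) = deriv (A.loc i f) z := by
    have h1 := hiter (A.loc i f) 1 (z - z₀)
    simpa [iteratedDeriv_one] using h1
  rw [hderiv] at hdB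
  have he₂n : 0 < ‖e₂‖ := norm_pos_iff.2 he₂0
  have htb : ‖t‖ * ‖l (deriv (A.loc i f) z)‖ ≤ B / ‖e₂‖ := by
    rw [le_div_iff₀ he₂n]
    rw [ht, norm_smul] at hdB
    calc ‖t‖ * ‖l (deriv (A.loc i f) z)‖ * ‖e₂‖ = ‖t‖ * ‖e₂‖ * ‖l (deriv (A.loc i f) z)‖ := by ring
      _ ≤ B := hdB
  rw [hveq, ht, hform1, norm_smul, norm_pow, norm_neg, norm_mul]
  have hx : f z ∈ closure (A.W i) := subset_closure hfzW
  have hform2 := hform i (f z) hx e₁ e₂
  have h0 : 0 ≤ ‖t‖ * ‖l (deriv (A.loc i f) z)‖ := by positivity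
  exact mul_le_mul (pow_le_pow_left₀ h0 htb k) hform2 (norm_nonneg _)
    (pow_nonneg (h0.trans htb) k)

end sec

end Pool.Agent.MBS

namespace Pool.Agent.MBS
alias sig_crit := sig_crit_pr
end Pool.Agent.MBS
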