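import Pool.Agent.Lib_helper58.MBS.Base
import Pool.Agent.Lib_helper58.MBS.L.ALIM
import Pool.Agent.Lib_helper58.MBS.L.BNC
import Pool.Agent.Lib_helper58.MBS.L.DNGR
import Pool.Agent.Lib_helper58.MBS.L.DWIN

/-! # Minimal Brody sets: block ELIM -/

set_option autoImplicit false
set_option linter.unusedSectionVars false
set_option linter.unusedVariables false

open Filter Topology Metric Set

namespace Pool.Agent.MBS

open Pool.Agent.BR

section sec

variable {E X : Type} [NormedAddCommGroup E] [NormedSpace ℂ E] [FiniteDimensional ℂ E]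
  [MetricSpace X] [CompactSpace X] {A : Cha E X} {C lam L : ℝ} {M : Set (ℂ → X)} {k N : ℕ}

/-- the derivative of the `l`-coordinate does not vanish in a window -/
theorem elim_nd {f : ℂ → X} {z₀ : ℂ} {i : A.ι} {l : E →L[ℂ] ℂ} {r ρ B : ℝ} {V : Set (ℂ → X)}
    {u : (ℂ → X) → ℂ → ℂ} (hW : Win A M f z₀ i l lam r ρ B V u) {h : ℂ → X} (hh : h ∈ V) {z : ℂ}
    (hz : z ∈ ball z₀ r) : l (deriv (A.loc i h) z) ≠ 0 := by
  intro h0
  have h1 : HasDerivAt (fun z => l (A.loc i h z)) (l (deriv (A.loc i h) z)) z :=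
    l.hasFDerivAt.comp_hasDerivAt z (hW.an h hh z hz).differentiableAt.hasDerivAt
  rw [h0, hasDerivAt_iff_isLittleO] at h1
  have hB := hW.B_pos
  have h2 := h1.def (show (0 : ℝ) < 1 / (2 * B) by positivity)
  have h3 : ∀ᶠ w in 𝓝[≠] z, w ∈ ball z₀ r := by
    apply Filter.Eventually.filter_mono nhdsWithin_le_nhds
    exact isOpen_ball.mem_nhds hz
  have h4 : ∀ᶠ w in 𝓝[≠] z, w ≠ z := eventually_mem_nhdsWithin
  obtain ⟨w, hw1, hw2, hw3⟩ := (h3.and (h4.and (h2.filter_mono nhdsWithin_le_nhds))).exists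
  have h5 := hW.lo h hh z hz w hw1
  simp only [smul_zero, sub_zero] at hw3
  have h6 : ‖l (A.loc i h z) - l (A.loc i h w)‖ ≤ 1 / (2 * B) * ‖w - z‖ := by
    rw [norm_sub_rev]; exact hw3
  have h7 : 0 < ‖w - z‖ := norm_pos_iff.2 (sub_ne_zero.2 hw2)
  have h8 : B * ‖l (A.loc i h z) - l (A.loc i h w)‖ ≤ B * (1 / (2 * B) * ‖w - z‖) :=
    mul_le_mul_of_nonneg_left h6 hB.le
  have h9 : B * (1 / (2 * B) * ‖w - z‖) = ‖w - z‖ / 2 := by field_simp
  rw [norm_sub_rev] at h5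
  linarith

theorem elim_gr_an {f : ℂ → X} {z₀ : ℂ} {i : A.ι} {l : E →L[ℂ] ℂ} {r ρ B : ℝ}
    {V : Set (ℂ → X)} {u : (ℂ → X) → ℂ → ℂ} (hW : Win A M f z₀ i l lam r ρ B V u) {h : ℂ → X}
    (hh : h ∈ V) {x : ℂ} (hx : x ∈ ball (l (A.loc i f z₀)) ρ) :
    AnalyticAt ℂ (gr A i u h) x :=
  AnalyticAt.comp (g := A.loc i h) (f := u h) (hW.an h hh _ (hW.mem h hh x hx)) (hW.u_an h hh x hx)

/-- the derivative of the graph -/
theorem elim_gr_deriv {f : ℂ → X} {z₀ : ℂ} {i : A.ι} {l : E →L[ℂ] ℂ} {r ρ B : ℝ}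
    {V : Set (ℂ → X)} {u : (ℂ → X) → ℂ → ℂ} (hW : Win A M f z₀ i l lam r ρ B V u) {h : ℂ → X}
    (hh : h ∈ V) {z : ℂ} (hz : z ∈ ball z₀ r)
    (hx : l (A.loc i h z) ∈ ball (l (A.loc i f z₀)) ρ) :
    deriv (A.loc i h) z = l (deriv (A.loc i h) z) • deriv (gr A i u h) (l (A.loc i h z)) := by
  have h1 : HasDerivAt (fun z => l (A.loc i h z)) (l (deriv (A.loc i h) z)) z :=
    l.hasFDerivAt.comp_hasDerivAt z (hW.an h hh z hz).differentiableAt.hasDerivAt
  have h2 : HasDerivAt (gr A i u h) (deriv (gr A i u h) (l (A.loc i h z))) (l (A.loc i h z)) :=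
    (elim_gr_an hW hh hx).differentiableAt.hasDerivAt
  have h3 := HasDerivAt.scomp z h2 h1
  have h4 : (gr A i u h) ∘ (fun z => l (A.loc i h z)) =ᶠ[𝓝 z] A.loc i h := by
    have h5 : ∀ᶠ w in 𝓝 z, w ∈ ball z₀ r := isOpen_ball.mem_nhds hz
    have h6 : ∀ᶠ w in 𝓝 z, l (A.loc i h w) ∈ ball (l (A.loc i f z₀)) ρ :=
      h1.continuousAt.eventually_mem (isOpen_ball.mem_nhds hx)
    filter_upwards [h5, h6] with w hw1 hw2
    simp only [Function.comp, gr]
    rw [← win_uniq hW hh hw1 hw2]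
  exact (h4.hasDerivAt_iff.1 h3).deriv

/-- ELIM: the limit of the displacement vectors -/
theorem disp_lim_pr (hE : Module.finrank ℂ E = 2) (hB : BLip A lam L) (hM : Min A C M) {κ : Type}
    {U : Ultrafilter κ} {f : ℂ → X} {h : κ → ℂ → X} {m : κ → ℝ} (hS : Sit A M U f h m) {z₀ : ℂ}
    (hz₀ : NC A f z₀) {i : A.ι} (hi : f z₀ ∈ A.W i) (l : E →L[ℂ] ℂ)
    (hl : l (deriv (A.loc i f) z₀) ≠ 0) :
    ∃ r > 0, ∃ D : ℂ → E, (∀ z ∈ ball z₀ r, AnalyticAt ℂ D z ∧ f z ∈ A.W i ∧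
      AnalyticAt ℂ (A.loc i f) z ∧ l (deriv (A.loc i f) z) ≠ 0 ∧ l (D z) = 0) ∧
      ∀ z ∈ ball z₀ r, ∀ zs u : κ → ℂ, Tendsto zs U (𝓝 z) → Tendsto u U (𝓝 z) →
        (∃ B : ℝ, ∀ᶠ n in (U : Filter κ), dist (f (zs n)) (h n (u n)) ≤ B * m n) →
          ∃ b : ℂ, Tendsto (fun n => ((m n : ℂ))⁻¹ • (A.loc i (h n) (u n) - A.loc i f (zs n))) U
            (𝓝 (D z + b • deriv (A.loc i f) z)) := by
  have hfM := hS.f_mem
  have hfB := hM.sub hfM
  obtain ⟨r, ρ, B, V, u, hr1, hW⟩ := exists_win hB hM hfM hi hl one_pos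
  obtain ⟨x₀, hx₀⟩ : ∃ x₀, x₀ = l (A.loc i f z₀) := ⟨_, rfl⟩
  have hlim : Tendsto h U (𝓝[M] f) := tendsto_nhdsWithin_iff.2 ⟨hS.lim, hS.h_mem⟩
  have hV : ∀ᶠ n in (U : Filter κ), h n ∈ V := hlim.eventually hW.V_mem
  have hfV : f ∈ V := hW.f_mem
  have hsrc : ∀ z ∈ ball z₀ r, f z ∈ (A.ch i).source := fun z hz =>
    hB.src i _ (subset_closure hW.core) (hW.near f hfV z hz)
  have hNC : ∀ z ∈ ball z₀ r, NC A f z := by
    intro z hz
    rw [nc_iff (hfB.1 z) i (hsrc z hz)]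
    intro h0
    exact elim_nd hW hfV hz (by rw [h0, map_zero])
  -- the normalised displacement
  obtain ⟨Δ, hΔ⟩ : ∃ Δ : κ → ℂ → E, Δ = fun n x => ((m n : ℂ))⁻¹ • (gr A i u (h n) x -
    gr A i u f x) := ⟨_, rfl⟩
  have hO : ∀ x ∈ ball x₀ ρ, ∃ r' > 0, ball x r' ⊆ ball x₀ ρ ∧ ∃ B' : ℝ,
      ∀ᶠ n in (U : Filter κ), ∀ w ∈ ball x r', AnalyticAt ℂ (Δ n) w ∧ ‖Δ n w‖ ≤ B' := by
    intro x hx
    rw [hx₀] at hx
    have hz := hW.mem f hfV x hx
    have h1 := hW.eq f hfV x hx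
    obtain ⟨ρ', hρ', B', h2⟩ := gr_of_nn hB hM hfM hW (F := (U : Filter κ)) (g := fun _ => f)
      (h := h) (f' := f) hfV (Eventually.of_forall fun _ => hfV) hV tendsto_const_nhds hS.lim
      hS.m_nonneg hz (by rw [h1]; exact hx) (hS.nn _ (hNC _ hz))
    rw [h1] at h2
    refine ⟨ρ', hρ', ?_, B', ?_⟩
    · obtain ⟨n, hn⟩ := h2.exists
      intro w hw
      rw [hx₀]
      exact (hn w hw).1
    · filter_upwards [h2, hV, hS.m_pos] with n h3 h4 h5 w hw
      refine ⟨?_, ?_⟩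
      · rw [hΔ]
        exact analyticAt_const.smul ((elim_gr_an hW h4 (h3 w hw).1).sub
          (elim_gr_an hW hfV (h3 w hw).1))
      · rw [hΔ]
        simp only
        rw [norm_smul, norm_inv, Complex.norm_real, Real.norm_of_nonneg h5.le]
        rw [inv_mul_le_iff₀ h5]
        have := (h3 w hw).2
        linarith
  obtain ⟨D₀, hD1, hD2, hD3, hD4⟩ := ultra_hol U isOpen_ball Δ hO
  have hlD : ∀ x ∈ ball x₀ ρ, l (D₀ x) = 0 := by
    intro x hx
    have h1 := hD2 x hx (fun _ => x) tendsto_const_nhds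
    have h2 := (l.continuous.tendsto (D₀ x)).comp h1
    have h3 : Tendsto (l ∘ fun k => Δ k x) U (𝓝 0) := by
      apply tendsto_const_nhds.congr'
      filter_upwards [hV] with n hn
      simp only [Function.comp, hΔ, map_smul, map_sub, gr]
      rw [hx₀] at hx
      rw [hW.eq _ hn x hx, hW.eq f hfV x hx, sub_self, smul_zero]
    exact tendsto_nhds_unique h2 h3
  have hφc : ∀ z ∈ ball z₀ r, AnalyticAt ℂ (fun z => l (A.loc i f z)) z := fun z hz =>
    AnalyticAt.comp (g := l) (f := A.loc i f) (l.analyticAt _) (hW.an f hfV z hz)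
  -- the smaller ball
  obtain ⟨r', hr', hr'1⟩ : ∃ r' > 0, ball z₀ r' ⊆ ball z₀ r ∩ {z | f z ∈ A.W i ∧
      l (A.loc i f z) ∈ ball x₀ ρ} := by
    have h1 : ball z₀ r ∩ {z | f z ∈ A.W i ∧ l (A.loc i f z) ∈ ball x₀ ρ} ∈ 𝓝 z₀ := by
      apply Filter.inter_mem (ball_mem_nhds _ hW.r_pos)
      have h2 : ∀ᶠ z in 𝓝 z₀, f z ∈ A.W i :=
        (hfB.1 z₀).1.eventually_mem ((A.W_open i).mem_nhds hi)
      have h3 : ∀ᶠ z in 𝓝 z₀, l (A.loc i f z) ∈ ball x₀ ρ := by
        apply (hφc z₀ (mem_ball_self hW.r_pos)).continuousAt.eventually_mem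
        rw [hx₀]
        exact ball_mem_nhds _ hW.ρ_pos
      exact h2.and h3
    exact Metric.mem_nhds_iff.1 h1
  refine ⟨r', hr', fun z => D₀ (l (A.loc i f z)), ?_, ?_⟩
  · intro z hz
    obtain ⟨h1, h2, h3⟩ := hr'1 hz
    exact ⟨AnalyticAt.comp (g := D₀) (f := fun z => l (A.loc i f z)) (hD1 _ h3) (hφc z h1), h2, hW.an f hfV z h1, elim_nd hW hfV h1, hlD _ h3⟩
  · intro z hz zs un hzs hun ⟨B₁, hB₁⟩
    obtain ⟨h1, h2, h3⟩ := hr'1 hz
    obtain ⟨x, hx⟩ : ∃ x, x = l (A.loc i f z) := ⟨_, rfl⟩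
    obtain ⟨xn, hxn⟩ : ∃ xn : κ → ℂ, xn = fun n => l (A.loc i f (zs n)) := ⟨_, rfl⟩
    obtain ⟨yn, hyn⟩ : ∃ yn : κ → ℂ, yn = fun n => l (A.loc i (h n) (un n)) := ⟨_, rfl⟩
    have hxl : Tendsto xn U (𝓝 x) := by
      rw [hxn, hx]
      exact (hφc z h1).continuousAt.tendsto.comp hzs
    have hzs' : ∀ᶠ n in (U : Filter κ), zs n ∈ ball z₀ r :=
      hzs.eventually (isOpen_ball.mem_nhds h1)
    have hun' : ∀ᶠ n in (U : Filter κ), un n ∈ ball z₀ r :=
      hun.eventually (isOpen_ball.mem_nhds h1)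
    have hL : 0 ≤ L := by linarith [hB.L_one]
    -- the distance of the `l`-coordinates
    obtain ⟨K, hK⟩ : ∃ K, K = ‖l‖ * (L * |B₁|) := ⟨_, rfl⟩
    have hK0 : 0 ≤ K := by rw [hK]; positivity
    have hd1 : ∀ᶠ n in (U : Filter κ), ‖A.loc i (h n) (un n) - A.loc i f (zs n)‖ ≤
        L * |B₁| * m n := by
      filter_upwards [hzs', hun', hV, hB₁, hS.m_pos] with n a1 a2 a3 a4 a5
      have b1 := hB.ch_le i _ (subset_closure hW.core) _ (hW.near _ a3 _ a2) _
        (hW.near f hfV _ a1)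
      have b2 : dist (h n (un n)) (f (zs n)) ≤ |B₁| * m n := by
        rw [dist_comm]
        refine a4.trans ?_
        exact mul_le_mul_of_nonneg_right (le_abs_self _) a5.le
      calc ‖A.loc i (h n) (un n) - A.loc i f (zs n)‖ ≤ L * dist (h n (un n)) (f (zs n)) := b1
        _ ≤ L * (|B₁| * m n) := mul_le_mul_of_nonneg_left b2 hL
        _ = L * |B₁| * m n := by ring
    have hd2 : ∀ᶠ n in (U : Filter κ), ‖yn n - xn n‖ ≤ K * m n := by
      filter_upwards [hd1] with n a1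
      rw [hyn, hxn]
      simp only
      rw [← map_sub]
      calc ‖l (A.loc i (h n) (un n) - A.loc i f (zs n))‖
          ≤ ‖l‖ * ‖A.loc i (h n) (un n) - A.loc i f (zs n)‖ := l.le_opNorm _
        _ ≤ ‖l‖ * (L * |B₁| * m n) := mul_le_mul_of_nonneg_left a1 (norm_nonneg _)
        _ = K * m n := by rw [hK]; ring
    have hyl : Tendsto yn U (𝓝 x) := by
      have a1 : Tendsto (fun n => K * m n) U (𝓝 0) := by
        simpa using hS.m_lim.const_mul K
      have a2 : Tendsto (fun n => yn n - xn n) U (𝓝 0) := by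
        apply squeeze_zero_norm' hd2 a1
      have a3 := hxl.add a2
      simpa using a3
    -- the limit of the quotient of the coordinates
    obtain ⟨b', hb'⟩ : ∃ b' : ℂ, Tendsto (fun n => ((m n : ℂ))⁻¹ * (yn n - xn n)) U (𝓝 b') := by
      have a1 : ∀ᶠ n in (U : Filter κ), ((m n : ℂ))⁻¹ * (yn n - xn n) ∈ closedBall (0 : ℂ) K := by
        filter_upwards [hd2, hS.m_pos] with n a2 a3
        rw [mem_closedBall_zero_iff, norm_mul, norm_inv, Complex.norm_real,
          Real.norm_of_nonneg a3.le, inv_mul_le_iff₀ a3]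
        linarith
      have a2 := (isCompact_closedBall (0 : ℂ) K).ultrafilter_le_nhds
        (U.map fun n => ((m n : ℂ))⁻¹ * (yn n - xn n)) (by
          rw [le_principal_iff]
          exact a1)
      obtain ⟨b', _, hb'⟩ := a2
      exact ⟨b', hb'⟩
    -- the derivative of the graph of `f`
    have hxO : x ∈ ball x₀ ρ := by rw [hx]; exact h3
    have hG : AnalyticAt ℂ (gr A i u f) x := elim_gr_an hW hfV (by rw [← hx₀]; exact hxO)
    have hG1 : Tendsto (fun n => ((m n : ℂ))⁻¹ • (gr A i u f (yn n) - gr A i u f (xn n))) U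
        (𝓝 (b' • deriv (gr A i u f) x)) := by
      have a1 : HasStrictDerivAt (gr A i u f) (deriv (gr A i u f) x) x := hG.hasStrictDerivAt
      have a2 := a1.isLittleO
      have a3 : Tendsto (fun n => (yn n, xn n)) U (𝓝 (x, x)) := hyl.prodMk_nhds hxl
      have a4 := a2.comp_tendsto a3
      have a5 : (fun n => ((m n : ℂ))⁻¹ • (gr A i u f (yn n) - gr A i u f (xn n) -
          (yn n - xn n) • deriv (gr A i u f) x)) =o[(U : Filter κ)] fun n => (1 : ℝ) := by
        rw [Asymptotics.isLittleO_iff]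
        intro c hc
        have a6 := a4.def (show 0 < c / (K + 1) by positivity)
        filter_upwards [a6, hd2, hS.m_pos] with n b1 b2 b3
        simp only [Function.comp, ContinuousLinearMap.toSpanSingleton_apply] at b1
        rw [norm_smul, norm_inv, Complex.norm_real, Real.norm_of_nonneg b3.le, norm_one, mul_one,
          inv_mul_le_iff₀ b3]
        refine b1.trans ?_
        calc c / (K + 1) * ‖yn n - xn n‖ ≤ c / (K + 1) * (K * m n) :=
              mul_le_mul_of_nonneg_left b2 (by positivity)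
          _ ≤ c / (K + 1) * ((K + 1) * m n) := by
              apply mul_le_mul_of_nonneg_left _ (by positivity)
              nlinarith
          _ = m n * c := by field_simp
      have a6 := (Asymptotics.isLittleO_one_iff ℝ).1 a5
      have a7 : Tendsto (fun n => (((m n : ℂ))⁻¹ * (yn n - xn n)) • deriv (gr A i u f) x) U
          (𝓝 (b' • deriv (gr A i u f) x)) := hb'.smul_const _
      have a8 := a6.add a7
      rw [zero_add] at a8
      refine a8.congr fun n => ?_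
      rw [smul_sub, smul_smul]
      abel
    -- the displacement at the moving points
    have hD5 := hD2 x hxO yn hyl
    refine ⟨b' / l (deriv (A.loc i f) z), ?_⟩
    have hfin : D₀ (l (A.loc i f z)) + (b' / l (deriv (A.loc i f) z)) • deriv (A.loc i f) z =
        D₀ x + b' • deriv (gr A i u f) x := by
      have a1 := elim_nd hW hfV h1
      have a2 := elim_gr_deriv hW hfV h1 (by rw [← hx₀]; exact h3)
      rw [← hx] at a2 ⊢
      obtain ⟨q, hq⟩ : ∃ q, q = l (deriv (A.loc i f) z) := ⟨_, rfl⟩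
      rw [← hq] at a1 a2 ⊢
      rw [a2, smul_smul, div_mul_cancel₀ _ a1]
    simp only
    rw [hfin]
    refine (hD5.add hG1).congr' ?_
    have hxn' : ∀ᶠ n in (U : Filter κ), xn n ∈ ball x₀ ρ :=
      hxl.eventually (isOpen_ball.mem_nhds hxO)
    have hyn' : ∀ᶠ n in (U : Filter κ), yn n ∈ ball x₀ ρ :=
      hyl.eventually (isOpen_ball.mem_nhds hxO)
    filter_upwards [hzs', hun', hV, hxn', hyn'] with n a1 a2 a3 a4 a5
    rw [hΔ]
    simp only
    have b1 : gr A i u f (xn n) = A.loc i f (zs n) := by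
      have b2 : zs n = u f (l (A.loc i f (zs n))) := by
        apply win_uniq hW hfV a1
        rw [← hx₀]
        rw [hxn] at a4
        exact a4
      rw [gr, hxn]
      simp only
      rw [← b2]
    have b3 : gr A i u (h n) (yn n) = A.loc i (h n) (un n) := by
      have b2 : un n = u (h n) (l (A.loc i (h n) (un n))) := by
        apply win_uniq hW a3 a2
        rw [← hx₀]
        rw [hyn] at a5
        exact a5
      rw [gr, hyn]
      simp only
      rw [← b2]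
    rw [b1, b3, ← smul_add]
    congr 1
    abel


end sec

end Pool.Agent.MBS

namespace Pool.Agent.MBS
alias disp_lim := disp_lim_pr
end Pool.Agent.MBS
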