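import Pool.Agent.Lib_helper58.MBS.Base

/-! # Minimal Brody sets: block EUEX -/

set_option autoImplicit false
set_option linter.unusedSectionVars false
set_option linter.unusedVariables false

open Filter Topology Metric Set

namespace Pool.Agent.MBS

open Pool.Agent.BR

section sec

variable {E X : Type} [NormedAddCommGroup E] [NormedSpace ℂ E] [FiniteDimensional ℂ E]
  [MetricSpace X] [CompactSpace X] {A : Cha E X} {C lam L : ℝ} {M : Set (ℂ → X)} {k N : ℕ}

theorem exists_time_pr {κ : Type} {U : Ultrafilter κ} {f : ℂ → X} {h : κ → ℂ → X} {m : κ → ℝ}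
    (hS : Sit A M U f h m) {z : ℂ} (hz : NC A f z) {zs : κ → ℂ} (hzs : Tendsto zs U (𝓝 z)) :
    ∃ u : κ → ℂ, Tendsto u U (𝓝 z) ∧
      ∃ B : ℝ, ∀ᶠ n in (U : Filter κ), dist (f (zs n)) (h n (u n)) ≤ B * m n := by
  obtain ⟨ρ, hρ, B, hNN⟩ := hS.nn z hz
  obtain ⟨S, hSd⟩ : ∃ S : κ → Set ℝ, S = fun n =>
      (fun u => ‖u - zs n‖) '' {u | dist (f (zs n)) (h n u) ≤ B * m n} := ⟨_, rfl⟩
  have hbdd : ∀ n, BddBelow (S n) := by
    intro n
    refine ⟨0, ?_⟩
    rw [hSd]
    rintro _ ⟨u, -, rfl⟩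
    exact norm_nonneg _
  have hch : ∀ n, ∃ u, (S n).Nonempty → 0 < m n →
      dist (f (zs n)) (h n u) ≤ B * m n ∧ ‖u - zs n‖ ≤ sInf (S n) + m n := by
    intro n
    by_cases h1 : (S n).Nonempty ∧ 0 < m n
    · obtain ⟨a, ha, ha'⟩ := exists_lt_of_csInf_lt h1.1 (lt_add_of_pos_right (sInf (S n)) h1.2)
      rw [hSd] at ha
      obtain ⟨u, hu, rfl⟩ := ha
      exact ⟨u, fun _ _ => ⟨hu, ha'.le⟩⟩
    · exact ⟨0, fun h2 h3 => absurd ⟨h2, h3⟩ h1⟩
  choose u hu using hch
  have hev : ∀ ε > 0, ∀ᶠ n in (U : Filter κ), ∃ v, ‖v - zs n‖ ≤ ε ∧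
      dist (f (zs n)) (h n v) ≤ B * m n := by
    intro ε hε
    filter_upwards [hNN ε hε, hzs.eventually_mem (ball_mem_nhds z hρ)] with n h1 h2
    exact h1 _ h2
  have hne : ∀ᶠ n in (U : Filter κ), (S n).Nonempty := by
    filter_upwards [hev 1 one_pos] with n hn
    obtain ⟨v, -, hv⟩ := hn
    rw [hSd]
    exact ⟨_, v, hv, rfl⟩
  refine ⟨u, ?_, B, ?_⟩
  · have h0 : Tendsto (fun n => u n - zs n) U (𝓝 0) := by
      rw [tendsto_zero_iff_norm_tendsto_zero, Metric.tendsto_nhds]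
      intro ε hε
      have hm := hS.m_lim.eventually_mem (ball_mem_nhds (0 : ℝ) (half_pos hε))
      filter_upwards [hne, hS.m_pos, hev (ε / 4) (by linarith), hm] with n h1 h2 h3 h4
      obtain ⟨v, hv, hv'⟩ := h3
      have h5 : sInf (S n) ≤ ‖v - zs n‖ := by
        refine csInf_le (hbdd n) ?_
        rw [hSd]
        exact ⟨v, hv', rfl⟩
      have h6 := (hu n h1 h2).2
      have h7 : m n < ε / 2 := by
        have := h4
        rw [mem_ball, Real.dist_eq, sub_zero, abs_of_pos h2] at this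
        exact this
      rw [Real.dist_eq, sub_zero, abs_of_nonneg (norm_nonneg _)]
      linarith
    have h1 := h0.add hzs
    simpa using h1
  · filter_upwards [hne, hS.m_pos] with n h1 h2
    exact (hu n h1 h2).1

end sec

end Pool.Agent.MBS

namespace Pool.Agent.MBS
alias exists_time := exists_time_pr
end Pool.Agent.MBS
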