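import Pool.Agent.Lib_helper58.MBS.Base
import Pool.Agent.Lib_helper58.MBS.L.BBAI
import Pool.Agent.Lib_helper58.MBS.L.BLIM
import Pool.Agent.Lib_helper58.MBS.L.BSMP
import Pool.Agent.Lib_helper58.MBS.L.DHH
import Pool.Agent.Lib_helper58.MBS.L.DLST
import Pool.Agent.Lib_helper58.MBS.L.DPRP
import Pool.Agent.Lib_helper58.MBS.L.DSNN
import Pool.Agent.Lib_helper58.MBS.L.EENT
import Pool.Agent.Lib_helper58.MBS.L.EGRO
import Pool.Agent.Lib_helper58.MBS.L.ENZE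

/-! # Minimal Brody sets: block ECLA -/

set_option autoImplicit false
set_option linter.unusedSectionVars false
set_option linter.unusedVariables false

open Filter Topology Metric Set

namespace Pool.Agent.MBS

open Pool.Agent.BR

section sec

variable {E X : Type} [NormedAddCommGroup E] [NormedSpace ℂ E] [FiniteDimensional ℂ E]
  [MetricSpace X] [CompactSpace X] {A : Cha E X} {C lam L : ℝ} {M : Set (ℂ → X)} {k N : ℕ}

theorem exists_U0_pr (hE : Module.finrank ℂ E = 2) (hB : BLip A lam L) (hM : Min A C M)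
    (hR : Regular A k M) {k' : ℕ} (F : A.Frm N k') {θ ε : ℝ} (hSm : SmpC M θ ε) :
    ∃ f ∈ M, ∃ V ∈ 𝓝[M] f, ∀ h ∈ V, Mle θ ε f h 0 0 := by
  obtain ⟨f, hf, hst⟩ := exists_stable hM
  obtain ⟨C₀, R, δ, hC₀, hR0, hδ, hH⟩ := exists_HH hE hB hM hR hSm
  refine ⟨f, hf, ?_⟩
  by_contra hcon
  push Not at hcon
  have hfr : ∃ᶠ h in 𝓝[M] f, ¬ Mle θ ε f h 0 0 := by
    intro hev
    obtain ⟨h, hh, hh'⟩ := hcon _ hev
    exact hh' (not_not.1 hh)
  obtain ⟨G, hG⟩ : ∃ G, G = 𝓝[M] f ⊓ 𝓟 {h | ¬ Mle θ ε f h 0 0} := ⟨_, rfl⟩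
  have hGne : G.NeBot := by rw [hG]; exact frequently_iff_neBot.1 hfr
  obtain ⟨U, hU⟩ : ∃ U : Ultrafilter (ℂ → X), (U : Filter (ℂ → X)) ≤ G :=
    ⟨Ultrafilter.of G, Ultrafilter.of_le G⟩
  have hU1 : (U : Filter (ℂ → X)) ≤ 𝓝[M] f := hU.trans (by rw [hG]; exact inf_le_left)
  have hU2 : ∀ᶠ h in (U : Filter (ℂ → X)), ¬ Mle θ ε f h 0 0 := by
    have h1 : (U : Filter (ℂ → X)) ≤ 𝓟 {h | ¬ Mle θ ε f h 0 0} :=
      hU.trans (by rw [hG]; exact inf_le_right)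
    exact h1 (mem_principal_self _)
  have hUM : ∀ᶠ h in (U : Filter (ℂ → X)), h ∈ M := hU1 self_mem_nhdsWithin
  have hUlim : Tendsto (fun h : ℂ → X => h) (U : Filter (ℂ → X)) (𝓝 f) :=
    hU1.trans nhdsWithin_le_nhds
  -- the least displacement
  have hK : ∀ h : ℂ → X, ∃ (K : ℝ) (ζ : ℂ), 0 ≤ K ∧ (h ∈ M → Mle θ ε f h 0 K ∧
      (K = 0 ∨ ‖ζ‖ ≤ 2 ∧ Smp θ ε f ζ ∧ ∀ u, ‖u - ζ‖ ≤ ε → K ≤ dist (f ζ) (h u))) := by
    intro h
    by_cases hh : h ∈ M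
    · obtain ⟨K, hK0, hK1, hK2⟩ := mle_least (θ := θ) hSm.ε_pos (hM.sub hf) (hM.sub hh)
      rcases hK2 with hK2 | ⟨ζ, hζ⟩
      · exact ⟨K, 0, hK0, fun _ => ⟨hK1, Or.inl hK2⟩⟩
      · exact ⟨K, ζ, hK0, fun _ => ⟨hK1, Or.inr hζ⟩⟩
    · exact ⟨0, 0, le_rfl, fun h1 => absurd h1 hh⟩
  choose m ζ hm hmζ using hK
  have hmne : ∀ᶠ h in (U : Filter (ℂ → X)), m h ≠ 0 := by
    filter_upwards [hUM, hU2] with h h1 h2 h3
    exact h2 (by have := (hmζ h h1).1; rwa [h3] at this)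
  have hmle : ∀ᶠ h in (U : Filter (ℂ → X)), Mle θ ε f h 0 (m h) := by
    filter_upwards [hUM] with h h1
    exact (hmζ h h1).1
  have hζ : ∀ᶠ h in (U : Filter (ℂ → X)), ‖ζ h‖ ≤ 2 ∧ Smp θ ε f (ζ h) ∧
      ∀ u, ‖u - ζ h‖ ≤ ε → m h ≤ dist (f (ζ h)) (h u) := by
    filter_upwards [hUM, hmne] with h h1 h2
    exact (hmζ h h1).2.resolve_left h2
  have hlim0 : Tendsto m (U : Filter (ℂ → X)) (𝓝 0) := by
    rw [Metric.tendsto_nhds]
    intro e he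
    have h3 := bf_unif (F := (U : Filter (ℂ → X))) (g := fun h => h) (C := C) (A := A)
      (hUM.mono fun h hh => hM.sub hh) (hM.sub hf) hUlim 2 e he
    filter_upwards [h3, hζ] with h h4 h5
    rw [Real.dist_eq, sub_zero, abs_of_nonneg (hm h)]
    refine (h5.2.2 (ζ h) (by simpa using hSm.ε_pos.le)).trans_lt ?_
    rw [dist_comm]
    exact h4 (ζ h) h5.1
  have hNN : ∀ z, NC A f z → NN (U : Filter (ℂ → X)) (fun _ => f) (fun h => h) m z := by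
    intro z hz
    obtain ⟨z₁, -, hz₁, h3⟩ := nn_of_mle (F := (U : Filter (ℂ → X))) (g := fun _ => f)
      (h := fun h => h) (m := m) hSm hM hf (Eventually.of_forall fun _ => hf) hUM
      tendsto_const_nhds hUlim hm hlim0 hmle
    exact prop hE hB hM hR hf (Eventually.of_forall fun _ => hf) hUM tendsto_const_nhds hUlim hm
      (smp_nc hB hSm.θ_pos hSm.ε_pos (hM.sub hf).1 hz₁) hz h3
  have hS : Sit A M U f (fun h => h) m :=
    { f_mem := hf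
      h_mem := hUM
      lim := hUlim
      m_nonneg := hm
      m_pos := hmne.mono fun h hh => lt_of_le_of_ne (hm h) (Ne.symm hh)
      m_lim := hlim0
      nn := hNN }
  obtain ⟨σ, B, K, hσ, hb, hsig, hpar⟩ :=
    sig_entire hE hB hM F hS hst hSm hC₀ hδ hH hmle
  obtain ⟨z, -, hz, hne⟩ := sig_ne hE hB hM F hS hSm (ζ := ζ) hζ
  exact growth hE hM F hf hσ hb ⟨z, hne (σ z)
    (hsig z (smp_nc hB hSm.θ_pos hSm.ε_pos (hM.sub hf).1 hz))⟩ hpar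


end sec

end Pool.Agent.MBS

namespace Pool.Agent.MBS
alias exists_U0 := exists_U0_pr
end Pool.Agent.MBS
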