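import Pool.Agent.Lib_helper58.MBS.Base
import Pool.Agent.Lib_helper58.MBS.L.BCHT
import Pool.Agent.Lib_helper58.MBS.L.BJET
import Pool.Agent.Lib_helper58.MBS.L.BLIM
import Pool.Agent.Lib_helper58.MBS.L.BSMP
import Pool.Agent.Lib_helper58.MBS.L.ELIM
import Pool.Agent.Lib_helper58.MBS.L.EUEX

/-! # Minimal Brody sets: block ENZE (the section does not vanish) -/

set_option autoImplicit false
set_option linter.unusedSectionVars false
set_option linter.unusedVariables false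

open Filter Topology Metric Set

namespace Pool.Agent.MBS

open Pool.Agent.BR

section sec

variable {E X : Type} [NormedAddCommGroup E] [NormedSpace ℂ E] [FiniteDimensional ℂ E]
  [MetricSpace X] [CompactSpace X] {A : Cha E X} {C lam L : ℝ} {M : Set (ℂ → X)} {k N : ℕ}

/-- the difference quotients of converging curves -/
theorem enze_quot (hM : Min A C M) {κ : Type} {U : Filter κ} {f : ℂ → X} (hf : f ∈ M)
    {h : κ → ℂ → X} (hh : ∀ᶠ n in U, h n ∈ M) (hlim : Tendsto h U (𝓝 f)) {m : κ → ℝ}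
    (hm : ∀ᶠ n in U, 0 < m n) (hm0 : Tendsto m U (𝓝 0)) {z : ℂ} {i : A.ι}
    (hi : f z ∈ (A.ch i).source) {u : κ → ℂ} (hu : Tendsto u U (𝓝 z)) (b : ℂ) :
    Tendsto (fun n => ((m n : ℂ))⁻¹ • (A.loc i (h n) (u n - b * m n) - A.loc i (h n) (u n))) U
      (𝓝 (- (b • deriv (A.loc i f) z))) := by
  have hfBF := hM.sub hf
  have hhBF : ∀ᶠ n in U, h n ∈ BF A C := hh.mono fun n hn => hM.sub hn
  obtain ⟨r, hr, hr1, hr2, -⟩ := bf_chart hhBF hfBF hlim z i hi
  have hmc : Tendsto (fun n => (m n : ℂ)) U (𝓝 0) := by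
    have h0 := (Complex.continuous_ofReal.tendsto (0 : ℝ)).comp hm0
    rw [Complex.ofReal_zero] at h0
    exact h0
  have hu' : Tendsto (fun n => u n - b * m n) U (𝓝 z) := by
    simpa using hu.sub (hmc.const_mul b)
  -- derivatives on the product
  have hj := bf_jet (F := U ×ˢ 𝓝 z) (g := fun p : κ × ℂ => h p.1) (f := f)
    (tendsto_fst.eventually hhBF) hfBF (hlim.comp tendsto_fst) (z := fun p : κ × ℂ => p.2)
    (z₀ := z) tendsto_snd i hi 1
  simp only [iteratedDeriv_one] at hj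
  rw [tendsto_iff_norm_sub_tendsto_zero]
  rw [Metric.tendsto_nhds]
  intro η hη
  have hη' : 0 < η / (‖b‖ + 1) / 2 := by positivity
  have hj1 : ∀ᶠ p : κ × ℂ in U ×ˢ 𝓝 z,
      ‖deriv (A.loc i (h p.1)) p.2 - deriv (A.loc i f) z‖ < η / (‖b‖ + 1) / 2 := by
    have := (Metric.tendsto_nhds.1 hj) _ hη'
    simpa [dist_eq_norm] using this
  obtain ⟨pa, hpa, pb, hpb, hab⟩ := eventually_prod_iff.1 hj1
  obtain ⟨ρ, hρ, hρb⟩ := Metric.eventually_nhds_iff_ball.1 hpb
  set ρ' := min ρ r with hρ'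
  have hρ'0 : 0 < ρ' := lt_min hρ hr
  have hu1 : ∀ᶠ n in U, u n ∈ ball z ρ' := hu.eventually (ball_mem_nhds z hρ'0)
  have hu2 : ∀ᶠ n in U, u n - b * m n ∈ ball z ρ' := hu'.eventually (ball_mem_nhds z hρ'0)
  filter_upwards [hpa, hr2, hu1, hu2, hm] with n h1 h2 h3 h4 h5
  have hmn : (m n : ℂ) ≠ 0 := by exact_mod_cast h5.ne'
  have hd : ∀ w ∈ ball z ρ', DifferentiableAt ℂ
      (fun w => A.loc i (h n) w - w • deriv (A.loc i f) z) w := by
    intro w hw
    have h6 := (h2 w (ball_subset_ball (min_le_right _ _) hw)).2.differentiableAt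
    exact h6.sub (differentiableAt_id.smul_const _)
  have hbd : ∀ w ∈ ball z ρ', ‖deriv (fun w => A.loc i (h n) w - w • deriv (A.loc i f) z) w‖ ≤
      η / (‖b‖ + 1) / 2 := by
    intro w hw
    have h6 := (h2 w (ball_subset_ball (min_le_right _ _) hw)).2.differentiableAt
    have h7 : HasDerivAt (fun w => A.loc i (h n) w - w • deriv (A.loc i f) z)
        (deriv (A.loc i (h n)) w - (1 : ℂ) • deriv (A.loc i f) z) w :=
      h6.hasDerivAt.sub ((hasDerivAt_id w).smul_const _)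
    rw [h7.deriv, one_smul]
    exact (hab h1 (hρb w (ball_subset_ball (min_le_left _ _) hw))).le
  have h8 := (convex_ball z ρ').norm_image_sub_le_of_norm_deriv_le hd hbd h3 h4
  have h9 : ((m n : ℂ))⁻¹ • (A.loc i (h n) (u n - b * m n) - A.loc i (h n) (u n)) -
      -(b • deriv (A.loc i f) z) = ((m n : ℂ))⁻¹ •
        ((A.loc i (h n) (u n - b * m n) - (u n - b * m n) • deriv (A.loc i f) z) -
          (A.loc i (h n) (u n) - u n • deriv (A.loc i f) z)) := by
    have h10 : b • deriv (A.loc i f) z = ((m n : ℂ))⁻¹ • ((b * m n) • deriv (A.loc i f) z) := by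
      rw [smul_smul]
      congr 1
      field_simp
    rw [h10, sub_smul]
    simp only [smul_sub]
    abel
  have h11 : ‖u n - b * m n - u n‖ = ‖b‖ * m n := by
    rw [show u n - b * m n - u n = -(b * m n) by ring, norm_neg, norm_mul, Complex.norm_real,
      Real.norm_of_nonneg h5.le]
  rw [dist_zero_right, norm_norm, h9, norm_smul, norm_inv, Complex.norm_real,
    Real.norm_of_nonneg h5.le]
  rw [h11] at h8
  have hb1 : 0 < ‖b‖ + 1 := by positivity
  calc (m n)⁻¹ * _ ≤ (m n)⁻¹ * (η / (‖b‖ + 1) / 2 * (‖b‖ * m n)) :=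
        mul_le_mul_of_nonneg_left h8 (by positivity)
    _ = η / 2 * (‖b‖ / (‖b‖ + 1)) := by field_simp
    _ ≤ η / 2 * 1 := by
        refine mul_le_mul_of_nonneg_left ?_ (by positivity)
        rw [div_le_one hb1]
        linarith
    _ < η := by linarith

/-- ENZE: the section does not vanish where the displacement is attained -/
theorem sig_ne_pr (hE : Module.finrank ℂ E = 2) (hB : BLip A lam L) (hM : Min A C M)
    (F : A.Frm N k) {κ : Type} {U : Ultrafilter κ} {f : ℂ → X} {h : κ → ℂ → X} {m : κ → ℝ}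
    (hS : Sit A M U f h m) {θ ε : ℝ} (hSm : SmpC M θ ε) {ζ : κ → ℂ}
    (hζ : ∀ᶠ n in (U : Filter κ), ‖ζ n‖ ≤ 2 ∧ Smp θ ε f (ζ n) ∧
      ∀ u, ‖u - ζ n‖ ≤ ε → m n ≤ dist (f (ζ n)) (h n u)) :
    ∃ z, ‖z‖ ≤ 2 ∧ Smp θ ε f z ∧ ∀ v, IsSig A F (U : Filter κ) f h m z v → v ≠ 0 := by
  have hfBF := hM.sub hS.f_mem
  have hhBF : ∀ᶠ n in (U : Filter κ), h n ∈ BF A C := hS.h_mem.mono fun n hn => hM.sub hn
  -- the limit point
  obtain ⟨z, hz2, hζz⟩ : ∃ z : ℂ, ‖z‖ ≤ 2 ∧ Tendsto ζ (U : Filter κ) (𝓝 z) := by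
    have h1 : ((U.map ζ : Ultrafilter ℂ) : Filter ℂ) ≤ 𝓟 (closedBall (0 : ℂ) 2) := by
      rw [Filter.le_principal_iff]
      have : ∀ᶠ n in (U : Filter κ), ζ n ∈ closedBall (0 : ℂ) 2 :=
        hζ.mono fun n hn => by simpa using hn.1
      exact this
    obtain ⟨z, hz, hz'⟩ := (isCompact_closedBall (0 : ℂ) 2).ultrafilter_le_nhds _ h1
    exact ⟨z, by simpa using hz, hz'⟩
  have hzS : Smp θ ε f z := smp_lim (F := (U : Filter κ)) (g := fun _ => f)
    (Eventually.of_forall fun _ => hfBF) hfBF tendsto_const_nhds hζz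
    (hζ.mono fun n hn => hn.2.1)
  have hzN : NC A f z := smp_nc hB hSm.θ_pos hSm.ε_pos hfBF.1 hzS
  refine ⟨z, hz2, hzS, fun v hv => ?_⟩
  obtain ⟨i, hi⟩ := hB.leb (f z)
  have hfi : f z ∈ A.W i := hi (mem_ball_self hB.lam_pos)
  have hfc : f z ∈ closure (A.W i) := subset_closure hfi
  have hfs : f z ∈ (A.ch i).source := A.W_sub i hfc
  have hd := hzN i hfs
  obtain ⟨l, hl⟩ : ∃ l : E →L[ℂ] ℂ, l (deriv (A.loc i f) z) ≠ 0 :=
    SeparatingDual.exists_ne_zero hd
  obtain ⟨r, hr, D, hD1, hD2⟩ := disp_lim hE hB hM hS hzN hfi l hl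
  have hzr : z ∈ ball z r := mem_ball_self hr
  obtain ⟨-, -, -, -, hlD⟩ := hD1 z hzr
  have hL : 0 < L := lt_of_lt_of_le one_pos hB.L_one
  -- D z ≠ 0
  have hDz : D z ≠ 0 := by
    intro hD0
    obtain ⟨u, hu, B, hu'⟩ := exists_time hS hzN hζz
    obtain ⟨b, hb⟩ := hD2 z hzr ζ u hζz hu ⟨B, hu'⟩
    rw [hD0, zero_add] at hb
    have hq := enze_quot hM hS.f_mem hS.h_mem hS.lim hS.m_pos hS.m_lim hfs hu b
    have hsum := hb.add hq
    rw [add_neg_cancel] at hsum
    have hsum' : Tendsto (fun n => ((m n : ℂ))⁻¹ • (A.loc i (h n) (u n - b * m n) -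
        A.loc i f (ζ n))) (U : Filter κ) (𝓝 0) := by
      refine hsum.congr fun n => ?_
      rw [← smul_add]
      congr 1
      abel
    have hmc : Tendsto (fun n => (m n : ℂ)) (U : Filter κ) (𝓝 0) := by
      have h0 := (Complex.continuous_ofReal.tendsto (0 : ℝ)).comp hS.m_lim
      rw [Complex.ofReal_zero] at h0
      exact h0
    have hu2 : Tendsto (fun n => u n - b * m n) (U : Filter κ) (𝓝 z) := by
      simpa using hu.sub (hmc.const_mul b)
    have h3 : ∀ᶠ n in (U : Filter κ), ‖((m n : ℂ))⁻¹ • (A.loc i (h n) (u n - b * m n) -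
        A.loc i f (ζ n))‖ < 1 / L := by
      have := hsum'.norm
      rw [norm_zero] at this
      exact this.eventually (gt_mem_nhds (by positivity))
    have h4 : ∀ᶠ n in (U : Filter κ), ‖(u n - b * m n) - ζ n‖ < ε := by
      have := (hu2.sub hζz).norm
      rw [sub_self, norm_zero] at this
      exact this.eventually (gt_mem_nhds hSm.ε_pos)
    have h5 : ∀ᶠ n in (U : Filter κ), f (ζ n) ∈ ball (f z) lam :=
      ((hfBF.1 z).1.tendsto.comp hζz).eventually (ball_mem_nhds _ hB.lam_pos)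
    have h6 : ∀ᶠ n in (U : Filter κ), h n (u n - b * m n) ∈ ball (f z) lam :=
      (bf_eval hhBF hfBF hS.lim hu2).eventually (ball_mem_nhds _ hB.lam_pos)
    have hall := (((((hζ.and h3).and h4).and h5).and h6).and hS.m_pos)
    obtain ⟨n, ⟨⟨⟨⟨h7, h8⟩, h9⟩, h10⟩, h11⟩, h12⟩ := hall.exists
    have h13 := h7.2.2 (u n - b * m n) h9.le
    have h14 := hB.le_ch i (f z) hfc (f (ζ n)) h10 (h n (u n - b * m n)) h11
    rw [norm_smul, norm_inv, Complex.norm_real, Real.norm_of_nonneg h12.le] at h8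
    have h15 : ‖A.ch i (f (ζ n)) - A.ch i (h n (u n - b * m n))‖ < m n / L := by
      rw [norm_sub_rev]
      have h16 : (m n)⁻¹ * ‖A.ch i (h n (u n - b * m n)) - A.ch i (f (ζ n))‖ < 1 / L := h8
      rw [inv_mul_lt_iff₀ h12] at h16
      calc _ < m n * (1 / L) := h16
        _ = m n / L := by ring
    have h17 : L * ‖A.ch i (f (ζ n)) - A.ch i (h n (u n - b * m n))‖ < m n := by
      calc _ < L * (m n / L) := mul_lt_mul_of_pos_left h15 hL
        _ = m n := by field_simp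
    linarith
  -- the value
  obtain ⟨u, hu, B, hu'⟩ := exists_time hS hzN (zs := fun _ => z) tendsto_const_nhds
  obtain ⟨b, hb⟩ := hD2 z hzr (fun _ => z) u tendsto_const_nhds hu ⟨B, hu'⟩
  have hv1 := hv i hfs u hu ⟨B, hu'⟩
  have hξ : A.loc i f z ∈ (A.ch i).target := (A.ch i).map_source hfs
  have hcont := ((F.tf i).hol (A.loc i f z) hξ (D z + b • deriv (A.loc i f) z)
    (deriv (A.loc i f) z)).continuousAt.tendsto
  have hpair : Tendsto (fun n => (A.loc i f z, ((m n : ℂ))⁻¹ • (A.loc i (h n) (u n) -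
      A.loc i f z), deriv (A.loc i f) z)) (U : Filter κ)
      (𝓝 (A.loc i f z, D z + b • deriv (A.loc i f) z, deriv (A.loc i f) z)) :=
    tendsto_const_nhds.prodMk_nhds (hb.prodMk_nhds tendsto_const_nhds)
  have hv2 := hcont.comp hpair
  have hveq : v = F.T i (A.loc i f z) (D z + b • deriv (A.loc i f) z) (deriv (A.loc i f) z) :=
    tendsto_nhds_unique hv1 hv2
  have heq := (F.tf i).equi (A.loc i f z) hξ 1 b 0 1 (D z) (deriv (A.loc i f) z)
  rw [one_smul, zero_smul, zero_add, one_smul] at heq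
  rw [hveq, heq]
  have hind : LinearIndependent ℂ ![D z, deriv (A.loc i f) z] := by
    rw [LinearIndependent.pair_iff]
    intro s t hst
    have h5 : l (s • D z + t • deriv (A.loc i f) z) = 0 := by rw [hst, map_zero]
    rw [map_add, map_smul, map_smul, hlD, smul_zero, zero_add, smul_eq_mul] at h5
    have ht : t = 0 := by
      rcases mul_eq_zero.1 h5 with h6 | h6
      · exact h6
      · exact absurd h6 hl
    rw [ht, zero_smul, add_zero] at hst
    refine ⟨?_, ht⟩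
    rcases smul_eq_zero.1 hst with h6 | h6
    · exact h6
    · exact absurd h6 hDz
  have hne := (F.tf i).ne (A.loc i f z) hξ _ _ hind
  simpa using hne

end sec


end Pool.Agent.MBS

namespace Pool.Agent.MBS
alias sig_ne := sig_ne_pr
end Pool.Agent.MBS
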