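import Pool.Agent.Lib_helper58.MBS.Base
import Pool.Agent.Lib_helper58.MBS.L.BVIS

/-! # Minimal Brody sets: block FCOV -/

set_option autoImplicit false
set_option linter.unusedSectionVars false
set_option linter.unusedVariables false

open Filter Topology Metric Set

namespace Pool.Agent.MBS

open Pool.Agent.BR

section fin

variable {E X : Type} [NormedAddCommGroup E] [NormedSpace ℂ E] [FiniteDimensional ℂ E]
  [MetricSpace X] [CompactSpace X] {A : Cha E X} {C lam L : ℝ} {M : Set (ℂ → X)} {k : ℕ}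

theorem one_disc_pr (hM : Min A C M)
    (h : ∀ f ∈ M, ∃ V ∈ 𝓝[M] f, ∀ g ∈ V, ∀ h ∈ V, ∃ u, ‖u‖ ≤ 1 ∧ g 0 = h u) {g : ℂ → X}
    (hg : g ∈ M) : ∃ R : ℝ, range g = g '' closedBall 0 R := by
  have hkey : ∃ R : ℝ, ∀ z, tr z g ∈ M → ∃ u : ℂ, ‖u‖ ≤ R ∧ g z = g u := by
    refine (min_compact hM).induction_on
      (p := fun s => ∃ R : ℝ, ∀ z, tr z g ∈ s → ∃ u : ℂ, ‖u‖ ≤ R ∧ g z = g u)
      ⟨0, fun z hz => absurd hz (notMem_empty _)⟩ ?_ ?_ ?_
    · rintro s t hst ⟨R, hR⟩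
      exact ⟨R, fun z hz => hR z (hst hz)⟩
    · rintro s t ⟨R, hR⟩ ⟨R', hR'⟩
      refine ⟨max R R', fun z hz => ?_⟩
      rcases hz with hz | hz
      · obtain ⟨u, hu, hu'⟩ := hR z hz
        exact ⟨u, hu.trans (le_max_left _ _), hu'⟩
      · obtain ⟨u, hu, hu'⟩ := hR' z hz
        exact ⟨u, hu.trans (le_max_right _ _), hu'⟩
    · intro f hf
      obtain ⟨V, hV, hVf⟩ := h f hf
      obtain ⟨w, hw⟩ := min_visit hM hg hf hV
      refine ⟨V, hV, 1 + ‖w‖, fun z hz => ?_⟩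
      obtain ⟨u, hu, hu'⟩ := hVf _ hz _ hw
      refine ⟨u + w, (norm_add_le _ _).trans (by linarith), ?_⟩
      simpa [tr] using hu'
  obtain ⟨R, hR⟩ := hkey
  refine ⟨R, subset_antisymm ?_ (image_subset_range _ _)⟩
  rintro _ ⟨z, rfl⟩
  obtain ⟨u, hu, hu'⟩ := hR z (hM.inv g hg z)
  exact ⟨u, by simpa using hu, hu'.symm⟩

end fin

end Pool.Agent.MBS

namespace Pool.Agent.MBS
alias one_disc := one_disc_pr
end Pool.Agent.MBS
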