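import Pool.Agent.Lib_helper58.MBS.Base
import Pool.Agent.Lib_helper58.MBS.L.BJET
import Pool.Agent.Lib_helper58.MBS.L.DWIN

/-! # Minimal Brody sets: block FGER -/

set_option autoImplicit false
set_option linter.unusedSectionVars false
set_option linter.unusedVariables false

open Filter Topology Metric Set

namespace Pool.Agent.MBS

open Pool.Agent.BR

section fin

variable {E X : Type} [NormedAddCommGroup E] [NormedSpace ℂ E] [FiniteDimensional ℂ E]
  [MetricSpace X] [CompactSpace X] {A : Cha E X} {C lam L : ℝ} {M : Set (ℂ → X)} {k : ℕ}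

theorem nn_zero_germ_pr (hE : Module.finrank ℂ E = 2) (hB : BLip A lam L) (hM : Min A C M)
    {f : ℂ → X} (hf : f ∈ M) {κ : Type} {F : Filter κ} {g h : κ → ℂ → X}
    (hgM : ∀ᶠ n in F, g n ∈ M) (hhM : ∀ᶠ n in F, h n ∈ M) (hg : Tendsto g F (𝓝 f))
    (hh : Tendsto h F (𝓝 f)) {z : ℂ} (hz : NC A f z) (h1 : NN F g h (fun _ => 0) z) (ε : ℝ)
    (hε : 0 < ε) : ∀ᶠ n in F, ∃ t : ℂ → ℂ, AnalyticAt ℂ t z ∧ ‖t z - z‖ ≤ ε ∧
      ∀ᶠ w in 𝓝 z, g n w = h n (t w) := by
  obtain ⟨i, hi⟩ := A.cover (f z)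
  have his : f z ∈ (A.ch i).source := A.W_sub i (subset_closure hi)
  have hne : deriv (A.loc i f) z ≠ 0 := hz i his
  obtain ⟨l, hl⟩ : ∃ l : E →L[ℂ] ℂ, l (deriv (A.loc i f) z) ≠ 0 := by
    obtain ⟨l, hl⟩ := exists_dual_vector ℂ (deriv (A.loc i f) z) (norm_ne_zero_iff.2 hne)
    refine ⟨l, ?_⟩
    rw [hl.2]
    simpa using hne
  obtain ⟨r, ρ, B, V, u, -, hW⟩ := exists_win hB hM hf hi hl (r₀ := 1) one_pos
  obtain ⟨ρ', hρ', B', hNN⟩ := h1
  have hgV : ∀ᶠ n in F, g n ∈ V := by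
    have : Tendsto g F (𝓝[M] f) := tendsto_nhdsWithin_iff.2 ⟨hg, hgM⟩
    exact this.eventually_mem hW.V_mem
  have hhV : ∀ᶠ n in F, h n ∈ V := by
    have : Tendsto h F (𝓝[M] f) := tendsto_nhdsWithin_iff.2 ⟨hh, hhM⟩
    exact this.eventually_mem hW.V_mem
  have hgl : Tendsto (fun n => A.loc i (g n) z) F (𝓝 (A.loc i f z)) := by
    have h2 := bf_jet (hgM.mono fun n hn => hM.sub hn) (hM.sub hf) hg (z := fun _ => z) (z₀ := z)
      tendsto_const_nhds i his 0
    simpa using h2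
  have hgx : ∀ᶠ n in F, l (A.loc i (g n) z) ∈ ball (l (A.loc i f z)) ρ :=
    ((l.continuous.tendsto _).comp hgl).eventually_mem (ball_mem_nhds _ hW.ρ_pos)
  have hε' : 0 < min ε (r / 2) := lt_min hε (half_pos hW.r_pos)
  filter_upwards [hgV, hhV, hgx, hNN _ hε'] with n hn1 hn2 hn3 hn4
  have hzr : z ∈ ball z r := mem_ball_self hW.r_pos
  have han := hW.an _ hn1 z hzr
  have hφ : AnalyticAt ℂ (fun w => l (A.loc i (g n) w)) z := (l.analyticAt _).fun_comp han
  have hkey : ∀ w : ℂ, w ∈ ball z ρ' → w ∈ ball z (r / 2) →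
      l (A.loc i (g n) w) ∈ ball (l (A.loc i f z)) ρ →
      g n w = h n (u (h n) (l (A.loc i (g n) w))) ∧
        ‖u (h n) (l (A.loc i (g n) w)) - w‖ ≤ ε := by
    intro w hw1 hw2 hw3
    obtain ⟨v, hv1, hv2⟩ := hn4 w hw1
    have hv3 : g n w = h n v := by
      have : dist (g n w) (h n v) ≤ 0 := by simpa using hv2
      exact dist_le_zero.1 this
    have hvr : v ∈ ball z r := by
      have h3 : ‖v - w‖ ≤ r / 2 := hv1.trans (min_le_right _ _)
      have h4 : ‖w - z‖ < r / 2 := by simpa [dist_eq_norm] using hw2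
      rw [mem_ball, dist_eq_norm]
      calc ‖v - z‖ = ‖(v - w) + (w - z)‖ := by congr 1; ring
        _ ≤ ‖v - w‖ + ‖w - z‖ := norm_add_le _ _
        _ < r := by linarith
    have h5 : A.loc i (h n) v = A.loc i (g n) w := by simp [Cha.loc, hv3]
    have h6 := win_uniq hW hn2 hvr (by rw [h5]; exact hw3)
    rw [h5] at h6
    rw [← h6]
    exact ⟨hv3, hv1.trans (min_le_left _ _)⟩
  refine ⟨fun w => u (h n) (l (A.loc i (g n) w)), ?_, ?_, ?_⟩
  · exact AnalyticAt.fun_comp (hW.u_an _ hn2 _ hn3) hφ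
  · exact (hkey z (mem_ball_self hρ') (mem_ball_self (half_pos hW.r_pos)) hn3).2
  · filter_upwards [ball_mem_nhds z hρ', ball_mem_nhds z (half_pos hW.r_pos),
      hφ.continuousAt.eventually_mem (isOpen_ball.mem_nhds hn3)] with w hw1 hw2 hw3
    exact (hkey w hw1 hw2 hw3).1

end fin

end Pool.Agent.MBS

namespace Pool.Agent.MBS
alias nn_zero_germ := nn_zero_germ_pr
end Pool.Agent.MBS
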