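import Pool.Agent.Lib_helper58.MBS.Base
import Pool.Agent.Lib_helper58.MBS.L.CGER

/-! # Minimal Brody sets: block FJDI (an invariant jet differential in the charts) -/

set_option autoImplicit false
set_option linter.unusedSectionVars false
set_option linter.unusedVariables false

open Filter Topology Metric Set
open scoped Manifold ContDiff

namespace Pool.Agent.MBS

open Pool.Agent.BR

section metric

variable {E X : Type} [NormedAddCommGroup E] [NormedSpace ℂ E] [FiniteDimensional ℂ E]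

/-- germs in the manifold and germs in the atlas are the same -/
theorem fjdi_ger [MetricSpace X] [ChartedSpace E X]
    [IsManifold 𝓘(ℂ, E) ω X] (A : Cha E X) (hA : ∀ i, ∃ y, A.ch i = chartAt E y) (c : ℂ → X) :
    Ger A c ↔ MinBrody.IsGerm E c := by
  have : IsManifold 𝓘(ℂ, E) 1 X := IsManifold.of_le (n := ω) le_top
  have : CompleteSpace E := FiniteDimensional.complete ℂ E
  unfold Ger MinBrody.IsGerm
  constructor
  · intro h
    filter_upwards [h] with t ht
    obtain ⟨i, hi⟩ := A.cover (c t)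
    have hsrc : c t ∈ (A.ch i).source := A.W_sub i (subset_closure hi)
    obtain ⟨y, hy⟩ := hA i
    have h1 : MDifferentiableAt 𝓘(ℂ, ℂ) 𝓘(ℂ, E) (A.loc i c) t :=
      ((ht.2 i hsrc).differentiableAt).mdifferentiableAt
    have h2 : MDifferentiableAt 𝓘(ℂ, E) 𝓘(ℂ, E) (chartAt E y).symm (A.loc i c t) := by
      refine mdifferentiableAt_atlas_symm (I := 𝓘(ℂ, E)) (chart_mem_atlas E y) ?_
      rw [← hy]
      exact (A.ch i).map_source hsrc
    have h3 : MDifferentiableAt 𝓘(ℂ, ℂ) 𝓘(ℂ, E) ((chartAt E y).symm ∘ A.loc i c) t :=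
      h2.comp t h1
    refine h3.congr_of_eventuallyEq ?_
    have h4 : ∀ᶠ s in 𝓝 t, c s ∈ (A.ch i).source :=
      ht.1.eventually ((A.ch i).open_source.mem_nhds hsrc)
    filter_upwards [h4] with s hs
    rw [← hy]
    exact ((A.ch i).left_inv hs).symm
  · intro h
    filter_upwards [eventually_eventually_nhds.2 h] with t ht
    refine ⟨ht.self_of_nhds.continuousAt, fun i hi => ?_⟩
    obtain ⟨y, hy⟩ := hA i
    have h5 : ∀ᶠ s in 𝓝 t, c s ∈ (A.ch i).source :=
      ht.self_of_nhds.continuousAt.eventually ((A.ch i).open_source.mem_nhds hi)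
    have hd : ∀ᶠ s in 𝓝 t, DifferentiableAt ℂ (A.loc i c) s := by
      filter_upwards [ht, h5] with s hs hs5
      have hs' : c s ∈ (chartAt E y).source := by rw [← hy]; exact hs5
      have h1 : MDifferentiableAt 𝓘(ℂ, E) 𝓘(ℂ, E) (chartAt E y) (c s) :=
        mdifferentiableAt_atlas (I := 𝓘(ℂ, E)) (chart_mem_atlas E y) hs'
      have h2 : MDifferentiableAt 𝓘(ℂ, ℂ) 𝓘(ℂ, E) (chartAt E y ∘ c) s := h1.comp s hs
      rw [mdifferentiableAt_iff_differentiableAt] at h2
      have h3 : A.loc i c = chartAt E y ∘ c := by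
        funext r
        rw [Cha.loc, hy]
        rfl
      rw [h3]
      exact h2
    exact Complex.analyticAt_iff_eventually_differentiableAt.2 hd

/-- the zeroth entry of a jet -/
theorem fjdi_zero [MetricSpace X] (A : Cha E X) (k : ℕ) (i : A.ι) (c : ℂ → X) :
    jt A k i c 0 = A.ch i (c 0) := by
  simp [jt, Cha.loc]

/-- the identity theorem: an invariant jet differential which is not zero is not zero on any open
set -/
theorem fjdi_ne [MetricSpace X] [CompactSpace X] [ConnectedSpace X] (A : Cha E X) (k : ℕ)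
    (P : (ℂ → X) → ℂ) (Q : A.ι → (Fin (k + 1) → E) → ℂ)
    (han : ∀ i s, s 0 ∈ (A.ch i).target → AnalyticAt ℂ (Q i) s)
    (heq : ∀ i c, Ger A c → c 0 ∈ (A.ch i).source → P c = Q i (jt A k i c))
    (hne : ∃ c, Ger A c ∧ P c ≠ 0) (V : Set X) (hV : IsOpen V) (hVne : V.Nonempty) :
    ∃ c, Ger A c ∧ c 0 ∈ V ∧ P c ≠ 0 := by
  classical
  set Z : Set X := {x | ∃ W : Set X, IsOpen W ∧ x ∈ W ∧ ∀ c, Ger A c → c 0 ∈ W → P c = 0} with hZ
  have hZo : IsOpen Z := by
    rw [isOpen_iff_mem_nhds]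
    rintro x ⟨W, hW, hxW, hWc⟩
    filter_upwards [hW.mem_nhds hxW] with y hy
    exact ⟨W, hW, hy, hWc⟩
  have hZc : IsClosed Z := by
    rw [← closure_subset_iff_isClosed]
    intro x hx
    obtain ⟨i, hi⟩ := A.cover x
    have hsrc : x ∈ (A.ch i).source := A.W_sub i (subset_closure hi)
    obtain ⟨r, hr, hrt⟩ := Metric.isOpen_iff.1 (A.ch i).open_target (A.ch i x)
      ((A.ch i).map_source hsrc)
    set O : Set X := (A.ch i).source ∩ A.ch i ⁻¹' ball (A.ch i x) r with hO
    have hOo : IsOpen O := (A.ch i).isOpen_inter_preimage isOpen_ball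
    have hxO : x ∈ O := ⟨hsrc, mem_ball_self hr⟩
    obtain ⟨x', hx'O, W, hW, hx'W, hWc⟩ := mem_closure_iff.1 hx O hOo hxO
    refine ⟨O, hOo, hxO, fun c hc hcO => ?_⟩
    rw [heq i c hc hcO.1]
    set U : Set (Fin (k + 1) → E) := {s | s 0 ∈ ball (A.ch i x) r} with hU
    have hUconv : Convex ℝ U := by
      have h1 := (convex_ball (A.ch i x) r).is_linear_preimage
        (f := fun s : Fin (k + 1) → E => s 0) (IsLinearMap.mk (fun _ _ => rfl) fun _ _ => rfl)
      exact h1
    have hUan : AnalyticOnNhd ℂ (Q i) U := fun s hs => han i s (hrt hs)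
    have hs' : (fun _ => A.ch i x' : Fin (k + 1) → E) ∈ U := hx'O.2
    have hx't : A.ch i x' ∈ (A.ch i).target := (A.ch i).map_source hx'O.1
    have hev : Q i =ᶠ[𝓝 (fun _ => A.ch i x' : Fin (k + 1) → E)] 0 := by
      have h2 : ∀ᶠ e in 𝓝 (A.ch i x'), e ∈ (A.ch i).target ∧ (A.ch i).symm e ∈ W := by
        have h3 : ContinuousAt (A.ch i).symm (A.ch i x') := (A.ch i).continuousAt_symm hx't
        have h3' : (A.ch i).symm (A.ch i x') ∈ W := by
          rw [(A.ch i).left_inv hx'O.1]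
          exact hx'W
        have h3a : ∀ᶠ e in 𝓝 (A.ch i x'), e ∈ (A.ch i).target :=
          (A.ch i).open_target.mem_nhds hx't
        have h3b : ∀ᶠ e in 𝓝 (A.ch i x'), (A.ch i).symm e ∈ W :=
          h3.eventually (hW.mem_nhds h3')
        exact h3a.and h3b
      have h4 : ContinuousAt (fun s : Fin (k + 1) → E => s 0)
          (fun _ => A.ch i x' : Fin (k + 1) → E) := (continuous_apply 0).continuousAt
      filter_upwards [h4.eventually h2] with s hs
      obtain ⟨d, hd, hd0, hds⟩ := exists_germ (A := A) i s hs.1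
      have h5 := heq i d hd hd0
      rw [hds] at h5
      show Q i s = 0
      rw [← h5]
      refine hWc d hd ?_
      have h6 := fjdi_zero A k i d
      rw [hds] at h6
      have h7 := hs.2
      rw [h6, (A.ch i).left_inv hd0] at h7
      exact h7
    have h8 := hUan.eqOn_zero_of_preconnected_of_eventuallyEq_zero hUconv.isPreconnected hs' hev
    refine h8 ?_
    show jt A k i c 0 ∈ ball (A.ch i x) r
    rw [fjdi_zero]
    exact hcO.2
  have hZe : Z = ∅ := by
    rcases isClopen_iff.1 ⟨hZc, hZo⟩ with h | h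
    · exact h
    · exfalso
      obtain ⟨c, hc, hPc⟩ := hne
      have h9 : c 0 ∈ Z := by rw [h]; exact mem_univ _
      obtain ⟨W, _, hcW, hWc⟩ := h9
      exact hPc (hWc c hc hcW)
  obtain ⟨x, hx⟩ := hVne
  by_contra hcon
  push Not at hcon
  have h10 : x ∈ Z := ⟨V, hV, hx, fun c hc hcV => hcon c hc hcV⟩
  rw [hZe] at h10
  exact h10

/-- FJDI: an invariant jet differential in the charts -/
theorem exists_jd_pr [MetricSpace X] [CompactSpace X] [ConnectedSpace X] [ChartedSpace E X]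
    [IsManifold 𝓘(ℂ, E) ω X] (A : Cha E X) (hA : ∀ i, ∃ y, A.ch i = chartAt E y)
    (h : MinBrody.HasInvariantJetDifferential E X) :
    ∃ (k m : ℕ) (P : (ℂ → X) → ℂ) (Q : A.ι → (Fin (k + 1) → E) → ℂ), JD A k m P Q := by
  classical
  obtain ⟨k, m, P, hm, hP, c₀, hc₀, hPc₀⟩ := h
  choose y hy using hA
  choose R hR using hP.hol
  have han : ∀ i s, s 0 ∈ (A.ch i).target → AnalyticAt ℂ (R (y i)) s := by
    intro i s hs
    rw [hy i] at hs
    exact (hR (y i)).1 s hs
  have heq : ∀ i c, Ger A c → c 0 ∈ (A.ch i).source → P c = R (y i) (jt A k i c) := by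
    intro i c hc hi
    have h1 : c 0 ∈ (chartAt E (y i)).source := by rw [← hy i]; exact hi
    rw [(hR (y i)).2 c ((fjdi_ger A (fun i => ⟨y i, hy i⟩) c).1 hc) h1]
    congr 1
    funext q
    simp only [jt, MinBrody.chartJet]
    congr 1
    funext z
    rw [Cha.loc, hy i]
  have hne : ∃ c, Ger A c ∧ P c ≠ 0 :=
    ⟨c₀, (fjdi_ger A (fun i => ⟨y i, hy i⟩) c₀).2 hc₀, hPc₀⟩
  refine ⟨k, m, P, fun i => R (y i), hm, han, heq, ?_, ?_, fjdi_ne A k P _ han heq hne⟩
  · intro c hc ψ hψ h0
    exact hP.inv c ((fjdi_ger A (fun i => ⟨y i, hy i⟩) c).1 hc) ψ hψ h0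
  · intro i c hc hi hd
    have h1 : c 0 ∈ (chartAt E (y i)).source := by rw [← hy i]; exact hi
    refine hP.stat c ((fjdi_ger A (fun i => ⟨y i, hy i⟩) c).1 hc) (y i) h1 ?_
    have h2 : A.loc i c = fun z => chartAt E (y i) (c z) := by
      funext z
      rw [Cha.loc, hy i]
    rw [← h2]
    exact hd

end metric

end Pool.Agent.MBS

namespace Pool.Agent.MBS
alias exists_jd := exists_jd_pr
end Pool.Agent.MBS
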