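import Pool.Agent.Lib_helper58.MBS.Base

/-! # FLAT: doubly periodic curves have compact image -/

set_option autoImplicit false
set_option linter.unusedSectionVars false
set_option linter.unusedVariables false

open Filter Topology Metric Set
open scoped Manifold ContDiff

namespace Pool.Agent.MBS

open Pool.Agent.BR

section fin

variable {E X : Type} [NormedAddCommGroup E] [NormedSpace ℂ E] [FiniteDimensional ℂ E]
  [MetricSpace X] [CompactSpace X] {A : Cha E X} {C lam L : ℝ} {M : Set (ℂ → X)} {k : ℕ}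

theorem flat_cover (Λ : Submodule ℤ ℂ) [DiscreteTopology Λ] [IsZLattice ℝ Λ] :
    ∃ R : ℝ, ∀ z : ℂ, ∃ l ∈ Λ, ‖z - l‖ ≤ R := by
  classical
  let b := Module.Free.chooseBasis ℤ Λ
  let b' := b.ofZLatticeBasis ℝ Λ
  obtain ⟨R, hR⟩ := (ZSpan.fundamentalDomain_isBounded b').exists_norm_le
  refine ⟨R, fun z => ⟨(ZSpan.floor b' z : ℂ), ?_, ?_⟩⟩
  · have h := (ZSpan.floor b' z).2
    have e : Submodule.span ℤ (range b') = Λ := b.ofZLatticeBasis_span ℝ
    exact e.le h
  · have h := hR (ZSpan.fract b' z) (ZSpan.fract_mem_fundamentalDomain b' z)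
    rwa [ZSpan.fract_apply] at h

theorem periodic_compact_pr {f : ℂ → X} (hf : DoublyPeriodic f) :
    ∃ R : ℝ, range f = f '' closedBall 0 R := by
  obtain ⟨Λ, h1, h2, h3⟩ := hf
  obtain ⟨R, hR⟩ := flat_cover Λ
  refine ⟨R, Subset.antisymm ?_ (image_subset_range _ _)⟩
  rintro _ ⟨z, rfl⟩
  obtain ⟨l, hl, hl2⟩ := hR z
  refine ⟨z - l, by simpa using hl2, ?_⟩
  have := h3 l hl (z - l)
  rw [← this, sub_add_cancel]


end fin

end Pool.Agent.MBS

namespace Pool.Agent.MBS
alias periodic_compact := periodic_compact_pr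
end Pool.Agent.MBS
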