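import Pool.Agent.Lib_helper58.MBS.Base
import Pool.Agent.Lib_helper58.MBS.L.BLIM
import Pool.Agent.Lib_helper58.MBS.L.BNC
import Pool.Agent.Lib_helper58.MBS.L.BSMP
import Pool.Agent.Lib_helper58.MBS.L.BVIS
import Pool.Agent.Lib_helper58.MBS.L.DNGR
import Pool.Agent.Lib_helper58.MBS.L.DWIN

/-! # Minimal Brody sets: block FPAI (two members near `f` have a common image germ) -/

set_option autoImplicit false
set_option linter.unusedSectionVars false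
set_option linter.unusedVariables false

open Filter Topology Metric Set
open scoped Manifold ContDiff

namespace Pool.Agent.MBS

open Pool.Agent.BR

section fin

variable {E X : Type} [NormedAddCommGroup E] [NormedSpace ℂ E] [FiniteDimensional ℂ E]
  [MetricSpace X] [CompactSpace X] {A : Cha E X} {C lam L : ℝ} {M : Set (ℂ → X)} {k : ℕ}

/-- translation is continuous -/
theorem fpai_tr_tendsto {κ : Type} {F : Filter κ} {g : κ → ℂ → X} {f : ℂ → X}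
    (hg : Tendsto g F (𝓝 f)) (w : ℂ) : Tendsto (fun n => tr w (g n)) F (𝓝 (tr w f)) :=
  tendsto_pi_nhds.2 fun z => tendsto_pi_nhds.1 hg (z + w)

/-- translation of the displacement -/
theorem fpai_nn_tr {κ : Type} {F : Filter κ} {g h : κ → ℂ → X} {m : κ → ℝ} {z w : ℂ}
    (h1 : NN F (fun n => tr w (g n)) (fun n => tr w (h n)) m z) : NN F g h m (z + w) := by
  obtain ⟨ρ, hρ, B, hB⟩ := h1
  refine ⟨ρ, hρ, B, fun ε hε => ?_⟩
  filter_upwards [hB ε hε] with n hn ζ hζ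
  have hζ' : ζ - w ∈ ball z ρ := by
    rw [mem_ball, dist_eq_norm] at hζ ⊢
    rwa [show ζ - w - z = ζ - (z + w) by ring]
  obtain ⟨u, hu, hd⟩ := hn (ζ - w) hζ'
  refine ⟨u + w, ?_, ?_⟩
  · rwa [show u + w - ζ = u - (ζ - w) by ring]
  · have : tr w (g n) (ζ - w) = g n ζ := by simp [tr]
    rw [this] at hd
    exact hd

/-- translation of the noncritical points -/
theorem fpai_nc_tr {f : ℂ → X} {z w : ℂ} (h : NC A (tr w f) z) : NC A f (z + w) := by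
  intro i hi
  have h1 : deriv (A.loc i (tr w f)) z = deriv (A.loc i f) (z + w) :=
    deriv_comp_add_const (f := A.loc i f) w z
  rw [← h1]
  exact h i hi

/-- the points of the window are noncritical -/
theorem fpai_nc_win (hB : BLip A lam L) (hM : Min A C M) {f : ℂ → X} {z₀ : ℂ}
    {i : A.ι} {l : E →L[ℂ] ℂ} {r ρ B : ℝ} {V : Set (ℂ → X)} {u : (ℂ → X) → ℂ → ℂ}
    (hW : Win A M f z₀ i l lam r ρ B V u) {h : ℂ → X} (hh : h ∈ V) {x : ℂ}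
    (hx : x ∈ ball (l (A.loc i f z₀)) ρ) : NC A h (u h x) := by
  have hz := hW.mem h hh x hx
  have hsrc : h (u h x) ∈ (A.ch i).source :=
    hB.src i (f z₀) (subset_closure hW.core) (hW.near h hh _ hz)
  rw [nc_iff ((hM.sub (hW.V_sub hh)).1 _) i hsrc]
  intro h0
  have h1 : HasDerivAt (A.loc i h) (deriv (A.loc i h) (u h x)) (u h x) :=
    (hW.an h hh _ hz).differentiableAt.hasDerivAt
  have h2 : HasDerivAt (u h) (deriv (u h) x) x := (hW.u_an h hh x hx).differentiableAt.hasDerivAt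
  have h3 : HasDerivAt (fun y => A.loc i h (u h y)) (deriv (u h) x • deriv (A.loc i h) (u h x)) x :=
    h1.scomp x h2
  have h4 : HasDerivAt (fun y => l (A.loc i h (u h y)))
      (l (deriv (u h) x • deriv (A.loc i h) (u h x))) x :=
    l.hasFDerivAt.comp_hasDerivAt x h3
  have h5 : HasDerivAt (fun y => l (A.loc i h (u h y))) 1 x := by
    refine (hasDerivAt_id x).congr_of_eventuallyEq ?_
    filter_upwards [isOpen_ball.mem_nhds hx] with y hy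
    exact hW.eq h hh y hy
  have h6 := h4.unique h5
  rw [h0, smul_zero, map_zero] at h6
  exact zero_ne_one h6

/-- the members near `f₀` have the same graph as `f₀` -/
theorem fpai_gr_eq (hB : BLip A lam L) (hM : Min A C M) {θ ε : ℝ} (hSm : SmpC M θ ε)
    {f₀ : ℂ → X} (hf₀ : f₀ ∈ M) {V₀ : Set (ℂ → X)} (hV₀ : V₀ ∈ 𝓝[M] f₀)
    (h0 : ∀ h ∈ V₀, Mle θ ε f₀ h 0 0) :
    ∃ (z₀ : ℂ) (i : A.ι) (l : E →L[ℂ] ℂ) (r ρ B : ℝ) (V : Set (ℂ → X)) (u : (ℂ → X) → ℂ → ℂ),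
      Win A M f₀ z₀ i l lam r ρ B V u ∧ ∃ V₁ ∈ 𝓝[M] f₀, V₁ ⊆ V ∧ ∃ ρ₁ > 0, ∀ h ∈ V₁,
        ∀ x ∈ ball (l (A.loc i f₀ z₀)) ρ₁, gr A i u h x = gr A i u f₀ x := by
  obtain ⟨s, hs1, hs2, η, hη, hcirc⟩ := hSm.circ f₀ hf₀
  have hcirc₀ := hcirc.self_of_nhdsWithin hf₀
  have hns : ‖(s : ℂ)‖ = s := by
    rw [Complex.norm_real, Real.norm_eq_abs, abs_of_pos (by linarith)]
  -- samples near `s`
  have hsmp : ∀ ζ : ℂ, ‖ζ - s‖ < min η (2 - s) → Smp θ ε f₀ ζ ∧ ‖ζ‖ ≤ 2 := by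
    intro ζ hζ
    have h1 := lt_of_lt_of_le hζ (min_le_left _ _)
    have h2 := lt_of_lt_of_le hζ (min_le_right _ _)
    have h3 : |‖ζ‖ - s| ≤ ‖ζ - s‖ := by
      have := abs_norm_sub_norm_le ζ (s : ℂ)
      rwa [hns] at this
    have h4 := abs_le.1 h3
    exact ⟨hcirc₀ ζ (by linarith [h4.1]) (by linarith [h4.2]), by linarith [h4.2]⟩
  have hη' : 0 < min η (2 - s) := lt_min hη (by linarith)
  have hnc : NC A f₀ (s : ℂ) :=
    smp_nc hB hSm.θ_pos hSm.ε_pos (hM.sub hf₀).1 (hsmp s (by simpa using hη')).1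
  obtain ⟨i, hi⟩ := A.cover (f₀ s)
  have hd : deriv (A.loc i f₀) s ≠ 0 := hnc i (A.W_sub i (subset_closure hi))
  obtain ⟨l, hl⟩ : ∃ l : E →L[ℂ] ℂ, l (deriv (A.loc i f₀) s) ≠ 0 :=
    SeparatingDual.exists_ne_zero hd
  obtain ⟨r, ρ, B, V, u, hr₁, hW⟩ := exists_win hB hM hf₀ hi hl one_pos
  have hrpos := hW.r_pos
  have hδ : 0 < θ * (r / 8) := mul_pos hSm.θ_pos (by linarith)
  have hunif : ∀ᶠ h in 𝓝[M] f₀, ∀ z : ℂ, ‖z‖ ≤ 4 → dist (h z) (f₀ z) < θ * (r / 8) :=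
    bf_unif (A := A) (C := C) (F := 𝓝[M] f₀) (g := fun h => h)
      (by filter_upwards [self_mem_nhdsWithin] with h hh using hM.sub hh) (hM.sub hf₀)
      (tendsto_id.mono_left nhdsWithin_le_nhds) 4 _ hδ
  -- continuity of the inverse function of `f₀`
  set x₀ : ℂ := l (A.loc i f₀ s) with hx₀
  have hx₀m : x₀ ∈ ball x₀ ρ := mem_ball_self hW.ρ_pos
  have hu₀ : u f₀ x₀ = s :=
    (win_uniq hW hW.f_mem (mem_ball_self hrpos) hx₀m).symm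
  have hcont : ContinuousAt (u f₀) x₀ := (hW.u_an f₀ hW.f_mem x₀ hx₀m).continuousAt
  have hη'' : 0 < min (min η (2 - s)) (r / 4) := lt_min hη' (by linarith)
  obtain ⟨ρ₂, hρ₂, hρ₂'⟩ := Metric.continuousAt_iff.1 hcont _ hη''
  refine ⟨s, i, l, r, ρ, B, V, u, hW, V₀ ∩ V ∩ {h | ∀ z : ℂ, ‖z‖ ≤ 4 →
    dist (h z) (f₀ z) < θ * (r / 8)}, inter_mem (inter_mem hV₀ hW.V_mem) hunif,
    fun h hh => hh.1.2, min ρ ρ₂, lt_min hW.ρ_pos hρ₂, fun h hh x hx => ?_⟩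
  have hxρ : x ∈ ball x₀ ρ := ball_subset_ball (min_le_left _ _) hx
  have hxρ₂ : dist x x₀ < ρ₂ := lt_of_lt_of_le hx (min_le_right _ _)
  have hζ := hρ₂' hxρ₂
  rw [hu₀, dist_eq_norm] at hζ
  obtain ⟨hS, hζ2⟩ := hsmp (u f₀ x) (lt_of_lt_of_le hζ (min_le_left _ _))
  have hζr := lt_of_lt_of_le hζ (min_le_right _ _)
  obtain ⟨v, hv, hdv⟩ := h0 h hh.1.1 (u f₀ x) (by simpa using hζ2) hS
  have heq : f₀ (u f₀ x) = h v := dist_le_zero.1 hdv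
  have hv4 : ‖v‖ ≤ 4 := by
    have h1 : ‖v‖ ≤ ‖v - u f₀ x‖ + ‖u f₀ x‖ := by
      have := norm_add_le (v - u f₀ x) (u f₀ x)
      rwa [sub_add_cancel] at this
    linarith [hSm.ε_le]
  have h1 := hS v hv
  rw [heq] at h1
  have h2 : θ * ‖v - u f₀ x‖ < θ * (r / 8) := lt_of_le_of_lt h1 (hh.2 v hv4)
  have h3 : ‖v - u f₀ x‖ < r / 8 := lt_of_mul_lt_mul_left h2 hSm.θ_pos.le
  have hvr : v ∈ ball (s : ℂ) r := by
    rw [mem_ball, dist_eq_norm]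
    have h4 : ‖v - s‖ ≤ ‖v - u f₀ x‖ + ‖u f₀ x - s‖ := by
      have := norm_add_le (v - u f₀ x) (u f₀ x - s)
      rwa [sub_add_sub_cancel] at this
    linarith
  have hloc : A.loc i h v = A.loc i f₀ (u f₀ x) := by
    simp only [Cha.loc, heq]
  have hlv : l (A.loc i h v) = x := by
    rw [hloc]
    exact hW.eq f₀ hW.f_mem x hxρ
  have hvu : v = u h x := by
    have := win_uniq hW hh.1.2 hvr (by rw [hlv]; exact hxρ)
    rwa [hlv] at this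
  simp only [gr]
  rw [← hvu, hloc]

/-- FPAI: two members near `f` have a common image germ -/
theorem nn_zero_pr (hE : Module.finrank ℂ E = 2) (hB : BLip A lam L) (hM : Min A C M) {θ ε : ℝ}
    (hSm : SmpC M θ ε) {f₀ : ℂ → X} (hf₀ : f₀ ∈ M) {V₀ : Set (ℂ → X)} (hV₀ : V₀ ∈ 𝓝[M] f₀)
    (h0 : ∀ h ∈ V₀, Mle θ ε f₀ h 0 0) {f : ℂ → X} (hf : f ∈ M) {κ : Type} {F : Filter κ}
    {g h : κ → ℂ → X} (hgM : ∀ᶠ n in F, g n ∈ M) (hhM : ∀ᶠ n in F, h n ∈ M)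
    (hg : Tendsto g F (𝓝 f)) (hh : Tendsto h F (𝓝 f)) :
    ∃ z, NC A f z ∧ NN F g h (fun _ => 0) z := by
  obtain ⟨z₀, i, l, r, ρ, B, V, u, hW, V₁, hV₁, hV₁V, ρ₁, hρ₁, hgr⟩ :=
    fpai_gr_eq hB hM hSm hf₀ hV₀ h0
  obtain ⟨O, hO, hf₀O, hOV⟩ := mem_nhdsWithin.1 hV₁
  obtain ⟨w, hw⟩ := min_visit hM hf hf₀ (mem_nhdsWithin_of_mem_nhds (hO.mem_nhds hf₀O))
  have hfM : tr w f ∈ M := hM.inv f hf w
  have hfV₁ : tr w f ∈ V₁ := hOV ⟨hw, hfM⟩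
  have hgO : ∀ᶠ n in F, tr w (g n) ∈ V₁ := by
    filter_upwards [(fpai_tr_tendsto hg w).eventually (hO.mem_nhds hw), hgM] with n h1 h2
    exact hOV ⟨h1, hM.inv _ h2 w⟩
  have hhO : ∀ᶠ n in F, tr w (h n) ∈ V₁ := by
    filter_upwards [(fpai_tr_tendsto hh w).eventually (hO.mem_nhds hw), hhM] with n h1 h2
    exact hOV ⟨h1, hM.inv _ h2 w⟩
  set x₀ : ℂ := l (A.loc i f₀ z₀) with hx₀
  have hx₀m : x₀ ∈ ball x₀ ρ := mem_ball_self hW.ρ_pos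
  have hz₁ : u (tr w f) x₀ ∈ ball z₀ r := hW.mem _ (hV₁V hfV₁) x₀ hx₀m
  have hlz₁ : l (A.loc i (tr w f) (u (tr w f) x₀)) = x₀ := hW.eq _ (hV₁V hfV₁) x₀ hx₀m
  have hN : NN F (fun n => tr w (g n)) (fun n => tr w (h n)) (fun _ => 0) (u (tr w f) x₀) := by
    refine nn_of_gr hB hM hf₀ hW (hV₁V hfV₁) (hgO.mono fun n hn => hV₁V hn)
      (hhO.mono fun n hn => hV₁V hn) (fpai_tr_tendsto hg w) (fpai_tr_tendsto hh w)
      (fun _ => le_rfl) hz₁ (by rw [hlz₁]; exact hx₀m) (ρ' := ρ₁) (B' := 0) hρ₁ ?_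
    filter_upwards [hgO, hhO] with n h1 h2 x hx
    rw [hlz₁] at hx
    rw [hgr _ h1 x hx, hgr _ h2 x hx, sub_self, norm_zero, mul_zero]
  exact ⟨u (tr w f) x₀ + w, fpai_nc_tr (fpai_nc_win hB hM hW (hV₁V hfV₁) hx₀m), fpai_nn_tr hN⟩

end fin

end Pool.Agent.MBS

namespace Pool.Agent.MBS
alias nn_zero := nn_zero_pr
end Pool.Agent.MBS
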