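import Pool.Agent.Lib_helper58.MBS.Base
import Pool.Agent.Lib_helper58.MBS.L.AMI
import Pool.Agent.Lib_helper58.MBS.L.BCHT
import Pool.Agent.Lib_helper58.MBS.L.BNC
import Pool.Agent.Lib_helper58.MBS.L.DPRP
import Pool.Agent.Lib_helper58.MBS.L.FGER
import Pool.Agent.Lib_helper58.MBS.L.FPAI

/-! # Minimal Brody sets: block FSTA -/

set_option autoImplicit false
set_option linter.unusedSectionVars false
set_option linter.unusedVariables false

open Filter Topology Metric Set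
open scoped Manifold ContDiff

namespace Pool.Agent.MBS

open Pool.Agent.BR

section fin

variable {E X : Type} [NormedAddCommGroup E] [NormedSpace ℂ E] [FiniteDimensional ℂ E]
  [MetricSpace X] [CompactSpace X] {A : Cha E X} {C lam L : ℝ} {M : Set (ℂ → X)} {k : ℕ}

/-- a linear coordinate which is not constant along the curve -/
theorem fsta_form {f : ℂ → X} (hf : ∀ z, A.HolAt f z) (hne : ∃ z z', f z ≠ f z') {i : A.ι}
    (hi : f 0 ∈ (A.ch i).source) :
    ∃ l : E →L[ℂ] ℂ, ∀ᶠ w in 𝓝[≠] (0 : ℂ), l (A.loc i f w) ≠ l (A.loc i f 0) := by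
  obtain ⟨s, hs⟩ := van_finite hf hne 0
  rw [van_iff (Eventually.of_forall hf) i hi] at hs
  push Not at hs
  obtain ⟨q, hq1, hq2, hq3⟩ := hs
  obtain ⟨l, hl⟩ := SeparatingDual.exists_ne_zero (R := ℂ) hq3
  refine ⟨l, ?_⟩
  have han : AnalyticAt ℂ (A.loc i f) 0 := (hf 0).2 i hi
  have hφ : AnalyticAt ℂ (fun w => l (A.loc i f w)) 0 :=
    AnalyticAt.comp (g := l) (f := A.loc i f) (l.analyticAt _) han
  rcases hφ.eventually_eq_or_eventually_ne (g := fun _ => l (A.loc i f 0)) analyticAt_const with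
    h | h
  · exfalso
    have h1 : iteratedDeriv q (fun w => l (A.loc i f w)) 0 = 0 := by
      rw [Filter.EventuallyEq.iteratedDeriv_eq q h]
      rw [iteratedDeriv_const]
      simp only [show q ≠ 0 by omega, if_false]
    have h2 : iteratedDeriv q (fun w => l (A.loc i f w)) 0 = l (iteratedDeriv q (A.loc i f) 0) := by
      have h3 : ContDiffAt ℂ q (A.loc i f) 0 := han.contDiffAt
      have h4 := l.iteratedFDeriv_comp_left h3 (le_refl _)
      rw [iteratedDeriv_eq_iteratedFDeriv, iteratedDeriv_eq_iteratedFDeriv]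
      have h5 : (fun w => l (A.loc i f w)) = l ∘ (A.loc i f) := rfl
      rw [h5, h4]
      rfl
    exact hl (h2 ▸ h1)
  · exact h

/-- FSTA: for members near `f`, the value of one is a value of the other -/
theorem star_pr (hE : Module.finrank ℂ E = 2) (hB : BLip A lam L) (hM : Min A C M)
    (hR : Regular A k M) {θ ε : ℝ} (hSm : SmpC M θ ε) {f₀ : ℂ → X} (hf₀ : f₀ ∈ M)
    {V₀ : Set (ℂ → X)} (hV₀ : V₀ ∈ 𝓝[M] f₀) (h0 : ∀ h ∈ V₀, Mle θ ε f₀ h 0 0) {f : ℂ → X}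
    (hf : f ∈ M) : ∃ V ∈ 𝓝[M] f, ∀ g ∈ V, ∀ h ∈ V, ∃ u, ‖u‖ ≤ 1 ∧ g 0 = h u := by
  suffices H : ∀ᶠ p in 𝓝[M] f ×ˢ 𝓝[M] f, ∃ u, ‖u‖ ≤ 1 ∧ p.1 0 = p.2 u by
    obtain ⟨V, hV, h1⟩ := Filter.mem_prod_same_iff.1 H
    exact ⟨V, hV, fun g hg h hh => h1 (mk_mem_prod hg hh)⟩
  obtain ⟨F, hF⟩ : ∃ F, F = 𝓝[M] f ×ˢ 𝓝[M] f := ⟨_, rfl⟩
  rw [← hF]
  have hfB := hM.sub hf
  have hg : Tendsto Prod.fst F (𝓝 f) := by
    rw [hF]; exact tendsto_fst.mono_right nhdsWithin_le_nhds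
  have hh : Tendsto Prod.snd F (𝓝 f) := by
    rw [hF]; exact tendsto_snd.mono_right nhdsWithin_le_nhds
  have hgM : ∀ᶠ p in F, p.1 ∈ M := by
    rw [hF]; exact tendsto_fst.eventually eventually_mem_nhdsWithin
  have hhM : ∀ᶠ p in F, p.2 ∈ M := by
    rw [hF]; exact tendsto_snd.eventually eventually_mem_nhdsWithin
  obtain ⟨z₁, hz₁, hN₁⟩ := nn_zero hE hB hM hSm hf₀ hV₀ h0 hf hgM hhM hg hh
  have hN : ∀ z, NC A f z → NN F Prod.fst Prod.snd (fun _ => 0) z := fun z hz =>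
    prop hE hB hM hR hf hgM hhM hg hh (fun _ => le_rfl) hz₁ hz hN₁
  by_cases hnc : NC A f 0
  · filter_upwards [nn_zero_germ hE hB hM hf hgM hhM hg hh hnc (hN 0 hnc) 1 one_pos] with p hp
    obtain ⟨t, _, ht1, ht2⟩ := hp
    exact ⟨t 0, by simpa using ht1, ht2.self_of_nhds⟩
  · obtain ⟨i, hi⟩ := A.cover (f 0)
    have hsrc : f 0 ∈ (A.ch i).source := A.W_sub i (subset_closure hi)
    obtain ⟨l, hl⟩ := fsta_form hfB.1 (hM.nc f hf) hsrc
    have hgB : ∀ᶠ p in F, p.1 ∈ BF A C := hgM.mono fun p hp => hM.sub hp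
    have hhB : ∀ᶠ p in F, p.2 ∈ BF A C := hhM.mono fun p hp => hM.sub hp
    obtain ⟨rg, hrg, hg1, hg2, hg3⟩ := bf_chart hgB hfB hg 0 i hsrc
    obtain ⟨rh, hrh, hh1, hh2, hh3⟩ := bf_chart hhB hfB hh 0 i hsrc
    obtain ⟨φ, hφ⟩ : ∃ φ : ℂ → ℂ, φ = fun w => l (A.loc i f w) := ⟨_, rfl⟩
    obtain ⟨δ, hδ, hl1⟩ := Metric.mem_nhdsWithin_iff.1 hl
    obtain ⟨R₀, hR₀⟩ : ∃ R₀, R₀ = min (min rg rh) (min δ 1) := ⟨_, rfl⟩
    have hR₀0 : 0 < R₀ := by rw [hR₀]; exact lt_min (lt_min hrg hrh) (lt_min hδ one_pos)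
    have hR₀g : R₀ ≤ rg := by rw [hR₀]; exact (min_le_left _ _).trans (min_le_left _ _)
    have hR₀h : R₀ ≤ rh := by rw [hR₀]; exact (min_le_left _ _).trans (min_le_right _ _)
    have hR₀δ : R₀ ≤ δ := by rw [hR₀]; exact (min_le_right _ _).trans (min_le_left _ _)
    have hR₀1 : R₀ ≤ 1 := by rw [hR₀]; exact (min_le_right _ _).trans (min_le_right _ _)
    have hφan : ∀ z ∈ ball (0 : ℂ) R₀, AnalyticAt ℂ φ z := by
      intro z hz
      rw [hφ]
      exact AnalyticAt.comp (g := l) (f := A.loc i f) (l.analyticAt _)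
        (hg1 z (ball_subset_ball hR₀g hz)).2
    obtain ⟨r, hr⟩ : ∃ r, r = R₀ / 2 := ⟨_, rfl⟩
    have hr0 : 0 < r := by rw [hr]; positivity
    -- the minimum on the circle
    obtain ⟨c, hc, hc1⟩ : ∃ c > 0, ∀ w : ℂ, ‖w‖ = r → c ≤ ‖φ w - φ 0‖ := by
      have hcont : ContinuousOn (fun w => ‖φ w - φ 0‖) (sphere (0 : ℂ) r) := by
        apply ContinuousOn.norm
        apply ContinuousOn.sub _ continuousOn_const
        intro w hw
        apply (hφan w _).continuousAt.continuousWithinAt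
        rw [mem_ball_zero_iff, mem_sphere_zero_iff_norm.1 hw, hr]
        linarith
      obtain ⟨w₀, hw₀, hmin⟩ := (isCompact_sphere (0 : ℂ) r).exists_isMinOn
        (NormedSpace.sphere_nonempty.2 hr0.le) hcont
      refine ⟨‖φ w₀ - φ 0‖, ?_, fun w hw => hmin (mem_sphere_zero_iff_norm.2 hw)⟩
      rw [gt_iff_lt, norm_pos_iff, sub_ne_zero, hφ]
      have hw₀' : ‖w₀‖ = r := mem_sphere_zero_iff_norm.1 hw₀
      apply hl1
      refine ⟨?_, ?_⟩
      · rw [mem_ball_zero_iff, hw₀', hr]; linarith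
      · intro h
        rw [mem_singleton_iff] at h
        rw [h, norm_zero] at hw₀'
        linarith
    obtain ⟨r₂, hr₂, hr₂r, hr₂c⟩ : ∃ r₂ > 0, r₂ ≤ r ∧ ∀ w ∈ ball (0 : ℂ) r₂,
        ‖φ w - φ 0‖ < c / 4 := by
      have h1 := (hφan 0 (mem_ball_self hR₀0)).continuousAt
      obtain ⟨d, hd, h2⟩ := Metric.continuousAt_iff.1 h1 (c / 4) (by positivity)
      refine ⟨min d r, lt_min hd hr0, min_le_right _ _, fun w hw => ?_⟩
      have := h2 (show dist w 0 < d from (mem_ball.1 hw).trans_le (min_le_left _ _))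
      rwa [dist_eq_norm] at this
    -- a noncritical point
    obtain ⟨w₁, hw₁, hw₁nc⟩ : ∃ w₁ ∈ ball (0 : ℂ) r₂, NC A f w₁ := by
      have h1 := (crit_countable hfB.1 (hM.nc f hf)).2
      have h2 := h1.dense_compl ℝ
      obtain ⟨w, hw, hw'⟩ := h2.exists_mem_open isOpen_ball ⟨0, mem_ball_self hr₂⟩
      refine ⟨w, hw', ?_⟩
      by_contra h3
      exact hw h3
    have hw₁r : ‖w₁‖ < r := (mem_ball_zero_iff.1 hw₁).trans_le hr₂r
    have hgerm := nn_zero_germ hE hB hM hf hgM hhM hg hh hw₁nc (hN w₁ hw₁nc) ((r - ‖w₁‖) / 2)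
      (by linarith)
    obtain ⟨η, hη⟩ : ∃ η, η = c / (16 * (‖l‖ + 1)) := ⟨_, rfl⟩
    have hη0 : 0 < η := by rw [hη]; positivity
    have hηc : ‖l‖ * η ≤ c / 16 := by
      rw [hη]
      rw [mul_div_assoc', div_le_div_iff₀ (by positivity) (by norm_num)]
      nlinarith [norm_nonneg l]
    have hg4 := Metric.tendstoUniformlyOn_iff.1 hg3 η hη0
    have hh4 := Metric.tendstoUniformlyOn_iff.1 hh3 η hη0
    filter_upwards [hg2, hh2, hg4, hh4, hgerm] with p a1 a2 a3 a4 a5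
    obtain ⟨t, ht1, ht2, ht3⟩ := a5
    have key := match_img l (φ := φ) (r' := 3 * R₀ / 4) (r := r) (r₂ := r₂) (c := c) hr0
      (by rw [hr]; linarith) (fun z hz => hφan z (ball_subset_ball (by linarith) hz)) hc hc1 hr₂
      hr₂r hr₂c (G := A.loc i p.1) (H := A.loc i p.2)
      (fun z hz => (a1 z (ball_subset_ball (by linarith) hz)).2)
      (fun z hz => (a2 z (ball_subset_ball (by linarith) hz)).2) ?_ ?_ hw₁ ht1 ?_ ?_
    · obtain ⟨u, hu1, hu2⟩ := key
      refine ⟨u, by linarith, ?_⟩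
      apply (A.ch i).injOn (a1 0 (mem_ball_self hrg)).1 (a2 u _).1 hu2
      rw [mem_ball_zero_iff]
      linarith
    · intro z hz
      have hz' : z ∈ ball (0 : ℂ) rg := ball_subset_ball (by linarith) hz
      have b1 := a3 z hz'
      rw [hφ]
      simp only
      rw [← map_sub]
      rw [dist_comm, dist_eq_norm] at b1
      exact ((l.le_opNorm _).trans (mul_le_mul_of_nonneg_left b1.le (norm_nonneg _))).trans hηc
    · intro z hz
      have hz' : z ∈ ball (0 : ℂ) rh := ball_subset_ball (by linarith) hz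
      have b1 := a4 z hz'
      rw [hφ]
      simp only
      rw [← map_sub]
      rw [dist_comm, dist_eq_norm] at b1
      exact ((l.le_opNorm _).trans (mul_le_mul_of_nonneg_left b1.le (norm_nonneg _))).trans hηc
    · calc ‖t w₁‖ = ‖(t w₁ - w₁) + w₁‖ := by rw [sub_add_cancel]
        _ ≤ ‖t w₁ - w₁‖ + ‖w₁‖ := norm_add_le _ _
        _ < r := by linarith
    · filter_upwards [ht3] with w hw
      simp only [Cha.loc]
      rw [hw]


end fin

end Pool.Agent.MBS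

namespace Pool.Agent.MBS
alias star := star_pr
end Pool.Agent.MBS
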