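import Pool.Agent.Lib_helper58.MBS.Base
import Pool.Agent.Lib_helper82.BR.Final
import Pool.Agent.Lib_helper58.MBS.L.BCMP
import Pool.Agent.Lib_helper58.MBS.L.BMIN
import Pool.Agent.Lib_helper58.MBS.L.BSEQ
import Pool.Agent.Lib_helper58.MBS.L.BSMC
import Pool.Agent.Lib_helper58.MBS.L.CASM
import Pool.Agent.Lib_helper58.MBS.L.CPIM
import Pool.Agent.Lib_helper58.MBS.L.ECLA
import Pool.Agent.Lib_helper58.MBS.L.FBLI
import Pool.Agent.Lib_helper58.MBS.L.FCOV
import Pool.Agent.Lib_helper58.MBS.L.FJDI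
import Pool.Agent.Lib_helper58.MBS.L.FLAT
import Pool.Agent.Lib_helper58.MBS.L.FMET
import Pool.Agent.Lib_helper58.MBS.L.FSTA

/-! # Minimal Brody sets: assembly in the charts -/

set_option autoImplicit false
set_option linter.unusedSectionVars false
set_option linter.unusedVariables false

open Filter Topology Metric Set
open scoped Manifold ContDiff

namespace Pool.Agent.MBS

open Pool.Agent.BR

section fin

variable {E X : Type} [NormedAddCommGroup E] [NormedSpace ℂ E] [FiniteDimensional ℂ E]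
  [MetricSpace X] [CompactSpace X] {A : Cha E X} {C lam L : ℝ} {M : Set (ℂ → X)} {k : ℕ}

theorem top_chart_pr (hE : Module.finrank ℂ E = 2) (hB : BLip A lam L) {N k' : ℕ}
    (F : A.Frm N k') (hk' : 0 < k') {m : ℕ} {P : (ℂ → X) → ℂ}
    {Q : A.ι → (Fin (k + 1) → E) → ℂ} (hJ : JD A k m P Q) {f : ℂ → X} (hf : f ∈ BF A C)
    (hnc : ∀ g ∈ closure (range fun w => tr w f), ∃ z z', g z ≠ g z') :
    ∃ g ∈ closure (range fun w => tr w f), ∃ R : ℝ, range g = g '' closedBall 0 R := by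
  by_cases hP : P f = 0
  · obtain ⟨M, hM, hsub⟩ := exists_min hf hnc
    have hPM : ∀ g ∈ M, P g = 0 := fun g hg => jd_zero hJ hf hP (hsub hg)
    have hR := regular hE hM hJ hPM
    obtain ⟨θ, ε, hS⟩ := exists_smp hB hM
    obtain ⟨f₀, hf₀, V₀, hV₀, h0⟩ := exists_U0 hE hB hM hR F hS
    obtain ⟨g, hg⟩ := hM.ne
    obtain ⟨R, hR'⟩ := one_disc hM (fun f' hf' => star hE hB hM hR hS hf₀ hV₀ h0 hf') hg
    exact ⟨g, hsub hg, R, hR'⟩
  · obtain ⟨c, hc, C', hC', h⟩ := jd_immersed hJ hf hP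
    obtain ⟨R, hR⟩ := periodic_compact (kk_periodic F hk' hc hC' h)
    refine ⟨f, subset_closure ⟨0, ?_⟩, R, hR⟩
    funext z
    simp [tr]


end fin

section metric

variable {E X : Type} [NormedAddCommGroup E] [NormedSpace ℂ E] [FiniteDimensional ℂ E]

theorem fmai_metric [MetricSpace X] [CompactSpace X] [ConnectedSpace X]
    [ChartedSpace E X] [IsManifold 𝓘(ℂ, E) ω X] (hL : LocLip E (X := X))
    (hX : BrodyRigid.CanonicalAmple E X)
    (hJ : MinBrody.HasInvariantJetDifferential E X) (f : ℂ → X)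
    (hf : BrodyRigid.IsBrodyCurve (E := E) f) (hnc : MinBrody.UniformlyNonconstant f) :
    ∃ g : ℂ → X, MinBrody.IsTranslateLimit f g ∧ BrodyRigid.IsBrodyCurve (E := E) g ∧
      (∃ z z', g z ≠ g z') ∧ MinBrody.HasCompactImage g := by
  obtain ⟨A, hA⟩ := exists_cha (E := E) (X := X)
  have hX' := BrodyRigid.canonicalAmple_iff.1 hX
  obtain ⟨N, k', hk', ⟨F⟩⟩ := exists_frm A hA (planeAmple_of_canonicalAmple hX')
  obtain ⟨lam, L, hB⟩ := exists_blip hL A hA
  obtain ⟨k, m, P, Q, hJ'⟩ := exists_jd A hA hJ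
  obtain ⟨C, hC⟩ := brody_bound A hA f ((BrodyRigid.isBrodyCurve_iff f).1 hf)
  have hfB : f ∈ BF A C := ⟨(holAt_iff A hA f).1 hf.1, hC⟩
  have hlim : ∀ g ∈ closure (range fun w => tr w f), MinBrody.IsTranslateLimit f g :=
    fun g hg => orbit_seq hfB hg
  obtain ⟨g, hg, R, hR⟩ := top_chart_pr hX.1 hB F hk' hJ' hfB (fun g hg => hnc g (hlim g hg))
  have hgB : g ∈ BF A C := by
    have h1 : closure (range fun w => tr w f) ⊆ BF A C :=
      closure_minimal (by rintro _ ⟨w, rfl⟩; exact bf_tr hfB w) (bf_closed A C)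
    exact h1 hg
  exact ⟨g, hlim g hg, (BrodyRigid.isBrodyCurve_iff g).2 (brody_of_bound A hA g hgB.1 C hgB.2),
    hnc g (hlim g hg), R, hR⟩

theorem main_thm_pr [t : TopologicalSpace X] [CompactSpace X] [T2Space X] [ConnectedSpace X]
    [ChartedSpace E X] [IsManifold 𝓘(ℂ, E) ω X] (hX : BrodyRigid.CanonicalAmple E X)
    (hJ : MinBrody.HasInvariantJetDifferential E X) (f : ℂ → X)
    (hf : BrodyRigid.IsBrodyCurve (E := E) f) (hnc : MinBrody.UniformlyNonconstant f) :
    ∃ g : ℂ → X, MinBrody.IsTranslateLimit f g ∧ BrodyRigid.IsBrodyCurve (E := E) g ∧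
      (∃ z z', g z ≠ g z') ∧ MinBrody.HasCompactImage g := by
  obtain ⟨m, hm, hL⟩ := exists_metric (E := E) (X := X)
  subst hm
  exact fmai_metric hL hX hJ f hf hnc


end metric

end Pool.Agent.MBS

namespace Pool.Agent.MBS
alias top_chart := top_chart_pr
alias main_thm := main_thm_pr
end Pool.Agent.MBS
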